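import Mathlib
import Pool.Agent.Lib.MP_7ab245_nt.Dob

/-! The auxiliary polynomial of Dobrowolski's theorem, by the box principle. -/

set_option autoImplicit false

open Polynomial

namespace Pool.Agent.Lib.MP_7ab245_nt.Mono

lemma prod_le_of_le (G : ℂ[X]) (E : ℕ) (δ : ℝ) (hδ : 0 ≤ δ) (s : Multiset ℂ)
    (h : ∀ a ∈ s, ‖G.eval a‖ ≤ δ * (max 1 ‖a‖) ^ E) :
    ‖(s.map (fun x => G.eval x)).prod‖ ≤ δ ^ s.card * (s.map (fun a => max 1 ‖a‖)).prod ^ E := by
  induction s using Multiset.induction_on with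
  | empty => simp
  | cons a s ih =>
    rw [Multiset.map_cons, Multiset.prod_cons, norm_mul, Multiset.card_cons,
      Multiset.map_cons, Multiset.prod_cons, mul_pow, pow_succ']
    have h3 := h a (Multiset.mem_cons_self a s)
    have h4 := ih (fun b hb => h b (Multiset.mem_cons_of_mem hb))
    calc _ ≤ (δ * (max 1 ‖a‖) ^ E) *
          (δ ^ s.card * ((s.map (fun a => max 1 ‖a‖)).prod ^ E)) := by
          apply mul_le_mul h3 h4 (norm_nonneg _)
          positivity
      _ = _ := by ring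

/-- An integer polynomial which is small at all roots of `g` is divisible by `g`. -/
lemma dvd_of_small (g Δ : ℤ[X]) (hg : g.Monic) (hirr : Irreducible g) (E : ℕ)
    (hE : Δ.natDegree ≤ E) (δ : ℝ) (hδ : 0 ≤ δ)
    (h : ∀ a ∈ (g.map (Int.castRingHom ℂ)).roots,
      ‖(Δ.map (Int.castRingHom ℂ)).eval a‖ ≤ δ * (max 1 ‖a‖) ^ E)
    (hM : δ ^ g.natDegree * MM g ^ E < 1) : g ∣ Δ := by
  by_contra hΔ
  set φ := Int.castRingHom ℂ with hφ
  have hinj : Function.Injective φ := φ.injective_int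
  have hdeg : (g.map φ).natDegree = g.natDegree := natDegree_map_eq_of_injective hinj g
  have hΔdeg : (Δ.map φ).natDegree ≤ E := by
    rwa [natDegree_map_eq_of_injective hinj]
  have hs : (g.map φ).Splits := IsAlgClosed.splits _
  have key := resultant_eq_prod_eval (g.map φ) (Δ.map φ) E hΔdeg hs
  rw [hdeg, resultant_map_map] at key
  have hlc : (g.map φ).leadingCoeff = 1 := (hg.map φ)
  have hcard : (g.map φ).roots.card = g.natDegree := by
    rw [← hdeg]; exact (splits_iff_card_roots.mp hs)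
  have hprod := prod_le_of_le (Δ.map φ) E δ hδ (g.map φ).roots h
  have hMM : MM g = ‖(g.map φ).leadingCoeff‖ * ((g.map φ).roots.map (fun a => max 1 ‖a‖)).prod :=
    mahlerMeasure_eq_leadingCoeff_mul_prod_roots _
  rw [hlc, norm_one, one_mul] at hMM
  rw [hlc, one_pow, one_mul] at key
  have h1 : |((resultant g Δ g.natDegree E : ℤ) : ℝ)| = ‖φ (resultant g Δ g.natDegree E)‖ := by
    simp [hφ]
  have h2 := resultant_ne_zero' g Δ hg hirr hΔ E hE
  have h3 : (1 : ℝ) ≤ |((resultant g Δ g.natDegree E : ℤ) : ℝ)| := by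
    have : (1 : ℤ) ≤ |resultant g Δ g.natDegree E| := Int.one_le_abs h2
    have h4 : ((1 : ℤ) : ℝ) ≤ ((|resultant g Δ g.natDegree E| : ℤ) : ℝ) := by exact_mod_cast this
    push_cast at h4
    exact h4
  rw [h1, key] at h3
  rw [hcard, ← hMM] at hprod
  linarith

lemma hasseDeriv_map' {R S : Type*} [CommRing R] [CommRing S] (φ : R →+* S) (P : R[X]) (r : ℕ) :
    (hasseDeriv r P).map φ = hasseDeriv r (P.map φ) := by
  ext n
  rw [coeff_map, hasseDeriv_coeff, hasseDeriv_coeff, coeff_map, map_mul, map_natCast]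

/-- If `f` divides the first `T` Hasse derivatives then `f ^ T` divides. -/
lemma pow_dvd_of_hasse (f : ℤ[X]) (hf : f.Monic) (hirr : Irreducible f) (T : ℕ) (D : ℤ[X])
    (h : ∀ r < T, f ∣ hasseDeriv r D) : f ^ T ∣ D := by
  classical
  set φ := Int.castRingHom ℂ with hφ
  have hinj : Function.Injective φ := φ.injective_int
  have hfQirr : Irreducible (f.map (Int.castRingHom ℚ)) :=
    (hf.irreducible_iff_irreducible_map_fraction_map (K := ℚ)).mp hirr
  have hsep : (f.map φ).Separable := by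
    have h1 := hfQirr.separable
    have h2 : f.map φ = (f.map (Int.castRingHom ℚ)).map (algebraMap ℚ ℂ) := by
      rw [Polynomial.map_map]
      congr 1
    rw [h2]
    exact h1.map
  have hspl : (f.map φ).Splits := IsAlgClosed.splits _
  have hfm : (f.map φ).Monic := hf.map φ
  have hnodup : (f.map φ).roots.Nodup := nodup_roots hsep
  have hprod : f.map φ = ∏ a ∈ (f.map φ).roots.toFinset, (X - C a) := by
    conv_lhs => rw [hspl.eq_prod_roots_of_monic hfm]
    rw [Finset.prod_multiset_map_count]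
    refine Finset.prod_congr rfl fun a ha => ?_
    rw [Multiset.count_eq_one_of_mem hnodup (Multiset.mem_toFinset.mp ha), pow_one]
  have hdvd : (f.map φ) ^ T ∣ D.map φ := by
    rw [hprod, ← Finset.prod_pow]
    apply Finset.prod_dvd_of_coprime
    · intro a _ b _ hab
      apply IsCoprime.pow
      exact pairwise_coprime_X_sub_C Function.injective_id hab
    · intro a ha
      rw [X_sub_C_pow_dvd_iff, X_pow_dvd_iff]
      intro d hd
      rw [← taylor_apply, taylor_coeff, ← hasseDeriv_map']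
      obtain ⟨c, hc⟩ := h d hd
      rw [hc, Polynomial.map_mul, eval_mul]
      have : (f.map φ).eval a = 0 := (mem_roots'.mp (Multiset.mem_toFinset.mp ha)).2
      rw [this, zero_mul]
  rw [← Polynomial.map_pow] at hdvd
  exact (map_dvd_map φ hinj (hf.pow T)).mp hdvd

/-- bound for the values of the Hasse derivatives -/
lemma l1_hasse_le (P : ℤ[X]) (N T r : ℕ) (hr : r < T) (hN : 1 ≤ N)
    (hdeg : ∀ i, N ≤ i → P.coeff i = 0) (hc : ∀ i, |(P.coeff i : ℝ)| ≤ N) :
    l1 (hasseDeriv r P) ≤ (N : ℝ) ^ (T + 1) := by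
  have hNR : (1 : ℝ) ≤ N := by exact_mod_cast hN
  have hsub : (hasseDeriv r P).support ⊆ Finset.range N := by
    intro i hi
    rw [Finset.mem_range]
    by_contra hle
    push Not at hle
    rw [mem_support_iff, hasseDeriv_coeff, hdeg (i + r) (by omega), mul_zero] at hi
    exact hi rfl
  have hco : ∀ i ∈ (hasseDeriv r P).support, |((hasseDeriv r P).coeff i : ℝ)| ≤ (N : ℝ) ^ T := by
    intro i hi
    have hiN : i + r < N := by
      by_contra hle
      push Not at hle
      rw [mem_support_iff, hasseDeriv_coeff, hdeg (i + r) hle, mul_zero] at hi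
      exact hi rfl
    rw [hasseDeriv_coeff]
    push_cast
    rw [abs_mul]
    have h1 : |(((i + r).choose r : ℕ) : ℝ)| ≤ (N : ℝ) ^ r := by
      rw [Nat.abs_cast]
      have h2 : (i + r).choose r ≤ N ^ r :=
        (Nat.choose_le_pow (i + r) r).trans (Nat.pow_le_pow_left hiN.le r)
      exact_mod_cast h2
    calc |(((i + r).choose r : ℕ) : ℝ)| * |((P.coeff (i + r) : ℤ) : ℝ)| ≤ (N : ℝ) ^ r * N := by
          apply mul_le_mul h1 (hc _) (abs_nonneg _) (by positivity)
      _ = (N : ℝ) ^ (r + 1) := by rw [pow_succ]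
      _ ≤ _ := pow_le_pow_right₀ hNR hr
  unfold l1
  calc ∑ i ∈ (hasseDeriv r P).support, |((hasseDeriv r P).coeff i : ℝ)|
      ≤ (hasseDeriv r P).support.card • (N : ℝ) ^ T := Finset.sum_le_card_nsmul _ _ _ hco
    _ = (hasseDeriv r P).support.card * (N : ℝ) ^ T := by rw [nsmul_eq_mul]
    _ ≤ N * (N : ℝ) ^ T := by
        gcongr
        have := Finset.card_le_card hsub
        rwa [Finset.card_range] at this
    _ = _ := by rw [pow_succ]; ring

/-- the auxiliary polynomial -/
theorem exists_aux_poly (f : ℤ[X]) (hf : f.Monic) (hirr : Irreducible f) (T N : ℕ) (hT : 1 ≤ T)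
    (hN : N = 2 * f.natDegree * (T * (T + 4))) (hM : MM f ^ N ≤ (N : ℝ) ^ f.natDegree) :
    ∃ D : ℤ[X], D ≠ 0 ∧ D.natDegree < N ∧ (∀ i, |(D.coeff i : ℝ)| ≤ N) ∧ f ^ T ∣ D := by
  classical
  set φ := Int.castRingHom ℂ with hφ
  have hn0 : f.natDegree ≠ 0 := by
    intro h
    have := hf.natDegree_eq_zero.mp h
    rw [this] at hirr
    exact not_irreducible_one hirr
  have hN10 : 10 ≤ N := by
    have h1 : 5 ≤ T * (T + 4) := by nlinarith
    have h2 : 1 ≤ f.natDegree := by omega
    rw [hN]; nlinarith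
  have hNR : (10 : ℝ) ≤ N := by exact_mod_cast hN10
  have hNpos : (0 : ℝ) < N := by linarith
  let ι := {z : ℂ // z ∈ (f.map φ).roots.toFinset}
  let P : (Fin N → Fin (N + 1)) → ℤ[X] := fun c => ∑ s : Fin N, monomial (s : ℕ) (((c s : ℕ) : ℤ))
  have hcoeff : ∀ (c : Fin N → Fin (N + 1)) (n : ℕ), (P c).coeff n =
      if h : n < N then (((c ⟨n, h⟩ : ℕ)) : ℤ) else 0 := by
    intro c n
    simp only [P, finsetSum_coeff, coeff_monomial]
    split_ifs with h
    · rw [Finset.sum_eq_single ⟨n, h⟩]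
      · simp
      · intro b _ hb
        rw [if_neg]
        intro hbn
        exact hb (Fin.ext hbn)
      · intro h'; exact absurd (Finset.mem_univ _) h'
    · apply Finset.sum_eq_zero
      intro b _
      rw [if_neg]
      intro hb
      exact h (hb ▸ b.2)
  have hPdeg : ∀ c, ∀ i, N ≤ i → (P c).coeff i = 0 := by
    intro c i hi
    rw [hcoeff, dif_neg (by omega)]
  have hPc : ∀ c, ∀ i, |((P c).coeff i : ℝ)| ≤ N := by
    intro c i
    rw [hcoeff]
    split_ifs with h
    · rw [Int.cast_natCast, Nat.abs_cast]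
      have := (c ⟨i, h⟩).2
      exact_mod_cast (by omega : ((c ⟨i, h⟩ : Fin (N + 1)) : ℕ) ≤ N)
    · simp
  -- normalised values
  let v : (Fin N → Fin (N + 1)) → ι → Fin T → ℂ := fun c z r =>
    ((4 * N / (max 1 ‖z.1‖) ^ N : ℝ) : ℂ) * ((hasseDeriv (r : ℕ) (P c)).map φ).eval z.1
  have hv : ∀ c z r, ‖v c z r‖ ≤ 4 * (N : ℝ) ^ (T + 2) := by
    intro c z r
    have hm : (0 : ℝ) < max 1 ‖z.1‖ := lt_of_lt_of_le one_pos (le_max_left _ _)
    have h1 := l1_hasse_le (P c) N T r r.2 (by omega) (hPdeg c) (hPc c)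
    have hdeg : (hasseDeriv (r : ℕ) (P c)).natDegree ≤ N := by
      refine (natDegree_hasseDeriv_le _ _).trans ((Nat.sub_le _ _).trans ?_)
      rw [natDegree_le_iff_coeff_eq_zero]
      intro i hi
      exact hPdeg c i (by omega)
    have h2 := norm_eval_le (hasseDeriv (r : ℕ) (P c)) N hdeg z.1
    simp only [v]
    rw [norm_mul, Complex.norm_real, Real.norm_eq_abs, abs_of_pos (by positivity)]
    calc 4 * (N : ℝ) / max 1 ‖z.1‖ ^ N * ‖eval z.1 (Polynomial.map φ (hasseDeriv (r : ℕ) (P c)))‖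
        ≤ 4 * (N : ℝ) / max 1 ‖z.1‖ ^ N * ((N : ℝ) ^ (T + 1) * max 1 ‖z.1‖ ^ N) := by
          gcongr
          exact h2.trans (by gcongr)
      _ = _ := by field_simp; ring
  -- boxes
  set K : ℤ := ((4 * N ^ (T + 2) : ℕ) : ℤ) with hK
  let β : (Fin N → Fin (N + 1)) → (ι × Fin T × Bool) → ℤ := fun c x =>
    if x.2.2 then ⌊(v c x.1 x.2.1).re⌋ else ⌊(v c x.1 x.2.1).im⌋
  have hβ : ∀ c, β c ∈ Fintype.piFinset (fun _ : ι × Fin T × Bool => Finset.Icc (-K) K) := by
    intro c
    rw [Fintype.mem_piFinset]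
    intro x
    have h1 : ∀ y : ℝ, |y| ≤ 4 * (N : ℝ) ^ (T + 2) → ⌊y⌋ ∈ Finset.Icc (-K) K := by
      intro y hy
      rw [abs_le] at hy
      have hKR : ((K : ℤ) : ℝ) = 4 * (N : ℝ) ^ (T + 2) := by rw [hK]; push_cast; ring
      rw [Finset.mem_Icc]
      constructor
      · rw [Int.le_floor]; push_cast; rw [hKR]; exact hy.1
      · have : (⌊y⌋ : ℝ) ≤ (K : ℝ) := (Int.floor_le y).trans (by rw [hKR]; exact hy.2)
        exact_mod_cast this
    simp only [β]
    split_ifs
    · exact h1 _ ((Complex.abs_re_le_norm _).trans (hv _ _ _))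
    · exact h1 _ ((Complex.abs_im_le_norm _).trans (hv _ _ _))
  have hcardι : Fintype.card ι ≤ f.natDegree := by
    rw [Fintype.card_coe]
    calc _ ≤ (f.map φ).roots.card := Multiset.toFinset_card_le _
      _ ≤ (f.map φ).natDegree := card_roots' _
      _ ≤ _ := natDegree_map_le
  have hcount : (Fintype.piFinset (fun _ : ι × Fin T × Bool => Finset.Icc (-K) K)).card <
      (Finset.univ : Finset (Fin N → Fin (N + 1))).card := by
    rw [Fintype.card_piFinset, Finset.prod_const, Finset.card_univ, Finset.card_univ,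
      Fintype.card_fun, Fintype.card_fin, Fintype.card_fin, Fintype.card_prod, Fintype.card_prod,
      Fintype.card_fin, Fintype.card_bool]
    have h1 : (Finset.Icc (-K) K).card ≤ N ^ (T + 4) := by
      rw [Int.card_Icc, hK]
      have h2 : (((4 * N ^ (T + 2) : ℕ) : ℤ) + 1 - -((4 * N ^ (T + 2) : ℕ) : ℤ)).toNat =
          8 * N ^ (T + 2) + 1 := by omega
      rw [h2]
      have h3 : N ^ (T + 4) = N ^ (T + 2) * (N * N) := by ring
      have h4 : 1 ≤ N ^ (T + 2) := Nat.one_le_pow _ _ (by omega)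
      rw [h3]
      have h5 : 9 ≤ N * N := by nlinarith
      have h6 : N ^ (T + 2) * 9 ≤ N ^ (T + 2) * (N * N) := Nat.mul_le_mul_left _ h5
      omega
    calc (Finset.Icc (-K) K).card ^ (Fintype.card ι * (T * 2))
        ≤ (N ^ (T + 4)) ^ (Fintype.card ι * (T * 2)) := Nat.pow_le_pow_left h1 _
      _ ≤ (N ^ (T + 4)) ^ (f.natDegree * (T * 2)) := by
          apply Nat.pow_le_pow_right (by positivity)
          exact Nat.mul_le_mul_right _ hcardι
      _ = N ^ N := by
          rw [← pow_mul]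
          congr 1
          conv_rhs => rw [hN]
          ring
      _ < (N + 1) ^ N := Nat.pow_lt_pow_left (Nat.lt_succ_self _) (by omega)
  obtain ⟨c, _, c', _, hcc, hβeq⟩ :=
    Finset.exists_ne_map_eq_of_card_lt_of_maps_to hcount (fun c _ => hβ c)
  set Δ := P c - P c' with hΔ
  have hΔc : ∀ i, (Δ.coeff i) = (P c).coeff i - (P c').coeff i := fun i => coeff_sub _ _ _
  have hΔ0 : Δ ≠ 0 := by
    intro h0
    apply hcc
    funext s
    have h1 : Δ.coeff (s : ℕ) = 0 := by rw [h0]; simp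
    rw [hΔc, hcoeff, hcoeff, dif_pos s.2, dif_pos s.2] at h1
    apply Fin.ext
    have : (((c s : ℕ)) : ℤ) = ((c' s : ℕ) : ℤ) := sub_eq_zero.mp h1
    exact_mod_cast this
  refine ⟨Δ, hΔ0, ?_, ?_, ?_⟩
  · by_contra hle
    push Not at hle
    have h1 : Δ.coeff Δ.natDegree ≠ 0 := by
      rw [coeff_natDegree]; exact leadingCoeff_ne_zero.mpr hΔ0
    apply h1
    rw [hΔc, hPdeg c _ hle, hPdeg c' _ hle, sub_zero]
  · intro i
    rw [hΔc]
    rw [hcoeff, hcoeff]
    split_ifs with h
    · have h3 := (c ⟨i, h⟩).2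
      have h4 := (c' ⟨i, h⟩).2
      have h5 : |((c ⟨i, h⟩ : ℕ) : ℤ) - ((c' ⟨i, h⟩ : ℕ) : ℤ)| ≤ (N : ℤ) := by
        rw [abs_le]; constructor <;> omega
      exact_mod_cast h5
    · simp
  · apply pow_dvd_of_hasse f hf hirr T Δ
    intro r hr
    have hdeg : (hasseDeriv r Δ).natDegree ≤ N := by
      refine (natDegree_hasseDeriv_le _ _).trans ((Nat.sub_le _ _).trans ?_)
      rw [natDegree_le_iff_coeff_eq_zero]
      intro i hi
      rw [hΔc, hPdeg c i (by omega), hPdeg c' i (by omega), sub_zero]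
    refine dvd_of_small f _ hf hirr N hdeg (1 / (2 * N)) (by positivity) ?_ ?_
    · intro a ha
      let z : ι := ⟨a, Multiset.mem_toFinset.mpr ha⟩
      have hm : (0 : ℝ) < max 1 ‖a‖ := lt_of_lt_of_le one_pos (le_max_left _ _)
      have hre : |(v c z ⟨r, hr⟩).re - (v c' z ⟨r, hr⟩).re| < 1 := by
        have := congrFun hβeq (z, ⟨r, hr⟩, true)
        simp only [β, if_true] at this
        exact Int.abs_sub_lt_one_of_floor_eq_floor this
      have him : |(v c z ⟨r, hr⟩).im - (v c' z ⟨r, hr⟩).im| < 1 := by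
        have := congrFun hβeq (z, ⟨r, hr⟩, false)
        simp only [β] at this
        exact Int.abs_sub_lt_one_of_floor_eq_floor (by simpa using this)
      have hdiff : v c z ⟨r, hr⟩ - v c' z ⟨r, hr⟩ =
          ((4 * N / (max 1 ‖a‖) ^ N : ℝ) : ℂ) * ((hasseDeriv r Δ).map φ).eval a := by
        simp only [v, hΔ, map_sub, Polynomial.map_sub, eval_sub]
        ring
      have hnorm : ‖v c z ⟨r, hr⟩ - v c' z ⟨r, hr⟩‖ ≤ 2 := by
        refine (Complex.norm_le_abs_re_add_abs_im _).trans ?_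
        rw [Complex.sub_re, Complex.sub_im]
        linarith
      rw [hdiff, norm_mul, Complex.norm_real, Real.norm_eq_abs, abs_of_pos (by positivity)] at hnorm
      have h5 : ‖eval a (Polynomial.map φ (hasseDeriv r Δ))‖ ≤
          2 / (4 * N / max 1 ‖a‖ ^ N) := by
        rw [le_div_iff₀ (by positivity)]
        linarith
      refine h5.trans (le_of_eq ?_)
      field_simp
      norm_num
    · calc (1 / (2 * (N : ℝ))) ^ f.natDegree * MM f ^ N
          ≤ (1 / (2 * (N : ℝ))) ^ f.natDegree * (N : ℝ) ^ f.natDegree := by gcongr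
        _ = (1 / 2) ^ f.natDegree := by
            rw [← mul_pow]; congr 1; field_simp
        _ < 1 := pow_lt_one₀ (by norm_num) (by norm_num) hn0

end Pool.Agent.Lib.MP_7ab245_nt.Mono
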