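import Mathlib
import Pool.Agent.Lib.MP_7ab245_nt.Dob

/-! Powers of the roots of an irreducible polynomial: for all but logarithmically many primes `p`
the `p`-th powers of the roots are distinct, and for different primes these sets are disjoint. -/

set_option autoImplicit false

open Polynomial

namespace Pool.Agent.Lib.MP_7ab245_nt.Mono

section gal

variable {L : Type*} [Field L] [Algebra ℚ L]

lemma iter_conj (σ : L ≃ₐ[ℚ] L) (a : L) (p q : ℕ) (h : a ^ p = (σ a) ^ q) (r : ℕ) :
    ((σ ^ r) a) ^ (q ^ r) = a ^ (p ^ r) := by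
  induction r with
  | zero => simp
  | succ r ih =>
    calc ((σ ^ (r + 1)) a) ^ (q ^ (r + 1)) = (((σ ^ r) (σ a)) ^ q) ^ (q ^ r) := by
          rw [pow_succ σ, AlgEquiv.mul_apply, ← pow_mul]
          congr 1
          rw [pow_succ, mul_comm]
      _ = (((σ ^ r) ((σ a) ^ q))) ^ (q ^ r) := by rw [map_pow]
      _ = ((σ ^ r) (a ^ p)) ^ (q ^ r) := by rw [h]
      _ = (((σ ^ r) a) ^ (q ^ r)) ^ p := by rw [map_pow, ← pow_mul, ← pow_mul, mul_comm]
      _ = _ := by rw [ih, ← pow_mul, pow_succ]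

lemma pow_ne_conj_pow [FiniteDimensional ℚ L] (σ : L ≃ₐ[ℚ] L) (a : L) (ha : a ≠ 0)
    (hru : ∀ m : ℕ, 0 < m → a ^ m ≠ 1) (p q : ℕ) (hpq : p ≠ q) : a ^ p ≠ (σ a) ^ q := by
  intro h
  have hfin : 0 < orderOf σ := orderOf_pos σ
  have h1 := iter_conj σ a p q h (orderOf σ)
  rw [pow_orderOf_eq_one, AlgEquiv.one_apply] at h1
  have hne : p ^ orderOf σ ≠ q ^ orderOf σ := fun h2 => hpq (Nat.pow_left_injective hfin.ne' h2)
  have key : ∀ u v : ℕ, u < v → a ^ u = a ^ v → False := by
    intro u v huv h2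
    obtain ⟨d, rfl⟩ := Nat.exists_eq_add_of_lt huv
    have h3 : a ^ (u + d + 1) = a ^ u * a ^ (d + 1) := by rw [← pow_add]; ring_nf
    rw [h3] at h2
    have h4 : a ^ u ≠ 0 := pow_ne_zero _ ha
    have h5 : a ^ (d + 1) = 1 := by
      have : a ^ u * a ^ (d + 1) = a ^ u * 1 := by rw [mul_one]; exact h2.symm
      exact mul_left_cancel₀ h4 this
    exact hru _ (Nat.succ_pos d) h5
  rcases lt_or_gt_of_ne hne with h2 | h2
  · exact key _ _ h2 h1.symm
  · exact key _ _ h2 h1

omit [Algebra ℚ L] in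
lemma eq_of_pow_eq_coprime {a b : L} (hb : b ≠ 0) {m n : ℕ} (hmn : Nat.Coprime m n)
    (h1 : a ^ m = b ^ m) (h2 : a ^ n = b ^ n) : a = b := by
  have h3 : (a / b) ^ m = 1 := by
    rw [div_pow, h1, div_self (pow_ne_zero _ hb)]
  have h4 : (a / b) ^ n = 1 := by
    rw [div_pow, h2, div_self (pow_ne_zero _ hb)]
  have h5 : (a / b) ^ (Nat.gcd m n) = 1 := pow_gcd_eq_one.mpr ⟨h3, h4⟩
  rw [Nat.Coprime.gcd_eq_one hmn, pow_one] at h5
  exact (div_eq_one_iff_eq hb).mp h5

omit [Algebra ℚ L] in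
open Classical in
lemma two_pow_le_card_fibre (R : Finset L) (h0 : ∀ a ∈ R, a ≠ 0) (B : Finset ℕ)
    (hp : ∀ p ∈ B, p.Prime) (hdeg : ∀ p ∈ B, ∀ a ∈ R, ∃ b ∈ R, b ≠ a ∧ b ^ p = a ^ p) :
    ∀ a ∈ R, 2 ^ B.card ≤ (R.filter fun b => b ^ (∏ p ∈ B, p) = a ^ (∏ p ∈ B, p)).card := by
  induction B using Finset.induction_on with
  | empty =>
    intro a ha
    simp only [Finset.card_empty, pow_zero, Finset.prod_empty, pow_one]
    exact Finset.card_pos.mpr ⟨a, by simp [ha]⟩
  | insert p B' hpB ih =>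
    intro a ha
    have ih' := ih (fun q hq => hp q (Finset.mem_insert_of_mem hq))
      (fun q hq => hdeg q (Finset.mem_insert_of_mem hq)) a ha
    rw [Finset.card_insert_of_notMem hpB, Finset.prod_insert hpB]
    set P' := ∏ q ∈ B', q with hP'
    have hcop : Nat.Coprime p P' := by
      rw [hP']
      apply Nat.Coprime.prod_right
      intro q hq
      rw [Nat.coprime_primes (hp p (Finset.mem_insert_self _ _))
        (hp q (Finset.mem_insert_of_mem hq))]
      rintro rfl
      exact hpB hq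
    set A := R.filter fun b => b ^ P' = a ^ P' with hA
    let U : L → Finset L := fun c => R.filter fun b => b ^ p = c ^ p
    have hU : ∀ c ∈ A, 2 ≤ (U c).card := by
      intro c hc
      have hcR : c ∈ R := (Finset.mem_filter.mp hc).1
      obtain ⟨b, hb, hbc, hbp⟩ := hdeg p (Finset.mem_insert_self _ _) c hcR
      have : ({b, c} : Finset L) ⊆ U c := by
        intro x hx
        rw [Finset.mem_insert, Finset.mem_singleton] at hx
        rcases hx with rfl | rfl
        · exact Finset.mem_filter.mpr ⟨hb, hbp⟩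
        · exact Finset.mem_filter.mpr ⟨hcR, rfl⟩
      calc 2 = ({b, c} : Finset L).card := (Finset.card_pair hbc).symm
        _ ≤ _ := Finset.card_le_card this
    have hdisj : ∀ c ∈ A, ∀ c' ∈ A, c ≠ c' → Disjoint (U c) (U c') := by
      intro c hc c' hc' hne
      rw [Finset.disjoint_left]
      intro x hx hx'
      apply hne
      have h1 := (Finset.mem_filter.mp hx).2
      have h2 := (Finset.mem_filter.mp hx').2
      have h3 := (Finset.mem_filter.mp hc).2
      have h4 := (Finset.mem_filter.mp hc').2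
      exact eq_of_pow_eq_coprime (h0 _ (Finset.mem_filter.mp hc').1) hcop
        (h1.symm.trans h2) (h3.trans h4.symm)
    have hsub : A.biUnion U ⊆ R.filter fun b => b ^ (p * P') = a ^ (p * P') := by
      intro x hx
      rw [Finset.mem_biUnion] at hx
      obtain ⟨c, hc, hxc⟩ := hx
      have h1 := Finset.mem_filter.mp hxc
      have h3 := (Finset.mem_filter.mp hc).2
      refine Finset.mem_filter.mpr ⟨h1.1, ?_⟩
      rw [pow_mul, h1.2, ← pow_mul, mul_comm, pow_mul, h3, ← pow_mul]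
    calc 2 ^ (B'.card + 1) = 2 ^ B'.card * 2 := pow_succ _ _
      _ ≤ A.card * 2 := Nat.mul_le_mul_right _ ih'
      _ ≤ ∑ c ∈ A, (U c).card := by
          have := Finset.card_nsmul_le_sum A (fun c => (U c).card) 2 hU
          simpa using this
      _ = (A.biUnion U).card := (Finset.card_biUnion hdisj).symm
      _ ≤ _ := Finset.card_le_card hsub

open Classical in
lemma roots_count_aux [FiniteDimensional ℚ L] [Normal ℚ L] (f : ℤ[X]) (hf : f.Monic)
    (hirr : Irreducible f)
    (hspl : ((f.map (Int.castRingHom ℚ)).map (algebraMap ℚ L)).Splits) (hX : ¬ f ∣ X)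
    (hru : ∀ m : ℕ, 0 < m → ¬ f ∣ X ^ m - 1) (D : ℤ[X]) (hD : D ≠ 0) (S : Finset ℕ)
    (hS : ∀ p ∈ S, p.Prime) (hdvd : ∀ p ∈ S, f ∣ expand ℤ p D) :
    f.natDegree * S.card ≤ D.natDegree + f.natDegree * Nat.log 2 f.natDegree := by
  have hchar : CharZero L := algebraRat.charZero L
  set fQ : ℚ[X] := f.map (Int.castRingHom ℚ) with hfQ
  have hfQm : fQ.Monic := hf.map _
  have hfQirr : Irreducible fQ :=
    (hf.irreducible_iff_irreducible_map_fraction_map (K := ℚ)).mp hirr
  set R : Finset L := (fQ.aroots L).toFinset with hR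
  have hmemR : ∀ a : L, a ∈ R ↔ aeval a fQ = 0 := by
    intro a
    rw [hR, Multiset.mem_toFinset, mem_aroots]
    exact ⟨fun h => h.2, fun h => ⟨hfQm.ne_zero, h⟩⟩
  have haevalZ : ∀ (a : L) (P : ℤ[X]), aeval a P = aeval a (P.map (Int.castRingHom ℚ)) := by
    intro a P
    have : (Int.castRingHom ℚ) = algebraMap ℤ ℚ := rfl
    rw [this, aeval_map_algebraMap]
  have hcardR : R.card = f.natDegree := by
    have h1 : (fQ.aroots L).Nodup :=
      (nodup_aroots_iff_of_splits hfQm.ne_zero hspl).mpr hfQirr.separable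
    have h2 : fQ.natDegree = f.natDegree := hf.natDegree_map _
    rw [← h2, hR, Multiset.toFinset_card_of_nodup h1]
    have h3 := splits_iff_card_roots.mp hspl
    rw [natDegree_map] at h3
    exact h3
  have hmin : ∀ a ∈ R, minpoly ℚ a = fQ := by
    intro a ha
    exact (minpoly.eq_of_irreducible_of_monic hfQirr ((hmemR a).mp ha) hfQm).symm
  have hdvdZ : ∀ a ∈ R, ∀ P : ℤ[X], aeval a P = 0 → f ∣ P := by
    intro a ha P hP
    rw [haevalZ] at hP
    have h1 := minpoly.dvd ℚ a hP
    rw [hmin a ha, hfQ] at h1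
    exact (map_dvd_map (Int.castRingHom ℚ) (Int.castRingHom ℚ).injective_int hf).mp h1
  have h0 : ∀ a ∈ R, a ≠ 0 := by
    rintro a ha rfl
    exact hX (hdvdZ 0 ha X (by simp))
  have hru' : ∀ a ∈ R, ∀ m : ℕ, 0 < m → a ^ m ≠ 1 := by
    intro a ha m hm h1
    exact hru m hm (hdvdZ a ha _ (by simp [h1]))
  have htrans : ∀ a ∈ R, ∀ b ∈ R, ∃ σ : L ≃ₐ[ℚ] L, σ a = b := by
    intro a ha b hb
    exact minpoly.exists_algEquiv_of_root (K := ℚ) (x := a) (y := b)
      (Algebra.IsAlgebraic.isAlgebraic b) (by rw [hmin b hb]; exact (hmemR a).mp ha)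
  have hσR : ∀ (σ : L ≃ₐ[ℚ] L), ∀ a ∈ R, σ a ∈ R := by
    intro σ a ha
    rw [hmemR] at ha ⊢
    rw [aeval_algHom_apply, ha, map_zero]
  -- degenerate primes
  set B := S.filter fun p => ∃ a ∈ R, ∃ b ∈ R, b ≠ a ∧ b ^ p = a ^ p with hB
  have hn0 : f.natDegree ≠ 0 := by
    intro h
    have := hf.natDegree_eq_zero.mp h
    rw [this] at hirr
    exact not_irreducible_one hirr
  have hRne : R.Nonempty := Finset.card_pos.mp (by rw [hcardR]; omega)
  have hBcard : B.card ≤ Nat.log 2 f.natDegree := by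
    obtain ⟨a, ha⟩ := hRne
    have h1 := two_pow_le_card_fibre R h0 B (fun p hp => hS p (Finset.mem_filter.mp hp).1)
      (by
        intro p hp c hc
        obtain ⟨a', ha', b', hb', hne, heq⟩ := (Finset.mem_filter.mp hp).2
        obtain ⟨σ, hσ⟩ := htrans a' ha' c hc
        refine ⟨σ b', hσR σ b' hb', ?_, ?_⟩
        · rw [← hσ]; exact fun h => hne (σ.injective h)
        · rw [← hσ, ← map_pow, ← map_pow, heq]) a ha
    have h2 : 2 ^ B.card ≤ f.natDegree := by
      rw [← hcardR]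
      exact h1.trans (Finset.card_filter_le _ _)
    exact Nat.le_log_of_pow_le (by norm_num) h2
  -- the images
  let U : ℕ → Finset L := fun p => R.image (fun a => a ^ p)
  have hdisj : ∀ p ∈ S, ∀ q ∈ S, p ≠ q → Disjoint (U p) (U q) := by
    intro p _ q _ hpq
    rw [Finset.disjoint_left]
    intro x hx hx'
    obtain ⟨a, ha, rfl⟩ := Finset.mem_image.mp hx
    obtain ⟨b, hb, hab⟩ := Finset.mem_image.mp hx'
    obtain ⟨σ, hσ⟩ := htrans a ha b hb
    rw [← hσ] at hab
    exact pow_ne_conj_pow σ a (h0 a ha) (hru' a ha) p q hpq hab.symm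
  have hUcard : ∀ p ∈ S \ B, f.natDegree ≤ (U p).card := by
    intro p hp
    rw [Finset.mem_sdiff] at hp
    have hinj : Set.InjOn (fun a : L => a ^ p) (R : Set L) := by
      intro a ha b hb hab
      by_contra hne
      apply hp.2
      exact Finset.mem_filter.mpr ⟨hp.1, b, hb, a, ha, hne, hab⟩
    rw [Finset.card_image_of_injOn hinj, hcardR]
  have hsub : S.biUnion U ⊆ (D.map (algebraMap ℤ L)).roots.toFinset := by
    intro x hx
    obtain ⟨p, hp, hxp⟩ := Finset.mem_biUnion.mp hx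
    obtain ⟨a, ha, rfl⟩ := Finset.mem_image.mp hxp
    have hinjL : Function.Injective (algebraMap ℤ L) := (algebraMap ℤ L).injective_int
    rw [Multiset.mem_toFinset, mem_roots (by rwa [Ne, Polynomial.map_eq_zero_iff hinjL]), IsRoot,
      eval_map_algebraMap]
    obtain ⟨c, hc⟩ := hdvd p hp
    have h1 : aeval a (expand ℤ p D) = 0 := by
      rw [hc, map_mul, haevalZ a f, (hmemR a).mp ha, zero_mul]
    rwa [expand_aeval] at h1
  have hfin : (S.biUnion U).card ≤ D.natDegree := by
    calc (S.biUnion U).card ≤ _ := Finset.card_le_card hsub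
      _ ≤ (D.map (algebraMap ℤ L)).roots.card := Multiset.toFinset_card_le _
      _ ≤ (D.map (algebraMap ℤ L)).natDegree := card_roots' _
      _ ≤ _ := natDegree_map_le
  rw [Finset.card_biUnion hdisj] at hfin
  have hsum : f.natDegree * (S \ B).card ≤ ∑ p ∈ S, (U p).card := by
    calc f.natDegree * (S \ B).card = (S \ B).card • f.natDegree := by
          rw [smul_eq_mul, mul_comm]
      _ ≤ ∑ p ∈ S \ B, (U p).card := Finset.card_nsmul_le_sum _ _ _ hUcard
      _ ≤ _ := Finset.sum_le_sum_of_subset Finset.sdiff_subset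
  have hcardS : S.card = (S \ B).card + B.card := by
    rw [Finset.card_sdiff_add_card_eq_card (Finset.filter_subset _ _)]
  rw [hcardS, mul_add]
  exact add_le_add (hsum.trans hfin) (Nat.mul_le_mul_left _ hBcard)

end gal

/-- If `D(α^p) = 0` for all primes `p ∈ S` then `D` has many roots. -/
theorem roots_count (f : ℤ[X]) (hf : f.Monic) (hirr : Irreducible f) (hX : ¬ f ∣ X)
    (hru : ∀ m : ℕ, 0 < m → ¬ f ∣ X ^ m - 1) (D : ℤ[X]) (hD : D ≠ 0) (S : Finset ℕ)
    (hS : ∀ p ∈ S, p.Prime) (hdvd : ∀ p ∈ S, f ∣ expand ℤ p D) :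
    f.natDegree * S.card ≤ D.natDegree + f.natDegree * Nat.log 2 f.natDegree := by
  have hs : IsSplittingField ℚ (f.map (Int.castRingHom ℚ)).SplittingField
      (f.map (Int.castRingHom ℚ)) := IsSplittingField.splittingField _
  have hn : Normal ℚ (f.map (Int.castRingHom ℚ)).SplittingField :=
    Normal.of_isSplittingField (f.map (Int.castRingHom ℚ))
  exact roots_count_aux (L := (f.map (Int.castRingHom ℚ)).SplittingField) f hf hirr
    (SplittingField.splits _) hX hru D hD S hS hdvd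

end Pool.Agent.Lib.MP_7ab245_nt.Mono
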