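import Mathlib
import Pool.Agent.Lib.MP_7ab245_nt.Mono.DobroGal
import Pool.Agent.Lib.MP_7ab245_nt.Mono.DobroBox

/-! Dobrowolski's theorem, in the form `log M(g) ≥ c / (log n) ^ 3`. -/

set_option autoImplicit false

open Polynomial Real

namespace Pool.Agent.Lib.MP_7ab245_nt.Mono

/-- congruence of `D(x^p)` modulo `(p^T, f)` when `f^T ∣ D` -/
lemma expand_congr (f D : ℤ[X]) (T p : ℕ) [Fact p.Prime] (h : f ^ T ∣ D) :
    ∃ A Q : ℤ[X], expand ℤ p D = C (((p ^ T : ℕ)) : ℤ) * A + f * Q := by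
  obtain ⟨q, rfl⟩ := h
  obtain ⟨W, hW⟩ := expand_sub_pow p f
  have hp : p ≠ 0 := (Fact.out : p.Prime).ne_zero
  have h1 : f ∣ (f ^ p + C (p : ℤ) * W) ^ T - (C (p : ℤ) * W) ^ T := by
    have h2 := sub_dvd_pow_sub_pow (f ^ p + C (p : ℤ) * W) (C (p : ℤ) * W) T
    have h3 : f ^ p + C (p : ℤ) * W - C (p : ℤ) * W = f ^ p := by ring
    rw [h3] at h2
    exact (dvd_pow_self f hp).trans h2
  obtain ⟨V, hV⟩ := h1
  refine ⟨W ^ T * expand ℤ p q, V * expand ℤ p q, ?_⟩
  rw [map_mul, map_pow, hW]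
  have h4 : (f ^ p + C (p : ℤ) * W) ^ T = (C (p : ℤ) * W) ^ T + f * V := by rw [← hV]; ring
  rw [h4, mul_pow]
  push_cast
  simp only [map_pow]
  ring

lemma main_ineq (f D : ℤ[X]) (hf : f.Monic) (hirr : Irreducible f) (T N p : ℕ) (hp : p.Prime)
    (hfN : f.natDegree ≤ N) (hDN : D.natDegree < N) (hDc : ∀ i, |(D.coeff i : ℝ)| ≤ N)
    (hdvd : f ^ T ∣ D) (hnd : ¬ f ∣ expand ℤ p D) :
    ((p : ℝ) ^ T) ^ f.natDegree ≤ ((N : ℝ) ^ 2) ^ f.natDegree * MM f ^ (p * N) := by
  have hpf : Fact p.Prime := ⟨hp⟩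
  obtain ⟨A, Q, hAQ⟩ := expand_congr f D T p hdvd
  have hE : (expand ℤ p D).natDegree ≤ p * N := by
    rw [natDegree_expand, mul_comm]
    exact Nat.mul_le_mul_left _ hDN.le
  have hE' : f.natDegree ≤ p * N := by
    calc f.natDegree ≤ N := hfN
      _ = 1 * N := (one_mul _).symm
      _ ≤ _ := Nat.mul_le_mul_right _ hp.one_le
  have h1 := main_resultant f (expand ℤ p D) A Q hf hirr (p ^ T) hAQ hnd (p * N) hE hE'
  rw [l1_expand hp.pos] at h1
  have h2 : l1 D ≤ (N : ℝ) ^ 2 := by
    unfold l1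
    calc ∑ i ∈ D.support, |(D.coeff i : ℝ)| ≤ D.support.card • (N : ℝ) :=
          Finset.sum_le_card_nsmul _ _ _ (fun i _ => hDc i)
      _ = D.support.card * (N : ℝ) := by rw [nsmul_eq_mul]
      _ ≤ N * N := by
          gcongr
          have h3 : D.support ⊆ Finset.range N := by
            intro i hi
            rw [Finset.mem_range]
            exact (le_natDegree_of_mem_supp i hi).trans_lt hDN
          have := Finset.card_le_card h3
          rwa [Finset.card_range] at this
      _ = _ := by ring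
  push_cast at h1
  refine h1.trans ?_
  have := l1_nonneg D
  have h4 : 0 ≤ MM f := mahlerMeasure_nonneg _
  gcongr

lemma sq_le_two_pow (y : ℕ) (hy : 6 ≤ y) : (y + 1) ^ 2 ≤ 2 ^ y := by
  induction y, hy using Nat.le_induction with
  | base => norm_num
  | succ y hy ih =>
    rw [pow_succ 2]
    nlinarith

/-- many primes up to `x`, where `x / log x` is of the order of `K` -/
lemma exists_primes (K : ℕ) (hK : 10 ≤ K) : ∃ x : ℕ, 4 ≤ x ∧
    K < ((Finset.range (x + 1)).filter Nat.Prime).card ∧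
    Real.log 2 / (4 * K) ≤ Real.log x / x := by
  set x := Nat.nth Nat.Prime K with hx
  have h1 : Nat.count Nat.Prime x = K := Nat.primeCounting'_nth_eq K
  have h2 : K ≤ x := by
    rw [← h1]
    exact Nat.count_le Nat.Prime
  have hxp : x.Prime := Nat.prime_nth_prime K
  refine ⟨x, by omega, ?_, ?_⟩
  · rw [← Nat.count_eq_card_filter_range, Nat.count_succ, if_pos hxp, h1]
    omega
  · obtain ⟨y, hy⟩ : ∃ y, x = y + 1 := ⟨x - 1, by omega⟩
    have hy9 : 9 ≤ y := by omega
    have hyR : (9 : ℝ) ≤ y := by exact_mod_cast hy9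
    have h3 := Chebyshev.pi_ge y
    have h4 : Nat.primeCounting y = K := by
      rw [Nat.primeCounting, ← hy]
      exact h1
    rw [h4] at h3
    have hlogy : 0 < Real.log y := Real.log_pos (by linarith)
    rw [div_le_iff₀ hlogy] at h3
    have h5 : 2 * Real.log ((y : ℝ) + 1) ≤ y * Real.log 2 := by
      have h6 : (((y + 1) ^ 2 : ℕ) : ℝ) ≤ ((2 ^ y : ℕ) : ℝ) := by
        exact_mod_cast sq_le_two_pow y (by omega)
      have h7 := Real.log_le_log (by positivity) h6
      push_cast at h7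
      rw [Real.log_pow, Real.log_pow] at h7
      exact_mod_cast h7
    have hl2 : 0 < Real.log 2 := Real.log_pos (by norm_num)
    have hKR : (10 : ℝ) ≤ K := by exact_mod_cast hK
    have hxR : (x : ℝ) = y + 1 := by rw [hy]; push_cast; ring
    rw [div_le_div_iff₀ (by positivity) (by rw [hxR]; positivity), hxR]
    have h8 : Real.log y ≤ Real.log ((y : ℝ) + 1) := Real.log_le_log (by linarith) (by linarith)
    have h9 : (K : ℝ) * Real.log y ≤ K * Real.log ((y : ℝ) + 1) := by gcongr
    nlinarith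

lemma log_div_ge (p x : ℕ) (hp : 2 ≤ p) (hx : 4 ≤ x) (hpx : p ≤ x) :
    Real.log x / x ≤ Real.log p / p := by
  have he : Real.exp 1 ≤ 3 := Real.exp_one_lt_three.le
  have hxR : (4 : ℝ) ≤ x := by exact_mod_cast hx
  rcases Nat.lt_or_ge p 3 with h | h
  · have hp2 : p = 2 := by omega
    subst hp2
    have h1 : Real.log x / x ≤ Real.log 4 / 4 :=
      Real.log_div_self_antitoneOn (by simp only [Set.mem_Ici]; linarith)
        (by simp only [Set.mem_Ici]; linarith) hxR
    have h2 : Real.log 4 = 2 * Real.log 2 := by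
      rw [show (4 : ℝ) = 2 ^ 2 by norm_num, Real.log_pow]; norm_num
    rw [h2] at h1
    push_cast
    linarith
  · have hpR : (3 : ℝ) ≤ p := by exact_mod_cast h
    exact Real.log_div_self_antitoneOn (by simp only [Set.mem_Ici]; linarith)
      (by simp only [Set.mem_Ici]; linarith) (by exact_mod_cast hpx)

/-- the irreducible case with parameters -/
lemma irr_bound_param (f : ℤ[X]) (hf : f.Monic) (hirr : Irreducible f) (hX : ¬ f ∣ X)
    (hru : ∀ m : ℕ, 0 < m → ¬ f ∣ X ^ m - 1) (T : ℕ) (hT : 4 ≤ T)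
    (hlog : Nat.log 2 f.natDegree ≤ T)
    (hNT : (2 * f.natDegree * (T * (T + 4))) ^ 4 ≤ 2 ^ T) :
    Real.log 2 / (192 * (T : ℝ) ^ 3) ≤ Real.log (MM f) := by
  set N := 2 * f.natDegree * (T * (T + 4)) with hN
  set n := f.natDegree with hn
  have hn0 : n ≠ 0 := by
    intro h
    have := hf.natDegree_eq_zero.mp h
    rw [this] at hirr
    exact not_irreducible_one hirr
  have hnR : (1 : ℝ) ≤ n := by exact_mod_cast Nat.one_le_iff_ne_zero.mpr hn0
  have hTR : (4 : ℝ) ≤ T := by exact_mod_cast hT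
  have hNR : (N : ℝ) = 2 * n * (T * (T + 4)) := by rw [hN]; push_cast; ring
  have hNpos : (0 : ℝ) < N := by rw [hNR]; positivity
  have hN64 : (64 : ℝ) ≤ N := by
    have h1 : (32 : ℝ) ≤ T * (T + 4) := by nlinarith
    rw [hNR]
    nlinarith
  have hl2 : 0 < Real.log 2 := Real.log_pos (by norm_num)
  have hl2' : Real.log 2 ≤ 1 := by
    have := Real.log_two_lt_d9; linarith
  have hlN : 1 ≤ Real.log N := by
    rw [Real.le_log_iff_exp_le hNpos]
    have := Real.exp_one_lt_three
    linarith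
  have hMM1 : 1 ≤ MM f := MM_one_le hf.ne_zero
  have hL0 : 0 ≤ Real.log (MM f) := Real.log_nonneg hMM1
  set L := Real.log (MM f) with hL
  by_cases hM : MM f ^ N ≤ (N : ℝ) ^ n
  · obtain ⟨D, hD0, hDdeg, hDc, hDdvd⟩ := exists_aux_poly f hf hirr T N (by omega) hN hM
    -- choose a prime
    set K := 3 * (T * (T + 4)) with hK
    have hK10 : 10 ≤ K := by rw [hK]; nlinarith
    obtain ⟨x, hx4, hxK, hxlog⟩ := exists_primes K hK10
    have hex : ∃ p ∈ (Finset.range (x + 1)).filter Nat.Prime, ¬ f ∣ expand ℤ p D := by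
      by_contra hcon
      push Not at hcon
      have h1 := roots_count f hf hirr hX hru D hD0 _
        (fun p hp => (Finset.mem_filter.mp hp).2) hcon
      rw [← hn] at h1
      have h2 : n * K < n * ((Finset.range (x + 1)).filter Nat.Prime).card :=
        Nat.mul_lt_mul_of_pos_left hxK (Nat.pos_of_ne_zero hn0)
      have h3 : n * Nat.log 2 n ≤ n * (T * (T + 4)) := by
        apply Nat.mul_le_mul_left
        nlinarith
      have h4 : n * K = N + n * (T * (T + 4)) := by rw [hK, hN]; ring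
      omega
    obtain ⟨p, hp, hnd⟩ := hex
    rw [Finset.mem_filter, Finset.mem_range] at hp
    have hpp := hp.2
    have hp2 : 2 ≤ p := hpp.two_le
    have hpR : (2 : ℝ) ≤ p := by exact_mod_cast hp2
    have hnN : n ≤ N := by
      rw [hN]
      nlinarith [Nat.pos_of_ne_zero hn0]
    have h5 := main_ineq f D hf hirr T N p hpp hnN hDdeg hDc hDdvd hnd
    have h6 := Real.log_le_log (by positivity) h5
    have hMMpos : 0 < MM f := by linarith
    rw [Real.log_mul (by positivity) (by positivity), Real.log_pow, Real.log_pow, Real.log_pow,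
      Real.log_pow, Real.log_pow] at h6
    push_cast at h6
    have h7 : (4 : ℝ) * Real.log N ≤ T * Real.log p := by
      have h8 : ((N ^ 4 : ℕ) : ℝ) ≤ ((2 ^ T : ℕ) : ℝ) := by exact_mod_cast hNT
      have h9 := Real.log_le_log (by positivity) h8
      push_cast at h9
      rw [Real.log_pow, Real.log_pow] at h9
      have h10 : Real.log 2 ≤ Real.log p := Real.log_le_log (by norm_num) hpR
      calc (4 : ℝ) * Real.log N ≤ T * Real.log 2 := by exact_mod_cast h9
        _ ≤ _ := by gcongr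
    have h11 : (T : ℝ) * Real.log p ≤ 2 * Real.log N + 2 * p * (T * (T + 4)) * L := by
      have h12 : (n : ℝ) * (T * Real.log p) ≤ n * (2 * Real.log N + 2 * p * (T * (T + 4)) * L) := by
        calc (n : ℝ) * (T * Real.log p) ≤ n * (2 * Real.log N) + p * N * L := h6
          _ = _ := by rw [hNR]; ring
      exact le_of_mul_le_mul_left h12 (by linarith)
    have h13 : (T : ℝ) * Real.log p ≤ 4 * p * (T * (T + 4)) * L := by linarith
    have h14 : Real.log p ≤ 4 * p * (T + 4) * L := by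
      have : (T : ℝ) * Real.log p ≤ T * (4 * p * (T + 4) * L) := by
        calc (T : ℝ) * Real.log p ≤ 4 * p * (T * (T + 4)) * L := h13
          _ = _ := by ring
      exact le_of_mul_le_mul_left this (by linarith)
    have h15 : Real.log p / p ≤ 4 * (T + 4) * L := by
      rw [div_le_iff₀ (by linarith)]
      calc Real.log p ≤ 4 * p * (T + 4) * L := h14
        _ = _ := by ring
    have h16 := log_div_ge p x hp2 hx4 (by omega)
    have h17 : Real.log 2 / (4 * K) ≤ 4 * (T + 4) * L := hxlog.trans (h16.trans h15)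
    have hKR : (K : ℝ) = 3 * (T * (T + 4)) := by rw [hK]; push_cast; ring
    rw [hKR, div_le_iff₀ (by positivity)] at h17
    rw [div_le_iff₀ (by positivity)]
    have h18 : (T : ℝ) * (T + 4) ^ 2 ≤ 4 * T ^ 3 := by
      have : ((T : ℝ) + 4) ^ 2 ≤ (2 * T) ^ 2 := by gcongr; linarith
      nlinarith
    calc Real.log 2 ≤ 4 * (T + 4) * L * (4 * (3 * (T * (T + 4)))) := h17
      _ = 48 * (T * (T + 4) ^ 2) * L := by ring
      _ ≤ 48 * (4 * T ^ 3) * L := by gcongr
      _ = _ := by ring
  · push Not at hM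
    have h1 := Real.log_le_log (by positivity) hM.le
    rw [Real.log_pow, Real.log_pow] at h1
    have h2 : (n : ℝ) * Real.log N ≤ n * (2 * (T * (T + 4)) * L) := by
      calc (n : ℝ) * Real.log N ≤ N * L := h1
        _ = _ := by rw [hNR]; ring
    have h3 : Real.log N ≤ 2 * (T * (T + 4)) * L := le_of_mul_le_mul_left h2 (by linarith)
    rw [div_le_iff₀ (by positivity)]
    have h4 : 2 * ((T : ℝ) * (T + 4)) ≤ 192 * T ^ 3 := by
      have h5 : (T : ℝ) * (T + 4) ≤ T * (2 * T) := by gcongr; linarith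
      have h6 : (T : ℝ) ^ 2 * 4 ≤ T ^ 2 * T := by gcongr
      nlinarith
    calc Real.log 2 ≤ 1 := hl2'
      _ ≤ Real.log N := hlN
      _ ≤ 2 * (T * (T + 4)) * L := h3
      _ ≤ 192 * T ^ 3 * L := by gcongr
      _ = _ := by ring

/-- the irreducible case -/
lemma irr_bound (f : ℤ[X]) (hf : f.Monic) (hirr : Irreducible f) (hX : ¬ f ∣ X)
    (hru : ∀ m : ℕ, 0 < m → ¬ f ∣ X ^ m - 1) (n : ℕ) (hn : 2 ≤ n) (hfn : f.natDegree ≤ n) :
    Real.log 2 / (192 * (128 * Nat.clog 2 n : ℝ) ^ 3) ≤ Real.log (MM f) := by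
  set l := Nat.clog 2 n with hl
  have hl1 : 1 ≤ l := Nat.clog_pos (by norm_num) (by omega)
  have hnl : n ≤ 2 ^ l := Nat.le_pow_clog (by norm_num) n
  have h := irr_bound_param f hf hirr hX hru (128 * l) (by omega) ?_ ?_
  · push_cast at h
    exact h
  · calc Nat.log 2 f.natDegree ≤ Nat.log 2 (2 ^ l) := Nat.log_mono_right (hfn.trans hnl)
      _ = l := Nat.log_pow (by norm_num) l
      _ ≤ 128 * l := by omega
  · have hll : l ≤ 2 ^ l := Nat.lt_two_pow_self.le
    have h1 : 2 * f.natDegree * (128 * l * (128 * l + 4)) ≤ 2 ^ (16 + 3 * l) := by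
      calc 2 * f.natDegree * (128 * l * (128 * l + 4))
          ≤ 2 * 2 ^ l * (128 * l * (256 * l)) := by
            gcongr
            · exact hfn.trans hnl
            · omega
        _ = 2 ^ 16 * (2 ^ l * (l * l)) := by ring
        _ ≤ 2 ^ 16 * (2 ^ l * (2 ^ l * 2 ^ l)) := by gcongr
        _ = 2 ^ (16 + 3 * l) := by rw [pow_add, pow_mul']; ring
    calc (2 * f.natDegree * (128 * l * (128 * l + 4))) ^ 4 ≤ (2 ^ (16 + 3 * l)) ^ 4 := by gcongr
      _ = 2 ^ (4 * (16 + 3 * l)) := by rw [← pow_mul]; ring_nf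
      _ ≤ 2 ^ (128 * l) := Nat.pow_le_pow_right (by norm_num) (by omega)

lemma MM_mul' (f g : ℤ[X]) : MM (f * g) = MM f * MM g := by
  unfold MM
  rw [Polynomial.map_mul, mahlerMeasure_mul]

lemma MM_neg (f : ℤ[X]) : MM (-f) = MM f := by
  have h1 : -f = C (-1) * f := by simp
  have h2 : MM (C (-1 : ℤ)) = 1 := by
    unfold MM
    rw [map_C, mahlerMeasure_const]
    simp
  rw [h1, MM_mul', h2, one_mul]

lemma MM_le_of_dvd {f g : ℤ[X]} (hg : g ≠ 0) (h : f ∣ g) : MM f ≤ MM g := by
  obtain ⟨q, rfl⟩ := h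
  rw [MM_mul']
  have h1 := MM_one_le (left_ne_zero_of_mul hg)
  have h2 := MM_one_le (right_ne_zero_of_mul hg)
  nlinarith

lemma MM_X_pow_sub_one (m : ℕ) (hm : 0 < m) : MM (X ^ m - 1) = 1 := by
  rw [← prod_cyclotomic_eq_X_pow_sub_one hm]
  have h : ∀ s : Finset ℕ, MM (∏ i ∈ s, cyclotomic i ℤ) = 1 := by
    intro s
    induction s using Finset.induction_on with
    | empty =>
      rw [Finset.prod_empty]
      unfold MM
      rw [Polynomial.map_one, mahlerMeasure_one]
    | insert a s ha ih =>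
      rw [Finset.prod_insert ha, MM_mul', ih, mul_one]
      exact cyclotomic_mahlerMeasure_eq_one a
  exact h _

/-- a polynomial with unit leading coefficient and Mahler measure bigger than one has a monic
irreducible factor with Mahler measure bigger than one -/
lemma exists_irr_factor : ∀ (N : ℕ) (g : ℤ[X]), g.natDegree = N → IsUnit g.leadingCoeff →
    1 < MM g → ∃ f : ℤ[X], f.Monic ∧ Irreducible f ∧ f ∣ g ∧ 1 < MM f := by
  intro N
  induction N using Nat.strong_induction_on with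
  | _ N ih =>
    intro g hgN hlc hM
    have hg0 : g ≠ 0 := by
      rintro rfl
      rw [leadingCoeff_zero] at hlc
      exact not_isUnit_zero hlc
    have hgu : ¬ IsUnit g := by
      intro hu
      obtain ⟨v, hv⟩ := hu.exists_right_inv
      have hv0 : v ≠ 0 := by rintro rfl; rw [mul_zero] at hv; exact zero_ne_one hv
      have h1 : MM g * MM v = 1 := by
        rw [← MM_mul', hv]
        unfold MM
        rw [Polynomial.map_one, mahlerMeasure_one]
      have h2 := MM_one_le hv0
      nlinarith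
    obtain ⟨g0, hg0irr, h, hgh⟩ := WfDvdMonoid.exists_irreducible_factor hgu hg0
    have hlc2 : IsUnit g0.leadingCoeff ∧ IsUnit h.leadingCoeff := by
      rw [← IsUnit.mul_iff, ← leadingCoeff_mul, ← hgh]
      exact hlc
    have hg0d : g0.natDegree ≠ 0 := by
      intro h0
      apply hg0irr.not_isUnit
      rw [eq_C_of_natDegree_eq_zero h0]
      apply IsUnit.map
      have : g0.leadingCoeff = g0.coeff 0 := by rw [leadingCoeff, h0]
      rw [← this]
      exact hlc2.1
    have hg00 : g0 ≠ 0 := hg0irr.ne_zero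
    have hh0 : h ≠ 0 := by rintro rfl; rw [mul_zero] at hgh; exact hg0 hgh
    by_cases hM0 : 1 < MM g0
    · rcases Int.isUnit_iff.mp hlc2.1 with h1 | h1
      · exact ⟨g0, h1, hg0irr, ⟨h, hgh⟩, hM0⟩
      · refine ⟨-g0, ?_, ?_, ?_, ?_⟩
        · rw [Monic, leadingCoeff_neg, h1]; norm_num
        · exact (Associated.neg_left (Associated.refl g0)).symm.irreducible hg0irr
        · exact ⟨-h, by rw [hgh]; ring⟩
        · rw [MM_neg]; exact hM0
    · have h1 : MM g0 = 1 := le_antisymm (not_lt.mp hM0) (MM_one_le hg00)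
      have h2 : MM g = MM h := by rw [hgh, MM_mul', h1, one_mul]
      have h3 : g.natDegree = g0.natDegree + h.natDegree := by rw [hgh, natDegree_mul hg00 hh0]
      obtain ⟨f, hf1, hf2, hf3, hf4⟩ := ih h.natDegree (by omega) h rfl hlc2.2 (by rw [← h2]; exact hM)
      exact ⟨f, hf1, hf2, hf3.trans ⟨g0, by rw [hgh]; ring⟩, hf4⟩

/-- Module G: Dobrowolski -/
theorem dobrowolski : ∃ c : ℝ, 0 < c ∧ ∀ (g : ℤ[X]) (n : ℕ), 2 ≤ n → g.natDegree ≤ n →
    1 < (g.map (Int.castRingHom ℂ)).mahlerMeasure →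
    c / (Real.log n) ^ 3 ≤ Real.log (g.map (Int.castRingHom ℂ)).mahlerMeasure := by
  have hl2 : 0 < Real.log 2 := Real.log_pos (by norm_num)
  refine ⟨(Real.log 2) ^ 4 / (192 * 256 ^ 3), by positivity, ?_⟩
  intro g n hn hgn hM
  have hnR : (2 : ℝ) ≤ n := by exact_mod_cast hn
  have hlogn : Real.log 2 ≤ Real.log n := Real.log_le_log (by norm_num) hnR
  have hlognpos : 0 < Real.log n := by linarith
  change 1 < MM g at hM
  change _ ≤ Real.log (MM g)
  have hg0 : g ≠ 0 := by
    rintro rfl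
    unfold MM at hM
    rw [Polynomial.map_zero, mahlerMeasure_zero] at hM
    linarith
  by_cases h2 : 2 ≤ MM g
  · have h3 : Real.log 2 ≤ Real.log (MM g) := Real.log_le_log (by norm_num) h2
    refine le_trans ?_ h3
    rw [div_div, div_le_iff₀ (by positivity)]
    have h4 : (Real.log 2) ^ 3 ≤ (Real.log n) ^ 3 := by gcongr
    calc (Real.log 2) ^ 4 = Real.log 2 * (1 * (Real.log 2) ^ 3) := by ring
      _ ≤ Real.log 2 * (192 * 256 ^ 3 * (Real.log n) ^ 3) := by
          gcongr
          norm_num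
  · push Not at h2
    have hlc : IsUnit g.leadingCoeff := by
      have h3 : ‖(g.map (Int.castRingHom ℂ)).leadingCoeff‖ ≤ MM g := leadingCoeff_le_mahlerMeasure _
      have h4 : (g.map (Int.castRingHom ℂ)).leadingCoeff = (g.leadingCoeff : ℂ) := by
        rw [leadingCoeff_map_of_injective (Int.castRingHom ℂ).injective_int]
        rfl
      rw [h4, Complex.norm_intCast] at h3
      have h5 : |g.leadingCoeff| < 2 := by
        have : ((|g.leadingCoeff| : ℤ) : ℝ) < ((2 : ℤ) : ℝ) := by
          push_cast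
          linarith
        exact_mod_cast this
      have h6 : g.leadingCoeff ≠ 0 := leadingCoeff_ne_zero.mpr hg0
      rw [Int.isUnit_iff]
      rw [abs_lt] at h5
      omega
    obtain ⟨f, hf, hirr, hfg, hMf⟩ := exists_irr_factor _ g rfl hlc hM
    have hX : ¬ f ∣ X := by
      intro h
      have h3 := MM_le_of_dvd X_ne_zero h
      have h4 : MM (X : ℤ[X]) = 1 := by
        unfold MM
        rw [map_X]
        have := mahlerMeasure_X_sub_C (0 : ℂ)
        simpa using this
      rw [h4] at h3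
      linarith
    have hru : ∀ m : ℕ, 0 < m → ¬ f ∣ X ^ m - 1 := by
      intro m hm h
      have h0 : (X ^ m - 1 : ℤ[X]) ≠ 0 := (monic_X_pow_sub_C (1 : ℤ) hm.ne').ne_zero
      have h3 := MM_le_of_dvd h0 h
      rw [MM_X_pow_sub_one m hm] at h3
      linarith
    have h3 := irr_bound f hf hirr hX hru n hn ((natDegree_le_of_dvd hfg hg0).trans hgn)
    have h4 : Real.log (MM f) ≤ Real.log (MM g) :=
      Real.log_le_log (by linarith) (MM_le_of_dvd hg0 hfg)
    refine le_trans ?_ (h3.trans h4)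
    -- clog
    have h5 : (Nat.clog 2 n : ℝ) * Real.log 2 ≤ 2 * Real.log n := by
      have h6 : 2 ^ (Nat.clog 2 n - 1) < n := Nat.pow_pred_clog_lt_self (by norm_num) (by omega)
      have h7 : (((2 ^ (Nat.clog 2 n - 1) : ℕ)) : ℝ) ≤ n := by exact_mod_cast h6.le
      have h8 := Real.log_le_log (by positivity) h7
      push_cast at h8
      rw [Real.log_pow] at h8
      have h9 : 1 ≤ Nat.clog 2 n := Nat.clog_pos (by norm_num) (by omega)
      rw [Nat.cast_sub h9] at h8
      push_cast at h8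
      linarith
    have h10 : 1 ≤ Nat.clog 2 n := Nat.clog_pos (by norm_num) (by omega)
    have h11 : (1 : ℝ) ≤ Nat.clog 2 n := by exact_mod_cast h10
    rw [div_div, div_le_div_iff₀ (by positivity) (by positivity)]
    have h12 : ((Nat.clog 2 n : ℝ) * Real.log 2) ^ 3 ≤ (2 * Real.log n) ^ 3 := by
      gcongr
    calc (Real.log 2) ^ 4 * (192 * (128 * (Nat.clog 2 n : ℝ)) ^ 3)
        = Real.log 2 * (192 * 128 ^ 3) * ((Nat.clog 2 n : ℝ) * Real.log 2) ^ 3 := by ring
      _ ≤ Real.log 2 * (192 * 128 ^ 3) * (2 * Real.log n) ^ 3 := by gcongr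
      _ = Real.log 2 * (192 * 256 ^ 3 * (Real.log n) ^ 3) := by ring

end Pool.Agent.Lib.MP_7ab245_nt.Mono
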