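import Pool.Agent.Lib.MP_7ab245_nt.Mono.SmoothB

/-!
Module C of the monomial count theorem, first part: the moments of `|f|²` on the circle only
depend on the additive relations between the exponents.
-/

set_option autoImplicit false

open Polynomial MeasureTheory Real

namespace Pool.Agent.Lib.MP_7ab245_nt.Mono

variable {ι : Type} [Fintype ι]

lemma integral_zpow (n : ℤ) :
    ∫ θ, (circleMap 0 1 θ) ^ n ∂mu = if n = 0 then ((2 * π : ℝ) : ℂ) else 0 := by
  unfold mu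
  rw [← intervalIntegral.integral_of_le Real.two_pi_pos.le]
  split_ifs with h
  · subst h
    simp
  · have h1 : ∀ θ : ℝ, (circleMap 0 1 θ) ^ n = Complex.exp ((n * Complex.I) * θ) := by
      intro θ
      have h2 : circleMap 0 1 θ = Complex.exp (θ * Complex.I) := by simp [circleMap]
      rw [h2, ← Complex.exp_int_mul]
      congr 1
      ring
    simp_rw [h1]
    rw [integral_exp_mul_complex (by simp [h])]
    have h3 : Complex.exp (n * Complex.I * ((2 * π : ℝ) : ℂ)) = 1 := by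
      rw [Complex.exp_eq_one_iff]
      exact ⟨n, by push_cast; ring⟩
    rw [h3]
    simp

lemma prod_zpow_sum {σ : Type} (s : Finset σ) (a : σ → ℤ) (z : ℂ) (hz : z ≠ 0) :
    ∏ i ∈ s, z ^ a i = z ^ ∑ i ∈ s, a i := by
  classical
  induction s using Finset.induction_on with
  | empty => simp
  | insert i s hi ih => rw [Finset.prod_insert hi, Finset.sum_insert hi, zpow_add₀ hz, ih]

lemma sq_eq (c : ι → ℤ) (e : ι → ℤ) (z : ℂ) (hz : ‖z‖ = 1) :
    ((‖ls (fun j => (c j : ℂ)) e z‖ ^ 2 : ℝ) : ℂ) =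
      ∑ p : ι × ι, ((c p.1 : ℂ) * (c p.2 : ℂ)) * z ^ (e p.1 - e p.2) := by
  have hz0 : z ≠ 0 := by
    intro h
    rw [h, norm_zero] at hz
    exact zero_ne_one hz
  have hconj : (starRingEnd ℂ) z = z⁻¹ := by
    rw [Complex.inv_def, Complex.normSq_eq_norm_sq, hz]
    simp
  have h1 : ((‖ls (fun j => (c j : ℂ)) e z‖ ^ 2 : ℝ) : ℂ) =
      ls (fun j => (c j : ℂ)) e z * (starRingEnd ℂ) (ls (fun j => (c j : ℂ)) e z) := by
    rw [Complex.mul_conj, Complex.normSq_eq_norm_sq]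
  rw [h1, ls, map_sum, Finset.sum_mul_sum, ← Finset.univ_product_univ, Finset.sum_product]
  refine Finset.sum_congr rfl (fun i _ => Finset.sum_congr rfl (fun j _ => ?_))
  rw [map_mul, map_zpow₀, hconj, zpow_sub₀ hz0]
  simp only [map_intCast, inv_zpow]
  field_simp

lemma sq_pow_eq (c : ι → ℤ) (e : ι → ℤ) (l : ℕ) (z : ℂ) (hz : ‖z‖ = 1) :
    (((‖ls (fun j => (c j : ℂ)) e z‖ ^ 2) ^ l : ℝ) : ℂ) =
      ∑ w : Fin l → ι × ι, (∏ s, ((c (w s).1 : ℂ) * (c (w s).2 : ℂ))) *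
        z ^ (∑ s, (e (w s).1 - e (w s).2)) := by
  have hz0 : z ≠ 0 := by
    intro h
    rw [h, norm_zero] at hz
    exact zero_ne_one hz
  rw [Complex.ofReal_pow, sq_eq c e z hz, Fintype.sum_pow]
  refine Finset.sum_congr rfl (fun w _ => ?_)
  rw [Finset.prod_mul_distrib, prod_zpow_sum _ _ z hz0]

lemma norm_circleMap_one (θ : ℝ) : ‖circleMap 0 1 θ‖ = 1 := by
  simp

/-- the moments of `|f|²` -/
lemma moment_eq (c : ι → ℤ) (e : ι → ℤ) (l : ℕ) :
    ((∫ θ, (hh (fun j => (c j : ℂ)) e θ ^ 2) ^ l ∂mu : ℝ) : ℂ) =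
      ∑ w : Fin l → ι × ι, (∏ s, ((c (w s).1 : ℂ) * (c (w s).2 : ℂ))) *
        (if ∑ s, (e (w s).1 - e (w s).2) = 0 then ((2 * π : ℝ) : ℂ) else 0) := by
  rw [← integral_complex_ofReal]
  have h1 : ∀ θ : ℝ, (((hh (fun j => (c j : ℂ)) e θ ^ 2) ^ l : ℝ) : ℂ) =
      ∑ w : Fin l → ι × ι, (∏ s, ((c (w s).1 : ℂ) * (c (w s).2 : ℂ))) *
        (circleMap 0 1 θ) ^ (∑ s, (e (w s).1 - e (w s).2)) :=
    fun θ => sq_pow_eq c e l _ (norm_circleMap_one θ)
  simp_rw [h1]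
  have hc : ∀ n : ℤ, Integrable (fun θ => (circleMap 0 1 θ) ^ n) mu := by
    intro n
    unfold mu
    refine (Continuous.continuousOn ?_).integrableOn_Icc.mono_set Set.Ioc_subset_Icc_self
    refine Continuous.zpow₀ (continuous_circleMap 0 1) n (fun θ => Or.inl ?_)
    exact circleMap_ne_center one_ne_zero
  rw [integral_finsetSum _ (fun w _ => (hc _).const_mul _)]
  refine Finset.sum_congr rfl (fun w _ => ?_)
  rw [integral_const_mul, integral_zpow]

lemma moment_congr (c : ι → ℤ) (e e' : ι → ℤ) (N : ℕ) (h : SameRel N e e') (l : ℕ) (hl : l ≤ N) :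
    ∫ θ, (hh (fun j => (c j : ℂ)) e θ ^ 2) ^ l ∂mu =
      ∫ θ, (hh (fun j => (c j : ℂ)) e' θ ^ 2) ^ l ∂mu := by
  have h1 := moment_eq c e l
  have h2 := moment_eq c e' l
  have h3 : ((∫ θ, (hh (fun j => (c j : ℂ)) e θ ^ 2) ^ l ∂mu : ℝ) : ℂ) =
      ((∫ θ, (hh (fun j => (c j : ℂ)) e' θ ^ 2) ^ l ∂mu : ℝ) : ℂ) := by
    rw [h1, h2]
    refine Finset.sum_congr rfl (fun w _ => ?_)
    congr 1
    exact if_congr (h l hl w) rfl rfl
  exact_mod_cast h3

lemma moment_integrable (c : ι → ℂ) (e : ι → ℤ) (l : ℕ) :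
    Integrable (fun θ => (hh c e θ ^ 2) ^ l) mu :=
  cont_integrable _ (((hh_continuous c e).pow 2).pow l)

lemma poly_congr (c : ι → ℤ) (e e' : ι → ℤ) (N : ℕ) (h : SameRel N e e') (P : ℝ[X])
    (hP : P.natDegree ≤ N) :
    ∫ θ, P.eval (hh (fun j => (c j : ℂ)) e θ ^ 2) ∂mu =
      ∫ θ, P.eval (hh (fun j => (c j : ℂ)) e' θ ^ 2) ∂mu := by
  simp_rw [Polynomial.eval_eq_sum_range' (Nat.lt_succ_of_le hP)]
  rw [integral_finsetSum _ (fun i _ => (moment_integrable _ _ i).const_mul _),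
    integral_finsetSum _ (fun i _ => (moment_integrable _ _ i).const_mul _)]
  refine Finset.sum_congr rfl (fun i hi => ?_)
  rw [integral_const_mul, integral_const_mul,
    moment_congr c e e' N h i (Nat.lt_succ_iff.mp (Finset.mem_range.mp hi))]

/-- truncated logarithm: polynomial approximation to `log (1 - (1 - (x + E)/B))` -/
noncomputable def tp (B E : ℝ) (N : ℕ) : ℝ[X] :=
  ∑ i ∈ Finset.range N, (C (1 - E / B) - C (1 / B) * X) ^ (i + 1) * C (1 / ((i : ℝ) + 1))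

lemma tp_natDegree (B E : ℝ) (N : ℕ) : (tp B E N).natDegree ≤ N := by
  refine Polynomial.natDegree_sum_le_of_forall_le _ _ (fun i hi => ?_)
  refine (Polynomial.natDegree_mul_C_le _ _).trans ?_
  refine (Polynomial.natDegree_pow_le).trans ?_
  have h1 : (C (1 - E / B) - C (1 / B) * X : ℝ[X]).natDegree ≤ 1 := by
    refine (Polynomial.natDegree_sub_le _ _).trans ?_
    rw [Polynomial.natDegree_C]
    exact max_le (by omega) ((Polynomial.natDegree_C_mul_le _ _).trans Polynomial.natDegree_X_le)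
  have h2 := Finset.mem_range.mp hi
  calc (i + 1) * _ ≤ (i + 1) * 1 := Nat.mul_le_mul_left _ h1
    _ ≤ N := by omega

lemma tp_eval (B E x : ℝ) (N : ℕ) : (tp B E N).eval x =
    ∑ i ∈ Finset.range N, (1 - (x + E) / B) ^ (i + 1) / ((i : ℝ) + 1) := by
  rw [tp, Polynomial.eval_finsetSum]
  refine Finset.sum_congr rfl (fun i _ => ?_)
  simp only [eval_mul, eval_pow, eval_sub, eval_C, eval_X]
  have h1 : 1 - E / B - 1 / B * x = 1 - (x + E) / B := by ring
  rw [h1, mul_one_div]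

/-- pointwise error of the truncated logarithm -/
lemma tp_error (A E x : ℝ) (hE : 0 < E) (hx : 0 ≤ x) (hxA : x ≤ A) (N : ℕ) :
    |Real.log (x + E) - (Real.log (A + E) - (tp (A + E) E N).eval x)| ≤
      ((A + E) / E) ^ 2 / (N + 1) := by
  have hA : 0 ≤ A := hx.trans hxA
  have hB : 0 < A + E := by linarith
  set v : ℝ := 1 - (x + E) / (A + E) with hv
  have hv0 : 0 ≤ v := by
    rw [hv, sub_nonneg, div_le_one hB]
    linarith
  have hv1 : v ≤ 1 - E / (A + E) := by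
    rw [hv]
    have : E / (A + E) ≤ (x + E) / (A + E) := by gcongr; linarith
    linarith
  set q : ℝ := E / (A + E) with hq
  have hq0 : 0 < q := by positivity
  have hq1 : q ≤ 1 := by
    rw [hq, div_le_one hB]; linarith
  have habs : |v| = v := abs_of_nonneg hv0
  have hlt : |v| < 1 := by rw [habs]; linarith
  have h1 := Real.abs_log_sub_add_sum_range_le hlt N
  rw [habs] at h1
  have h2 : 1 - v = (x + E) / (A + E) := by rw [hv]; ring
  rw [h2, Real.log_div (by linarith) hB.ne', ← tp_eval] at h1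
  have h3 : Real.log (x + E) - (Real.log (A + E) - (tp (A + E) E N).eval x) =
      (tp (A + E) E N).eval x + (Real.log (x + E) - Real.log (A + E)) := by ring
  rw [h3]
  refine h1.trans ?_
  have h4 : v ^ (N + 1) / ((x + E) / (A + E)) ≤ (1 - q) ^ (N + 1) / q := by
    have : q ≤ (x + E) / (A + E) := by
      rw [hq]; gcongr; linarith
    gcongr
  have h5 : (1 - q) ^ (N + 1) ≤ 1 / (q * (N + 1)) := by
    have h6 : (1 - q) ≤ Real.exp (-q) := Real.one_sub_le_exp_neg q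
    have h7 : (1 - q) ^ (N + 1) ≤ Real.exp (-(q * (N + 1))) := by
      calc (1 - q) ^ (N + 1) ≤ (Real.exp (-q)) ^ (N + 1) := by
            gcongr
        _ = Real.exp (-(q * (N + 1))) := by
            rw [← Real.exp_nat_mul]
            congr 1
            push_cast
            ring
    refine h7.trans ?_
    rw [Real.exp_neg, one_div]
    refine inv_anti₀ (by positivity) ?_
    have := Real.add_one_le_exp (q * (N + 1))
    linarith
  calc v ^ (N + 1) / ((x + E) / (A + E)) ≤ (1 - q) ^ (N + 1) / q := h4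
    _ ≤ 1 / (q * (N + 1)) / q := by gcongr
    _ = (1 / q) ^ 2 / (N + 1) := by field_simp
    _ = ((A + E) / E) ^ 2 / (N + 1) := by rw [hq, one_div_div]

lemma hh_le (c : ι → ℂ) (e : ι → ℤ) (A : ℝ) (hbound : ∑ j, ‖c j‖ ≤ A) (θ : ℝ) :
    hh c e θ ≤ A := by
  refine le_trans ?_ hbound
  unfold hh ls
  refine (norm_sum_le _ _).trans (le_of_eq (Finset.sum_congr rfl (fun j _ => ?_)))
  rw [norm_mul, norm_zpow, norm_circleMap_one, one_zpow, mul_one]

/-- comparison of the smoothed logarithms -/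
lemma smooth_compare (c : ι → ℤ) (e e' : ι → ℤ) (N : ℕ) (h : SameRel N e e') (A ε : ℝ)
    (hε : 0 < ε) (hbound : ∑ j, ‖(c j : ℂ)‖ ≤ A) :
    circleAverage (fun z => Real.log (‖ls (fun j => (c j : ℂ)) e' z‖ ^ 2 + ε ^ 2) / 2) 0 1 ≤
      circleAverage (fun z => Real.log (‖ls (fun j => (c j : ℂ)) e z‖ ^ 2 + ε ^ 2) / 2) 0 1 +
        ((A ^ 2 + ε ^ 2) / ε ^ 2) ^ 2 / (N + 1) := by
  set c' : ι → ℂ := fun j => (c j : ℂ) with hc'
  set δ : ℝ := ((A ^ 2 + ε ^ 2) / ε ^ 2) ^ 2 / (N + 1) with hδ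
  set P := tp (A ^ 2 + ε ^ 2) (ε ^ 2) N with hP
  have hpt : ∀ (f : ι → ℤ) (θ : ℝ), |Real.log (hh c' f θ ^ 2 + ε ^ 2) -
      (Real.log (A ^ 2 + ε ^ 2) - P.eval (hh c' f θ ^ 2))| ≤ δ := by
    intro f θ
    have h1 : hh c' f θ ≤ A := hh_le c' f A hbound θ
    have h2 : hh c' f θ ^ 2 ≤ A ^ 2 := by
      gcongr
      exact hh_nonneg _ _ _
    exact tp_error (A ^ 2) (ε ^ 2) (hh c' f θ ^ 2) (by positivity) (by positivity) h2 N
  have hPint : ∀ f : ι → ℤ, Integrable (fun θ => P.eval (hh c' f θ ^ 2)) mu := by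
    intro f
    exact cont_integrable _ (P.continuous.comp ((hh_continuous c' f).pow 2))
  have hLint : ∀ f : ι → ℤ, Integrable (fun θ => Real.log (hh c' f θ ^ 2 + ε ^ 2) / 2) mu :=
    fun f => cont_integrable _ (sq_continuous c' f ε hε)
  have hPeq : ∫ θ, P.eval (hh c' e θ ^ 2) ∂mu = ∫ θ, P.eval (hh c' e' θ ^ 2) ∂mu :=
    poly_congr c e e' N h P (tp_natDegree _ _ N)
  have hmr : mu.real Set.univ = 2 * π := by
    rw [Measure.real, mu_univ, ENNReal.toReal_ofReal (by positivity)]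
  have h1 : ∫ θ, Real.log (hh c' e' θ ^ 2 + ε ^ 2) / 2 ∂mu ≤
      ∫ θ, ((Real.log (A ^ 2 + ε ^ 2) + δ) / 2 - P.eval (hh c' e' θ ^ 2) / 2) ∂mu := by
    refine integral_mono (hLint e') ((integrable_const _).sub ((hPint e').div_const _)) ?_
    intro θ
    have := (abs_le.mp (hpt e' θ)).2
    change Real.log (hh c' e' θ ^ 2 + ε ^ 2) / 2 ≤ _
    linarith
  have h2 : ∫ θ, ((Real.log (A ^ 2 + ε ^ 2) - δ) / 2 - P.eval (hh c' e θ ^ 2) / 2) ∂mu ≤
      ∫ θ, Real.log (hh c' e θ ^ 2 + ε ^ 2) / 2 ∂mu := by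
    refine integral_mono ((integrable_const _).sub ((hPint e).div_const _)) (hLint e) ?_
    intro θ
    have := (abs_le.mp (hpt e θ)).1
    change _ ≤ Real.log (hh c' e θ ^ 2 + ε ^ 2) / 2
    linarith
  have hd : ∀ f : ι → ℤ, ∫ θ, P.eval (hh c' f θ ^ 2) / 2 ∂mu =
      (∫ θ, P.eval (hh c' f θ ^ 2) ∂mu) / 2 := fun f => integral_div _ _
  rw [integral_sub (integrable_const _) ((hPint _).div_const _), integral_const, hd,
    hmr, smul_eq_mul] at h1 h2
  rw [circleAverage_eq, circleAverage_eq]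
  change (2 * π)⁻¹ * ∫ θ, Real.log (hh c' e' θ ^ 2 + ε ^ 2) / 2 ∂mu ≤
    (2 * π)⁻¹ * ∫ θ, Real.log (hh c' e θ ^ 2 + ε ^ 2) / 2 ∂mu + δ
  have h3 : ∫ θ, Real.log (hh c' e' θ ^ 2 + ε ^ 2) / 2 ∂mu ≤
      ∫ θ, Real.log (hh c' e θ ^ 2 + ε ^ 2) / 2 ∂mu + 2 * π * δ := by
    rw [← hPeq] at h1
    linarith
  calc _ ≤ (2 * π)⁻¹ * (∫ θ, Real.log (hh c' e θ ^ 2 + ε ^ 2) / 2 ∂mu + 2 * π * δ) :=
        mul_le_mul_of_nonneg_left h3 (by positivity)
    _ = _ := by
        rw [mul_add, ← mul_assoc (2 * π)⁻¹ (2 * π), inv_mul_cancel₀ (by positivity), one_mul]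

end Pool.Agent.Lib.MP_7ab245_nt.Mono
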