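import Mathlib

/-!
Definitions for the lower bound of the Mahler measure in terms of the number of monomials.
-/

set_option autoImplicit false

open Polynomial MeasureTheory Real

namespace Pool.Agent.Lib.MP_7ab245_nt.Mono

/-- Laurent sum `∑ c_j z^{e_j}` -/
noncomputable def ls {ι : Type} [Fintype ι] (c : ι → ℂ) (e : ι → ℤ) (z : ℂ) : ℂ :=
  ∑ j, c j * z ^ (e j)

/-- logarithmic Mahler measure of an integral Laurent sum -/
noncomputable def lm {ι : Type} [Fintype ι] (c : ι → ℤ) (e : ι → ℤ) : ℝ :=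
  circleAverage (fun z => Real.log ‖ls (fun j => (c j : ℂ)) e z‖) 0 1

/-- the exponent vectors satisfy the same additive relations of order at most `N` -/
def SameRel {ι : Type} (N : ℕ) (e e' : ι → ℤ) : Prop :=
  ∀ l ≤ N, ∀ w : Fin l → ι × ι,
    (∑ s, (e (w s).1 - e (w s).2) = 0 ↔ ∑ s, (e' (w s).1 - e' (w s).2) = 0)

end Pool.Agent.Lib.MP_7ab245_nt.Mono
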