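import Mathlib
import Pool.Agent.Lib.MP_7ab245_nt.Mono.Defs

/-!
Multiplicities of zeros of sparse (Laurent) polynomials, via the operator `X d/dX`.
-/

set_option autoImplicit false

open Polynomial

namespace Pool.Agent.Lib.MP_7ab245_nt.Mono

noncomputable def theta (P : ℂ[X]) : ℂ[X] := X * derivative P

/-- sparse polynomial -/
noncomputable def lp {ι : Type} [Fintype ι] (c : ι → ℂ) (n : ι → ℕ) : ℂ[X] :=
  ∑ j, C (c j) * X ^ (n j)

lemma theta_lp {ι : Type} [Fintype ι] (c : ι → ℂ) (n : ι → ℕ) :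
    theta (lp c n) = lp (fun j => c j * (n j : ℂ)) n := by
  rw [theta, lp, derivative_sum, Finset.mul_sum, lp]
  refine Finset.sum_congr rfl fun j _ => ?_
  rw [derivative_C_mul_X_pow]
  rcases Nat.eq_zero_or_pos (n j) with h | h
  · simp [h]
  · obtain ⟨k, hk⟩ := Nat.exists_eq_add_of_lt h
    have : n j - 1 + 1 = n j := by omega
    conv_rhs => rw [← this, pow_succ]
    rw [this]
    ring

lemma theta_iter_lp {ι : Type} [Fintype ι] (n : ι → ℕ) (i : ℕ) : ∀ (c : ι → ℂ),
    theta^[i] (lp c n) = lp (fun j => c j * (n j : ℂ) ^ i) n := by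
  induction i with
  | zero => intro c; simp
  | succ i ih =>
    intro c
    rw [Function.iterate_succ_apply, theta_lp, ih]
    congr 1
    funext j
    ring

lemma theta_dvd {z : ℂ} {a : ℕ} {P : ℂ[X]} (h : (X - C z) ^ (a + 1) ∣ P) :
    (X - C z) ^ a ∣ theta P := by
  obtain ⟨Q, rfl⟩ := h
  refine ⟨X * (C ((a : ℂ) + 1) * Q + (X - C z) * derivative Q), ?_⟩
  rw [theta, derivative_mul, derivative_pow, derivative_sub, derivative_X, derivative_C]
  simp only [Nat.add_sub_cancel, sub_zero, mul_one]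
  push_cast
  rw [C_add, C_1]
  simp only [map_natCast]
  ring

lemma eval_theta_iter {z : ℂ} (i : ℕ) : ∀ {a : ℕ} {P : ℂ[X]}, (X - C z) ^ a ∣ P → i < a →
    (theta^[i] P).eval z = 0 := by
  induction i with
  | zero =>
    intro a P h hi
    have h1 : X - C z ∣ P := (dvd_pow_self _ (by omega)).trans h
    exact dvd_iff_isRoot.mp h1
  | succ i ih =>
    intro a P h hi
    obtain ⟨b, rfl⟩ : ∃ b, a = b + 1 := ⟨a - 1, by omega⟩
    rw [Function.iterate_succ_apply]
    exact ih (theta_dvd h) (by omega)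

lemma eval_theta_iter_mul {z : ℂ} (a : ℕ) : ∀ Q : ℂ[X],
    (theta^[a] ((X - C z) ^ a * Q)).eval z = z ^ a * (a.factorial : ℂ) * Q.eval z := by
  induction a with
  | zero => intro Q; simp
  | succ a ih =>
    intro Q
    have h1 : theta ((X - C z) ^ (a + 1) * Q) =
        (X - C z) ^ a * (X * (C ((a : ℂ) + 1) * Q + (X - C z) * derivative Q)) := by
      rw [theta, derivative_mul, derivative_pow, derivative_sub, derivative_X, derivative_C]
      simp only [Nat.add_sub_cancel, sub_zero, mul_one]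
      push_cast
      rw [C_add, C_1]
      simp only [map_natCast]
      ring
    rw [Function.iterate_succ_apply, h1, ih]
    simp only [eval_mul, eval_add, eval_X, eval_C, eval_sub, sub_self, zero_mul, add_zero]
    rw [Nat.factorial_succ]
    push_cast
    ring

lemma dvd_of_theta {z : ℂ} (hz : z ≠ 0) (P : ℂ[X]) : ∀ a : ℕ,
    (∀ i < a, (theta^[i] P).eval z = 0) → (X - C z) ^ a ∣ P := by
  intro a
  induction a with
  | zero => intro _; simp
  | succ a ih =>
    intro h
    obtain ⟨Q, hQ⟩ := ih fun i hi => h i (by omega)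
    have h1 := h a (by omega)
    rw [hQ, eval_theta_iter_mul] at h1
    have h2 : Q.eval z = 0 := by
      rcases mul_eq_zero.mp h1 with h3 | h3
      · rcases mul_eq_zero.mp h3 with h4 | h4
        · exact absurd h4 (pow_ne_zero _ hz)
        · exact absurd (Nat.cast_eq_zero.mp h4) (Nat.factorial_ne_zero a)
      · exact h3
    obtain ⟨R, hR⟩ := dvd_iff_isRoot.mpr h2
    exact ⟨R, by rw [hQ, hR]; ring⟩

lemma eval_lp {ι : Type} [Fintype ι] (c : ι → ℂ) (n : ι → ℕ) (z : ℂ) :
    (lp c n).eval z = ∑ j, c j * z ^ (n j) := by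
  rw [lp, eval_finsetSum]
  simp

/-- weights of degree `< a` annihilate: natural exponents -/
lemma weight_nat {ι : Type} [Fintype ι] (c : ι → ℂ) (n : ι → ℕ) {z : ℂ} {a : ℕ}
    (h : (X - C z) ^ a ∣ lp c n) (φ : ℂ[X]) (hφ : φ.degree < a) :
    ∑ j, c j * φ.eval (n j : ℂ) * z ^ (n j) = 0 := by
  have h1 : ∀ i < a, ∑ j, c j * (n j : ℂ) ^ i * z ^ (n j) = 0 := by
    intro i hi
    have := eval_theta_iter i h hi
    rwa [theta_iter_lp, eval_lp] at this
  have h2 : ∀ x : ℂ, φ.eval x = ∑ i ∈ Finset.range a, φ.coeff i * x ^ i := by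
    intro x
    rcases eq_or_ne φ 0 with h0 | h0
    · simp [h0]
    · exact eval_eq_sum_range' ((natDegree_lt_iff_degree_lt h0).mpr hφ) x
  simp only [h2, Finset.mul_sum, Finset.sum_mul]
  rw [Finset.sum_comm]
  refine Finset.sum_eq_zero fun i hi => ?_
  have h3 := h1 i (Finset.mem_range.mp hi)
  calc ∑ j, c j * (φ.coeff i * (n j : ℂ) ^ i) * z ^ (n j)
      = φ.coeff i * ∑ j, c j * (n j : ℂ) ^ i * z ^ (n j) := by
        rw [Finset.mul_sum]; exact Finset.sum_congr rfl fun j _ => by ring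
    _ = 0 := by rw [h3, mul_zero]

/-- weights of degree `< a` annihilate: integer exponents -/
lemma weight_int {ι : Type} [Fintype ι] (c : ι → ℂ) (e : ι → ℤ) (s : ℤ) (hs : ∀ j, 0 ≤ e j + s)
    {z : ℂ} (hz : z ≠ 0) {a : ℕ} (h : (X - C z) ^ a ∣ lp c fun j => (e j + s).toNat)
    (φ : ℂ[X]) (hφ : φ.degree < a) : ∑ j, c j * φ.eval (e j : ℂ) * z ^ (e j) = 0 := by
  have h1 := weight_nat c _ h (φ.comp (X - C (s : ℂ))) (by
    rcases eq_or_ne φ 0 with h0 | h0
    · simp [h0]
    · have hd : (φ.comp (X - C (s : ℂ))).natDegree = φ.natDegree := by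
        rw [natDegree_comp, natDegree_X_sub_C, mul_one]
      have : (φ.comp (X - C (s : ℂ))) ≠ 0 := by
        intro h2
        have h3 : (φ.comp (X - C (s : ℂ))).comp (X + C (s : ℂ)) = φ := by
          rw [comp_assoc]; simp
        rw [h2, zero_comp] at h3
        exact h0 h3.symm
      rw [degree_eq_natDegree this, hd, ← degree_eq_natDegree h0]
      exact hφ)
  have h2 : ∀ j, ((((e j + s).toNat : ℕ) : ℤ)) = e j + s := fun j => Int.toNat_of_nonneg (hs j)
  have h3 : ∀ j, ((((e j + s).toNat : ℕ)) : ℂ) = (e j : ℂ) + s := by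
    intro j
    have := congrArg (fun x : ℤ => (x : ℂ)) (h2 j)
    push_cast at this
    simpa using this
  have h4 : ∑ j, c j * φ.eval (e j : ℂ) * z ^ (e j) =
      z ^ (-s) * ∑ j, c j * (φ.comp (X - C (s : ℂ))).eval ((((e j + s).toNat : ℕ)) : ℂ) *
        z ^ ((e j + s).toNat) := by
    rw [Finset.mul_sum]
    refine Finset.sum_congr rfl fun j _ => ?_
    have h5 : z ^ (e j) = z ^ (-s) * z ^ ((e j + s).toNat) := by
      rw [← zpow_natCast z, h2, ← zpow_add₀ hz]; congr 1; ring
    rw [h5, h3, eval_comp, eval_sub, eval_X, eval_C, add_sub_cancel_right]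
    ring
  rw [h4, h1, mul_zero]

/-- converse: enough annihilating weights give divisibility -/
lemma dvd_of_weight {ι : Type} [Fintype ι] (c : ι → ℂ) (e : ι → ℤ) (s : ℤ)
    (hs : ∀ j, 0 ≤ e j + s) {z : ℂ} (hz : z ≠ 0) {a : ℕ}
    (h : ∀ φ : ℂ[X], φ.degree < a → ∑ j, c j * φ.eval (e j : ℂ) * z ^ (e j) = 0) :
    (X - C z) ^ a ∣ lp c fun j => (e j + s).toNat := by
  have h2 : ∀ j, ((((e j + s).toNat : ℕ) : ℤ)) = e j + s := fun j => Int.toNat_of_nonneg (hs j)
  have h3 : ∀ j, ((((e j + s).toNat : ℕ)) : ℂ) = (e j : ℂ) + s := by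
    intro j
    have := congrArg (fun x : ℤ => (x : ℂ)) (h2 j)
    push_cast at this
    simpa using this
  apply dvd_of_theta hz
  intro i hi
  rw [theta_iter_lp, eval_lp]
  have h1 := h ((X + C (s : ℂ)) ^ i) (by
    refine lt_of_le_of_lt (degree_pow_le _ _) ?_
    rw [degree_X_add_C]
    simp only [nsmul_eq_mul, mul_one]
    exact_mod_cast hi)
  have h4 : ∑ j, c j * ((((e j + s).toNat : ℕ)) : ℂ) ^ i * z ^ ((e j + s).toNat) =
      z ^ s * ∑ j, c j * ((X + C (s : ℂ)) ^ i).eval (e j : ℂ) * z ^ (e j) := by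
    rw [Finset.mul_sum]
    refine Finset.sum_congr rfl fun j _ => ?_
    have h5 : z ^ ((e j + s).toNat) = z ^ s * z ^ (e j) := by
      rw [← zpow_natCast z, h2, ← zpow_add₀ hz]; congr 1; ring
    rw [h5, h3, eval_pow, eval_add, eval_X, eval_C]
    ring
  rw [h4, h1, mul_zero]

/-- the multiplicity of a nonzero root is less than the number of monomials -/
lemma mult_lt_card {ι : Type} [Fintype ι] [Nonempty ι] (c : ι → ℂ) (hc : ∀ j, c j ≠ 0)
    (e : ι → ℤ) (he : Function.Injective e) (s : ℤ) (hs : ∀ j, 0 ≤ e j + s) {z : ℂ} (hz : z ≠ 0)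
    {a : ℕ} (h : (X - C z) ^ a ∣ lp c fun j => (e j + s).toNat) : a < Fintype.card ι := by
  by_contra hcon
  push Not at hcon
  set k := Fintype.card ι
  let eq := (Fintype.equivFin ι).symm
  have h1 : (fun i : Fin k => c (eq i) * z ^ (e (eq i))) = 0 := by
    refine Matrix.eq_zero_of_forall_pow_sum_mul_pow_eq_zero
      (f := fun i : Fin k => ((e (eq i) : ℤ) : ℂ)) ?_ ?_
    · intro i j hij
      have hij' : ((e (eq i) : ℤ) : ℂ) = ((e (eq j) : ℤ) : ℂ) := hij
      exact eq.injective (he (by exact_mod_cast hij'))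
    · intro i
      have h2 := weight_int c e s hs hz h (X ^ (i : ℕ)) (by
        rw [degree_X_pow]
        have := i.2
        exact_mod_cast lt_of_lt_of_le this hcon)
      rw [← eq.sum_comp] at h2
      rw [← h2]
      refine Finset.sum_congr rfl fun j _ => ?_
      rw [eval_pow, eval_X]; ring
  obtain ⟨j₀⟩ := ‹Nonempty ι›
  have h3 := congrFun h1 (eq.symm j₀)
  simp only [Equiv.apply_symm_apply, Pi.zero_apply] at h3
  rcases mul_eq_zero.mp h3 with h4 | h4
  · exact hc _ h4
  · exact zpow_ne_zero _ hz h4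

end Pool.Agent.Lib.MP_7ab245_nt.Mono
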