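import Mathlib
import Pool.Agent.Lib.MP_7ab245_nt.Mono.Defs
import Pool.Agent.Lib.MP_7ab245_nt.Mono.Multi

/-!
Bridging the logarithmic Mahler measure `lm` of Laurent sums with polynomials.
-/

set_option autoImplicit false

open Polynomial Real

namespace Pool.Agent.Lib.MP_7ab245_nt.Mono

variable {ι : Type} [Fintype ι]

lemma toNat_cast {e : ι → ℤ} {s : ℤ} (hs : ∀ j, 0 ≤ e j + s) (j : ι) :
    (((e j + s).toNat : ℕ) : ℤ) = e j + s := Int.toNat_of_nonneg (hs j)

lemma eval_lp_shift (c : ι → ℂ) (e : ι → ℤ) (s : ℤ) (hs : ∀ j, 0 ≤ e j + s) {z : ℂ}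
    (hz : z ≠ 0) : (lp c fun j => (e j + s).toNat).eval z = z ^ s * ls c e z := by
  rw [eval_lp, ls, Finset.mul_sum]
  refine Finset.sum_congr rfl fun j _ => ?_
  rw [← zpow_natCast z, toNat_cast hs, zpow_add₀ hz]
  ring

lemma lm_eq_log (c : ι → ℤ) (e : ι → ℤ) (s : ℤ) (hs : ∀ j, 0 ≤ e j + s) :
    lm c e = (lp (fun j => (c j : ℂ)) fun j => (e j + s).toNat).logMahlerMeasure := by
  rw [lm, logMahlerMeasure_def]
  apply circleAverage_congr_sphere
  intro z hz
  rw [abs_one, mem_sphere_zero_iff_norm] at hz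
  have hz0 : z ≠ 0 := by
    intro h; rw [h, norm_zero] at hz; exact zero_ne_one hz
  simp only
  rw [eval_lp_shift _ _ _ hs hz0, norm_mul, norm_zpow, hz, one_zpow, one_mul]

lemma lm_shift (c : ι → ℤ) (e : ι → ℤ) (s : ℤ) : lm c (fun j => e j + s) = lm c e := by
  rw [lm, lm]
  apply circleAverage_congr_sphere
  intro z hz
  rw [abs_one, mem_sphere_zero_iff_norm] at hz
  have hz0 : z ≠ 0 := by
    intro h; rw [h, norm_zero] at hz; exact zero_ne_one hz
  have h1 : ls (fun j => (c j : ℂ)) (fun j => e j + s) z = z ^ s * ls (fun j => (c j : ℂ)) e z := by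
    rw [ls, ls, Finset.mul_sum]
    refine Finset.sum_congr rfl fun j _ => ?_
    rw [zpow_add₀ hz0]; ring
  simp only
  rw [h1, norm_mul, norm_zpow, hz, one_zpow, one_mul]

/-- integral sparse polynomial -/
noncomputable def ip (c : ι → ℤ) (n : ι → ℕ) : ℤ[X] := ∑ j, C (c j) * X ^ (n j)

lemma ip_map (c : ι → ℤ) (n : ι → ℕ) :
    (ip c n).map (Int.castRingHom ℂ) = lp (fun j => (c j : ℂ)) n := by
  rw [ip, Polynomial.map_sum, lp]
  refine Finset.sum_congr rfl fun j _ => ?_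
  simp

lemma lp_coeff (c : ι → ℂ) (n : ι → ℕ) (hn : Function.Injective n) (j : ι) :
    (lp c n).coeff (n j) = c j := by
  classical
  rw [lp, finsetSum_coeff, Finset.sum_eq_single j]
  · simp
  · intro i _ hij
    rw [coeff_C_mul, coeff_X_pow, if_neg (fun h => hij (hn h.symm)), mul_zero]
  · simp

lemma toNat_injective {e : ι → ℤ} (he : Function.Injective e) {s : ℤ} (hs : ∀ j, 0 ≤ e j + s) :
    Function.Injective fun j => (e j + s).toNat := by
  intro i j hij
  apply he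
  have h1 := toNat_cast hs i
  have h2 := toNat_cast hs j
  simp only at hij
  rw [hij, h2] at h1
  linarith

lemma lp_ne_zero [Nonempty ι] (c : ι → ℂ) (hc : ∀ j, c j ≠ 0) (n : ι → ℕ)
    (hn : Function.Injective n) : lp c n ≠ 0 := by
  obtain ⟨j⟩ := ‹Nonempty ι›
  intro h
  have h1 := lp_coeff c n hn j
  rw [h, coeff_zero] at h1
  exact hc j h1.symm

lemma exists_shift [Nonempty ι] (e : ι → ℤ) :
    ∃ s : ℤ, (∀ j, 0 ≤ e j + s) ∧ ∃ j, e j + s = 0 := by
  classical
  obtain ⟨j₀, _, hj₀⟩ := Finset.exists_min_image Finset.univ e Finset.univ_nonempty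
  exact ⟨-e j₀, fun j => by have := hj₀ j (Finset.mem_univ j); linarith, j₀, by ring⟩

lemma log_mahler_nonneg {F : ℤ[X]} (hF : F ≠ 0) :
    0 ≤ (F.map (Int.castRingHom ℂ)).logMahlerMeasure := by
  rw [logMahlerMeasure_eq_log_MahlerMeasure]
  exact Real.log_nonneg (one_le_mahlerMeasure_of_ne_zero hF)

lemma ip_ne_zero [Nonempty ι] (c : ι → ℤ) (hc : ∀ j, c j ≠ 0) (n : ι → ℕ)
    (hn : Function.Injective n) : ip c n ≠ 0 := by
  intro h
  have h1 := lp_ne_zero (fun j => (c j : ℂ)) (fun j => by exact_mod_cast hc j) n hn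
  apply h1
  rw [← ip_map, h, Polynomial.map_zero]

lemma lm_nonneg [Nonempty ι] (c : ι → ℤ) (hc : ∀ j, c j ≠ 0) (e : ι → ℤ)
    (he : Function.Injective e) : 0 ≤ lm c e := by
  obtain ⟨s, hs, _⟩ := exists_shift e
  rw [lm_eq_log c e s hs, ← ip_map]
  exact log_mahler_nonneg (ip_ne_zero c hc _ (toNat_injective he hs))

/-- Kronecker: if the Mahler measure is one then all zeros are roots of unity. -/
lemma zeros_of_lm_zero [Nonempty ι] (c : ι → ℤ) (hc : ∀ j, c j ≠ 0) (e : ι → ℤ)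
    (he : Function.Injective e) (h : lm c e = 0) :
    ∃ s : ℤ, (∀ j, 0 ≤ e j + s) ∧
      (lp (fun j => (c j : ℂ)) fun j => (e j + s).toNat) ≠ 0 ∧
      (∀ z ∈ (lp (fun j => (c j : ℂ)) fun j => (e j + s).toNat).roots,
        z ≠ 0 ∧ ∃ n : ℕ, 0 < n ∧ z ^ n = 1) ∧
      ∀ i j, e i - e j ≤
        ((Multiset.card (lp (fun j => (c j : ℂ)) fun j => (e j + s).toNat).roots : ℕ) : ℤ) := by
  obtain ⟨s, hs, j₀, hj₀⟩ := exists_shift e
  have hn := toNat_injective he hs
  have hcC : ∀ j, (c j : ℂ) ≠ 0 := fun j => by exact_mod_cast hc j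
  set F := lp (fun j => (c j : ℂ)) fun j => (e j + s).toNat with hF
  have hF0 : F ≠ 0 := lp_ne_zero _ hcC _ hn
  have hM : ((ip c fun j => (e j + s).toNat).map (Int.castRingHom ℂ)).mahlerMeasure = 1 := by
    rw [ip_map, ← hF]
    rw [lm_eq_log c e s hs, ← hF, logMahlerMeasure_eq_log_MahlerMeasure] at h
    have hpos := mahlerMeasure_pos_of_ne_zero hF0
    rcases Real.log_eq_zero.mp h with h1 | h1 | h1
    · exact absurd h1 hpos.ne'
    · exact h1
    · linarith
  refine ⟨s, hs, hF0, ?_, ?_⟩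
  · intro z hz
    have hz0 : z ≠ 0 := by
      intro h0
      rw [h0, mem_roots hF0, IsRoot.def, ← coeff_zero_eq_eval_zero] at hz
      have h1 := lp_coeff (fun j => (c j : ℂ)) _ hn j₀
      simp only [hj₀, Int.toNat_zero] at h1
      rw [← hF, hz] at h1
      exact hcC j₀ h1.symm
    refine ⟨hz0, ?_⟩
    refine pow_eq_one_of_mahlerMeasure_eq_one hM hz0 ?_
    rw [aroots_def]
    change z ∈ ((ip c fun j => (e j + s).toNat).map (Int.castRingHom ℂ)).roots
    rw [ip_map, ← hF]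
    exact hz
  · intro i j
    rw [IsAlgClosed.card_roots_eq_natDegree]
    have h1 : (e i + s).toNat ≤ F.natDegree := by
      apply le_natDegree_of_ne_zero
      rw [hF, lp_coeff _ _ hn i]
      exact hcC i
    have h2 := toNat_cast hs i
    have h3 := hs j
    have h4 : (((e i + s).toNat : ℕ) : ℤ) ≤ (F.natDegree : ℤ) := by exact_mod_cast h1
    linarith

end Pool.Agent.Lib.MP_7ab245_nt.Mono
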