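import Mathlib
import Pool.Agent.Lib.MP_7ab245_nt.Mono.Defs
import Pool.Agent.Lib.MP_7ab245_nt.Mono.Multi
import Pool.Agent.Lib.MP_7ab245_nt.Mono.LM

/-!
Auxiliary facts on binomials and sparse polynomials for the line lemma.
-/

set_option autoImplicit false

open Polynomial Real

namespace Pool.Agent.Lib.MP_7ab245_nt.Mono

lemma monic_binom {b : ℕ} (hb : 0 < b) (w : ℂ) : (X ^ b - C w : ℂ[X]).Monic :=
  monic_X_pow_sub_C w hb.ne'

/-- divisibility by a power of a binomial can be tested at its roots -/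
lemma binom_dvd {b : ℕ} (hb : 0 < b) {w : ℂ} (hw : w ≠ 0) (G : ℂ[X]) (μ : ℕ)
    (h : ∀ y : ℂ, y ^ b = w → (X - C y) ^ μ ∣ G) : (X ^ b - C w) ^ μ ∣ G := by
  classical
  set P : ℂ[X] := X ^ b - C w with hP
  have hPm : P.Monic := monic_binom hb w
  have hsep : P.Separable := separable_X_pow_sub_C w (by exact_mod_cast hb.ne') hw
  have hnd : P.roots.Nodup := nodup_roots hsep
  have hprod : P = ∏ y ∈ P.roots.toFinset, (X - C y) := by
    have h1 := (IsAlgClosed.splits P).eq_prod_roots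
    rw [hPm.leadingCoeff, C_1, one_mul] at h1
    rw [Finset.prod_eq_multiset_prod, Multiset.toFinset_val, hnd.dedup]
    exact h1
  rw [hprod, ← Finset.prod_pow]
  apply Finset.prod_dvd_of_coprime
  · intro y _ y' _ hyy
    exact (isCoprime_X_sub_C_of_isUnit_sub (sub_ne_zero.mpr hyy).isUnit).pow
  · intro y hy
    apply h
    rw [Multiset.mem_toFinset, mem_roots hPm.ne_zero, IsRoot.def, hP, eval_sub, eval_pow, eval_X,
      eval_C, sub_eq_zero] at hy
    exact hy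

lemma binom_coprime {b b' : ℕ} {w w' : ℂ} (h : ∀ y : ℂ, y ^ b = w → y ^ b' ≠ w') :
    IsCoprime (X ^ b - C w : ℂ[X]) (X ^ b' - C w') := by
  rw [isCoprime_iff_aeval_ne_zero_of_isAlgClosed ℂ ℂ]
  intro a
  by_cases h1 : a ^ b = w
  · right
    have := h a h1
    simpa [sub_eq_zero] using this
  · left
    simpa [sub_eq_zero] using h1

lemma mahler_lp_le {ι : Type} [Fintype ι] (c : ι → ℂ) (n : ι → ℕ) :
    (lp c n).mahlerMeasure ≤ ∑ j, ‖c j‖ := by
  classical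
  refine (mahlerMeasure_le_sum_norm_coeff _).trans ?_
  rw [Polynomial.sum_def]
  have h1 : ∀ i, ‖(lp c n).coeff i‖ ≤ ∑ j, if n j = i then ‖c j‖ else 0 := by
    intro i
    rw [lp, finsetSum_coeff]
    refine (norm_sum_le _ _).trans (Finset.sum_le_sum fun j _ => ?_)
    rw [coeff_C_mul, coeff_X_pow]
    by_cases hji : n j = i
    · rw [if_pos hji.symm, if_pos hji, mul_one]
    · rw [if_neg (fun h => hji h.symm), if_neg hji, mul_zero, norm_zero]
  refine (Finset.sum_le_sum fun i _ => h1 i).trans ?_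
  rw [Finset.sum_comm]
  refine Finset.sum_le_sum fun j _ => ?_
  rw [Finset.sum_ite_eq]
  split_ifs
  · exact le_rfl
  · exact norm_nonneg _

lemma mahler_binom {d : ℕ} (hd : 0 < d) {w : ℂ} (hw : ‖w‖ = 1) :
    (X ^ d - C w : ℂ[X]).mahlerMeasure = 1 := by
  rw [mahlerMeasure_eq_leadingCoeff_mul_prod_roots, (monic_binom hd w).leadingCoeff, norm_one,
    one_mul]
  apply Multiset.prod_eq_one
  intro x hx
  rw [Multiset.mem_map] at hx
  obtain ⟨a, ha, rfl⟩ := hx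
  rw [mem_roots (monic_binom hd w).ne_zero, IsRoot.def, eval_sub, eval_pow, eval_X, eval_C,
    sub_eq_zero] at ha
  have h1 : ‖a‖ ^ d = 1 := by rw [← norm_pow, ha, hw]
  have h2 : ‖a‖ = 1 := by
    rwa [pow_eq_one_iff_of_nonneg (norm_nonneg _) hd.ne'] at h1
  rw [h2, max_self]

/-- lower bound for an integral Laurent sum at a large real point -/
lemma laurent_lower {ι : Type} [Fintype ι] (J : Finset ι) (hJ : J.Nonempty) (c : ι → ℤ)
    (hc : ∀ j ∈ J, c j ≠ 0) (ρ : ι → ℤ) (hinj : ∀ i ∈ J, ∀ j ∈ J, ρ i = ρ j → i = j) (S : ℤ)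
    (hS : ∀ j, |ρ j| ≤ S) {A R : ℝ} (hA : ∑ j, |(c j : ℝ)| ≤ A) (hR : 2 * A + 2 ≤ R) :
    R ^ (-S) / 2 ≤ ‖∑ j ∈ J, (c j : ℂ) * (R : ℂ) ^ (ρ j)‖ := by
  classical
  have hA0 : 0 ≤ A := le_trans (Finset.sum_nonneg fun _ _ => abs_nonneg _) hA
  have hR0 : 0 < R := by linarith
  have hR1 : 1 ≤ R := by linarith
  obtain ⟨j₀, hj₀, hmax⟩ := Finset.exists_max_image J ρ hJ
  have hnorm : ∀ j, ‖(c j : ℂ) * (R : ℂ) ^ (ρ j)‖ = |(c j : ℝ)| * R ^ (ρ j) := by
    intro j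
    rw [norm_mul, norm_zpow, Complex.norm_intCast, Complex.norm_real, Real.norm_of_nonneg hR0.le]
  have hsplit : ∑ j ∈ J, (c j : ℂ) * (R : ℂ) ^ (ρ j) =
      (c j₀ : ℂ) * (R : ℂ) ^ (ρ j₀) + ∑ j ∈ J.erase j₀, (c j : ℂ) * (R : ℂ) ^ (ρ j) :=
    (Finset.add_sum_erase J _ hj₀).symm
  have h1 : R ^ (ρ j₀) ≤ ‖(c j₀ : ℂ) * (R : ℂ) ^ (ρ j₀)‖ := by
    rw [hnorm]
    have : (1 : ℝ) ≤ |(c j₀ : ℝ)| := by
      exact_mod_cast Int.one_le_abs (hc j₀ hj₀)
    nlinarith [zpow_pos hR0 (ρ j₀)]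
  have h2 : ‖∑ j ∈ J.erase j₀, (c j : ℂ) * (R : ℂ) ^ (ρ j)‖ ≤ A * R ^ (ρ j₀ - 1) := by
    refine (norm_sum_le _ _).trans ?_
    calc ∑ j ∈ J.erase j₀, ‖(c j : ℂ) * (R : ℂ) ^ (ρ j)‖
        ≤ ∑ j ∈ J.erase j₀, |(c j : ℝ)| * R ^ (ρ j₀ - 1) := by
          refine Finset.sum_le_sum fun j hj => ?_
          rw [hnorm]
          have hjJ := Finset.mem_of_mem_erase hj
          have hne := Finset.ne_of_mem_erase hj
          have hle := hmax j hjJ
          have hlt : ρ j ≠ ρ j₀ := fun h => hne (hinj j hjJ j₀ hj₀ h)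
          have h3 : ρ j ≤ ρ j₀ - 1 := by omega
          gcongr
      _ = (∑ j ∈ J.erase j₀, |(c j : ℝ)|) * R ^ (ρ j₀ - 1) := by rw [Finset.sum_mul]
      _ ≤ A * R ^ (ρ j₀ - 1) := by
          gcongr
          refine le_trans ?_ hA
          exact Finset.sum_le_sum_of_subset_of_nonneg (Finset.subset_univ _)
            fun _ _ _ => abs_nonneg _
  have h3 : R ^ (ρ j₀ - 1) = R ^ (ρ j₀) / R := by
    rw [zpow_sub₀ hR0.ne', zpow_one]
  have h4 : A * R ^ (ρ j₀ - 1) ≤ R ^ (ρ j₀) / 2 := by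
    rw [h3, mul_div_assoc', div_le_div_iff₀ hR0 two_pos]
    have := zpow_pos hR0 (ρ j₀)
    nlinarith
  have h5 : R ^ (-S) ≤ R ^ (ρ j₀) := by
    apply zpow_le_zpow_right₀ hR1
    have := abs_le.mp (hS j₀)
    linarith [this.1]
  rw [hsplit]
  have h6 := norm_sub_norm_le ((c j₀ : ℂ) * (R : ℂ) ^ (ρ j₀))
    (-(∑ j ∈ J.erase j₀, (c j : ℂ) * (R : ℂ) ^ (ρ j)))
  rw [norm_neg, sub_neg_eq_add] at h6
  linarith

/-- few elements of a finite set have a given power -/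
lemma card_pow_eq_le (Z : Finset ℂ) {N : ℕ} (hN : 0 < N) (w : ℂ) [DecidablePred fun z : ℂ => z ^ N = w] :
    (Z.filter fun z => z ^ N = w).card ≤ N := by
  classical
  have h1 : (Z.filter fun z => z ^ N = w) ⊆ (nthRoots N w).toFinset := by
    intro z hz
    rw [Multiset.mem_toFinset, mem_nthRoots hN]
    exact (Finset.mem_filter.mp hz).2
  calc (Z.filter fun z => z ^ N = w).card ≤ (nthRoots N w).toFinset.card := Finset.card_le_card h1
    _ ≤ Multiset.card (nthRoots N w) := Multiset.toFinset_card_le _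
    _ ≤ N := card_nthRoots N w

end Pool.Agent.Lib.MP_7ab245_nt.Mono
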