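import Mathlib
import Pool.Agent.Lib.MP_7ab245_nt.Mono.Defs

/-!
# Small ball estimate for Laurent sums (Nazarov-Turan on the circle)

`small_ball`: if `f(z) = ∑ c_j z^{e_j}` has at most `κ` terms (distinct integer exponents) and some
`|c_m| ≥ 1` then the set of `θ` in `(0, 2π]` with `|f(e^{iθ})| ≤ t` has measure at most
`2π · 14 κ t^{1/κ}`.

* `SB.weak_type`: weak type bound for boundary values of functions with nonnegative real part;
* `SB.A1`: weak type bound for `z P'(z) / P(z)` on the circle (constant `6`);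
* `SB.A2`: the same for Laurent sums and `θ f - s f`;
* `SB.A3`: induction on the number of terms.
-/

set_option autoImplicit false
set_option maxHeartbeats 4000000

open Polynomial MeasureTheory Real Set Filter Topology

namespace Pool.Agent.Lib.MP_7ab245_nt.Mono.SB

/-- the quotient `w / (w + lam)` -/
lemma norm_quot_le (w : ℂ) (lam : ℝ) (hlam : 0 < lam) (hw : 0 ≤ w.re) :
    ‖w / (w + lam)‖ ≤ 1 := by
  rw [norm_div]
  apply div_le_one_of_le₀ _ (norm_nonneg _)
  rw [← sq_le_sq₀ (norm_nonneg _) (norm_nonneg _), ← Complex.normSq_eq_norm_sq,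
    ← Complex.normSq_eq_norm_sq, Complex.normSq_apply, Complex.normSq_apply]
  simp
  nlinarith

lemma re_quot (w : ℂ) (lam : ℝ) :
    (w / (w + lam)).re = (Complex.normSq w + lam * w.re) / Complex.normSq (w + lam) := by
  rw [Complex.div_re, ← add_div]
  congr 1
  simp [Complex.normSq_apply]
  ring

lemma add_ne (w : ℂ) (lam : ℝ) (hlam : 0 < lam) (hw : 0 ≤ w.re) : w + lam ≠ 0 := by
  intro h
  have := congrArg Complex.re h
  simp at this
  linarith

lemma re_quot_nonneg (w : ℂ) (lam : ℝ) (hlam : 0 < lam) (hw : 0 ≤ w.re) :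
    0 ≤ (w / (w + lam)).re := by
  rw [re_quot]
  have := Complex.normSq_nonneg w
  have := Complex.normSq_nonneg (w + lam)
  positivity

lemma re_quot_ge (w : ℂ) (lam : ℝ) (hlam : 0 < lam) (hw : 0 ≤ w.re) (h : lam ≤ ‖w‖) :
    1 / 2 ≤ (w / (w + lam)).re := by
  rw [re_quot, le_div_iff₀ (Complex.normSq_pos.mpr (add_ne w lam hlam hw))]
  have h2 : lam ^ 2 ≤ Complex.normSq w := by
    rw [Complex.normSq_eq_norm_sq]
    exact pow_le_pow_left₀ hlam.le h 2
  have h3 : Complex.normSq (w + lam) = Complex.normSq w + 2 * lam * w.re + lam ^ 2 := by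
    simp [Complex.normSq_apply]; ring
  rw [h3]
  linarith

theorem weak_type (F : ℂ → ℂ) (hmeas : Measurable F) (hd : DifferentiableOn ℂ F (Metric.ball 0 1))
    (hre : ∀ z ∈ Metric.ball (0:ℂ) 1, 0 ≤ (F z).re) (a : ℝ) (ha : 0 ≤ a) (h0 : F 0 = a)
    (Z : Set ℂ) (hZ : Z.Finite)
    (hlim : ∀ θ : ℝ, circleMap 0 1 θ ∉ Z →
      Tendsto (fun r : ℝ => F (circleMap 0 r θ)) (𝓝[<] 1) (𝓝 (F (circleMap 0 1 θ))))
    (lam : ℝ) (hlam : 0 < lam) :
    volume {θ ∈ Ioc 0 (2 * π) | circleMap 0 1 θ ∉ Z ∧ lam ≤ ‖F (circleMap 0 1 θ)‖} ≤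
      ENNReal.ofReal (2 * π * (2 * a / lam)) := by
  set Φ : ℂ → ℂ := fun z => F z / (F z + lam) with hΦ
  have hΦm : Measurable Φ := by fun_prop
  have hpi : (0:ℝ) ≤ 2 * π := by positivity
  -- in the ball
  have hmem : ∀ r : ℝ, r ∈ Ioo (0:ℝ) 1 → ∀ θ : ℝ, circleMap 0 r θ ∈ Metric.ball (0:ℂ) 1 := by
    intro r hr θ
    simp only [Metric.mem_ball, dist_zero_right, norm_circleMap_zero]
    rw [abs_of_pos hr.1]; exact hr.2
  have hre1 : ∀ θ : ℝ, circleMap 0 1 θ ∉ Z → 0 ≤ (F (circleMap 0 1 θ)).re := by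
    intro θ hθ
    have h1 := (Complex.continuous_re.tendsto _).comp (hlim θ hθ)
    refine ge_of_tendsto h1 ?_
    filter_upwards [Ioo_mem_nhdsLT (show (0:ℝ) < 1 by norm_num)] with r hr
    exact hre _ (hmem r hr θ)
  have hΦd : DifferentiableOn ℂ Φ (Metric.ball 0 1) := by
    apply hd.div (hd.add_const _)
    intro z hz
    exact add_ne _ _ hlam (hre z hz)
  -- the circle averages
  have havg : ∀ r ∈ Ioo (0:ℝ) 1, ∫ θ in (0:ℝ)..(2 * π), Φ (circleMap 0 r θ) =
      ((2 * π * (a / (a + lam)) : ℝ) : ℂ) := by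
    intro r hr
    have h1 : DiffContOnCl ℂ Φ (Metric.ball 0 |r|) := by
      apply DifferentiableOn.diffContOnCl
      apply hΦd.mono
      rw [abs_of_pos hr.1]
      refine Metric.closure_ball_subset_closedBall.trans ?_
      exact Metric.closedBall_subset_ball hr.2
    have h2 := h1.circleAverage
    rw [circleAverage_def] at h2
    have h3 : Φ 0 = ((a / (a + lam) : ℝ) : ℂ) := by
      simp [hΦ, h0]
    rw [h3] at h2
    have h4 : ((2 * π : ℝ)) ≠ 0 := by positivity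
    have h5 := congrArg (fun w : ℂ => ((2 * π : ℝ)) • w) h2
    rw [smul_smul, mul_inv_cancel₀ h4, one_smul] at h5
    rw [h5]
    simp
  have hnull : ∀ᵐ θ : ℝ, circleMap 0 1 θ ∉ Z := by
    have h1 : (circleMap 0 1 ⁻¹' Z).Countable := hZ.countable.preimage_circleMap 0 one_ne_zero
    exact h1.ae_notMem volume
  have hlimΦ : ∀ θ : ℝ, circleMap 0 1 θ ∉ Z →
      Tendsto (fun r : ℝ => Φ (circleMap 0 r θ)) (𝓝[<] 1) (𝓝 (Φ (circleMap 0 1 θ))) := by
    intro θ hθ
    exact (hlim θ hθ).div ((hlim θ hθ).add_const _) (add_ne _ _ hlam (hre1 θ hθ))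
  have htend : Tendsto (fun r : ℝ => ∫ θ in (0:ℝ)..(2 * π), Φ (circleMap 0 r θ)) (𝓝[<] 1)
      (𝓝 (∫ θ in (0:ℝ)..(2 * π), Φ (circleMap 0 1 θ))) := by
    apply intervalIntegral.tendsto_integral_filter_of_dominated_convergence (fun _ => (1:ℝ))
    · refine Eventually.of_forall fun r => ?_
      exact (hΦm.comp (continuous_circleMap 0 r).measurable).aestronglyMeasurable
    · filter_upwards [Ioo_mem_nhdsLT (show (0:ℝ) < 1 by norm_num)] with r hr
      refine Eventually.of_forall fun θ _ => ?_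
      exact norm_quot_le _ _ hlam (hre _ (hmem r hr θ))
    · exact intervalIntegrable_const
    · filter_upwards [hnull] with θ hθ _
      exact hlimΦ θ hθ
  have hint : ∫ θ in (0:ℝ)..(2 * π), Φ (circleMap 0 1 θ) =
      ((2 * π * (a / (a + lam)) : ℝ) : ℂ) := by
    refine tendsto_nhds_unique htend ?_
    refine Tendsto.congr' ?_ tendsto_const_nhds
    filter_upwards [Ioo_mem_nhdsLT (show (0:ℝ) < 1 by norm_num)] with r hr
    exact (havg r hr).symm
  -- the real part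
  set μ := volume.restrict (Ioc 0 (2 * π)) with hμ
  have hintegrable : Integrable (fun θ : ℝ => Φ (circleMap 0 1 θ)) μ := by
    refine Integrable.mono' (g := fun _ => (1:ℝ)) (integrable_const _) ?_ ?_
    · exact (hΦm.comp (continuous_circleMap 0 1).measurable).aestronglyMeasurable
    · filter_upwards [ae_restrict_of_ae hnull] with θ hθ
      exact norm_quot_le _ _ hlam (hre1 θ hθ)
  have hrei : ∫ θ, (Φ (circleMap 0 1 θ)).re ∂μ = 2 * π * (a / (a + lam)) := by
    rw [intervalIntegral.integral_of_le hpi] at hint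
    have h1 : ∫ θ, (Φ (circleMap 0 1 θ)).re ∂μ = (∫ θ, (Φ (circleMap 0 1 θ)) ∂μ).re :=
      integral_re hintegrable
    rw [h1, hint, Complex.ofReal_re]
  have hmarkov := mul_meas_ge_le_integral_of_nonneg (μ := μ)
    (f := fun θ : ℝ => (Φ (circleMap 0 1 θ)).re) (by
      filter_upwards [ae_restrict_of_ae hnull] with θ hθ
      exact re_quot_nonneg _ _ hlam (hre1 θ hθ)) hintegrable.re (1 / 2)
  rw [hrei] at hmarkov
  have hsub : {θ ∈ Ioc 0 (2 * π) | circleMap 0 1 θ ∉ Z ∧ lam ≤ ‖F (circleMap 0 1 θ)‖} ⊆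
      {x | 1 / 2 ≤ (Φ (circleMap 0 1 x)).re} ∩ Ioc 0 (2 * π) := by
    rintro θ ⟨h1, h2, h3⟩
    exact ⟨re_quot_ge _ _ hlam (hre1 θ h2) h3, h1⟩
  have hmeasS : MeasurableSet {x : ℝ | 1 / 2 ≤ (Φ (circleMap 0 1 x)).re} := by
    apply measurableSet_le measurable_const
    exact Complex.measurable_re.comp (hΦm.comp (continuous_circleMap 0 1).measurable)
  calc volume {θ ∈ Ioc 0 (2 * π) | circleMap 0 1 θ ∉ Z ∧ lam ≤ ‖F (circleMap 0 1 θ)‖}
      ≤ volume ({x | 1 / 2 ≤ (Φ (circleMap 0 1 x)).re} ∩ Ioc 0 (2 * π)) := measure_mono hsub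
    _ = μ {x | 1 / 2 ≤ (Φ (circleMap 0 1 x)).re} := by
        rw [hμ, Measure.restrict_apply hmeasS]
    _ = ENNReal.ofReal (μ.real {x | 1 / 2 ≤ (Φ (circleMap 0 1 x)).re}) := by
        rw [measureReal_def, ENNReal.ofReal_toReal (measure_ne_top _ _)]
    _ ≤ ENNReal.ofReal (2 * π * (2 * a / lam)) := by
        apply ENNReal.ofReal_le_ofReal
        have h6 : a / (a + lam) ≤ a / lam := by
          apply div_le_div_of_nonneg_left ha hlam; linarith
        have h7 : 2 * π * (a / (a + lam)) ≤ 2 * π * (a / lam) :=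
          mul_le_mul_of_nonneg_left h6 hpi
        have h8 : 2 * π * (2 * a / lam) = 2 * (2 * π * (a / lam)) := by ring
        rw [h8]
        linarith

lemma tendsto_circleMap (θ : ℝ) :
    Tendsto (fun r : ℝ => circleMap 0 r θ) (𝓝[<] 1) (𝓝 (circleMap 0 1 θ)) := by
  have h : Continuous (fun r : ℝ => circleMap 0 r θ) := by
    unfold circleMap
    fun_prop
  exact (h.tendsto 1).mono_left nhdsWithin_le_nhds

lemma tendsto_of_contAt (F : ℂ → ℂ) (θ : ℝ) (h : ContinuousAt F (circleMap 0 1 θ)) :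
    Tendsto (fun r : ℝ => F (circleMap 0 r θ)) (𝓝[<] 1) (𝓝 (F (circleMap 0 1 θ))) :=
  h.tendsto.comp (tendsto_circleMap θ)

lemma conj_mul_ne_of_ball (w z : ℂ) (hw : ‖w‖ ≤ 1) (hz : ‖z‖ < 1) :
    1 - (starRingEnd ℂ) w * z ≠ 0 := by
  intro h
  have h1 : (starRingEnd ℂ) w * z = 1 := by linear_combination -h
  have h2 : ‖(starRingEnd ℂ) w * z‖ < 1 := by
    rw [norm_mul, RCLike.norm_conj]
    calc ‖w‖ * ‖z‖ ≤ 1 * ‖z‖ := by gcongr
      _ < 1 := by linarith
  rw [h1] at h2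
  simp at h2

lemma conj_mul_ne_of_circle (w z : ℂ) (hz : ‖z‖ = 1) (hne : z ≠ w) :
    1 - (starRingEnd ℂ) w * z ≠ 0 := by
  intro h
  have h1 : (starRingEnd ℂ) w * z = 1 := by linear_combination -h
  have h2 : (starRingEnd ℂ) z * z = 1 := by
    rw [← Complex.normSq_eq_conj_mul_self, Complex.normSq_eq_norm_sq, hz]; simp
  have hz0 : z ≠ 0 := by
    intro h0; rw [h0] at hz; simp at hz
  have h3 : (starRingEnd ℂ) w = (starRingEnd ℂ) z := by
    apply mul_right_cancel₀ hz0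
    rw [h1, h2]
  exact hne ((starRingEnd ℂ).injective h3).symm

lemma re_F1 (w z : ℂ) (hw : ‖w‖ ≤ 1) (hz : ‖z‖ < 1) :
    0 ≤ (1 / (1 - (starRingEnd ℂ) w * z)).re := by
  rw [one_div, Complex.inv_re]
  apply div_nonneg _ (Complex.normSq_nonneg _)
  have h2 : ‖(starRingEnd ℂ) w * z‖ ≤ 1 := by
    rw [norm_mul, RCLike.norm_conj]
    calc ‖w‖ * ‖z‖ ≤ 1 * 1 := by gcongr
      _ = 1 := by norm_num
  have h3 := (Complex.re_le_norm ((starRingEnd ℂ) w * z)).trans h2
  rw [Complex.sub_re, Complex.one_re]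
  linarith

lemma re_F2 (w z : ℂ) (hw : 1 < ‖w‖) (hz : ‖z‖ < 1) :
    0 ≤ ((w + z) / (w - z)).re := by
  rw [Complex.div_re, ← add_div]
  apply div_nonneg _ (Complex.normSq_nonneg _)
  have h1 : ‖z‖ ^ 2 ≤ ‖w‖ ^ 2 := by
    have := norm_nonneg z
    gcongr
    linarith
  rw [← Complex.normSq_eq_norm_sq, ← Complex.normSq_eq_norm_sq, Complex.normSq_apply,
    Complex.normSq_apply] at h1
  simp
  nlinarith

lemma F1_weak (S : Finset ℂ) (μ : ℂ → ℝ) (hμ : ∀ w, 0 ≤ μ w) (hS : ∀ w ∈ S, ‖w‖ ≤ 1)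
    (lam : ℝ) (hlam : 0 < lam) :
    volume {θ ∈ Ioc 0 (2 * π) | circleMap 0 1 θ ∉ (S : Set ℂ) ∧
      lam ≤ ‖∑ w ∈ S, (μ w : ℂ) * (1 / (1 - (starRingEnd ℂ) w * circleMap 0 1 θ))‖} ≤
      ENNReal.ofReal (2 * π * (2 * (∑ w ∈ S, μ w) / lam)) := by
  apply weak_type (fun z => ∑ w ∈ S, (μ w : ℂ) * (1 / (1 - (starRingEnd ℂ) w * z))) _ _ _
    (∑ w ∈ S, μ w) (Finset.sum_nonneg fun w _ => hμ w) _ (S : Set ℂ) S.finite_toSet _ lam hlam
  · fun_prop
  · apply DifferentiableOn.fun_sum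
    intro w hw
    apply DifferentiableOn.const_mul
    apply DifferentiableOn.div (by fun_prop) (by fun_prop)
    intro z hz
    exact conj_mul_ne_of_ball w z (hS w hw) (by simpa using hz)
  · intro z hz
    rw [Complex.re_sum]
    apply Finset.sum_nonneg
    intro w hw
    rw [Complex.re_ofReal_mul]
    exact mul_nonneg (hμ w) (re_F1 w z (hS w hw) (by simpa using hz))
  · simp
  · intro θ hθ
    refine tendsto_of_contAt (fun z => ∑ w ∈ S, (μ w : ℂ) * (1 / (1 - (starRingEnd ℂ) w * z))) θ ?_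
    refine tendsto_finsetSum _ fun w hw => ?_
    apply Tendsto.const_mul
    apply Tendsto.div tendsto_const_nhds
    · have : Continuous fun z : ℂ => 1 - (starRingEnd ℂ) w * z := by fun_prop
      exact this.tendsto _
    · apply conj_mul_ne_of_circle
      · simp
      · rintro rfl
        exact hθ hw

lemma F2_weak (S : Finset ℂ) (μ : ℂ → ℝ) (hμ : ∀ w, 0 ≤ μ w) (hS : ∀ w ∈ S, 1 < ‖w‖)
    (lam : ℝ) (hlam : 0 < lam) :
    volume {θ ∈ Ioc 0 (2 * π) |
      lam ≤ ‖∑ w ∈ S, (μ w : ℂ) * ((w + circleMap 0 1 θ) / (w - circleMap 0 1 θ))‖} ≤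
      ENNReal.ofReal (2 * π * (2 * (∑ w ∈ S, μ w) / lam)) := by
  have hne : ∀ w ∈ S, ∀ z : ℂ, ‖z‖ ≤ 1 → w - z ≠ 0 := by
    intro w hw z hz h
    have h1 : w = z := by linear_combination h
    have h2 := hS w hw
    rw [h1] at h2
    linarith
  have key := weak_type (fun z => ∑ w ∈ S, (μ w : ℂ) * ((w + z) / (w - z))) (by fun_prop) (by
      apply DifferentiableOn.fun_sum
      intro w hw
      apply DifferentiableOn.const_mul
      apply DifferentiableOn.div (by fun_prop) (by fun_prop)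
      intro z hz
      exact hne w hw z (by
        have : ‖z‖ < 1 := by simpa using hz
        exact this.le)) (by
      intro z hz
      rw [Complex.re_sum]
      apply Finset.sum_nonneg
      intro w hw
      rw [Complex.re_ofReal_mul]
      exact mul_nonneg (hμ w) (re_F2 w z (hS w hw) (by simpa using hz)))
    (∑ w ∈ S, μ w) (Finset.sum_nonneg fun w _ => hμ w) (by
      simp only [add_zero, sub_zero]
      rw [Complex.ofReal_sum]
      apply Finset.sum_congr rfl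
      intro w hw
      have : w ≠ 0 := by
        rintro rfl
        have := hS 0 hw
        simp at this
        linarith
      rw [div_self this, mul_one]) ∅ Set.finite_empty (by
      intro θ hθ
      refine tendsto_of_contAt (fun z => ∑ w ∈ S, (μ w : ℂ) * ((w + z) / (w - z))) θ ?_
      refine tendsto_finsetSum _ fun w hw => ?_
      apply Tendsto.const_mul
      apply Tendsto.div
      · have : Continuous fun z : ℂ => w + z := by fun_prop
        exact this.tendsto _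
      · have : Continuous fun z : ℂ => w - z := by fun_prop
        exact this.tendsto _
      · exact hne w hw _ (by simp)) lam hlam
  simpa using key

/-- splitting the logarithmic derivative on the circle -/
lemma term_inner (w z : ℂ) (hz : ‖z‖ = 1) :
    z / (z - w) = (starRingEnd ℂ) (1 / (1 - (starRingEnd ℂ) w * z)) := by
  have h2 : (starRingEnd ℂ) z * z = 1 := by
    rw [← Complex.normSq_eq_conj_mul_self, Complex.normSq_eq_norm_sq, hz]; simp
  have hz0 : z ≠ 0 := by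
    intro h0; rw [h0] at hz; simp at hz
  have h3 : (starRingEnd ℂ) z = 1 / z := by
    rw [eq_div_iff hz0]; exact h2
  rw [map_div₀, map_sub, map_mul, map_one, Complex.conj_conj, h3]
  rw [show (1 : ℂ) - w * (1 / z) = (z - w) / z by field_simp]
  rw [one_div_div]

lemma term_outer (w z : ℂ) (hne : z ≠ w) :
    z / (z - w) = 1 / 2 - 1 / 2 * ((w + z) / (w - z)) := by
  have h1 : z - w ≠ 0 := sub_ne_zero.mpr hne
  have h2 : w - z ≠ 0 := sub_ne_zero.mpr hne.symm
  field_simp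
  ring

lemma logDeriv_bound (S : Finset ℂ) (μ : ℂ → ℝ) (hμ : ∀ w, 0 ≤ μ w) (z : ℂ) (hz : ‖z‖ = 1)
    (hzS : z ∉ S) :
    ‖∑ w ∈ S, (μ w : ℂ) * (z / (z - w))‖ ≤
      ‖∑ w ∈ S with ‖w‖ ≤ 1, (μ w : ℂ) * (1 / (1 - (starRingEnd ℂ) w * z))‖ +
      (1 / 2 * (∑ w ∈ S, μ w) +
      1 / 2 * ‖∑ w ∈ S with ¬ ‖w‖ ≤ 1, (μ w : ℂ) * ((w + z) / (w - z))‖) := by
  classical
  rw [← Finset.sum_filter_add_sum_filter_not S (fun w => ‖w‖ ≤ 1)]
  refine (norm_add_le _ _).trans ?_
  apply add_le_add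
  · have h1 : ∑ w ∈ S with ‖w‖ ≤ 1, (μ w : ℂ) * (z / (z - w)) =
      (starRingEnd ℂ) (∑ w ∈ S with ‖w‖ ≤ 1, (μ w : ℂ) * (1 / (1 - (starRingEnd ℂ) w * z))) := by
      rw [map_sum]
      apply Finset.sum_congr rfl
      intro w hw
      rw [map_mul, Complex.conj_ofReal, term_inner w z hz]
    rw [h1, RCLike.norm_conj]
  · have h1 : ∑ w ∈ S with ¬ ‖w‖ ≤ 1, (μ w : ℂ) * (z / (z - w)) =
      ((1 / 2 * (∑ w ∈ S with ¬ ‖w‖ ≤ 1, μ w) : ℝ) : ℂ) -
      1 / 2 * (∑ w ∈ S with ¬ ‖w‖ ≤ 1, (μ w : ℂ) * ((w + z) / (w - z))) := by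
      rw [Complex.ofReal_mul, Complex.ofReal_sum, Finset.mul_sum, Finset.mul_sum,
        ← Finset.sum_sub_distrib]
      apply Finset.sum_congr rfl
      intro w hw
      have hne : z ≠ w := by
        rintro rfl
        exact hzS (Finset.mem_filter.mp hw).1
      rw [term_outer w z hne]
      push_cast
      ring
    rw [h1]
    refine (norm_sub_le _ _).trans ?_
    have hnn : 0 ≤ ∑ w ∈ S with ¬ ‖w‖ ≤ 1, μ w := Finset.sum_nonneg fun w _ => hμ w
    apply add_le_add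
    · rw [Complex.norm_real, Real.norm_of_nonneg (by positivity)]
      have : ∑ w ∈ S with ¬ ‖w‖ ≤ 1, μ w ≤ ∑ w ∈ S, μ w :=
        Finset.sum_le_sum_of_subset_of_nonneg (Finset.filter_subset _ _) fun w _ _ => hμ w
      linarith
    · rw [norm_mul]
      norm_num

lemma volume_circle : volume (Ioc (0:ℝ) (2 * π)) = ENNReal.ofReal (2 * π) := by
  rw [Real.volume_Ioc, sub_zero]

theorem A1 (P : ℂ[X]) (n : ℕ) (hn : 1 ≤ n) (hdeg : P.natDegree ≤ n) (L : ℝ) (hL : 0 < L) :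
    volume {θ ∈ Ioc 0 (2 * π) | L * n * ‖P.eval (circleMap 0 1 θ)‖ <
      ‖circleMap 0 1 θ * P.derivative.eval (circleMap 0 1 θ)‖} ≤
      ENNReal.ofReal (2 * π * (6 / L)) := by
  classical
  have hpi : (0:ℝ) ≤ 2 * π := by positivity
  by_cases hL6 : L ≤ 6
  · calc _ ≤ volume (Ioc (0:ℝ) (2 * π)) := measure_mono (fun θ hθ => hθ.1)
      _ = ENNReal.ofReal (2 * π) := volume_circle
      _ ≤ _ := by
        apply ENNReal.ofReal_le_ofReal
        have : 1 ≤ 6 / L := by rw [le_div_iff₀ hL]; linarith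
        calc 2 * π = 2 * π * 1 := by ring
          _ ≤ _ := by gcongr
  push Not at hL6
  by_cases hP : P = 0
  · subst hP
    simp
  set S := P.roots.toFinset with hS
  set μ : ℂ → ℝ := fun w => (P.roots.count w : ℝ) with hμ
  have hμ0 : ∀ w, 0 ≤ μ w := fun w => by positivity
  have hn0 : (1:ℝ) ≤ n := by exact_mod_cast hn
  have hsum : ∑ w ∈ S, μ w ≤ n := by
    have h1 : ∑ w ∈ S, P.roots.count w = P.roots.card := Multiset.toFinset_sum_count_eq _
    have h2 : P.roots.card ≤ P.natDegree := P.card_roots'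
    rw [hμ, ← Nat.cast_sum, h1]
    exact_mod_cast h2.trans hdeg
  have hlog : ∀ z : ℂ, P.eval z ≠ 0 → z * P.derivative.eval z / P.eval z =
      ∑ w ∈ S, (μ w : ℂ) * (z / (z - w)) := by
    intro z hz
    have h1 := (IsAlgClosed.splits P).eval_derivative_div_eval_of_ne_zero hz
    rw [mul_div_assoc, h1, Finset.sum_multiset_map_count, Finset.mul_sum]
    apply Finset.sum_congr rfl
    intro w _
    simp only [hμ, nsmul_eq_mul, Complex.ofReal_natCast]
    ring
  set lam : ℝ := L * n / 3 with hlam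
  have hlam0 : 0 < lam := by positivity
  set S1 := S.filter (fun w => ‖w‖ ≤ 1) with hS1
  set S2 := S.filter (fun w => ¬ ‖w‖ ≤ 1) with hS2
  have hF1 := F1_weak S1 μ hμ0 (fun w hw => (Finset.mem_filter.mp hw).2) lam hlam0
  have hF2 := F2_weak S2 μ hμ0 (fun w hw => not_le.mp (Finset.mem_filter.mp hw).2) (2 * lam)
    (by positivity)
  set B1 := {θ ∈ Ioc 0 (2 * π) | circleMap 0 1 θ ∉ (S1 : Set ℂ) ∧
      lam ≤ ‖∑ w ∈ S1, (μ w : ℂ) * (1 / (1 - (starRingEnd ℂ) w * circleMap 0 1 θ))‖} with hB1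
  set B2 := {θ ∈ Ioc 0 (2 * π) |
      2 * lam ≤ ‖∑ w ∈ S2, (μ w : ℂ) * ((w + circleMap 0 1 θ) / (w - circleMap 0 1 θ))‖} with hB2
  have hN : volume (circleMap 0 1 ⁻¹' (S : Set ℂ)) = 0 :=
    (S.finite_toSet.countable.preimage_circleMap 0 one_ne_zero).measure_zero _
  have hsub : {θ ∈ Ioc 0 (2 * π) | L * n * ‖P.eval (circleMap 0 1 θ)‖ <
      ‖circleMap 0 1 θ * P.derivative.eval (circleMap 0 1 θ)‖} ⊆
      (B1 ∪ B2) ∪ (circleMap 0 1 ⁻¹' (S : Set ℂ)) := by
    rintro θ ⟨hθ, h⟩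
    by_cases hz : circleMap 0 1 θ ∈ (S : Set ℂ)
    · exact Or.inr hz
    left
    have hev : P.eval (circleMap 0 1 θ) ≠ 0 := by
      intro h0
      apply hz
      simp [hS, hP, h0]
    have hnz : ‖circleMap 0 1 θ‖ = 1 := by simp
    have h1 : L * n < ‖∑ w ∈ S, (μ w : ℂ) * (circleMap 0 1 θ / (circleMap 0 1 θ - w))‖ := by
      rw [← hlog _ hev, norm_div, lt_div_iff₀ (norm_pos_iff.mpr hev)]
      exact h
    have h2 := h1.trans_le (logDeriv_bound S μ hμ0 _ hnz (by simpa using hz))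
    by_contra hcon
    rw [mem_union, not_or] at hcon
    have h3 : ‖∑ w ∈ S1, (μ w : ℂ) * (1 / (1 - (starRingEnd ℂ) w * circleMap 0 1 θ))‖ < lam := by
      by_contra h4
      push Not at h4
      refine hcon.1 ⟨hθ, ?_, h4⟩
      intro h5
      exact hz (Finset.mem_filter.mp h5).1
    have h4 : ‖∑ w ∈ S2, (μ w : ℂ) * ((w + circleMap 0 1 θ) / (w - circleMap 0 1 θ))‖ <
        2 * lam := by
      by_contra h4
      push Not at h4
      exact hcon.2 ⟨hθ, h4⟩
    have h5 : L * n = 3 * lam := by rw [hlam]; ring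
    rw [h5] at h2
    have h6 : (n : ℝ) ≤ lam := by
      rw [hlam]; nlinarith
    linarith
  have hm12 : ∑ w ∈ S1, μ w + ∑ w ∈ S2, μ w = ∑ w ∈ S, μ w :=
    Finset.sum_filter_add_sum_filter_not S _ _
  have hm1 : 0 ≤ ∑ w ∈ S1, μ w := Finset.sum_nonneg fun w _ => hμ0 w
  have hm2 : 0 ≤ ∑ w ∈ S2, μ w := Finset.sum_nonneg fun w _ => hμ0 w
  calc _ ≤ volume ((B1 ∪ B2) ∪ (circleMap 0 1 ⁻¹' (S : Set ℂ))) := measure_mono hsub
    _ ≤ volume (B1 ∪ B2) + volume (circleMap 0 1 ⁻¹' (S : Set ℂ)) := measure_union_le _ _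
    _ = volume (B1 ∪ B2) := by rw [hN, add_zero]
    _ ≤ volume B1 + volume B2 := measure_union_le _ _
    _ ≤ ENNReal.ofReal (2 * π * (2 * (∑ w ∈ S1, μ w) / lam)) +
        ENNReal.ofReal (2 * π * (2 * (∑ w ∈ S2, μ w) / (2 * lam))) := add_le_add hF1 hF2
    _ = ENNReal.ofReal (2 * π * (2 * (∑ w ∈ S1, μ w) / lam) +
        2 * π * (2 * (∑ w ∈ S2, μ w) / (2 * lam))) := by
        rw [ENNReal.ofReal_add (by positivity) (by positivity)]
    _ ≤ ENNReal.ofReal (2 * π * (6 / L)) := by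
        apply ENNReal.ofReal_le_ofReal
        have h7 : 2 * π * (2 * (∑ w ∈ S1, μ w) / lam) +
          2 * π * (2 * (∑ w ∈ S2, μ w) / (2 * lam)) =
          2 * π * ((2 * (∑ w ∈ S1, μ w) + ∑ w ∈ S2, μ w) / lam) := by
          field_simp
        rw [h7]
        apply mul_le_mul_of_nonneg_left _ hpi
        rw [hlam, div_le_div_iff₀ (by positivity) hL]
        nlinarith

/-- A2: Laurent sums with exponents in `[a, a + n]`. -/
theorem A2 {ι : Type} (S : Finset ι) (c : ι → ℂ) (e : ι → ℤ) (a s : ℤ) (n : ℕ) (hn : 1 ≤ n)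
    (h1 : ∀ j ∈ S, a ≤ e j) (h2 : ∀ j ∈ S, e j ≤ a + n) (hs1 : a ≤ s) (hs2 : s ≤ a + n)
    (L : ℝ) (hL : 1 < L) :
    volume {θ ∈ Ioc 0 (2 * π) | L * n * ‖∑ j ∈ S, c j * (circleMap 0 1 θ) ^ (e j)‖ <
      ‖∑ j ∈ S, c j * ((e j - s : ℤ) : ℂ) * (circleMap 0 1 θ) ^ (e j)‖} ≤
      ENNReal.ofReal (2 * π * (6 / (L - 1))) := by
  classical
  set P : ℂ[X] := ∑ j ∈ S, C (c j) * X ^ (e j - a).toNat with hP
  have hdeg : P.natDegree ≤ n := by
    apply natDegree_sum_le_of_forall_le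
    intro j hj
    refine (natDegree_C_mul_X_pow_le _ _).trans ?_
    have := h1 j hj
    have := h2 j hj
    omega
  have hL1 : 0 < L - 1 := by linarith
  refine le_trans (measure_mono ?_) (A1 P n hn hdeg (L - 1) hL1)
  rintro θ ⟨hθ, h⟩
  refine ⟨hθ, ?_⟩
  set z := circleMap 0 1 θ with hz
  have hz1 : ‖z‖ = 1 := by simp [hz]
  have hz0 : z ≠ 0 := by
    intro h0; rw [h0] at hz1; simp at hz1
  have hza : ‖z ^ a‖ = 1 := by rw [norm_zpow, hz1, one_zpow]
  have hpow : ∀ j ∈ S, z ^ (e j) = z ^ a * z ^ (e j - a).toNat := by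
    intro j hj
    have := h1 j hj
    rw [← zpow_natCast, ← zpow_add₀ hz0]
    congr 1
    omega
  have hev : ∑ j ∈ S, c j * z ^ (e j) = z ^ a * P.eval z := by
    rw [hP, eval_finsetSum, Finset.mul_sum]
    apply Finset.sum_congr rfl
    intro j hj
    rw [hpow j hj]
    simp
    ring
  have hder : ∑ j ∈ S, c j * ((e j - s : ℤ) : ℂ) * z ^ (e j) =
      z ^ a * (z * P.derivative.eval z + ((a - s : ℤ) : ℂ) * P.eval z) := by
    rw [hP, derivative_sum, eval_finsetSum, eval_finsetSum, Finset.mul_sum, Finset.mul_sum,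
      ← Finset.sum_add_distrib, Finset.mul_sum]
    apply Finset.sum_congr rfl
    intro j hj
    rw [hpow j hj]
    have hj1 := h1 j hj
    simp only [derivative_C_mul_X_pow, eval_mul, eval_C, eval_pow, eval_X]
    have hcast : (((e j - a).toNat : ℕ) : ℂ) = ((e j - a : ℤ) : ℂ) := by
      have : (((e j - a).toNat : ℕ) : ℤ) = e j - a := by omega
      exact_mod_cast congrArg (fun x : ℤ => (x : ℂ)) this
    rcases Nat.eq_zero_or_pos (e j - a).toNat with h0 | h0
    · have : e j = a := by omega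
      rw [h0]
      simp [this]
      ring
    · have hsucc : z * z ^ ((e j - a).toNat - 1) = z ^ (e j - a).toNat := by
        rw [← pow_succ']
        congr 1
        omega
      have : z * (c j * (((e j - a).toNat : ℕ) : ℂ) * z ^ ((e j - a).toNat - 1)) =
        c j * ((e j - a : ℤ) : ℂ) * z ^ (e j - a).toNat := by
        rw [← hsucc, hcast]; ring
      rw [this]
      push_cast
      ring
  rw [hev, hder, norm_mul, norm_mul, hza, one_mul, one_mul] at h
  have h3 := h.trans_le (norm_add_le _ _)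
  have h4 : ‖((a - s : ℤ) : ℂ) * P.eval z‖ ≤ n * ‖P.eval z‖ := by
    rw [norm_mul]
    apply mul_le_mul_of_nonneg_right _ (norm_nonneg _)
    rw [Complex.norm_intCast]
    rw [abs_le]
    constructor
    · have : -(n:ℤ) ≤ a - s := by omega
      exact_mod_cast this
    · have : a - s ≤ n := by omega
      exact_mod_cast this
  have h5 : (L - 1) * n * ‖P.eval z‖ = L * n * ‖P.eval z‖ - n * ‖P.eval z‖ := by ring
  rw [h5]
  linarith

/-- A3: induction on the number of terms. -/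
theorem A3 {ι : Type} (L : ℝ) (hL : 1 < L) (e : ι → ℤ) (he : Function.Injective e) (k : ℕ) :
    ∀ (S : Finset ι), S.card = k + 1 → ∀ (c : ι → ℂ) (t : ℝ) (E : Set ℝ), E ⊆ Ioc 0 (2 * π) →
    (∀ θ ∈ E, ‖∑ j ∈ S, c j * (circleMap 0 1 θ) ^ (e j)‖ ≤ t) →
    ENNReal.ofReal (k * (2 * π * (6 / (L - 1)))) < volume E →
    ∀ m ∈ S, ‖c m‖ ≤ (2 * L) ^ k * t := by
  classical
  have hL1 : 0 < L - 1 := by linarith
  induction k with
  | zero =>
    intro S hS c t E hE ht hvol m hm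
    have hne : E.Nonempty := by
      by_contra h
      rw [Set.not_nonempty_iff_eq_empty] at h
      rw [h] at hvol
      simp at hvol
    obtain ⟨θ, hθ⟩ := hne
    obtain ⟨x, hx⟩ := Finset.card_eq_one.mp hS
    subst hx
    rw [Finset.mem_singleton] at hm
    subst hm
    have := ht θ hθ
    rw [Finset.sum_singleton, norm_mul, norm_zpow] at this
    simpa using this
  | succ k ih =>
    intro S hS c t E hE ht hvol m hm
    have hSne : S.Nonempty := ⟨m, hm⟩
    obtain ⟨x1, hx1, hmin⟩ := S.exists_min_image e hSne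
    obtain ⟨x2, hx2, hmax⟩ := S.exists_max_image e hSne
    -- the span
    have hlt : e x1 < e x2 := by
      obtain ⟨y1, hy1, y2, hy2, hne⟩ := Finset.one_lt_card.mp (show 1 < S.card by omega)
      have h1 := hmin y1 hy1
      have h2 := hmin y2 hy2
      have h3 := hmax y1 hy1
      have h4 := hmax y2 hy2
      have h5 : e y1 ≠ e y2 := fun h => hne (he h)
      omega
    obtain ⟨n, hn⟩ : ∃ n : ℕ, e x2 = e x1 + n := ⟨(e x2 - e x1).toNat, by omega⟩
    have hn1 : 1 ≤ n := by omega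
    -- the extreme exponent farther from `e m`
    obtain ⟨x, hx, hfar, hxa, hxb⟩ : ∃ x ∈ S, (n : ℤ) ≤ 2 * |e m - e x| ∧ e x1 ≤ e x ∧
        e x ≤ e x1 + n := by
      have h1 := hmin m hm
      have h2 := hmax m hm
      by_cases h : (n : ℤ) ≤ 2 * (e m - e x1)
      · refine ⟨x1, hx1, ?_, le_refl _, by omega⟩
        rw [abs_of_nonneg (by omega)]
        exact h
      · refine ⟨x2, hx2, ?_, by omega, by omega⟩
        rw [abs_of_nonpos (by omega)]
        omega
    have hmx : m ≠ x := by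
      rintro rfl
      simp at hfar
      omega
    set B := {θ ∈ Ioc 0 (2 * π) | L * n * ‖∑ j ∈ S, c j * (circleMap 0 1 θ) ^ (e j)‖ <
      ‖∑ j ∈ S, c j * ((e j - e x : ℤ) : ℂ) * (circleMap 0 1 θ) ^ (e j)‖} with hB
    have hBvol : volume B ≤ ENNReal.ofReal (2 * π * (6 / (L - 1))) :=
      A2 S c e (e x1) (e x) n hn1 hmin (fun j hj => by rw [← hn]; exact hmax j hj) hxa hxb L hL
    have hpos : 0 ≤ 2 * π * (6 / (L - 1)) := by positivity
    have hvol' : ENNReal.ofReal (k * (2 * π * (6 / (L - 1)))) < volume (E \ B) := by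
      by_contra hcon
      push Not at hcon
      have h1 : volume E ≤ volume (E \ B) + volume B := by
        refine (measure_mono (?_ : E ⊆ (E \ B) ∪ B)).trans (measure_union_le _ _)
        intro θ hθ
        by_cases h : θ ∈ B
        · exact Or.inr h
        · exact Or.inl ⟨hθ, h⟩
      have h2 : volume E ≤ ENNReal.ofReal (k * (2 * π * (6 / (L - 1)))) +
        ENNReal.ofReal (2 * π * (6 / (L - 1))) := h1.trans (add_le_add hcon hBvol)
      rw [← ENNReal.ofReal_add (by positivity) hpos] at h2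
      have h3 := hvol.trans_le h2
      rw [ENNReal.ofReal_lt_ofReal_iff'] at h3
      push_cast at h3
      linarith [h3.1]
    have hstep : ∀ θ ∈ E \ B, ‖∑ j ∈ S.erase x, (c j * ((e j - e x : ℤ) : ℂ)) *
        (circleMap 0 1 θ) ^ (e j)‖ ≤ L * n * t := by
      rintro θ ⟨hθE, hθB⟩
      have h1 : ∑ j ∈ S.erase x, (c j * ((e j - e x : ℤ) : ℂ)) * (circleMap 0 1 θ) ^ (e j) =
        ∑ j ∈ S, (c j * ((e j - e x : ℤ) : ℂ)) * (circleMap 0 1 θ) ^ (e j) := by
        rw [← Finset.add_sum_erase S _ hx]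
        simp
      rw [h1]
      have h2 : ¬ (L * n * ‖∑ j ∈ S, c j * (circleMap 0 1 θ) ^ (e j)‖ <
        ‖∑ j ∈ S, c j * ((e j - e x : ℤ) : ℂ) * (circleMap 0 1 θ) ^ (e j)‖) :=
        fun h => hθB ⟨hE hθE, h⟩
      push Not at h2
      refine h2.trans ?_
      exact mul_le_mul_of_nonneg_left (ht θ hθE) (by positivity)
    have hIH := ih (S.erase x) (by rw [Finset.card_erase_of_mem hx, hS]; omega)
      (fun j => c j * ((e j - e x : ℤ) : ℂ)) (L * n * t) (E \ B) (fun θ hθ => hE hθ.1) hstep hvol'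
      m (Finset.mem_erase.mpr ⟨hmx, hm⟩)
    simp only [norm_mul] at hIH
    rw [Complex.norm_intCast] at hIH
    have h6 : (n : ℝ) ≤ 2 * |((e m - e x : ℤ) : ℝ)| := by exact_mod_cast hfar
    have h7 : ‖c m‖ * n ≤ 2 * ((2 * L) ^ k * (L * n * t)) := by
      calc ‖c m‖ * n ≤ ‖c m‖ * (2 * |((e m - e x : ℤ) : ℝ)|) := by gcongr
        _ = 2 * (‖c m‖ * |((e m - e x : ℤ) : ℝ)|) := by ring
        _ ≤ _ := by gcongr
    have hn0 : (0:ℝ) < n := by exact_mod_cast hn1
    have h8 : 2 * ((2 * L) ^ k * (L * n * t)) = ((2 * L) ^ (k + 1) * t) * n := by ring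
    rw [h8] at h7
    exact le_of_mul_le_mul_right h7 hn0

end Pool.Agent.Lib.MP_7ab245_nt.Mono.SB

namespace Pool.Agent.Lib.MP_7ab245_nt.Mono

/-- Module A. small ball estimate -/
theorem small_ball {ι : Type} [Fintype ι] (κ : ℕ) (hκ : 1 ≤ κ) (hcard : Fintype.card ι ≤ κ)
    (c : ι → ℂ) (e : ι → ℤ) (he : Function.Injective e) (m : ι) (hm : 1 ≤ ‖c m‖) (t : ℝ)
    (ht : 0 < t) :
    (volume {θ ∈ Set.Ioc 0 (2 * π) | ‖ls c e (circleMap 0 1 θ)‖ ≤ t}).toReal ≤
      2 * π * (14 * κ * t ^ (1 / (κ : ℝ))) := by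
  classical
  have hpi : (0:ℝ) < 2 * π := by positivity
  set E : Set ℝ := {θ ∈ Set.Ioc 0 (2 * π) | ‖ls c e (circleMap 0 1 θ)‖ ≤ t} with hE
  have hEsub : E ⊆ Ioc 0 (2 * π) := fun θ hθ => hθ.1
  have hEle : volume E ≤ ENNReal.ofReal (2 * π) := by
    rw [← SB.volume_circle]; exact measure_mono hEsub
  have hEfin : volume E ≠ ⊤ := ne_top_of_le_ne_top ENNReal.ofReal_ne_top hEle
  have hκ0 : (1:ℝ) ≤ κ := by exact_mod_cast hκ
  set v : ℝ := (volume E).toReal with hv
  have hv0 : 0 ≤ v := ENNReal.toReal_nonneg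
  have hv1 : v ≤ 2 * π := by
    have := ENNReal.toReal_mono ENNReal.ofReal_ne_top hEle
    rwa [ENNReal.toReal_ofReal hpi.le] at this
  have hvE : volume E = ENNReal.ofReal v := (ENNReal.ofReal_toReal hEfin).symm
  rcases hv0.eq_or_lt with h0 | hvpos
  · rw [← h0]
    positivity
  -- the normalised measure
  set μ : ℝ := v / (2 * π) with hμ
  have hμ0 : 0 < μ := by positivity
  have hμ1 : μ ≤ 1 := by
    rw [hμ, div_le_one hpi]; exact hv1
  obtain ⟨k, hk⟩ : ∃ k : ℕ, (Finset.univ : Finset ι).card = k + 1 := by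
    have : 0 < (Finset.univ : Finset ι).card := Finset.card_pos.mpr ⟨m, Finset.mem_univ m⟩
    exact ⟨_, (Nat.succ_pred_eq_of_pos this).symm⟩
  have hkκ : k + 1 ≤ κ := by
    rw [← hk, Finset.card_univ]; exact hcard
  have hkκ' : ((k:ℝ) + 1) ≤ κ := by exact_mod_cast hkκ
  set L : ℝ := 1 + 6 * κ / μ with hL
  have hL1 : 1 < L := by
    have : 0 < 6 * κ / μ := by positivity
    linarith
  have hell : 6 / (L - 1) = μ / κ := by
    rw [hL, add_sub_cancel_left]
    field_simp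
  have hLle : L ≤ 7 * κ / μ := by
    have h1 : 1 ≤ κ / μ := by
      rw [le_div_iff₀ hμ0]; linarith
    rw [hL]
    have h2 : 7 * κ / μ = κ / μ + 6 * κ / μ := by ring
    rw [h2]
    linarith
  have hvol : ENNReal.ofReal (k * (2 * π * (6 / (L - 1)))) < volume E := by
    rw [hvE, ENNReal.ofReal_lt_ofReal_iff hvpos, hell]
    have h1 : v = 2 * π * μ := by
      rw [hμ]; field_simp
    rw [h1]
    have h2 : (k:ℝ) * (2 * π * (μ / κ)) = 2 * π * μ * (k / κ) := by ring
    rw [h2]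
    have h3 : (k:ℝ) / κ < 1 := by
      rw [div_lt_one (by positivity)]
      linarith
    have h4 : 0 < 2 * π * μ := by positivity
    calc 2 * π * μ * (k / κ) < 2 * π * μ * 1 := by gcongr
      _ = _ := by ring
  have hA3 := SB.A3 L hL1 e he k Finset.univ hk c t E hEsub (fun θ hθ => hθ.2) hvol m
    (Finset.mem_univ m)
  have hbase : 1 ≤ 14 * κ / μ := by
    rw [le_div_iff₀ hμ0]; linarith
  have h5 : 1 ≤ (14 * κ / μ) ^ κ * t := by
    calc 1 ≤ ‖c m‖ := hm
      _ ≤ (2 * L) ^ k * t := hA3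
      _ ≤ (14 * κ / μ) ^ k * t := by
        have : 2 * L ≤ 14 * κ / μ := by
          calc 2 * L ≤ 2 * (7 * κ / μ) := by gcongr
            _ = _ := by ring
        have h0 : 0 ≤ 2 * L := by linarith
        gcongr
      _ ≤ (14 * κ / μ) ^ κ * t := by
        have : (14 * κ / μ) ^ k ≤ (14 * κ / μ) ^ κ := pow_le_pow_right₀ hbase (by omega)
        gcongr
  have h6 : (μ / (14 * κ)) ^ κ ≤ t := by
    have h7 : (μ / (14 * κ)) ^ κ * (14 * κ / μ) ^ κ = 1 := by
      rw [← mul_pow]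
      have : μ / (14 * κ) * (14 * κ / μ) = 1 := by
        field_simp
      rw [this, one_pow]
    have h8 : 0 < (μ / (14 * κ)) ^ κ := by positivity
    calc (μ / (14 * κ)) ^ κ = (μ / (14 * κ)) ^ κ * 1 := by ring
      _ ≤ (μ / (14 * κ)) ^ κ * ((14 * κ / μ) ^ κ * t) := by gcongr
      _ = ((μ / (14 * κ)) ^ κ * (14 * κ / μ) ^ κ) * t := by ring
      _ = t := by rw [h7, one_mul]
  have h9 : μ / (14 * κ) ≤ t ^ (1 / (κ : ℝ)) := by
    have h10 : ((μ / (14 * κ)) ^ κ) ^ (1 / (κ : ℝ)) ≤ t ^ (1 / (κ : ℝ)) :=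
      Real.rpow_le_rpow (by positivity) h6 (by positivity)
    have h11 : ((μ / (14 * κ)) ^ κ) ^ (1 / (κ : ℝ)) = μ / (14 * κ) := by
      rw [one_div]
      exact Real.pow_rpow_inv_natCast (by positivity) (by omega)
    rwa [h11] at h10
  have h12 : μ ≤ 14 * κ * t ^ (1 / (κ : ℝ)) := by
    rw [div_le_iff₀ (by positivity)] at h9
    linarith
  calc v = 2 * π * μ := by rw [hμ]; field_simp
    _ ≤ _ := by gcongr

end Pool.Agent.Lib.MP_7ab245_nt.Mono
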