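import Pool.Agent.Lib.MP_7ab245_nt.Mono.Moments

/-!
Module C of the monomial count theorem: comparison of the logarithmic Mahler measures of two
Laurent sums whose exponents satisfy the same additive relations.
-/

set_option autoImplicit false

open Polynomial MeasureTheory Real

namespace Pool.Agent.Lib.MP_7ab245_nt.Mono

/-- the logarithmic Mahler measure is at most the smoothed one -/
lemma lm_le_smooth {ι : Type} [Fintype ι] (κ : ℕ) (hκ : 1 ≤ κ) (hcard : Fintype.card ι ≤ κ)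
    (c : ι → ℂ) (e : ι → ℤ) (he : Function.Injective e) (m : ι) (hm : 1 ≤ ‖c m‖) (ε : ℝ)
    (hε : 0 < ε) :
    circleAverage (fun z => Real.log ‖ls c e z‖) 0 1 ≤
      circleAverage (fun z => Real.log (‖ls c e z‖ ^ 2 + ε ^ 2) / 2) 0 1 := by
  refine circleAverage_mono_ae _ _ (log_circleIntegrable c e) ?_ ?_
  · rw [circleIntegrable_iff]
    exact cont_integrable _ (sq_continuous c e ε hε)
  · filter_upwards [mu_zero κ hκ hcard c e he m hm] with θ hθ
    change 0 < ‖ls c e (circleMap 0 1 θ)‖ at hθ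
    have h1 : Real.log (‖ls c e (circleMap 0 1 θ)‖ ^ 2) ≤
        Real.log (‖ls c e (circleMap 0 1 θ)‖ ^ 2 + ε ^ 2) :=
      Real.log_le_log (by positivity) (by nlinarith [sq_nonneg ε])
    rw [Real.log_pow] at h1
    push_cast at h1
    linarith

/-- the numerical estimate -/
lemma numerics (a κ : ℕ) (hκ : 2 ≤ κ) :
    ((((2 * κ * (15 * κ) ^ (2 * κ) : ℝ)) ^ 2 + ((1 / (60 * (κ : ℝ) ^ (a + 2))) ^ (2 * κ)) ^ 2) /
      ((1 / (60 * (κ : ℝ) ^ (a + 2))) ^ (2 * κ)) ^ 2) ^ 2 /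
      ((κ ^ ((8 * (a + 13) + (a + 11)) * κ) : ℕ) + 1) ≤ 1 / 2 * (1 / (κ : ℝ) ^ a) := by
  have hκR : (2 : ℝ) ≤ κ := by exact_mod_cast hκ
  have hκ0 : (0 : ℝ) < κ := by linarith
  have hκ1 : (1 : ℝ) ≤ κ := by linarith
  set k : ℝ := (κ : ℝ) with hk
  have h2 : (4 : ℝ) ≤ k ^ 2 := by nlinarith
  have h4 : (15 : ℝ) ≤ k ^ 4 := by nlinarith
  have h6 : (60 : ℝ) ≤ k ^ 6 := by
    have : k ^ 6 = k ^ 2 * k ^ 4 := by ring
    rw [this]; nlinarith
  set Y : ℝ := 60 * k ^ (a + 2) with hY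
  have hY0 : 0 < Y := by positivity
  set T : ℝ := k ^ (4 + (a + 13) * (4 * κ)) with hT
  have hT1 : 1 ≤ T := one_le_pow₀ hκ1
  have hZ : ((2 * k * (15 * k) ^ (2 * κ)) ^ 2 + ((1 / Y) ^ (2 * κ)) ^ 2) /
      ((1 / Y) ^ (2 * κ)) ^ 2 ≤ T + 1 := by
    have hε : ((1 / Y) ^ (2 * κ)) ^ 2 = 1 / Y ^ (4 * κ) := by
      rw [← pow_mul, one_div_pow]
      congr 2
      ring
    have e1 : (2 * k * (15 * k) ^ (2 * κ)) ^ 2 = 4 * k ^ 2 * (15 * k) ^ (4 * κ) := by
      rw [mul_pow, mul_pow, ← pow_mul]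
      congr 1
      · norm_num
      · congr 1
        ring
    rw [hε, e1, add_div, div_self (by positivity), div_div_eq_mul_div, div_one]
    have e2 : 4 * k ^ 2 * (15 * k) ^ (4 * κ) * Y ^ (4 * κ) =
        4 * k ^ 2 * ((15 * k) * Y) ^ (4 * κ) := by
      rw [mul_pow (15 * k) Y]; ring
    have e3 : T = k ^ 2 * k ^ 2 * ((k ^ 4 * k) * (k ^ 6 * k ^ (a + 2))) ^ (4 * κ) := by
      rw [hT, pow_add, pow_mul]
      congr 1
      · ring
      · congr 1
        ring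
    rw [e2, e3, hY]
    gcongr
  have hT2 : T + 1 ≤ k * T := by nlinarith
  set B : ℝ := k ^ ((8 * (a + 13) + (a + 11)) * κ) with hB
  have hfin : (k * T) ^ 2 * (2 * k ^ a) ≤ B := by
    calc (k * T) ^ 2 * (2 * k ^ a) ≤ (k * T) ^ 2 * (k * k ^ a) := by gcongr
      _ = k ^ (11 + a + 8 * (a + 13) * κ) := by
          rw [hT]
          ring
      _ ≤ B := by
          rw [hB]
          refine pow_le_pow_right₀ hκ1 ?_
          have : (11 + a) * 1 ≤ (11 + a) * κ := Nat.mul_le_mul_left _ (by omega)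
          nlinarith
  push_cast
  rw [← hk, ← hB]
  have hBpos : 0 < B := by positivity
  rw [div_le_iff₀ (by positivity)]
  have hka : 0 < k ^ a := by positivity
  have hnum : (((2 * k * (15 * k) ^ (2 * κ)) ^ 2 + ((1 / Y) ^ (2 * κ)) ^ 2) /
      ((1 / Y) ^ (2 * κ)) ^ 2) ^ 2 ≤ (k * T) ^ 2 := by
    refine pow_le_pow_left₀ (by positivity) (hZ.trans hT2) 2
  refine hnum.trans ?_
  have e5 : 1 / 2 * (1 / k ^ a) * (B + 1) = (B + 1) / (2 * k ^ a) := by
    field_simp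
  rw [e5, le_div_iff₀ (by positivity)]
  linarith

theorem compare (a : ℕ) : ∃ C₁ : ℕ, ∀ (κ : ℕ), 2 ≤ κ → ∀ (ι : Type) [Fintype ι] [Nonempty ι],
    Fintype.card ι ≤ κ →
    ∀ (c : ι → ℤ), (∀ j, c j ≠ 0) → ∀ e e' : ι → ℤ, Function.Injective e → Function.Injective e' →
    lm c e ≤ Real.log 2 → SameRel (κ ^ (C₁ * κ)) e e' → lm c e' ≤ lm c e + 1 / (κ : ℝ) ^ a := by
  refine ⟨8 * (a + 13) + (a + 11), ?_⟩
  intro κ hκ ι _ _ hcard c hc e e' he he' hlm hrel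
  set N : ℕ := κ ^ ((8 * (a + 13) + (a + 11)) * κ) with hN
  have hκ1 : 1 ≤ κ := by omega
  have hκR : (2 : ℝ) ≤ κ := by exact_mod_cast hκ
  have hκ0 : (0 : ℝ) < κ := by linarith
  obtain ⟨m⟩ := (inferInstance : Nonempty ι)
  have hnorm : ∀ j, 1 ≤ ‖(c j : ℂ)‖ := by
    intro j
    rw [Complex.norm_intCast]
    exact_mod_cast Int.one_le_abs (hc j)
  have hH : ∀ j, ‖(c j : ℂ)‖ ≤ 2 * (15 * κ) ^ (2 * κ) := by
    intro j
    have h1 := height_bound κ hκ1 hcard (fun j => (c j : ℂ)) e he j (by simp [hc j])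
    have h2 : Real.log ‖(c j : ℂ)‖ ≤ Real.log (2 * (15 * κ) ^ (2 * κ)) := by
      rw [Real.log_mul (by norm_num) (by positivity), Real.log_pow]
      push_cast
      change _ ≤ lm c e + _ at h1
      linarith
    exact (Real.log_le_log_iff (by linarith [hnorm j]) (by positivity)).mp h2
  set A : ℝ := 2 * κ * (15 * κ) ^ (2 * κ) with hA
  have hsum : ∑ j, ‖(c j : ℂ)‖ ≤ A := by
    calc ∑ j, ‖(c j : ℂ)‖ ≤ ∑ _j : ι, (2 * (15 * κ) ^ (2 * κ) : ℝ) :=
          Finset.sum_le_sum (fun j _ => hH j)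
      _ = Fintype.card ι * (2 * (15 * κ) ^ (2 * κ) : ℝ) := by
          rw [Finset.sum_const, nsmul_eq_mul, Finset.card_univ]
      _ ≤ κ * (2 * (15 * κ) ^ (2 * κ) : ℝ) := by
          gcongr
      _ = A := by rw [hA]; ring
  set x : ℝ := 1 / (60 * (κ : ℝ) ^ (a + 2)) with hx
  have hx0 : 0 < x := by positivity
  set ε : ℝ := x ^ (2 * κ) with hε
  have hε0 : 0 < ε := by positivity
  have h1 := lm_le_smooth κ hκ1 hcard (fun j => (c j : ℂ)) e' he' m (hnorm m) ε hε0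
  have h2 := smooth_compare c e e' N hrel A ε hε0 hsum
  have h3 := log_smooth κ hκ1 hcard (fun j => (c j : ℂ)) e he m (hnorm m) ε hε0
  have h4 : ε ^ (1 / (2 * κ : ℝ)) = x := by
    have := Real.pow_rpow_inv_natCast hx0.le (n := 2 * κ) (by omega)
    rw [hε, one_div]
    push_cast at this
    exact this
  rw [h4] at h3
  have h5 : 30 * κ ^ 2 * x = 1 / 2 * (1 / (κ : ℝ) ^ a) := by
    rw [hx, pow_add]
    field_simp
    norm_num
  have h6 := numerics a κ hκ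
  rw [← hN, ← hx, ← hε, ← hA] at h6
  change lm c e' ≤ _ at h1
  change _ ≤ lm c e + _ at h3
  have h7 : (((N : ℕ) : ℝ) + 1) = (N : ℝ) + 1 := rfl
  linarith

end Pool.Agent.Lib.MP_7ab245_nt.Mono
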