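import Mathlib

/-!
Simultaneous Dirichlet approximation in integer form.
-/

set_option autoImplicit false

namespace Pool.Agent.Lib.MP_7ab245_nt.Mono

lemma dirichlet {ι : Type} [Fintype ι] (κ Q n : ℕ) (hcard : Fintype.card ι ≤ κ) (hQ : 0 < Q)
    (hn : 0 < n) (e : ι → ℕ) (he : ∀ j, e j ≤ n) :
    ∃ q : ℕ, 0 < q ∧ q ≤ Q ^ κ ∧ ∃ p : ι → ℕ,
      (∀ j, |(q : ℤ) * e j - n * p j| * Q < n) ∧ (∀ j, p j ≤ q) ∧
      (∀ j, e j = 0 → p j = 0) ∧ (∀ j, e j = n → p j = q) := by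
  classical
  have hlt : ∀ (u : ℕ) (j : ι), (u * e j % n) * Q / n < Q := by
    intro u j
    rw [Nat.div_lt_iff_lt_mul hn]
    have := Nat.mod_lt (u * e j) hn
    calc (u * e j % n) * Q < n * Q := Nat.mul_lt_mul_of_pos_right this hQ
      _ = Q * n := Nat.mul_comm _ _
  let f : Fin (Q ^ κ + 1) → (ι → Fin Q) := fun u j => ⟨((u : ℕ) * e j % n) * Q / n, hlt u j⟩
  have hcards : Fintype.card (ι → Fin Q) < Fintype.card (Fin (Q ^ κ + 1)) := by
    rw [Fintype.card_fun, Fintype.card_fin, Fintype.card_fin]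
    have := Nat.pow_le_pow_right hQ hcard
    omega
  obtain ⟨u₀, v₀, hne, hfe⟩ := Fintype.exists_ne_map_eq_of_card_lt f hcards
  obtain ⟨u, v, huv, hvQ, hf⟩ : ∃ u v : ℕ, u < v ∧ v ≤ Q ^ κ ∧
      ∀ j, (u * e j % n) * Q / n = (v * e j % n) * Q / n := by
    have hne' : (u₀ : ℕ) ≠ v₀ := fun h => hne (Fin.ext h)
    have hval : ∀ j, ((u₀ : ℕ) * e j % n) * Q / n = ((v₀ : ℕ) * e j % n) * Q / n := by
      intro j
      have := congrFun hfe j
      exact congrArg Fin.val this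
    rcases lt_or_gt_of_ne hne' with h | h
    · exact ⟨u₀, v₀, h, by have := v₀.2; omega, hval⟩
    · exact ⟨v₀, u₀, h, by have := u₀.2; omega, fun j => (hval j).symm⟩
  refine ⟨v - u, by omega, by omega, fun j => v * e j / n - u * e j / n, ?_⟩
  have hmono : ∀ j, u * e j / n ≤ v * e j / n := fun j =>
    Nat.div_le_div_right (Nat.mul_le_mul_right _ huv.le)
  have hkey : ∀ j, |((v - u : ℕ) : ℤ) * e j - n * ((v * e j / n - u * e j / n : ℕ) : ℤ)| * Q < n := by
    intro j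
    have h1 : ((v - u : ℕ) : ℤ) = v - u := by push_cast [huv.le]; ring
    have h2 : ((v * e j / n - u * e j / n : ℕ) : ℤ) =
        ((v * e j / n : ℕ) : ℤ) - ((u * e j / n : ℕ) : ℤ) := by
      push_cast [hmono j]; ring
    have h3 : ((v * e j : ℕ) : ℤ) = n * ((v * e j / n : ℕ) : ℤ) + ((v * e j % n : ℕ) : ℤ) := by
      exact_mod_cast (Nat.div_add_mod (v * e j) n).symm
    have h4 : ((u * e j : ℕ) : ℤ) = n * ((u * e j / n : ℕ) : ℤ) + ((u * e j % n : ℕ) : ℤ) := by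
      exact_mod_cast (Nat.div_add_mod (u * e j) n).symm
    have h5 : ((v - u : ℕ) : ℤ) * e j - n * ((v * e j / n - u * e j / n : ℕ) : ℤ) =
        ((v * e j % n : ℕ) : ℤ) - ((u * e j % n : ℕ) : ℤ) := by
      rw [h1, h2]
      push_cast at h3 h4 ⊢
      linear_combination h3 - h4
    rw [h5]
    set x := v * e j % n
    set y := u * e j % n
    have h6 : y * Q / n = x * Q / n := hf j
    have h7 := Nat.div_add_mod (x * Q) n
    have h8 := Nat.div_add_mod (y * Q) n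
    have h9 := Nat.mod_lt (x * Q) hn
    have h10 := Nat.mod_lt (y * Q) hn
    rw [h6] at h8
    have h11 : |((x : ℤ) - y)| * Q = |((x * Q : ℕ) : ℤ) - ((y * Q : ℕ) : ℤ)| := by
      have : ((x * Q : ℕ) : ℤ) - ((y * Q : ℕ) : ℤ) = ((x : ℤ) - y) * Q := by push_cast; ring
      rw [this, abs_mul, abs_of_nonneg (Int.natCast_nonneg Q)]
    rw [h11, abs_lt]
    constructor <;> omega
  have hnz : (0 : ℤ) < n := by exact_mod_cast hn
  have hQz : (1 : ℤ) ≤ Q := by exact_mod_cast hQ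
  have habs : ∀ j, |((v - u : ℕ) : ℤ) * e j - n * ((v * e j / n - u * e j / n : ℕ) : ℤ)| < n := by
    intro j
    have h1 := hkey j
    have h2 := abs_nonneg (((v - u : ℕ) : ℤ) * e j - n * ((v * e j / n - u * e j / n : ℕ) : ℤ))
    nlinarith
  refine ⟨hkey, ?_, ?_, ?_⟩
  · intro j
    have h1 := (abs_lt.mp (habs j)).1
    have h2 : ((e j : ℕ) : ℤ) ≤ n := by exact_mod_cast he j
    have h3 : (0 : ℤ) ≤ ((v - u : ℕ) : ℤ) := Int.natCast_nonneg _
    by_contra hcon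
    push Not at hcon
    have h4 : ((v - u : ℕ) : ℤ) + 1 ≤ ((v * e j / n - u * e j / n : ℕ) : ℤ) := by exact_mod_cast hcon
    nlinarith
  · intro j hj
    simp [hj]
  · intro j hj
    simp only [hj]
    rw [Nat.mul_div_cancel _ hn, Nat.mul_div_cancel _ hn]

end Pool.Agent.Lib.MP_7ab245_nt.Mono
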