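import Mathlib

/-!
Existence of good line parameters.
-/

set_option autoImplicit false

namespace Pool.Agent.Lib.MP_7ab245_nt.Mono

theorem good_t {ι : Type} [Fintype ι] (κ : ℕ) (hcard : Fintype.card ι ≤ κ) (p : ι → ℕ)
    (ρ : ι → ℤ) (S : ℤ) (W D : ℕ) (hS : ∀ j, |ρ j| ≤ S) (hW : ∀ j, p j ≤ W) (hD : 1 ≤ D) (T : ℤ)
    (hT : 0 < T) (hST : 2 * S ≤ T) (hbig : (κ : ℤ) ^ 4 * (2 * D * (W + 1) + 1) ^ 2 < T) :
    ∃ t : ℤ, T ≤ t ∧ t < 2 * T ∧ ∀ i j i' j',
      (ρ i - ρ j) * ((p i' : ℤ) - p j') ≠ (ρ i' - ρ j') * ((p i : ℤ) - p j) →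
      (D : ℤ) * (Int.gcd ((t * p i + ρ i) - (t * p j + ρ j))
        ((t * p i' + ρ i') - (t * p j' + ρ j')) : ℤ) ≤ t := by
  classical
  by_contra hcon
  push Not at hcon
  set x : ι → ι → ℤ → ℤ := fun i j t => (t * p i + ρ i) - (t * p j + ρ j) with hx
  have hxe : ∀ i j t, x i j t = (ρ i - ρ j) + t * ((p i : ℤ) - p j) := by
    intro i j t; simp only [hx]; ring
  set B : Finset ℤ := Finset.Ico T (2 * T) with hB
  have hbad : ∀ t : ℤ, ∃ q : ι × ι × ι × ι, t ∈ B →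
      (ρ q.1 - ρ q.2.1) * ((p q.2.2.1 : ℤ) - p q.2.2.2) ≠
        (ρ q.2.2.1 - ρ q.2.2.2) * ((p q.1 : ℤ) - p q.2.1) ∧
      t < (D : ℤ) * (Int.gcd (x q.1 q.2.1 t) (x q.2.2.1 q.2.2.2 t) : ℤ) := by
    intro t
    by_cases ht : t ∈ B
    · have ht' := Finset.mem_Ico.mp ht
      obtain ⟨i, j, i', j', h1, h2⟩ := hcon t ht'.1 ht'.2
      exact ⟨(i, j, i', j'), fun _ => ⟨h1, h2⟩⟩
    · obtain ⟨i, j, i', j', _, _⟩ := hcon T le_rfl (by linarith)
      exact ⟨(i, j, i', j'), fun h => absurd h ht⟩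
  choose q hq using hbad
  set g : ℤ → ℤ := fun t =>
    (Int.gcd (x (q t).1 (q t).2.1 t) (x (q t).2.2.1 (q t).2.2.2 t) : ℤ) with hg
  set φ : ℤ → (ι × ι × ι × ι) × ℤ × ℤ := fun t =>
    (q t, x (q t).1 (q t).2.1 t / g t, x (q t).2.2.1 (q t).2.2.2 t / g t) with hφ
  set R : ℤ := D * (W + 1) with hR
  have hDz : (1 : ℤ) ≤ D := by exact_mod_cast hD
  have hxbound : ∀ i j t, T ≤ t → |x i j t| ≤ t * (W + 1) := by
    intro i j t ht
    rw [hxe]
    have h1 := abs_le.mp (hS i)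
    have h2 := abs_le.mp (hS j)
    have h3 : (p i : ℤ) ≤ W := by exact_mod_cast hW i
    have h4 : (p j : ℤ) ≤ W := by exact_mod_cast hW j
    have h5 : (0 : ℤ) ≤ p i := Int.natCast_nonneg _
    have h6 : (0 : ℤ) ≤ p j := Int.natCast_nonneg _
    have h7 : t * ((p i : ℤ) - p j) ≤ t * W := by
      apply mul_le_mul_of_nonneg_left <;> linarith
    have h8 : t * (-(W : ℤ)) ≤ t * ((p i : ℤ) - p j) := by
      apply mul_le_mul_of_nonneg_left <;> linarith
    rw [abs_le]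
    constructor <;> linarith [h1.1, h1.2, h2.1, h2.2]
  have hgpos : ∀ t ∈ B, 0 < g t := by
    intro t ht
    have h1 := (hq t ht).2
    have ht' := Finset.mem_Ico.mp ht
    by_contra hcon'
    have h2 : g t ≤ 0 := not_lt.mp hcon'
    have h3 : (D : ℤ) * g t ≤ 0 := by nlinarith
    have h4 : t < (D : ℤ) * g t := h1
    linarith
  have hquot : ∀ t ∈ B, ∀ y : ℤ, g t ∣ y → |y| ≤ t * (W + 1) → y / g t ∈ Finset.Icc (-R) R := by
    intro t ht y hy hyb
    have h1 := hgpos t ht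
    obtain ⟨u, rfl⟩ := hy
    rw [Int.mul_ediv_cancel_left _ h1.ne']
    have h2 : t < (D : ℤ) * g t := (hq t ht).2
    rw [abs_mul, abs_of_pos h1] at hyb
    have h3 : g t * |u| < g t * R := by
      calc g t * |u| ≤ t * (W + 1) := hyb
        _ < (D : ℤ) * g t * (W + 1) := by
            apply mul_lt_mul_of_pos_right h2
            positivity
        _ = g t * R := by rw [hR]; ring
    have h4 : |u| < R := lt_of_mul_lt_mul_left h3 h1.le
    rw [Finset.mem_Icc]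
    exact abs_le.mp h4.le
  have hmaps : ∀ t ∈ B, φ t ∈ (Finset.univ : Finset (ι × ι × ι × ι)) ×ˢ
      (Finset.Icc (-R) R ×ˢ Finset.Icc (-R) R) := by
    intro t ht
    have ht' := Finset.mem_Ico.mp ht
    rw [Finset.mem_product, Finset.mem_product]
    refine ⟨Finset.mem_univ _, ?_, ?_⟩
    · exact hquot t ht _ (Int.gcd_dvd_left _ _) (hxbound _ _ t ht'.1)
    · exact hquot t ht _ (Int.gcd_dvd_right _ _) (hxbound _ _ t ht'.1)
  have hinj : Set.InjOn φ B := by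
    intro t₁ h₁ t₂ h₂ heq
    simp only [hφ, Prod.mk.injEq] at heq
    obtain ⟨hqe, hr, hr'⟩ := heq
    by_contra hne
    have hnp := (hq t₁ h₁).1
    have hg1 := hgpos t₁ h₁
    have hg2 := hgpos t₂ h₂
    have e1 : g t₁ * (x (q t₁).1 (q t₁).2.1 t₁ / g t₁) = x (q t₁).1 (q t₁).2.1 t₁ :=
      Int.mul_ediv_cancel' (Int.gcd_dvd_left _ _)
    have e2 : g t₁ * (x (q t₁).2.2.1 (q t₁).2.2.2 t₁ / g t₁) = x (q t₁).2.2.1 (q t₁).2.2.2 t₁ :=
      Int.mul_ediv_cancel' (Int.gcd_dvd_right _ _)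
    have e3 : g t₂ * (x (q t₂).1 (q t₂).2.1 t₂ / g t₂) = x (q t₂).1 (q t₂).2.1 t₂ :=
      Int.mul_ediv_cancel' (Int.gcd_dvd_left _ _)
    have e4 : g t₂ * (x (q t₂).2.2.1 (q t₂).2.2.2 t₂ / g t₂) = x (q t₂).2.2.1 (q t₂).2.2.2 t₂ :=
      Int.mul_ediv_cancel' (Int.gcd_dvd_right _ _)
    rw [← hr, ← hqe] at e3
    rw [← hr', ← hqe] at e4
    set r := x (q t₁).1 (q t₁).2.1 t₁ / g t₁
    set r' := x (q t₁).2.2.1 (q t₁).2.2.2 t₁ / g t₁
    rw [hxe] at e1 e2 e3 e4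
    set u := ρ (q t₁).1 - ρ (q t₁).2.1
    set v := ((p (q t₁).1 : ℤ) - p (q t₁).2.1)
    set u' := ρ (q t₁).2.2.1 - ρ (q t₁).2.2.2
    set v' := ((p (q t₁).2.2.1 : ℤ) - p (q t₁).2.2.2)
    have f1 : r' * (u + t₁ * v) = r * (u' + t₁ * v') := by rw [← e1, ← e2]; ring
    have f2 : r' * (u + t₂ * v) = r * (u' + t₂ * v') := by rw [← e3, ← e4]; ring
    have f3 : (t₁ - t₂) * (r' * v - r * v') = 0 := by linear_combination f1 - f2
    have f4 : r' * v - r * v' = 0 := by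
      rcases mul_eq_zero.mp f3 with h | h
      · exact absurd (sub_eq_zero.mp h) hne
      · exact h
    have f5 : r' * u - r * u' = 0 := by linear_combination f1 - t₁ * f4
    have hnp' : u * v' - u' * v ≠ 0 := sub_ne_zero.mpr hnp
    have f6 : r' = 0 := by
      have : r' * (u * v' - u' * v) = 0 := by linear_combination v' * f5 - u' * f4
      rcases mul_eq_zero.mp this with h | h
      · exact h
      · exact absurd h hnp'
    have f7 : r = 0 := by
      have : r * (u * v' - u' * v) = 0 := by linear_combination v * f5 - u * f4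
      rcases mul_eq_zero.mp this with h | h
      · exact h
      · exact absurd h hnp'
    have hz1 : x (q t₁).1 (q t₁).2.1 t₁ = 0 := by rw [hxe, ← e1, f7, mul_zero]
    have hz2 : x (q t₁).2.2.1 (q t₁).2.2.2 t₁ = 0 := by rw [hxe, ← e2, f6, mul_zero]
    have : g t₁ = 0 := by
      simp only [hg]
      rw [hz1, hz2]
      simp
    linarith
  have hcardle := Finset.card_le_card_of_injOn φ hmaps hinj
  have hR0 : 0 ≤ R := by positivity
  have hB' : (B.card : ℤ) = T := by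
    rw [hB, Int.card_Ico]
    have : (2 * T - T).toNat = T.toNat := by congr 1; ring
    rw [this, Int.toNat_of_nonneg hT.le]
  have hIcc : ((Finset.Icc (-R) R).card : ℤ) = 2 * R + 1 := by
    rw [Int.card_Icc]
    have : (R + 1 - -R).toNat = (2 * R + 1).toNat := by congr 1; ring
    rw [this, Int.toNat_of_nonneg (by linarith)]
  have hprod : ((((Finset.univ : Finset (ι × ι × ι × ι)) ×ˢ
      (Finset.Icc (-R) R ×ˢ Finset.Icc (-R) R)).card : ℕ) : ℤ) ≤ κ ^ 4 * (2 * R + 1) ^ 2 := by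
    rw [Finset.card_product, Finset.card_product]
    push_cast
    rw [hIcc]
    have h1 : ((Finset.univ : Finset (ι × ι × ι × ι)).card : ℤ) ≤ κ ^ 4 := by
      have h2 : (Finset.univ : Finset (ι × ι × ι × ι)).card ≤ κ ^ 4 := by
        rw [Finset.card_univ]
        calc Fintype.card (ι × ι × ι × ι) = Fintype.card ι ^ 4 := by
              simp only [Fintype.card_prod]; ring
          _ ≤ κ ^ 4 := Nat.pow_le_pow_left hcard 4
      exact_mod_cast h2
    calc ((Finset.univ : Finset (ι × ι × ι × ι)).card : ℤ) * ((2 * R + 1) * (2 * R + 1))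
        ≤ κ ^ 4 * ((2 * R + 1) * (2 * R + 1)) := by gcongr
      _ = _ := by ring
  have h1 : (B.card : ℤ) ≤ κ ^ 4 * (2 * R + 1) ^ 2 := le_trans (by exact_mod_cast hcardle) hprod
  rw [hB', hR] at h1
  have h2 : (κ : ℤ) ^ 4 * (2 * (D * (W + 1)) + 1) ^ 2 = (κ : ℤ) ^ 4 * (2 * D * (W + 1) + 1) ^ 2 := by
    ring
  linarith

end Pool.Agent.Lib.MP_7ab245_nt.Mono
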