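import Mathlib
import Pool.Agent.Lib.MP_7ab245_nt.Mono.Tools

/-!
Core of the line lemma: a family of binomials dividing `G(R, y)` for all real `R > 1`.
-/

set_option autoImplicit false

open Polynomial Real

namespace Pool.Agent.Lib.MP_7ab245_nt.Mono

/-- a triple `(a, b, w)`, standing for the binomial `y ^ b - w * x ^ (-a)` -/
abbrev Tri := ℤ × ℕ × ℂ

variable {ι : Type} [Fintype ι]

/-- the polynomial `G(R, y)` in `y` -/
noncomputable def GR (c : ι → ℤ) (p : ι → ℕ) (ρ : ι → ℤ) (R : ℝ) : ℂ[X] :=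
  lp (fun j => (c j : ℂ) * (R : ℂ) ^ (ρ j)) p

noncomputable def PiR (𝒯 : Finset Tri) (μ : Tri → ℕ) (R : ℝ) : ℂ[X] :=
  ∏ T ∈ 𝒯, (X ^ T.2.1 - C (T.2.2 * (R : ℂ) ^ (-T.1))) ^ μ T

lemma lp_coeff_eq (c : ι → ℂ) (n : ι → ℕ) (i : ℕ) :
    (lp c n).coeff i = ∑ j with n j = i, c j := by
  rw [lp, finsetSum_coeff, Finset.sum_filter]
  refine Finset.sum_congr rfl fun j _ => ?_
  rw [coeff_C_mul, coeff_X_pow]
  by_cases h : n j = i
  · rw [if_pos h.symm, if_pos h, mul_one]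
  · rw [if_neg (fun h' => h h'.symm), if_neg h, mul_zero]

lemma lp_natDegree_le (c : ι → ℂ) (n : ι → ℕ) (W : ℕ) (h : ∀ j, n j ≤ W) :
    (lp c n).natDegree ≤ W := by
  rw [lp]
  apply natDegree_sum_le_of_forall_le
  intro j _
  exact (natDegree_C_mul_X_pow_le _ _).trans (h j)

lemma tri_eq_of_norm {R : ℝ} (hR : 1 < R) {T T' : Tri} (hb : 0 < T.2.1) (hb' : 0 < T'.2.1)
    (hg : Int.gcd T.1 T.2.1 = 1) (hg' : Int.gcd T'.1 T'.2.1 = 1)
    (hw : ‖T.2.2‖ = 1) (hw' : ‖T'.2.2‖ = 1) (y : ℂ)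
    (h : y ^ T.2.1 = T.2.2 * (R : ℂ) ^ (-T.1)) (h' : y ^ T'.2.1 = T'.2.2 * (R : ℂ) ^ (-T'.1)) :
    T = T' := by
  obtain ⟨a, b, w⟩ := T
  obtain ⟨a', b', w'⟩ := T'
  simp only at hb hb' hg hg' hw hw' h h'
  have hR0 : 0 < R := by linarith
  have hRC : (R : ℂ) ≠ 0 := by exact_mod_cast hR0.ne'
  have hn : ∀ n : ℤ, ‖(R : ℂ) ^ n‖ = R ^ n := by
    intro n
    rw [norm_zpow, Complex.norm_real, Real.norm_of_nonneg hR0.le]
  have h1 : ‖y‖ ^ b = R ^ (-a) := by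
    rw [← norm_pow, h, norm_mul, hw, one_mul, hn]
  have h2 : ‖y‖ ^ b' = R ^ (-a') := by
    rw [← norm_pow, h', norm_mul, hw', one_mul, hn]
  have h3 : R ^ (-a * b') = R ^ (-a' * b) := by
    rw [zpow_mul, zpow_mul, ← h1, ← h2, zpow_natCast, zpow_natCast, ← pow_mul, ← pow_mul,
      mul_comm b]
  have h4 : -a * (b' : ℤ) = -a' * b := (zpow_right_injective₀ hR0 hR.ne') h3
  have h5 : a * (b' : ℤ) = a' * b := by linarith
  have h6 : (b : ℤ) ∣ b' := by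
    have : (b : ℤ) ∣ a * b' := ⟨a', by rw [h5]; ring⟩
    refine Int.dvd_of_dvd_mul_right_of_gcd_one this ?_
    rw [Int.gcd_comm]; exact hg
  have h7 : (b' : ℤ) ∣ b := by
    have : (b' : ℤ) ∣ a' * b := ⟨a, by rw [← h5]; ring⟩
    refine Int.dvd_of_dvd_mul_right_of_gcd_one this ?_
    rw [Int.gcd_comm]; exact hg'
  have h8 : b = b' := Nat.dvd_antisymm (Int.natCast_dvd_natCast.mp h6)
    (Int.natCast_dvd_natCast.mp h7)
  subst h8
  have h9 : a = a' := by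
    have hbz : (b : ℤ) ≠ 0 := by exact_mod_cast hb.ne'
    exact mul_right_cancel₀ hbz h5
  subst h9
  have h10 : w = w' := by
    rw [h] at h'
    exact mul_right_cancel₀ (zpow_ne_zero _ hRC) h'
  rw [h10]

lemma PiR_monic (𝒯 : Finset Tri) (μ : Tri → ℕ) (R : ℝ) (hb : ∀ T ∈ 𝒯, 0 < T.2.1) :
    (PiR 𝒯 μ R).Monic :=
  monic_prod_of_monic _ _ fun T hT => (monic_binom (hb T hT) _).pow _

lemma PiR_natDegree (𝒯 : Finset Tri) (μ : Tri → ℕ) (R : ℝ) (hb : ∀ T ∈ 𝒯, 0 < T.2.1) :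
    (PiR 𝒯 μ R).natDegree = ∑ T ∈ 𝒯, μ T * T.2.1 := by
  rw [PiR, natDegree_prod_of_monic _ _ fun T hT => (monic_binom (hb T hT) _).pow _]
  refine Finset.sum_congr rfl fun T hT => ?_
  rw [(monic_binom (hb T hT) _).natDegree_pow, natDegree_X_pow_sub_C]

lemma PiR_dvd (c : ι → ℤ) (p : ι → ℕ) (ρ : ι → ℤ) (𝒯 : Finset Tri) (μ : Tri → ℕ)
    (hb : ∀ T ∈ 𝒯, 0 < T.2.1) (hg : ∀ T ∈ 𝒯, Int.gcd T.1 T.2.1 = 1)
    (hw : ∀ T ∈ 𝒯, ‖T.2.2‖ = 1)
    (hdiv : ∀ T ∈ 𝒯, ∀ R : ℝ, 1 < R → ∀ y : ℂ, (R : ℂ) ^ T.1 * y ^ T.2.1 = T.2.2 →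
      (X - C y) ^ μ T ∣ GR c p ρ R) {R : ℝ} (hR : 1 < R) : PiR 𝒯 μ R ∣ GR c p ρ R := by
  have hR0 : 0 < R := by linarith
  have hRC : (R : ℂ) ≠ 0 := by exact_mod_cast hR0.ne'
  apply Finset.prod_dvd_of_coprime
  · intro T hT T' hT' hne
    apply IsCoprime.pow
    apply binom_coprime
    intro y hy hy'
    exact hne (tri_eq_of_norm hR (hb T hT) (hb T' hT') (hg T hT) (hg T' hT') (hw T hT)
      (hw T' hT') y hy hy')
  · intro T hT
    apply binom_dvd (hb T hT)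
    · refine mul_ne_zero ?_ (zpow_ne_zero _ hRC)
      intro h0
      have := hw T hT
      rw [h0, norm_zero] at this
      exact zero_ne_one this
    · intro y hy
      apply hdiv T hT R hR y
      rw [hy, mul_comm, mul_assoc, ← zpow_add₀ hRC]
      simp

/-- constant coefficient bound -/
lemma core_sum_a (c : ι → ℤ) (hc : ∀ j, c j ≠ 0) (p : ι → ℕ) (ρ : ι → ℤ)
    (hinj : Function.Injective fun j => (p j, ρ j)) (S : ℤ) (hS : ∀ j, |ρ j| ≤ S)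
    (h0 : ∃ j, p j = 0) (𝒯 : Finset Tri) (μ : Tri → ℕ)
    (hb : ∀ T ∈ 𝒯, 0 < T.2.1) (hg : ∀ T ∈ 𝒯, Int.gcd T.1 T.2.1 = 1)
    (hw : ∀ T ∈ 𝒯, ‖T.2.2‖ = 1)
    (hdiv : ∀ T ∈ 𝒯, ∀ R : ℝ, 1 < R → ∀ y : ℂ, (R : ℂ) ^ T.1 * y ^ T.2.1 = T.2.2 →
      (X - C y) ^ μ T ∣ GR c p ρ R) :
    ∑ T ∈ 𝒯, (μ T : ℤ) * T.1 ≤ 2 * S := by
  classical
  set A : ℝ := ∑ j, |(c j : ℝ)| with hA
  have hA0 : 0 ≤ A := Finset.sum_nonneg fun _ _ => abs_nonneg _
  set R : ℝ := 2 * A + 2 with hR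
  have hR1 : 1 < R := by linarith
  have hR0 : 0 < R := by linarith
  have hRC : (R : ℂ) ≠ 0 := by exact_mod_cast hR0.ne'
  obtain ⟨H, hH⟩ := PiR_dvd c p ρ 𝒯 μ hb hg hw hdiv hR1
  have hlow : R ^ (-S) / 2 ≤ ‖(GR c p ρ R).coeff 0‖ := by
    rw [GR, lp_coeff_eq]
    refine laurent_lower _ ?_ c (fun j _ => hc j) ρ ?_ S hS le_rfl le_rfl
    · obtain ⟨j, hj⟩ := h0
      exact ⟨j, by simp [hj]⟩
    · intro i hi j hj hij
      apply hinj
      have h1 := (Finset.mem_filter.mp hi).2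
      have h2 := (Finset.mem_filter.mp hj).2
      simp only [h1, h2, hij]
  have hpi : ‖(PiR 𝒯 μ R).coeff 0‖ = R ^ (-∑ T ∈ 𝒯, (μ T : ℤ) * T.1) := by
    rw [coeff_zero_eq_eval_zero, PiR, eval_prod, norm_prod, ← Finset.sum_neg_distrib]
    have h1 : ∀ T ∈ 𝒯, ‖eval 0 ((X ^ T.2.1 - C (T.2.2 * (R : ℂ) ^ (-T.1))) ^ μ T)‖ =
        R ^ (-((μ T : ℤ) * T.1)) := by
      intro T hT
      rw [eval_pow, eval_sub, eval_pow, eval_X, eval_C, zero_pow (hb T hT).ne', zero_sub,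
        norm_pow, norm_neg, norm_mul, hw T hT, one_mul, norm_zpow, Complex.norm_real,
        Real.norm_of_nonneg hR0.le, ← zpow_natCast, ← zpow_mul]
      congr 1; ring
    rw [Finset.prod_congr rfl h1]
    have h2 : ∀ s : Finset Tri, ∏ T ∈ s, R ^ (-((μ T : ℤ) * T.1)) =
        R ^ (∑ T ∈ s, (-((μ T : ℤ) * T.1))) := by
      intro s
      induction s using Finset.induction_on with
      | empty => simp
      | insert T s hT ih => rw [Finset.prod_insert hT, Finset.sum_insert hT, ih,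
          zpow_add₀ hR0.ne']
    exact h2 _
  have hG0 : GR c p ρ R ≠ 0 := by
    intro h
    rw [h, coeff_zero, norm_zero] at hlow
    have := zpow_pos hR0 (-S)
    linarith
  have hMG : (GR c p ρ R).mahlerMeasure ≤ A * R ^ S := by
    refine (mahler_lp_le _ _).trans ?_
    rw [hA, Finset.sum_mul]
    refine Finset.sum_le_sum fun j _ => ?_
    rw [norm_mul, norm_zpow, Complex.norm_intCast, Complex.norm_real,
      Real.norm_of_nonneg hR0.le]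
    gcongr
    · exact hR1.le
    · exact (abs_le.mp (hS j)).2
  have hMH : ‖H.coeff 0‖ ≤ H.mahlerMeasure := by
    have := norm_coeff_le_choose_mul_mahlerMeasure 0 H
    simpa using this
  have hMle : H.mahlerMeasure ≤ (GR c p ρ R).mahlerMeasure := by
    rw [hH, mahlerMeasure_mul]
    have h1 : 1 ≤ (PiR 𝒯 μ R).mahlerMeasure :=
      one_le_mahlerMeasure_of_one_le_norm_leadingCoeff (by
        rw [(PiR_monic 𝒯 μ R hb).leadingCoeff, norm_one])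
    exact le_mul_of_one_le_left (mahlerMeasure_nonneg _) h1
  have hcoeff : ‖(GR c p ρ R).coeff 0‖ = ‖(PiR 𝒯 μ R).coeff 0‖ * ‖H.coeff 0‖ := by
    rw [hH, mul_coeff_zero, norm_mul]
  set σ := ∑ T ∈ 𝒯, (μ T : ℤ) * T.1 with hσ
  have h1 : R ^ (-S) / 2 ≤ R ^ (-σ) * (A * R ^ S) := by
    calc R ^ (-S) / 2 ≤ ‖(GR c p ρ R).coeff 0‖ := hlow
      _ = R ^ (-σ) * ‖H.coeff 0‖ := by rw [hcoeff, hpi]
      _ ≤ R ^ (-σ) * (A * R ^ S) := by
          gcongr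
          exact hMH.trans (hMle.trans hMG)
  by_contra hcon
  push Not at hcon
  have h2 : R ^ (-σ) ≤ R ^ (-(2 * S + 1)) := zpow_le_zpow_right₀ hR1.le (by linarith)
  have h3 : R ^ (-S) / 2 ≤ A * R ^ (-S) * R⁻¹ := by
    calc R ^ (-S) / 2 ≤ R ^ (-σ) * (A * R ^ S) := h1
      _ ≤ R ^ (-(2 * S + 1)) * (A * R ^ S) := by
          have := zpow_pos hR0 S
          gcongr
      _ = A * (R ^ (-(2 * S + 1)) * R ^ S) := by ring
      _ = A * R ^ (-S) * R⁻¹ := by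
          rw [← zpow_add₀ hR0.ne', mul_assoc, ← zpow_neg_one, ← zpow_add₀ hR0.ne']
          congr 2; ring
  have h4 := zpow_pos hR0 (-S)
  have h5 : (1 : ℝ) / 2 ≤ A * R⁻¹ := by
    by_contra h
    push Not at h
    nlinarith
  rw [← div_eq_mul_inv, div_le_div_iff₀ two_pos hR0] at h5
  linarith

/-- degree bound -/
lemma core_sum_b [Nonempty ι] (c : ι → ℤ) (hc : ∀ j, c j ≠ 0) (p : ι → ℕ) (ρ : ι → ℤ)
    (hinj : Function.Injective fun j => (p j, ρ j)) (W : ℕ) (hpW : ∀ j, p j ≤ W)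
    (hW : ∃ j, p j = W) (𝒯 : Finset Tri) (μ : Tri → ℕ)
    (hb : ∀ T ∈ 𝒯, 0 < T.2.1) (hg : ∀ T ∈ 𝒯, Int.gcd T.1 T.2.1 = 1)
    (hw : ∀ T ∈ 𝒯, ‖T.2.2‖ = 1)
    (hdiv : ∀ T ∈ 𝒯, ∀ R : ℝ, 1 < R → ∀ y : ℂ, (R : ℂ) ^ T.1 * y ^ T.2.1 = T.2.2 →
      (X - C y) ^ μ T ∣ GR c p ρ R) :
    ∑ T ∈ 𝒯, μ T * T.2.1 ≤ W ∧
    (∑ T ∈ 𝒯, μ T * T.2.1 = W → ∀ R : ℝ, 2 * (∑ j, |(c j : ℝ)|) + 2 ≤ R →
      GR c p ρ R = C (∑ j with p j = W, (c j : ℂ) * (R : ℂ) ^ (ρ j)) * PiR 𝒯 μ R) := by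
  classical
  obtain ⟨S, hS⟩ : ∃ S : ℤ, ∀ j, |ρ j| ≤ S := by
    obtain ⟨j₀, _, hj₀⟩ := Finset.exists_max_image Finset.univ (fun j => |ρ j|)
      Finset.univ_nonempty
    exact ⟨|ρ j₀|, fun j => hj₀ j (Finset.mem_univ j)⟩
  have hA0 : 0 ≤ ∑ j, |(c j : ℝ)| := Finset.sum_nonneg fun _ _ => abs_nonneg _
  have htop : ∀ R : ℝ, 2 * (∑ j, |(c j : ℝ)|) + 2 ≤ R →
      (∑ j with p j = W, (c j : ℂ) * (R : ℂ) ^ (ρ j)) ≠ 0 := by
    intro R hR h
    have hR0 : 0 < R := by linarith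
    have hlow : R ^ (-S) / 2 ≤ ‖∑ j with p j = W, (c j : ℂ) * (R : ℂ) ^ (ρ j)‖ := by
      refine laurent_lower _ ?_ c (fun j _ => hc j) ρ ?_ S hS le_rfl hR
      · obtain ⟨j, hj⟩ := hW
        exact ⟨j, by simp [hj]⟩
      · intro i hi j hj hij
        apply hinj
        have h1 := (Finset.mem_filter.mp hi).2
        have h2 := (Finset.mem_filter.mp hj).2
        simp only [h1, h2, hij]
    rw [h, norm_zero] at hlow
    have := zpow_pos hR0 (-S)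
    linarith
  have hcoeff : ∀ R : ℝ, (GR c p ρ R).coeff W =
      ∑ j with p j = W, (c j : ℂ) * (R : ℂ) ^ (ρ j) := fun R => by rw [GR, lp_coeff_eq]
  have hdeg : ∀ R : ℝ, 2 * (∑ j, |(c j : ℝ)|) + 2 ≤ R → (GR c p ρ R).natDegree = W := by
    intro R hR
    apply le_antisymm (lp_natDegree_le _ _ _ hpW)
    refine le_natDegree_of_ne_zero (?_ : (GR c p ρ R).coeff W ≠ 0)
    rw [hcoeff]
    exact htop R hR
  have hne : ∀ R : ℝ, 2 * (∑ j, |(c j : ℝ)|) + 2 ≤ R → GR c p ρ R ≠ 0 := by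
    intro R hR h
    have h1 := hcoeff R
    rw [h, coeff_zero] at h1
    exact htop R hR h1.symm
  constructor
  · have hR := le_refl (2 * (∑ j, |(c j : ℝ)|) + 2)
    have h1 := natDegree_le_of_dvd (PiR_dvd c p ρ 𝒯 μ hb hg hw hdiv
      (R := 2 * (∑ j, |(c j : ℝ)|) + 2) (by linarith)) (hne _ hR)
    rwa [PiR_natDegree 𝒯 μ _ hb, hdeg _ hR] at h1
  · intro hsum R hR
    obtain ⟨H, hH⟩ := PiR_dvd c p ρ 𝒯 μ hb hg hw hdiv (R := R) (by linarith)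
    have hm := PiR_monic 𝒯 μ R hb
    have hH0 : H ≠ 0 := by
      rintro rfl
      exact hne R hR (by rw [hH, mul_zero])
    have h1 : W = W + H.natDegree := by
      have h2 := hdeg R hR
      rw [hH, hm.natDegree_mul' hH0, PiR_natDegree 𝒯 μ _ hb, hsum] at h2
      exact h2.symm
    have h3 : H.natDegree = 0 := by omega
    obtain ⟨x, hx⟩ : ∃ x, H = C x := ⟨H.coeff 0, eq_C_of_natDegree_eq_zero h3⟩
    have h4 : (GR c p ρ R).coeff W = x := by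
      rw [hH, hx, coeff_mul_C]
      have : (PiR 𝒯 μ R).coeff W = 1 := by
        have h5 := hm.coeff_natDegree
        rwa [PiR_natDegree 𝒯 μ _ hb, hsum] at h5
      rw [this, one_mul]
    rw [hcoeff] at h4
    rw [hH, hx, h4, mul_comm]

lemma mahler_prod_one {α : Type} (s : Finset α) (f : α → ℂ[X])
    (h : ∀ x ∈ s, (f x).mahlerMeasure = 1) : (∏ x ∈ s, f x).mahlerMeasure = 1 := by
  refine Finset.prod_induction f (fun P => P.mahlerMeasure = 1) ?_ mahlerMeasure_one h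
  intro a b ha hb
  rw [mahlerMeasure_mul, ha, hb, mul_one]

lemma mahler_pow_one {P : ℂ[X]} (h : P.mahlerMeasure = 1) (n : ℕ) :
    (P ^ n).mahlerMeasure = 1 := by
  induction n with
  | zero => simp
  | succ n ih => rw [pow_succ, mahlerMeasure_mul, ih, h, one_mul]

/-- If the family of binomials has full degree then `lm` is constant along the line. -/
lemma core_const [Nonempty ι] (c : ι → ℤ) (hc : ∀ j, c j ≠ 0) (p : ι → ℕ) (ρ : ι → ℤ)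
    (hinj : Function.Injective fun j => (p j, ρ j)) (S : ℤ) (W : ℕ)
    (hpW : ∀ j, p j ≤ W)
    (hW : ∃ j, p j = W) (𝒯 : Finset Tri) (μ : Tri → ℕ)
    (hb : ∀ T ∈ 𝒯, 0 < T.2.1) (hg : ∀ T ∈ 𝒯, Int.gcd T.1 T.2.1 = 1)
    (hw : ∀ T ∈ 𝒯, ‖T.2.2‖ = 1) (ha : ∀ T ∈ 𝒯, |T.1| ≤ 2 * S)
    (hdiv : ∀ T ∈ 𝒯, ∀ R : ℝ, 1 < R → ∀ y : ℂ, (R : ℂ) ^ T.1 * y ^ T.2.1 = T.2.2 →
      (X - C y) ^ μ T ∣ GR c p ρ R) (hsum : ∑ T ∈ 𝒯, μ T * T.2.1 = W) (τ : ℤ)
    (hτ : 2 * S < τ) :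
    lm c (fun j => τ * p j + ρ j) =
      lm (fun j : {j : ι // p j = W} => c j) (fun j => ρ j) := by
  classical
  have hA0 : 0 ≤ ∑ j, |(c j : ℝ)| := Finset.sum_nonneg fun _ _ => abs_nonneg _
  have hfac := (core_sum_b c hc p ρ hinj W hpW hW 𝒯 μ hb hg hw hdiv).2 hsum
  set σ : ℤ := ∑ T ∈ 𝒯, (μ T : ℤ) * T.1 with hσ
  have hpos : ∀ T ∈ 𝒯, 0 < (T.2.1 : ℤ) * τ + T.1 := by
    intro T hT
    have h1 := (abs_le.mp (ha T hT)).1
    have h2 : (1 : ℤ) ≤ T.2.1 := by exact_mod_cast hb T hT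
    have h3 : 0 ≤ 2 * S := le_trans (abs_nonneg _) (ha T hT)
    nlinarith
  -- a large shift
  obtain ⟨K, hK1, hK2⟩ : ∃ K : ℤ, (∀ j, 0 ≤ τ * (p j : ℤ) + ρ j + K) ∧
      (∀ j, 0 ≤ ρ j + (K - σ)) := by
    obtain ⟨j₁, _, hj₁⟩ := Finset.exists_min_image Finset.univ (fun j => τ * (p j : ℤ) + ρ j)
      Finset.univ_nonempty
    obtain ⟨j₂, _, hj₂⟩ := Finset.exists_min_image Finset.univ ρ Finset.univ_nonempty
    refine ⟨max (-(τ * (p j₁ : ℤ) + ρ j₁)) (σ - ρ j₂), fun j => ?_, fun j => ?_⟩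
    · have h1 := hj₁ j (Finset.mem_univ j)
      have h2 := le_max_left (-(τ * (p j₁ : ℤ) + ρ j₁)) (σ - ρ j₂)
      linarith
    · have h1 := hj₂ j (Finset.mem_univ j)
      have h2 := le_max_right (-(τ * (p j₁ : ℤ) + ρ j₁)) (σ - ρ j₂)
      linarith
  set P₁ : ℂ[X] := lp (fun j => (c j : ℂ)) fun j => (τ * (p j : ℤ) + ρ j + K).toNat with hP₁
  set P₃ : ℂ[X] := lp (fun j : {j : ι // p j = W} => ((c j : ℤ) : ℂ))
    fun j => (ρ j + (K - σ)).toNat with hP₃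
  set P₄ : ℂ[X] := ∏ T ∈ 𝒯, (X ^ ((T.2.1 : ℤ) * τ + T.1).toNat - C T.2.2) ^ μ T with hP₄
  have hid : P₁ = P₃ * P₄ := by
    apply eq_of_infinite_eval_eq
    have hinf : Set.Infinite (Set.range fun n : ℕ =>
        (((2 * (∑ j, |(c j : ℝ)|) + 2 + n : ℝ)) : ℂ)) := by
      apply Set.infinite_range_of_injective
      intro n m hnm
      simp only at hnm
      have h1 : (2 * (∑ j, |(c j : ℝ)|) + 2 + n : ℝ) = 2 * (∑ j, |(c j : ℝ)|) + 2 + m := by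
        exact_mod_cast hnm
      have h2 : (n : ℝ) = m := by linarith
      exact_mod_cast h2
    refine hinf.mono ?_
    rintro _ ⟨n, rfl⟩
    set R : ℝ := 2 * (∑ j, |(c j : ℝ)|) + 2 + n with hRdef
    have hR : 2 * (∑ j, |(c j : ℝ)|) + 2 ≤ R := by
      have : (0 : ℝ) ≤ n := Nat.cast_nonneg n
      linarith
    have hR0 : 0 < R := by linarith
    have hRC : (R : ℂ) ≠ 0 := by exact_mod_cast hR0.ne'
    have h1 := congrArg (eval ((R : ℂ) ^ τ)) (hfac R hR)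
    rw [eval_mul, eval_C, GR, eval_lp] at h1
    have h2 : ∑ j, (c j : ℂ) * (R : ℂ) ^ ρ j * ((R : ℂ) ^ τ) ^ p j =
        ls (fun j => (c j : ℂ)) (fun j => τ * p j + ρ j) R := by
      rw [ls]
      refine Finset.sum_congr rfl fun j _ => ?_
      rw [zpow_add₀ hRC, zpow_mul, zpow_natCast]
      ring
    rw [h2] at h1
    have h3 : ∑ j with p j = W, (c j : ℂ) * (R : ℂ) ^ (ρ j) =
        ls (fun j : {j : ι // p j = W} => ((c j : ℤ) : ℂ)) (fun j => ρ j) R := by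
      rw [ls]
      exact Finset.sum_subtype _ (fun j => by simp) _
    rw [h3] at h1
    have h4 : eval ((R : ℂ) ^ τ) (PiR 𝒯 μ R) = (R : ℂ) ^ (-σ) * P₄.eval (R : ℂ) := by
      rw [PiR, eval_prod, hP₄, eval_prod]
      have h5 : ∀ T ∈ 𝒯, eval ((R : ℂ) ^ τ) ((X ^ T.2.1 - C (T.2.2 * (R : ℂ) ^ (-T.1))) ^ μ T) =
          (R : ℂ) ^ (-((μ T : ℤ) * T.1)) *
            eval (R : ℂ) ((X ^ ((T.2.1 : ℤ) * τ + T.1).toNat - C T.2.2) ^ μ T) := by
        intro T hT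
        rw [eval_pow, eval_sub, eval_pow, eval_X, eval_C, eval_pow, eval_sub, eval_pow, eval_X,
          eval_C]
        have h6 : (R : ℂ) ^ (((T.2.1 : ℤ) * τ + T.1).toNat) = (R : ℂ) ^ ((T.2.1 : ℤ) * τ + T.1) := by
          rw [← zpow_natCast, Int.toNat_of_nonneg (hpos T hT).le]
        have h7 : (R : ℂ) ^ (-((μ T : ℤ) * T.1)) = ((R : ℂ) ^ (-T.1)) ^ μ T := by
          rw [← zpow_natCast, ← zpow_mul]; congr 1; ring
        rw [h6, h7, ← mul_pow]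
        congr 1
        rw [mul_sub, ← zpow_add₀ hRC, ← zpow_natCast, ← zpow_mul]
        congr 1
        · congr 1; ring
        · ring
      rw [Finset.prod_congr rfl h5, Finset.prod_mul_distrib]
      congr 1
      have h8 : ∀ s : Finset Tri, ∏ T ∈ s, (R : ℂ) ^ (-((μ T : ℤ) * T.1)) =
          (R : ℂ) ^ (-∑ T ∈ s, ((μ T : ℤ) * T.1)) := by
        intro s
        induction s using Finset.induction_on with
        | empty => simp
        | insert T s hT ih => rw [Finset.prod_insert hT, Finset.sum_insert hT, ih, neg_add,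
            zpow_add₀ hRC]
      exact h8 _
    rw [h4] at h1
    change P₁.eval (R : ℂ) = (P₃ * P₄).eval (R : ℂ)
    rw [hP₁, eval_lp_shift _ _ K hK1 hRC, h1, eval_mul, hP₃,
      eval_lp_shift _ (fun j : {j : ι // p j = W} => ρ j) (K - σ) (fun j => hK2 j) hRC,
      sub_eq_add_neg, zpow_add₀ hRC]
    ring
  rw [lm_eq_log c _ K hK1, lm_eq_log _ (fun j : {j : ι // p j = W} => ρ j) (K - σ)
    (fun j => hK2 j)]
  rw [logMahlerMeasure_eq_log_MahlerMeasure, logMahlerMeasure_eq_log_MahlerMeasure]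
  congr 1
  rw [← hP₁, hid, mahlerMeasure_mul, ← hP₃]
  have h9 : P₄.mahlerMeasure = 1 := by
    apply mahler_prod_one
    intro T hT
    apply mahler_pow_one
    apply mahler_binom _ (hw T hT)
    have := hpos T hT
    omega
  rw [h9, mul_one]

end Pool.Agent.Lib.MP_7ab245_nt.Mono
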