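import Mathlib
import Pool.Agent.Lib.MP_7ab245_nt.Mono.Defs

/-!
Mann's block lemma for vanishing integral combinations of powers of a root of unity.
-/

set_option autoImplicit false

open Polynomial

namespace Pool.Agent.Lib.MP_7ab245_nt.Mono

/-- Galois conjugation for vanishing sums of roots of unity. -/
lemma conj_vanish {ι : Type} (s : Finset ι) (c : ι → ℤ) (e : ι → ℤ) {m : ℕ} (hm : 0 < m)
    {ζ ζ' : ℂ} (hζ : IsPrimitiveRoot ζ m) (hζ' : IsPrimitiveRoot ζ' m)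
    (h : ∑ j ∈ s, (c j : ℂ) * ζ ^ (e j) = 0) : ∑ j ∈ s, (c j : ℂ) * ζ' ^ (e j) = 0 := by
  classical
  -- exponents reduced modulo `m`
  have hmz : (m : ℤ) ≠ 0 := by exact_mod_cast hm.ne'
  have red : ∀ {ξ : ℂ}, IsPrimitiveRoot ξ m → ∀ n : ℤ, ξ ^ n = ξ ^ (n % m).toNat := by
    intro ξ hξ n
    have h0 : ξ ≠ 0 := hξ.ne_zero hm.ne'
    have h1 : ((n % m).toNat : ℤ) = n % m := Int.toNat_of_nonneg (Int.emod_nonneg _ hmz)
    rw [← zpow_natCast, h1]
    conv_lhs => rw [← Int.emod_add_mul_ediv n m]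
    rw [zpow_add₀ h0, zpow_mul, zpow_natCast, hξ.pow_eq_one, one_zpow, mul_one]
  set F : ℤ[X] := ∑ j ∈ s, C (c j) * X ^ (e j % m).toNat with hF
  have hev : ∀ {ξ : ℂ}, IsPrimitiveRoot ξ m → aeval ξ F = ∑ j ∈ s, (c j : ℂ) * ξ ^ (e j) := by
    intro ξ hξ
    rw [hF, map_sum]
    refine Finset.sum_congr rfl fun j _ => ?_
    rw [map_mul, map_pow, aeval_X, aeval_C, red hξ]
    simp
  rw [← hev hζ] at h
  rw [← hev hζ']
  have h1 : minpoly ℤ ζ ∣ F := minpoly.isIntegrallyClosed_dvd (hζ.isIntegral hm) h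
  rw [← cyclotomic_eq_minpoly hζ hm, cyclotomic_eq_minpoly hζ' hm] at h1
  obtain ⟨q, hq⟩ := h1
  rw [hq, map_mul, minpoly.aeval, zero_mul]

/-- `1 + a (m / q)` is coprime to `m` unless `q` divides it. -/
lemma coprime_one_add {m q : ℕ} (hq : q.Prime) (hqm : q ∣ m) (a : ℕ)
    (h : ¬ q ∣ 1 + a * (m / q)) : Nat.Coprime (1 + a * (m / q)) m := by
  apply Nat.Coprime.symm
  rw [Nat.coprime_iff_gcd_eq_one]
  by_contra hg
  obtain ⟨p, hp, hpg⟩ := Nat.exists_prime_and_dvd hg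
  have h1 : p ∣ m := hpg.trans (Nat.gcd_dvd_left _ _)
  have h2 : p ∣ 1 + a * (m / q) := hpg.trans (Nat.gcd_dvd_right _ _)
  by_cases hpq : p = q
  · exact h (hpq ▸ h2)
  · have h3 : p ∣ m / q := by
      have h4 : p ∣ q * (m / q) := by rwa [Nat.mul_div_cancel' hqm]
      rcases (Nat.Prime.dvd_mul hp).mp h4 with h5 | h5
      · exact absurd ((Nat.prime_dvd_prime_iff_eq hp hq).mp h5) hpq
      · exact h5
    have h6 : p ∣ 1 := (Nat.dvd_add_left (h3.mul_left a)).mp h2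
    exact hp.one_lt.ne' (Nat.dvd_one.mp h6)

/-- finite geometric sums of roots of unity -/
lemma geom_root {q : ℕ} (hq : 0 < q) {ω : ℂ} (hω : IsPrimitiveRoot ω q) (n : ℤ) :
    ∑ a ∈ Finset.range q, (ω ^ n) ^ a = if (q : ℤ) ∣ n then (q : ℂ) else 0 := by
  split_ifs with h
  · rw [(hω.zpow_eq_one_iff_dvd n).mpr h]
    simp
  · have h1 : ω ^ n ≠ 1 := fun h1 => h ((hω.zpow_eq_one_iff_dvd n).mp h1)
    have h2 : (ω ^ n) ^ q = 1 := by
      rw [← zpow_natCast, ← zpow_mul, mul_comm, zpow_mul, zpow_natCast, hω.pow_eq_one, one_zpow]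
    rw [geom_sum_eq h1, h2, sub_self, zero_div]

lemma class_vanish {ι : Type} (s : Finset ι) (κ : ℕ) (hs : s.card ≤ κ) (c : ι → ℤ) (e : ι → ℤ)
    {m : ℕ} (hm : 0 < m) {ζ : ℂ} (hζ : IsPrimitiveRoot ζ m) {q : ℕ} (hq : q.Prime) (hqm : q ∣ m)
    (hq2 : q ≤ κ → q * q ∣ m) (h : ∑ j ∈ s, (c j : ℂ) * ζ ^ (e j) = 0) (r : ℤ) :
    ∑ j ∈ s with (q : ℤ) ∣ e j - r, (c j : ℂ) * ζ ^ (e j) = 0 := by
  classical
  have hζ0 : ζ ≠ 0 := hζ.ne_zero hm.ne'
  set ω : ℂ := ζ ^ (m / q) with hωdef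
  have hω : IsPrimitiveRoot ω q := hζ.pow hm (Nat.div_mul_cancel hqm).symm
  have hω0 : ω ≠ 0 := pow_ne_zero _ hζ0
  have hq0 : (q : ℂ) ≠ 0 := by exact_mod_cast hq.ne_zero
  set f : ℕ → ℂ := fun a => ∑ j ∈ s, (c j : ℂ) * ζ ^ (e j) * (ω ^ (e j)) ^ a with hf
  -- discrete Fourier transform
  have dft : ∀ r : ℤ, ∑ a ∈ Finset.range q, (ω ^ (-r)) ^ a * f a =
      q * ∑ j ∈ s with (q : ℤ) ∣ e j - r, (c j : ℂ) * ζ ^ (e j) := by
    intro r
    simp only [hf, Finset.mul_sum]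
    rw [Finset.sum_comm, Finset.sum_filter]
    refine Finset.sum_congr rfl fun j _ => ?_
    have h1 : ∑ a ∈ Finset.range q, (ω ^ (-r)) ^ a * ((c j : ℂ) * ζ ^ (e j) * (ω ^ (e j)) ^ a) =
        (c j : ℂ) * ζ ^ (e j) * ∑ a ∈ Finset.range q, (ω ^ (e j - r)) ^ a := by
      rw [Finset.mul_sum]
      refine Finset.sum_congr rfl fun a _ => ?_
      have : ω ^ (e j - r) = ω ^ (-r) * ω ^ (e j) := by
        rw [← zpow_add₀ hω0]; congr 1; ring
      rw [this, mul_pow]; ring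
    rw [h1, geom_root hq.pos hω]
    split_ifs <;> ring
  -- good residues
  have good : ∀ a : ℕ, ¬ q ∣ 1 + a * (m / q) → f a = 0 := by
    intro a ha
    have hcop := coprime_one_add hq hqm a ha
    have hprim : IsPrimitiveRoot (ζ ^ (1 + a * (m / q))) m := hζ.pow_of_coprime _ hcop
    have h1 := conj_vanish s c e hm hζ hprim h
    rw [hf]
    rw [← h1]
    refine Finset.sum_congr rfl fun j _ => ?_
    have : ζ ^ (1 + a * (m / q)) = ζ * ω ^ a := by
      rw [pow_add, pow_one, hωdef, ← pow_mul, mul_comm a]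
    rw [this, mul_zpow, mul_assoc]
    congr 2
    rw [← zpow_natCast ω a, ← zpow_natCast (ω ^ e j) a, ← zpow_mul, ← zpow_mul, mul_comm]
  by_cases hbad : ∃ a₀ ∈ Finset.range q, q ∣ 1 + a₀ * (m / q)
  · obtain ⟨a₀, ha₀, hd₀⟩ := hbad
    have hndvd : ¬ q ∣ m / q := by
      intro hd
      have : q ∣ 1 := (Nat.dvd_add_left (hd.mul_left a₀)).mp hd₀
      exact hq.one_lt.ne' (Nat.dvd_one.mp this)
    have hκq : κ < q := by
      by_contra hle
      have hle' : q ≤ κ := by omega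
      apply hndvd
      obtain ⟨u, hu⟩ := hq2 hle'
      rw [hu, mul_assoc, Nat.mul_div_cancel_left _ hq.pos]
      exact dvd_mul_right q u
    have huniq : ∀ a ∈ Finset.range q, a ≠ a₀ → f a = 0 := by
      intro a ha hne
      apply good
      intro hd
      apply hne
      have h3 : (q : ℤ) ∣ ((a : ℤ) - a₀) * ((m / q : ℕ) : ℤ) := by
        have h4 : (q : ℤ) ∣ ((1 + a * (m / q) : ℕ) : ℤ) - ((1 + a₀ * (m / q) : ℕ) : ℤ) :=
          dvd_sub (Int.natCast_dvd_natCast.mpr hd) (Int.natCast_dvd_natCast.mpr hd₀)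
        have h5 : ((1 + a * (m / q) : ℕ) : ℤ) - ((1 + a₀ * (m / q) : ℕ) : ℤ) =
            ((a : ℤ) - a₀) * ((m / q : ℕ) : ℤ) := by push_cast; ring
        rwa [h5] at h4
      rcases (Nat.prime_iff_prime_int.mp hq).dvd_or_dvd h3 with h6 | h6
      · have ha' := Finset.mem_range.mp ha
        have ha₀' := Finset.mem_range.mp ha₀
        have h7 : |(a : ℤ) - a₀| < q := by rw [abs_lt]; constructor <;> omega
        have h8 := Int.eq_zero_of_abs_lt_dvd h6 h7
        omega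
      · exact absurd (Int.natCast_dvd_natCast.mp h6) hndvd
    have key : ∀ r : ℤ, (ω ^ (-r)) ^ a₀ * f a₀ =
        q * ∑ j ∈ s with (q : ℤ) ∣ e j - r, (c j : ℂ) * ζ ^ (e j) := by
      intro r
      rw [← dft r, Finset.sum_eq_single_of_mem a₀ ha₀]
      intro a ha hne
      rw [huniq a ha hne, mul_zero]
    -- an empty class
    haveI : Fact q.Prime := ⟨hq⟩
    haveI : NeZero q := ⟨hq.ne_zero⟩
    obtain ⟨r₀, hr₀⟩ : ∃ r₀ : ZMod q, r₀ ∉ s.image fun j => ((e j : ℤ) : ZMod q) := by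
      by_contra hcon
      push Not at hcon
      have h1 : (Finset.univ : Finset (ZMod q)) ⊆ s.image fun j => ((e j : ℤ) : ZMod q) :=
        fun x _ => hcon x
      have h2 := Finset.card_le_card h1
      rw [Finset.card_univ, ZMod.card] at h2
      have h3 := Finset.card_image_le (s := s) (f := fun j => ((e j : ℤ) : ZMod q))
      omega
    have hempty : ∀ j ∈ s, ¬ (q : ℤ) ∣ e j - (r₀.val : ℤ) := by
      intro j hj hd
      apply hr₀
      rw [Finset.mem_image]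
      refine ⟨j, hj, ?_⟩
      have h1 : ((e j - (r₀.val : ℤ) : ℤ) : ZMod q) = 0 :=
        (ZMod.intCast_zmod_eq_zero_iff_dvd _ _).mpr hd
      push_cast at h1
      rw [ZMod.natCast_val, ZMod.cast_id', id, sub_eq_zero] at h1
      exact h1
    have hS0 : ∑ j ∈ s with (q : ℤ) ∣ e j - (r₀.val : ℤ), (c j : ℂ) * ζ ^ (e j) = 0 := by
      rw [Finset.filter_false_of_mem hempty, Finset.sum_empty]
    have hfa : f a₀ = 0 := by
      have h1 := key (r₀.val : ℤ)
      rw [hS0, mul_zero] at h1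
      rcases mul_eq_zero.mp h1 with h2 | h2
      · exact absurd h2 (pow_ne_zero _ (zpow_ne_zero _ hω0))
      · exact h2
    have h2 := key r
    rw [hfa, mul_zero] at h2
    rcases mul_eq_zero.mp h2.symm with h3 | h3
    · exact absurd h3 hq0
    · exact h3
  · push Not at hbad
    have h1 := dft r
    rw [Finset.sum_eq_zero (fun a ha => by rw [good a (hbad a ha), mul_zero])] at h1
    rcases mul_eq_zero.mp h1.symm with h3 | h3
    · exact absurd h3 hq0
    · exact h3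

/-- the block lemma in hereditary form -/
lemma block {κ : ℕ} : ∀ d m : ℕ, 0 < m → d ∣ m →
    (∀ q : ℕ, q.Prime → q ≤ κ → q ∣ d → d * q ∣ m) →
    ∀ {ι : Type} (s : Finset ι), s.card ≤ κ → ∀ (c : ι → ℤ) (e : ι → ℤ) (ζ : ℂ),
    IsPrimitiveRoot ζ m → ∑ j ∈ s, (c j : ℂ) * ζ ^ (e j) = 0 → ∀ r : ℤ,
    ∑ j ∈ s with (d : ℤ) ∣ e j - r, (c j : ℂ) * ζ ^ (e j) = 0 := by
  classical
  intro d
  induction d using Nat.strong_induction_on with
  | _ d ih =>
    intro m hm hd hq ι s hs c e ζ hζ h r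
    have hζ0 : ζ ≠ 0 := hζ.ne_zero hm.ne'
    by_cases hd1 : d = 1
    · subst hd1
      simpa using h
    · have hqp := Nat.minFac_prime hd1
      set q := d.minFac with hqdef
      obtain ⟨d', hd'⟩ : q ∣ d := Nat.minFac_dvd d
      have hqm : q ∣ m := (Nat.minFac_dvd d).trans hd
      obtain ⟨m', hm'⟩ := hqm
      have hdpos : 0 < d := Nat.pos_of_dvd_of_pos hd hm
      have hd'pos : 0 < d' := by
        rcases Nat.eq_zero_or_pos d' with h0 | h0
        · rw [h0] at hd'; omega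
        · exact h0
      have hm'pos : 0 < m' := by
        rcases Nat.eq_zero_or_pos m' with h0 | h0
        · rw [h0] at hm'; omega
        · exact h0
      have hlt : d' < d := by
        have := hqp.two_le
        nlinarith
      have hd'm' : d' ∣ m' := by
        rw [hd', hm'] at hd
        exact Nat.dvd_of_mul_dvd_mul_left hqp.pos hd
      have hq' : ∀ p : ℕ, p.Prime → p ≤ κ → p ∣ d' → d' * p ∣ m' := by
        intro p hp hpκ hpd
        have h1 := hq p hp hpκ (hpd.trans ⟨q, by rw [hd']; ring⟩)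
        rw [hm', hd', mul_assoc] at h1
        exact Nat.dvd_of_mul_dvd_mul_left hqp.pos h1
      have hq2 : q ≤ κ → q * q ∣ m := by
        intro hqκ
        have h1 := hq q hqp hqκ (Nat.minFac_dvd d)
        exact (Nat.mul_dvd_mul_right (Nat.minFac_dvd d) q).trans h1
      have hcl := class_vanish s κ hs c e hm hζ hqp ⟨m', hm'⟩ hq2 h r
      set s' := s.filter fun j => (q : ℤ) ∣ e j - r with hs'
      set e' : ι → ℤ := fun j => (e j - r) / q with he'
      have hζq : IsPrimitiveRoot (ζ ^ q) m' := hζ.pow hm hm'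
      have hpow : ∀ j ∈ s', (ζ ^ q) ^ (e' j) = ζ ^ (-r) * ζ ^ (e j) := by
        intro j hj
        have h1 : (q : ℤ) ∣ e j - r := (Finset.mem_filter.mp hj).2
        rw [← zpow_natCast, ← zpow_mul, he']
        simp only
        rw [Int.mul_ediv_cancel' h1, ← zpow_add₀ hζ0]
        congr 1; ring
      have hsum : ∑ j ∈ s', (c j : ℂ) * (ζ ^ q) ^ (e' j) = 0 := by
        have h1 : ∑ j ∈ s', (c j : ℂ) * (ζ ^ q) ^ (e' j) =
            ζ ^ (-r) * ∑ j ∈ s', (c j : ℂ) * ζ ^ (e j) := by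
          rw [Finset.mul_sum]
          refine Finset.sum_congr rfl fun j hj => ?_
          rw [hpow j hj]; ring
        rw [h1, hcl, mul_zero]
      have hcard' : s'.card ≤ κ := (Finset.card_filter_le _ _).trans hs
      have h2 := ih d' hlt m' hm'pos hd'm' hq' s' hcard' c e' (ζ ^ q) hζq hsum 0
      have h3 : (s'.filter fun j => (d' : ℤ) ∣ e' j - 0) = s.filter fun j => (d : ℤ) ∣ e j - r := by
        ext j
        rw [hs', Finset.filter_filter, Finset.mem_filter, Finset.mem_filter]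
        refine and_congr_right fun _ => ?_
        rw [sub_zero, hd', he']
        simp only
        have hq0 : (q : ℤ) ≠ 0 := by exact_mod_cast hqp.ne_zero
        constructor
        · rintro ⟨h4, h5⟩
          obtain ⟨u, hu⟩ := h5
          refine ⟨u, ?_⟩
          have := Int.mul_ediv_cancel' h4
          rw [← this, hu]; push_cast; ring
        · rintro ⟨u, hu⟩
          have h6 : e j - r = q * (d' * u) := by rw [hu]; push_cast; ring
          refine ⟨⟨_, h6⟩, ⟨u, ?_⟩⟩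
          rw [h6, Int.mul_ediv_cancel_left _ hq0]
      rw [h3] at h2
      have h4 : ∑ j ∈ s with (d : ℤ) ∣ e j - r, (c j : ℂ) * (ζ ^ q) ^ (e' j) =
          ζ ^ (-r) * ∑ j ∈ s with (d : ℤ) ∣ e j - r, (c j : ℂ) * ζ ^ (e j) := by
        rw [Finset.mul_sum]
        refine Finset.sum_congr rfl fun j hj => ?_
        rw [← h3] at hj
        rw [hpow j (Finset.mem_filter.mp hj).1]; ring
      rw [h4] at h2
      rcases mul_eq_zero.mp h2 with h5 | h5
      · exact absurd h5 (zpow_ne_zero _ hζ0)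
      · exact h5

/-- Mann's block lemma: a vanishing integral combination of at most `κ` powers of a primitive
`m`-th root of unity splits along residue classes modulo `m / gcd(m, κ!)`. -/
theorem mann {ι : Type} [Fintype ι] (κ : ℕ) (hcard : Fintype.card ι ≤ κ) (c : ι → ℤ) (e : ι → ℤ)
    (ζ : ℂ) (m : ℕ) (hm : 0 < m) (hζ : IsPrimitiveRoot ζ m)
    (h : ∑ j, (c j : ℂ) * ζ ^ (e j) = 0) (r : ℤ) :
    ∑ j with ((m / Nat.gcd m κ.factorial : ℕ) : ℤ) ∣ e j - r, (c j : ℂ) * ζ ^ (e j) = 0 := by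
  refine block (m / Nat.gcd m κ.factorial) m hm (Nat.div_dvd_of_dvd (Nat.gcd_dvd_left _ _)) ?_
    Finset.univ (by simpa using hcard) c e ζ hζ h r
  intro q hq hqκ hqd
  set g := Nat.gcd m κ.factorial with hg
  have hgm : g ∣ m := Nat.gcd_dvd_left _ _
  have h1 : q ∣ g := Nat.dvd_gcd (hqd.trans (Nat.div_dvd_of_dvd hgm))
    ((hq.dvd_factorial).mpr hqκ)
  calc m / g * q ∣ m / g * g := Nat.mul_dvd_mul_left _ h1
    _ = m := Nat.div_mul_cancel hgm

/-- within a block the differences of exponents are killed by `κ!` -/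
lemma block_pow {m κ : ℕ} {ζ : ℂ} (hζ : IsPrimitiveRoot ζ m) {n : ℤ}
    (h : ((m / Nat.gcd m κ.factorial : ℕ) : ℤ) ∣ n) : ζ ^ ((κ.factorial : ℤ) * n) = 1 := by
  rw [hζ.zpow_eq_one_iff_dvd]
  obtain ⟨u, hu⟩ := h
  have hgm : Nat.gcd m κ.factorial ∣ m := Nat.gcd_dvd_left _ _
  obtain ⟨v, hv⟩ : Nat.gcd m κ.factorial ∣ κ.factorial := Nat.gcd_dvd_right _ _
  have h1 : (m : ℤ) = (Nat.gcd m κ.factorial : ℤ) * ((m / Nat.gcd m κ.factorial : ℕ) : ℤ) := by
    have := (Nat.mul_div_cancel' hgm).symm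
    exact_mod_cast this
  refine ⟨v * u, ?_⟩
  rw [hu]
  have hv' : (κ.factorial : ℤ) = (Nat.gcd m κ.factorial : ℤ) * v := by exact_mod_cast hv
  calc (κ.factorial : ℤ) * (((m / Nat.gcd m κ.factorial : ℕ) : ℤ) * u)
      = ((Nat.gcd m κ.factorial : ℤ) * v) * (((m / Nat.gcd m κ.factorial : ℕ) : ℤ) * u) := by
        rw [← hv']
    _ = ((Nat.gcd m κ.factorial : ℤ) * ((m / Nat.gcd m κ.factorial : ℕ) : ℤ)) * (v * u) := by ring
    _ = m * (v * u) := by rw [← h1]

end Pool.Agent.Lib.MP_7ab245_nt.Mono
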