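import Mathlib
import Pool.Agent.Lib.MP_7ab245_nt.Mono.Mann
import Pool.Agent.Lib.MP_7ab245_nt.Mono.Core

/-!
The line lemma.
-/

set_option autoImplicit false

open Polynomial Real

namespace Pool.Agent.Lib.MP_7ab245_nt.Mono

variable {ι : Type} [Fintype ι]

/-- block sums with polynomial weights -/
lemma block_weight (κ : ℕ) (hcard : Fintype.card ι ≤ κ) (c : ι → ℤ) (e : ι → ℤ) (s : ℤ)
    (hs : ∀ j, 0 ≤ e j + s) {z : ℂ} {m : ℕ} (hm : 0 < m) (hz : IsPrimitiveRoot z m) {a : ℕ}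
    (h : (X - C z) ^ a ∣ lp (fun j => (c j : ℂ)) fun j => (e j + s).toNat) (φ : ℂ[X])
    (hφ : φ.degree < a) (r : ℤ) :
    ∑ j with ((m / Nat.gcd m κ.factorial : ℕ) : ℤ) ∣ e j - r,
      (c j : ℂ) * φ.eval (e j : ℂ) * z ^ (e j) = 0 := by
  have hz0 : z ≠ 0 := hz.ne_zero hm.ne'
  have h1 : ∀ i < a, ∑ j with ((m / Nat.gcd m κ.factorial : ℕ) : ℤ) ∣ e j - r,
      (c j : ℂ) * (e j : ℂ) ^ i * z ^ (e j) = 0 := by
    intro i hi
    have h2 := weight_int (fun j => (c j : ℂ)) e s hs hz0 h (X ^ i) (by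
      rw [degree_X_pow]; exact_mod_cast hi)
    have h3 := mann κ hcard (fun j => c j * e j ^ i) e z m hm hz (by
      rw [← h2]
      refine Finset.sum_congr rfl fun j _ => ?_
      push_cast
      rw [eval_pow, eval_X]) r
    rw [← h3]
    refine Finset.sum_congr rfl fun j _ => ?_
    push_cast
    ring
  have h2 : ∀ x : ℂ, φ.eval x = ∑ i ∈ Finset.range a, φ.coeff i * x ^ i := by
    intro x
    rcases eq_or_ne φ 0 with h0 | h0
    · simp [h0]
    · exact eval_eq_sum_range' ((natDegree_lt_iff_degree_lt h0).mpr hφ) x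
  simp only [h2, Finset.mul_sum, Finset.sum_mul]
  rw [Finset.sum_comm]
  refine Finset.sum_eq_zero fun i hi => ?_
  have h3 := h1 i (Finset.mem_range.mp hi)
  calc ∑ j with ((m / Nat.gcd m κ.factorial : ℕ) : ℤ) ∣ e j - r,
        (c j : ℂ) * (φ.coeff i * (e j : ℂ) ^ i) * z ^ (e j)
      = φ.coeff i * ∑ j with ((m / Nat.gcd m κ.factorial : ℕ) : ℤ) ∣ e j - r,
          (c j : ℂ) * (e j : ℂ) ^ i * z ^ (e j) := by
        rw [Finset.mul_sum]; exact Finset.sum_congr rfl fun j _ => by ring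
    _ = 0 := by rw [h3, mul_zero]

/-- zeros of parallel type give zeros of `G(R, y)` -/
lemma typeII_dvd (κ : ℕ) (hcard : Fintype.card ι ≤ κ) (c : ι → ℤ) (p : ι → ℕ) (ρ : ι → ℤ)
    (t : ℤ) (s : ℤ) (hs : ∀ j, 0 ≤ (t * p j + ρ j) + s) {z : ℂ} {m : ℕ} (hm : 0 < m)
    (hz : IsPrimitiveRoot z m) {A : ℕ}
    (h : (X - C z) ^ A ∣ lp (fun j => (c j : ℂ)) fun j => ((t * p j + ρ j) + s).toNat)
    (a : ℤ) (b : ℕ) (hb : 0 < b) (hd : 0 < (b : ℤ) * t + a)
    (hpar : ∀ i j, ((m / Nat.gcd m κ.factorial : ℕ) : ℤ) ∣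
      (t * p i + ρ i) - (t * p j + ρ j) → ∃ u : ℤ, ρ i - ρ j = u * a ∧ (p i : ℤ) - p j = u * b)
    {R : ℝ} (hR : 1 < R) (y : ℂ) (hy : (R : ℂ) ^ a * y ^ b = z ^ ((b : ℤ) * t + a)) :
    (X - C y) ^ A ∣ GR c p ρ R := by
  classical
  have hR0 : 0 < R := by linarith
  have hRC : (R : ℂ) ≠ 0 := by exact_mod_cast hR0.ne'
  have hz0 : z ≠ 0 := hz.ne_zero hm.ne'
  have hy0 : y ≠ 0 := by
    rintro rfl
    rw [zero_pow hb.ne', mul_zero] at hy
    exact zpow_ne_zero _ hz0 hy.symm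
  set e : ι → ℤ := fun j => t * p j + ρ j with he
  set d : ℕ := m / Nat.gcd m κ.factorial with hdd
  have hdpos : 0 < d := Nat.div_pos (Nat.le_of_dvd hm (Nat.gcd_dvd_left _ _))
    (Nat.gcd_pos_of_pos_left _ hm)
  have key : ∀ φ : ℂ[X], φ.degree < A →
      ∑ j, ((c j : ℂ) * (R : ℂ) ^ ρ j) * φ.eval (((p j : ℤ) : ℤ) : ℂ) * y ^ ((p j : ℤ)) = 0 := by
    intro φ hφ
    rw [← Finset.sum_fiberwise_of_maps_to (s := Finset.univ)
      (t := Finset.univ.image fun j => e j % d) (g := fun j => e j % d)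
      (fun j _ => Finset.mem_image_of_mem _ (Finset.mem_univ j))]
    apply Finset.sum_eq_zero
    intro v hv
    obtain ⟨b₀, _, rfl⟩ := Finset.mem_image.mp hv
    have hfilter : (Finset.univ.filter fun j => e j % (d : ℤ) = e b₀ % (d : ℤ)) =
        Finset.univ.filter fun j => (d : ℤ) ∣ e j - e b₀ := by
      ext j
      simp only [Finset.mem_filter, Finset.mem_univ, true_and]
      constructor
      · intro h1
        exact Int.dvd_of_emod_eq_zero (Int.emod_eq_emod_iff_emod_sub_eq_zero.mp h1)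
      · intro h1
        exact Int.emod_eq_emod_iff_emod_sub_eq_zero.mpr (Int.emod_eq_zero_of_dvd h1)
    rw [hfilter]
    -- the weight transported to the exponents `e`
    set D : ℂ := (((b : ℤ) * t + a : ℤ) : ℂ) with hD
    have hD0 : D ≠ 0 := by
      rw [hD]; exact_mod_cast hd.ne'
    set L : ℂ[X] := C ((b : ℂ) / D) * X + C ((p b₀ : ℂ) - (b : ℂ) / D * (e b₀ : ℂ)) with hL
    have hψ : (φ.comp L).degree < A := by
      rcases eq_or_ne φ 0 with h0 | h0
      · simp [h0]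
      · have h1 : (φ.comp L).natDegree ≤ φ.natDegree := by
          refine natDegree_comp_le.trans ?_
          have : L.natDegree ≤ 1 := by rw [hL]; exact natDegree_linear_le
          calc φ.natDegree * L.natDegree ≤ φ.natDegree * 1 := Nat.mul_le_mul_left _ this
            _ = _ := mul_one _
        refine lt_of_le_of_lt degree_le_natDegree ?_
        refine lt_of_le_of_lt ?_ hφ
        rw [degree_eq_natDegree h0]
        exact_mod_cast h1
    have hw := block_weight κ hcard c e s hs hm hz h (φ.comp L) hψ (e b₀)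
    have hterm : ∀ j ∈ Finset.univ.filter fun j => (d : ℤ) ∣ e j - e b₀,
        ((c j : ℂ) * (R : ℂ) ^ ρ j) * φ.eval (((p j : ℤ) : ℤ) : ℂ) * y ^ ((p j : ℤ)) =
        ((R : ℂ) ^ (ρ b₀) * y ^ (p b₀ : ℤ) * z ^ (-e b₀)) *
          ((c j : ℂ) * (φ.comp L).eval (e j : ℂ) * z ^ (e j)) := by
      intro j hj
      obtain ⟨u, hu1, hu2⟩ := hpar j b₀ (Finset.mem_filter.mp hj).2
      have hej : e j = e b₀ + u * ((b : ℤ) * t + a) := by
        simp only [he]
        have h1 : ρ j = ρ b₀ + u * a := by linarith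
        have h2 : (p j : ℤ) = p b₀ + u * b := by linarith
        rw [h1, h2]; ring
      have h1 : (φ.comp L).eval (e j : ℂ) = φ.eval (((p j : ℤ) : ℤ) : ℂ) := by
        rw [eval_comp]
        congr 1
        rw [hL, eval_add, eval_mul, eval_C, eval_X, eval_C, hej]
        have h2 : (p j : ℤ) = p b₀ + u * b := by linarith
        rw [h2]
        push_cast
        have : ((b : ℂ) * t + a) = D := by rw [hD]; push_cast; ring
        rw [this]
        field_simp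
        ring
      have h2 : (R : ℂ) ^ ρ j * y ^ ((p j : ℤ)) =
          (R : ℂ) ^ (ρ b₀) * y ^ (p b₀ : ℤ) * z ^ (-e b₀) * z ^ (e j) := by
        have h3 : ρ j = ρ b₀ + a * u := by linarith
        have h4 : (p j : ℤ) = p b₀ + b * u := by linarith
        rw [h3, h4, zpow_add₀ hRC, zpow_add₀ hy0, hej, zpow_mul, zpow_mul, mul_assoc
          ((R : ℂ) ^ (ρ b₀) * y ^ (p b₀ : ℤ)), ← zpow_add₀ hz0]
        have h5 : -e b₀ + (e b₀ + u * ((b : ℤ) * t + a)) = ((b : ℤ) * t + a) * u := by ring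
        rw [h5, zpow_mul, ← hy, mul_zpow, zpow_natCast y b]
        ring
      rw [h1]
      linear_combination ((c j : ℂ) * φ.eval (((p j : ℤ) : ℤ) : ℂ)) * h2
    rw [Finset.sum_congr rfl hterm, ← Finset.mul_sum, hw, mul_zero]
  have h1 := dvd_of_weight (fun j => (c j : ℂ) * (R : ℂ) ^ ρ j) (fun j => ((p j : ℕ) : ℤ)) 0
    (fun j => by simp) hy0 key
  rw [GR]
  convert h1 using 3
  simp

/-- the direction of a zero of parallel type -/
lemma exists_direction [Nonempty ι] (κ : ℕ) (hcard : Fintype.card ι ≤ κ) (c : ι → ℤ)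
    (hc : ∀ j, c j ≠ 0) (p : ι → ℕ) (ρ : ι → ℤ) (S : ℤ) (hS : ∀ j, |ρ j| ≤ S)
    (t : ℤ) (s : ℤ) (hs : ∀ j, 0 ≤ (t * p j + ρ j) + s) {z : ℂ} {m : ℕ} (hm : 0 < m)
    (hz : IsPrimitiveRoot z m) {A : ℕ} (hA : 0 < A)
    (h : (X - C z) ^ A ∣ lp (fun j => (c j : ℂ)) fun j => ((t * p j + ρ j) + s).toNat)
    (hI : ∀ i j i' j', ((m / Nat.gcd m κ.factorial : ℕ) : ℤ) ∣
        (t * p i + ρ i) - (t * p j + ρ j) →
      ((m / Nat.gcd m κ.factorial : ℕ) : ℤ) ∣ (t * p i' + ρ i') - (t * p j' + ρ j') →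
      (ρ i - ρ j) * ((p i' : ℤ) - p j') = (ρ i' - ρ j') * ((p i : ℤ) - p j))
    (h0 : ∀ i j, i ≠ j → ((m / Nat.gcd m κ.factorial : ℕ) : ℤ) ∣
      (t * p i + ρ i) - (t * p j + ρ j) → p i ≠ p j) :
    ∃ (a : ℤ) (b : ℕ), 0 < b ∧ Int.gcd a b = 1 ∧ |a| ≤ 2 * S ∧
      ∀ i j, ((m / Nat.gcd m κ.factorial : ℕ) : ℤ) ∣
        (t * p i + ρ i) - (t * p j + ρ j) →
        ∃ u : ℤ, ρ i - ρ j = u * a ∧ (p i : ℤ) - p j = u * b := by
  classical
  set d : ℕ := m / Nat.gcd m κ.factorial with hd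
  have hz0 : z ≠ 0 := hz.ne_zero hm.ne'
  obtain ⟨i₀⟩ := ‹Nonempty ι›
  -- a second element in the block of `i₀`
  obtain ⟨j₀, hj₀, hdj⟩ : ∃ j, j ≠ i₀ ∧
      (d : ℤ) ∣ (t * p j + ρ j) - (t * p i₀ + ρ i₀) := by
    by_contra hcon
    push Not at hcon
    have h1 := block_weight κ hcard c (fun j => t * p j + ρ j) s hs hm hz h 1 (by
      rw [degree_one]; exact_mod_cast hA) (t * p i₀ + ρ i₀)
    rw [Finset.sum_eq_single i₀] at h1
    · simp only [eval_one, mul_one] at h1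
      rcases mul_eq_zero.mp h1 with h2 | h2
      · exact hc i₀ (by exact_mod_cast h2)
      · exact zpow_ne_zero _ hz0 h2
    · intro j hj hne
      exact absurd (Finset.mem_filter.mp hj).2 (hcon j hne)
    · intro hni
      exact absurd (Finset.mem_filter.mpr ⟨Finset.mem_univ _, by simp⟩) hni
  obtain ⟨i₁, j₁, hdd, hlt⟩ : ∃ i j, (d : ℤ) ∣ (t * p i + ρ i) - (t * p j + ρ j) ∧ p j < p i := by
    rcases lt_or_gt_of_ne (h0 j₀ i₀ hj₀ hdj) with h1 | h1
    · refine ⟨i₀, j₀, ?_, h1⟩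
      have := (dvd_neg (α := ℤ)).mpr hdj
      rwa [neg_sub] at this
    · exact ⟨j₀, i₀, hdj, h1⟩
  set x : ℤ := ρ i₁ - ρ j₁ with hx
  set y : ℤ := (p i₁ : ℤ) - p j₁ with hy
  have hypos : 0 < y := by rw [hy]; have : (p j₁ : ℤ) < p i₁ := by exact_mod_cast hlt
                           linarith
  set g : ℤ := (Int.gcd x y : ℤ) with hg
  have hgpos : 0 < g := by
    rw [hg]
    exact_mod_cast Int.gcd_pos_of_ne_zero_right x hypos.ne'
  obtain ⟨a, ha⟩ : g ∣ x := Int.gcd_dvd_left _ _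
  obtain ⟨b, hb⟩ : g ∣ y := Int.gcd_dvd_right _ _
  have hbpos : 0 < b := by
    by_contra hcon
    push Not at hcon
    nlinarith
  have hcop : Int.gcd a b = 1 := by
    have h1 : Int.gcd (g * a) (g * b) = g.natAbs * Int.gcd a b := Int.gcd_mul_left _ _ _
    rw [← ha, ← hb] at h1
    have h2 : g.natAbs = Int.gcd x y := by rw [hg, Int.natAbs_natCast]
    rw [h2] at h1
    have h3 : 0 < Int.gcd x y := Int.gcd_pos_of_ne_zero_right x hypos.ne'
    exact (Nat.eq_of_mul_eq_mul_left h3 (by rw [mul_one]; exact h1)).symm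
  have hbn : ((b.toNat : ℕ) : ℤ) = b := Int.toNat_of_nonneg hbpos.le
  refine ⟨a, b.toNat, by omega, by rw [hbn]; exact hcop, ?_, ?_⟩
  · have h1 : |x| ≤ 2 * S := by
      rw [hx]
      have h2 := abs_le.mp (hS i₁)
      have h3 := abs_le.mp (hS j₁)
      rw [abs_le]
      constructor <;> linarith [h2.1, h2.2, h3.1, h3.2]
    rw [ha, abs_mul, abs_of_pos hgpos] at h1
    nlinarith [abs_nonneg a]
  · intro i j hij
    have h1 := hI i₁ j₁ i j hdd hij
    rw [hbn]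
    -- `a * y' = x' * b`
    have h2 : a * ((p i : ℤ) - p j) = (ρ i - ρ j) * b := by
      have h3 : g * (a * ((p i : ℤ) - p j)) = g * ((ρ i - ρ j) * b) := by
        calc g * (a * ((p i : ℤ) - p j)) = x * ((p i : ℤ) - p j) := by rw [ha]; ring
          _ = (ρ i - ρ j) * y := h1
          _ = g * ((ρ i - ρ j) * b) := by rw [hb]; ring
      exact mul_left_cancel₀ hgpos.ne' h3
    have h4 : b ∣ (p i : ℤ) - p j := by
      have h5 : b ∣ a * ((p i : ℤ) - p j) := ⟨ρ i - ρ j, by rw [h2]; ring⟩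
      refine Int.dvd_of_dvd_mul_right_of_gcd_one h5 ?_
      rw [Int.gcd_comm]; exact hcop
    obtain ⟨u, hu⟩ := h4
    refine ⟨u, ?_, by rw [hu]; ring⟩
    rw [hu] at h2
    have h6 : (ρ i - ρ j) * b = (u * a) * b := by rw [← h2]; ring
    exact mul_right_cancel₀ hbpos.ne' h6

lemma norm_one_of_prim {z : ℂ} {m : ℕ} (hm : 0 < m) (hz : IsPrimitiveRoot z m) : ‖z‖ = 1 :=
  hz.norm'_eq_one hm.ne'

/-- roots killed by two exponents are killed by the gcd -/
lemma pow_gcd_eq_one {z : ℂ} {m κ : ℕ} (hz : IsPrimitiveRoot z m) {x y : ℤ}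
    (hx : ((m / Nat.gcd m κ.factorial : ℕ) : ℤ) ∣ x)
    (hy : ((m / Nat.gcd m κ.factorial : ℕ) : ℤ) ∣ y) :
    z ^ (κ.factorial * Int.gcd x y) = 1 := by
  have h1 := (hz.zpow_eq_one_iff_dvd _).mp (block_pow hz hx)
  have h2 := (hz.zpow_eq_one_iff_dvd _).mp (block_pow hz hy)
  have h3 : (m : ℤ) ∣ (Int.gcd ((κ.factorial : ℤ) * x) ((κ.factorial : ℤ) * y) : ℤ) :=
    Int.dvd_coe_gcd h1 h2
  rw [Int.gcd_mul_left, Int.natAbs_natCast] at h3
  exact (hz.pow_eq_one_iff_dvd _).mpr (Int.natCast_dvd_natCast.mp h3)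

end Pool.Agent.Lib.MP_7ab245_nt.Mono
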