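import Mathlib
import Pool.Agent.Lib.MP_7ab245_nt.Mono.Line

/-!
The line lemma: counting.
-/

set_option autoImplicit false

open Polynomial Real

namespace Pool.Agent.Lib.MP_7ab245_nt.Mono

variable {ι : Type} [Fintype ι]

/-- block modulus attached to a root of unity -/
noncomputable def dd (κ : ℕ) (z : ℂ) : ℤ :=
  ((orderOf z / Nat.gcd (orderOf z) κ.factorial : ℕ) : ℤ)

/-- count of zeros with two nonparallel block differences -/
lemma count_I (κ : ℕ) (hκ : 0 < κ) (hcard : Fintype.card ι ≤ κ) (p : ι → ℕ) (ρ : ι → ℤ)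
    (t : ℤ) (ht : 0 ≤ t) (he : Function.Injective fun j => t * p j + ρ j)
    (hgood : ∀ i j i' j', (ρ i - ρ j) * ((p i' : ℤ) - p j') ≠ (ρ i' - ρ j') * ((p i : ℤ) - p j) →
      4 * κ ^ 5 * κ.factorial *
        (Int.gcd ((t * p i + ρ i) - (t * p j + ρ j))
          ((t * p i' + ρ i') - (t * p j' + ρ j')) : ℤ) ≤ t)
    (Z : Finset ℂ) (_hZ : ∀ z ∈ Z, 0 < orderOf z)
    (hI : ∀ z ∈ Z, ∃ i j i' j', dd κ z ∣ (t * p i + ρ i) - (t * p j + ρ j) ∧
      dd κ z ∣ (t * p i' + ρ i') - (t * p j' + ρ j') ∧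
      (ρ i - ρ j) * ((p i' : ℤ) - p j') ≠ (ρ i' - ρ j') * ((p i : ℤ) - p j)) :
    4 * (κ : ℝ) * Z.card ≤ t := by
  classical
  set g : ι × ι × ι × ι → ℕ := fun q =>
    Int.gcd ((t * p q.1 + ρ q.1) - (t * p q.2.1 + ρ q.2.1))
      ((t * p q.2.2.1 + ρ q.2.2.1) - (t * p q.2.2.2 + ρ q.2.2.2)) with hg
  set 𝒬 : Finset (ι × ι × ι × ι) := Finset.univ.filter fun q =>
    (ρ q.1 - ρ q.2.1) * ((p q.2.2.1 : ℤ) - p q.2.2.2) ≠
      (ρ q.2.2.1 - ρ q.2.2.2) * ((p q.1 : ℤ) - p q.2.1) with h𝒬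
  have hsub : Z ⊆ 𝒬.biUnion fun q => Z.filter fun z => z ^ (κ.factorial * g q) = 1 := by
    intro z hz
    obtain ⟨i, j, i', j', h1, h2, h3⟩ := hI z hz
    rw [Finset.mem_biUnion]
    refine ⟨(i, j, i', j'), ?_, ?_⟩
    · rw [h𝒬, Finset.mem_filter]
      exact ⟨Finset.mem_univ _, h3⟩
    · rw [Finset.mem_filter]
      exact ⟨hz, pow_gcd_eq_one (IsPrimitiveRoot.orderOf z) h1 h2⟩
  have hgpos : ∀ q ∈ 𝒬, 0 < g q := by
    intro q hq
    have h3 := (Finset.mem_filter.mp hq).2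
    apply Nat.pos_of_ne_zero
    intro h0
    rw [hg] at h0
    simp only [Int.gcd_eq_zero_iff] at h0
    have h4 : q.1 = q.2.1 := he (by simp only; linarith [h0.1])
    have h5 : q.2.2.1 = q.2.2.2 := he (by simp only; linarith [h0.2])
    rw [h4, h5] at h3
    simp at h3
  have hcardZ : (Z.card : ℝ) ≤ ∑ q ∈ 𝒬, ((κ.factorial * g q : ℕ) : ℝ) := by
    have h1 : Z.card ≤ ∑ q ∈ 𝒬, κ.factorial * g q := by
      calc Z.card ≤ (𝒬.biUnion fun q => Z.filter fun z => z ^ (κ.factorial * g q) = 1).card :=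
            Finset.card_le_card hsub
        _ ≤ ∑ q ∈ 𝒬, (Z.filter fun z => z ^ (κ.factorial * g q) = 1).card :=
            Finset.card_biUnion_le
        _ ≤ ∑ q ∈ 𝒬, κ.factorial * g q := by
            refine Finset.sum_le_sum fun q hq => ?_
            exact card_pow_eq_le Z (Nat.mul_pos (Nat.factorial_pos _) (hgpos q hq)) 1
    exact_mod_cast h1
  have hκR : (0 : ℝ) < κ := by exact_mod_cast hκ
  have hterm : ∀ q ∈ 𝒬, ((κ.factorial * g q : ℕ) : ℝ) ≤ t / (4 * κ ^ 5) := by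
    intro q hq
    have h3 := (Finset.mem_filter.mp hq).2
    have h4 := hgood q.1 q.2.1 q.2.2.1 q.2.2.2 h3
    rw [le_div_iff₀ (by positivity)]
    have h5 : (4 * (κ : ℝ) ^ 5 * κ.factorial * (g q : ℝ)) ≤ t := by
      exact_mod_cast h4
    push_cast
    linarith
  have h𝒬card : (𝒬.card : ℝ) ≤ (κ : ℝ) ^ 4 := by
    have h1 : 𝒬.card ≤ κ ^ 4 := by
      calc 𝒬.card ≤ Fintype.card (ι × ι × ι × ι) := Finset.card_le_univ _
        _ = Fintype.card ι ^ 4 := by simp only [Fintype.card_prod]; ring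
        _ ≤ κ ^ 4 := Nat.pow_le_pow_left hcard 4
    exact_mod_cast h1
  have ht0 : 0 ≤ (t : ℝ) := by exact_mod_cast ht
  calc 4 * (κ : ℝ) * Z.card ≤ 4 * κ * ∑ q ∈ 𝒬, ((κ.factorial * g q : ℕ) : ℝ) := by gcongr
    _ ≤ 4 * κ * ∑ q ∈ 𝒬, (t : ℝ) / (4 * κ ^ 5) := by
        gcongr with q hq
        exact hterm q hq
    _ = 4 * κ * (𝒬.card * (t / (4 * κ ^ 5))) := by rw [Finset.sum_const, nsmul_eq_mul]
    _ ≤ 4 * κ * (κ ^ 4 * (t / (4 * κ ^ 5))) := by gcongr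
    _ = t := by field_simp

/-- count of zeros with a horizontal block difference -/
lemma count_0 (κ : ℕ) (hcard : Fintype.card ι ≤ κ) (p : ι → ℕ) (ρ : ι → ℤ)
    (S : ℤ) (hS0 : 0 ≤ S) (hS : ∀ j, |ρ j| ≤ S)
    (t : ℤ) (he : Function.Injective fun j => t * p j + ρ j)
    (Z : Finset ℂ) (_hZ : ∀ z ∈ Z, 0 < orderOf z)
    (h0 : ∀ z ∈ Z, ∃ i j, i ≠ j ∧ dd κ z ∣ (t * p i + ρ i) - (t * p j + ρ j) ∧ p i = p j) :
    (Z.card : ℝ) ≤ 2 * κ ^ 2 * κ.factorial * S := by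
  classical
  set g : ι × ι → ℕ := fun q =>
    Int.gcd ((t * p q.1 + ρ q.1) - (t * p q.2 + ρ q.2))
      ((t * p q.1 + ρ q.1) - (t * p q.2 + ρ q.2)) with hg
  set 𝒬 : Finset (ι × ι) := Finset.univ.filter fun q => q.1 ≠ q.2 ∧ p q.1 = p q.2 with h𝒬
  have hsub : Z ⊆ 𝒬.biUnion fun q => Z.filter fun z => z ^ (κ.factorial * g q) = 1 := by
    intro z hz
    obtain ⟨i, j, hij, h1, h2⟩ := h0 z hz
    rw [Finset.mem_biUnion]
    refine ⟨(i, j), ?_, ?_⟩
    · rw [h𝒬, Finset.mem_filter]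
      exact ⟨Finset.mem_univ _, hij, h2⟩
    · rw [Finset.mem_filter]
      exact ⟨hz, pow_gcd_eq_one (IsPrimitiveRoot.orderOf z) h1 h1⟩
  have hgpos : ∀ q ∈ 𝒬, 0 < g q := by
    intro q hq
    have h3 := (Finset.mem_filter.mp hq).2
    apply Nat.pos_of_ne_zero
    intro h0
    rw [hg] at h0
    simp only [Int.gcd_eq_zero_iff] at h0
    exact h3.1 (he (by simp only; linarith [h0.1]))
  have hgle : ∀ q ∈ 𝒬, (g q : ℝ) ≤ 2 * S := by
    intro q hq
    have h3 := (Finset.mem_filter.mp hq).2.2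
    have h4 : (t * p q.1 + ρ q.1) - (t * p q.2 + ρ q.2) = ρ q.1 - ρ q.2 := by rw [h3]; ring
    have h5 : (g q : ℤ) = |ρ q.1 - ρ q.2| := by
      rw [hg]
      simp only
      rw [h4, Int.gcd_self, Int.natCast_natAbs]
    have h6 : (g q : ℤ) ≤ 2 * S := by
      rw [h5, abs_le]
      have h7 := abs_le.mp (hS q.1)
      have h8 := abs_le.mp (hS q.2)
      constructor <;> linarith [h7.1, h7.2, h8.1, h8.2]
    exact_mod_cast h6
  have hcardZ : (Z.card : ℝ) ≤ ∑ q ∈ 𝒬, ((κ.factorial * g q : ℕ) : ℝ) := by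
    have h1 : Z.card ≤ ∑ q ∈ 𝒬, κ.factorial * g q := by
      calc Z.card ≤ (𝒬.biUnion fun q => Z.filter fun z => z ^ (κ.factorial * g q) = 1).card :=
            Finset.card_le_card hsub
        _ ≤ ∑ q ∈ 𝒬, (Z.filter fun z => z ^ (κ.factorial * g q) = 1).card :=
            Finset.card_biUnion_le
        _ ≤ ∑ q ∈ 𝒬, κ.factorial * g q := by
            refine Finset.sum_le_sum fun q hq => ?_
            exact card_pow_eq_le Z (Nat.mul_pos (Nat.factorial_pos _) (hgpos q hq)) 1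
    exact_mod_cast h1
  have h𝒬card : (𝒬.card : ℝ) ≤ (κ : ℝ) ^ 2 := by
    have h1 : 𝒬.card ≤ κ ^ 2 := by
      calc 𝒬.card ≤ Fintype.card (ι × ι) := Finset.card_le_univ _
        _ = Fintype.card ι ^ 2 := by simp only [Fintype.card_prod]; ring
        _ ≤ κ ^ 2 := Nat.pow_le_pow_left hcard 2
    exact_mod_cast h1
  have hS0' : (0 : ℝ) ≤ S := by exact_mod_cast hS0
  calc (Z.card : ℝ) ≤ ∑ q ∈ 𝒬, ((κ.factorial * g q : ℕ) : ℝ) := hcardZ
    _ ≤ ∑ q ∈ 𝒬, (κ.factorial : ℝ) * (2 * S) := by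
        refine Finset.sum_le_sum fun q hq => ?_
        push_cast
        gcongr
        exact hgle q hq
    _ = 𝒬.card * ((κ.factorial : ℝ) * (2 * S)) := by rw [Finset.sum_const, nsmul_eq_mul]
    _ ≤ κ ^ 2 * ((κ.factorial : ℝ) * (2 * S)) := by gcongr
    _ = _ := by ring

lemma total_le (Z : Finset ℂ) (P Q : ℂ → Prop) [DecidablePred P] [DecidablePred Q]
    [DecidablePred fun z => ¬ P z ∧ ¬ Q z] (m : ℂ → ℕ) (κ : ℕ) (hm : ∀ z ∈ Z, m z ≤ κ) :
    ∑ z ∈ Z, (m z : ℝ) ≤ κ * (Z.filter P).card + κ * (Z.filter Q).card +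
      ∑ z ∈ Z.filter (fun z => ¬ P z ∧ ¬ Q z), (m z : ℝ) := by
  have h1 : ∑ z ∈ Z, (m z : ℝ) ≤ ∑ z ∈ Z.filter P, (m z : ℝ) +
      ∑ z ∈ Z.filter Q, (m z : ℝ) + ∑ z ∈ Z.filter (fun z => ¬ P z ∧ ¬ Q z), (m z : ℝ) := by
    rw [Finset.sum_filter, Finset.sum_filter, Finset.sum_filter, ← Finset.sum_add_distrib,
      ← Finset.sum_add_distrib]
    refine Finset.sum_le_sum fun z _ => ?_
    have hm0 : (0 : ℝ) ≤ m z := Nat.cast_nonneg _
    by_cases h1 : P z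
    · by_cases h2 : Q z
      · simp [h1, h2]
      · simp [h1, h2]
    · by_cases h2 : Q z
      · simp [h1, h2]
      · simp [h1, h2]
  have h2 : ∀ s : Finset ℂ, s ⊆ Z → ∑ z ∈ s, (m z : ℝ) ≤ κ * s.card := by
    intro s hs
    calc ∑ z ∈ s, (m z : ℝ) ≤ ∑ z ∈ s, (κ : ℝ) := by
          refine Finset.sum_le_sum fun z hz => ?_
          exact_mod_cast hm z (hs hz)
      _ = _ := by rw [Finset.sum_const, nsmul_eq_mul, mul_comm]
  have h3 := h2 (Z.filter P) (Finset.filter_subset _ _)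
  have h4 := h2 (Z.filter Q) (Finset.filter_subset _ _)
  linarith

/-- The line lemma. -/
theorem line_nat [Nonempty ι] (κ : ℕ) (hcard : Fintype.card ι ≤ κ) (c : ι → ℤ)
    (hc : ∀ j, c j ≠ 0) (p : ι → ℕ) (ρ : ι → ℤ) (hinj : Function.Injective fun j => (p j, ρ j))
    (S : ℤ) (W : ℕ) (hS : ∀ j, |ρ j| ≤ S) (hpW : ∀ j, p j ≤ W) (h0 : ∃ j, p j = 0)
    (hW : ∃ j, p j = W) (t : ℤ) (ht : 16 * κ ^ 3 * κ.factorial * S < t)
    (hgood : ∀ i j i' j', (ρ i - ρ j) * ((p i' : ℤ) - p j') ≠ (ρ i' - ρ j') * ((p i : ℤ) - p j) →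
      4 * κ ^ 5 * κ.factorial *
        (Int.gcd ((t * p i + ρ i) - (t * p j + ρ j))
          ((t * p i' + ρ i') - (t * p j' + ρ j')) : ℤ) ≤ t)
    (h : lm c (fun j => t * p j + ρ j) = 0) (τ : ℤ) (hτ : 2 * S < τ) :
    lm c (fun j => τ * p j + ρ j) = 0 := by
  classical
  have hκ : 0 < κ := lt_of_lt_of_le Fintype.card_pos hcard
  have hS0 : 0 ≤ S := by
    obtain ⟨j⟩ := ‹Nonempty ι›
    exact le_trans (abs_nonneg _) (hS j)
  have hfac1 : (1 : ℤ) ≤ κ ^ 3 * κ.factorial := by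
    have h1 : 0 < κ ^ 3 * κ.factorial := Nat.mul_pos (pow_pos hκ 3) (Nat.factorial_pos _)
    exact_mod_cast h1
  have ht2 : 2 * S < t := by nlinarith
  have ht0 : 0 < t := by linarith
  -- injectivity
  have he : Function.Injective fun j => t * (p j : ℤ) + ρ j := by
    intro i j hij
    simp only at hij
    have h1 : t * ((p i : ℤ) - p j) = ρ j - ρ i := by linarith
    have h2 := abs_le.mp (hS i)
    have h3 := abs_le.mp (hS j)
    have h4 : (p i : ℤ) - p j = 0 := by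
      by_contra hne
      have h5 : 1 ≤ |(p i : ℤ) - p j| := Int.one_le_abs hne
      have h6 : |t * ((p i : ℤ) - p j)| ≤ 2 * S := by
        rw [h1, abs_le]; constructor <;> linarith [h2.1, h2.2, h3.1, h3.2]
      rw [abs_mul, abs_of_pos ht0] at h6
      nlinarith
    have h5 : p i = p j := by
      have : (p i : ℤ) = p j := by linarith
      exact_mod_cast this
    apply hinj
    rw [h4, mul_zero] at h1
    simp only [h5, Prod.mk.injEq, true_and]
    linarith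
  obtain ⟨s, hs, hF0, hroots, hspan⟩ := zeros_of_lm_zero c hc _ he h
  set F : ℂ[X] := lp (fun j => (c j : ℂ)) fun j => ((t * (p j : ℤ) + ρ j) + s).toNat with hF
  have hcC : ∀ j, ((c j : ℤ) : ℂ) ≠ 0 := fun j => by exact_mod_cast hc j
  set Z := F.roots.toFinset with hZ
  set mult : ℂ → ℕ := fun z => F.rootMultiplicity z with hmult
  have hmemZ : ∀ z ∈ Z, z ∈ F.roots := fun z hz => Multiset.mem_toFinset.mp hz
  have hord : ∀ z ∈ Z, 0 < orderOf z := by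
    intro z hz
    obtain ⟨_, n, hn, hn1⟩ := hroots z (hmemZ z hz)
    exact orderOf_pos_iff.mpr (isOfFinOrder_iff_pow_eq_one.mpr ⟨n, hn, hn1⟩)
  have hprim : ∀ z : ℂ, IsPrimitiveRoot z (orderOf z) := fun z => IsPrimitiveRoot.orderOf z
  have hmulpos : ∀ z ∈ Z, 0 < mult z := by
    intro z hz
    rw [hmult]
    exact (rootMultiplicity_pos hF0).mpr (isRoot_of_mem_roots (hmemZ z hz))
  have hdvd : ∀ z, (X - C z) ^ mult z ∣ F := fun z => pow_rootMultiplicity_dvd F z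
  have hmullt : ∀ z ∈ Z, mult z ≤ κ := by
    intro z hz
    have h1 := mult_lt_card (fun j => (c j : ℂ)) hcC _ he s hs (hroots z (hmemZ z hz)).1
      (hdvd z)
    omega
  have hsumZ : (Multiset.card F.roots : ℕ) = ∑ z ∈ Z, mult z := by
    rw [hZ, ← Multiset.toFinset_sum_count_eq]
    exact Finset.sum_congr rfl fun z _ => (count_roots F)
  -- the three classes
  set PI : ℂ → Prop := fun z => ∃ i j i' j', dd κ z ∣ (t * p i + ρ i) - (t * p j + ρ j) ∧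
      dd κ z ∣ (t * p i' + ρ i') - (t * p j' + ρ j') ∧
      (ρ i - ρ j) * ((p i' : ℤ) - p j') ≠ (ρ i' - ρ j') * ((p i : ℤ) - p j) with hPI
  set P0 : ℂ → Prop := fun z =>
    ∃ i j, i ≠ j ∧ dd κ z ∣ (t * p i + ρ i) - (t * p j + ρ j) ∧ p i = p j with hP0
  have hcI := count_I κ hκ hcard p ρ t ht0.le he hgood (Z.filter PI)
    (fun z hz => hord z (Finset.mem_filter.mp hz).1) (fun z hz => (Finset.mem_filter.mp hz).2)
  have hc0 := count_0 κ hcard p ρ S hS0 hS t he (Z.filter P0)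
    (fun z hz => hord z (Finset.mem_filter.mp hz).1) (fun z hz => (Finset.mem_filter.mp hz).2)
  set Z2 := Z.filter (fun z => ¬ PI z ∧ ¬ P0 z) with hZ2
  -- directions
  have hdir : ∀ z : ℂ, ∃ (a : ℤ) (b : ℕ), z ∈ Z2 → (0 < b ∧ Int.gcd a b = 1 ∧ |a| ≤ 2 * S ∧
      ∀ i j, ((orderOf z / Nat.gcd (orderOf z) κ.factorial : ℕ) : ℤ) ∣
        (t * p i + ρ i) - (t * p j + ρ j) →
        ∃ u : ℤ, ρ i - ρ j = u * a ∧ (p i : ℤ) - p j = u * b) := by
    intro z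
    by_cases hz : z ∈ Z2
    · have hz' := Finset.mem_filter.mp hz
      have h1 : ¬ PI z := hz'.2.1
      have h2 : ¬ P0 z := hz'.2.2
      obtain ⟨a, b, hab⟩ := exists_direction κ hcard c hc p ρ S hS t s hs (hord z hz'.1)
        (hprim z) (hmulpos z hz'.1) (hdvd z)
        (by
          intro i j i' j' hd hd'
          by_contra hne
          exact h1 ⟨i, j, i', j', hd, hd', hne⟩)
        (by
          intro i j hij hd hpp
          exact h2 ⟨i, j, hij, hd, hpp⟩)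
      exact ⟨a, b, fun _ => hab⟩
    · exact ⟨0, 0, fun h => absurd h hz⟩
  choose a b hab using hdir
  set Tz : ℂ → Tri := fun z => (a z, b z, z ^ ((b z : ℤ) * t + a z)) with hTz
  set 𝒯 : Finset Tri := Z2.image Tz with h𝒯
  set μ : Tri → ℕ := fun T => (Z2.filter fun z => Tz z = T).sup mult with hμ
  have hrep : ∀ T ∈ 𝒯, ∃ z ∈ Z2, Tz z = T ∧ μ T = mult z := by
    intro T hT
    obtain ⟨z, hz, hzT⟩ := Finset.mem_image.mp hT
    have hne : (Z2.filter fun z => Tz z = T).Nonempty := ⟨z, Finset.mem_filter.mpr ⟨hz, hzT⟩⟩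
    obtain ⟨z', hz', hsup⟩ := Finset.exists_mem_eq_sup _ hne mult
    exact ⟨z', (Finset.mem_filter.mp hz').1, (Finset.mem_filter.mp hz').2, hsup⟩
  have hb : ∀ T ∈ 𝒯, 0 < T.2.1 := by
    intro T hT
    obtain ⟨z, hz, rfl, _⟩ := hrep T hT
    exact (hab z hz).1
  have hg : ∀ T ∈ 𝒯, Int.gcd T.1 T.2.1 = 1 := by
    intro T hT
    obtain ⟨z, hz, rfl, _⟩ := hrep T hT
    exact (hab z hz).2.1
  have ha : ∀ T ∈ 𝒯, |T.1| ≤ 2 * S := by
    intro T hT
    obtain ⟨z, hz, rfl, _⟩ := hrep T hT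
    exact (hab z hz).2.2.1
  have hw : ∀ T ∈ 𝒯, ‖T.2.2‖ = 1 := by
    intro T hT
    obtain ⟨z, hz, rfl, _⟩ := hrep T hT
    have h1 := norm_one_of_prim (hord z (Finset.mem_filter.mp hz).1) (hprim z)
    simp only [hTz]
    rw [norm_zpow, h1, one_zpow]
  have hpos : ∀ T ∈ 𝒯, 0 < (T.2.1 : ℤ) * t + T.1 := by
    intro T hT
    have h1 := (abs_le.mp (ha T hT)).1
    have h2 : (1 : ℤ) ≤ T.2.1 := by exact_mod_cast hb T hT
    nlinarith
  have hdiv : ∀ T ∈ 𝒯, ∀ R : ℝ, 1 < R → ∀ y : ℂ, (R : ℂ) ^ T.1 * y ^ T.2.1 = T.2.2 →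
      (X - C y) ^ μ T ∣ GR c p ρ R := by
    intro T hT R hR y hy
    obtain ⟨z, hz, hzT, hμz⟩ := hrep T hT
    have hz' := Finset.mem_filter.mp hz
    rw [hμz]
    have hTp := hpos T hT
    subst hzT
    exact typeII_dvd κ hcard c p ρ t s hs (hord z hz'.1) (hprim z) (hdvd z) (a z) (b z)
      (hab z hz).1 hTp (hab z hz).2.2.2 hR y hy
  -- the count of zeros of parallel type
  have hc2 : ∑ z ∈ Z2, (mult z : ℤ) ≤ ∑ T ∈ 𝒯, (μ T : ℤ) * ((T.2.1 : ℤ) * t + T.1) := by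
    rw [← Finset.sum_fiberwise_of_maps_to (s := Z2) (t := 𝒯) (g := Tz)
      (fun z hz => Finset.mem_image_of_mem _ hz)]
    refine Finset.sum_le_sum fun T hT => ?_
    have h1 : ∀ z ∈ Z2.filter (fun z => Tz z = T), (mult z : ℤ) ≤ μ T := by
      intro z hz
      have : mult z ≤ μ T := Finset.le_sup (f := mult) hz
      exact_mod_cast this
    have h2 : ((Z2.filter fun z => Tz z = T).card : ℤ) ≤ (T.2.1 : ℤ) * t + T.1 := by
      have hTp := hpos T hT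
      set N := ((T.2.1 : ℤ) * t + T.1).toNat with hN
      have hNc : (N : ℤ) = (T.2.1 : ℤ) * t + T.1 := Int.toNat_of_nonneg hTp.le
      have h3 : (Z2.filter fun z => Tz z = T) ⊆ Z2.filter fun z => z ^ N = T.2.2 := by
        intro z hz
        rw [Finset.mem_filter] at hz ⊢
        refine ⟨hz.1, ?_⟩
        have h4 := hz.2
        rw [← zpow_natCast, hNc, ← h4]
      have h4 := card_pow_eq_le Z2 (N := N) (by omega) T.2.2
      have h5 := (Finset.card_le_card h3).trans h4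
      rw [← hNc]
      exact_mod_cast h5
    calc ∑ z ∈ Z2 with Tz z = T, (mult z : ℤ) ≤ ∑ z ∈ Z2 with Tz z = T, (μ T : ℤ) :=
          Finset.sum_le_sum h1
      _ = ((Z2.filter fun z => Tz z = T).card : ℤ) * μ T := by
          rw [Finset.sum_const, nsmul_eq_mul]
      _ ≤ ((T.2.1 : ℤ) * t + T.1) * μ T := by gcongr
      _ = _ := by ring
  have hsa := core_sum_a c hc p ρ hinj S hS h0 𝒯 μ hb hg hw hdiv
  obtain ⟨hsb, _⟩ := core_sum_b c hc p ρ hinj W hpW hW 𝒯 μ hb hg hw hdiv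
  set B : ℕ := ∑ T ∈ 𝒯, μ T * T.2.1 with hB
  have hc2' : ∑ z ∈ Z2, (mult z : ℤ) ≤ t * B + 2 * S := by
    refine hc2.trans ?_
    have h1 : ∑ T ∈ 𝒯, (μ T : ℤ) * ((T.2.1 : ℤ) * t + T.1) =
        t * B + ∑ T ∈ 𝒯, (μ T : ℤ) * T.1 := by
      rw [hB]
      push_cast
      rw [Finset.mul_sum, ← Finset.sum_add_distrib]
      exact Finset.sum_congr rfl fun T _ => by ring
    rw [h1]
    linarith
  -- total
  have htotal : ∑ z ∈ Z, (mult z : ℝ) ≤ κ * (Z.filter PI).card + κ * (Z.filter P0).card +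
      ∑ z ∈ Z2, (mult z : ℝ) := total_le Z PI P0 mult κ hmullt
  have hlow : (t : ℝ) * W - 2 * S ≤ ∑ z ∈ Z, (mult z : ℝ) := by
    obtain ⟨i, hi⟩ := hW
    obtain ⟨j, hj⟩ := h0
    have h1 := hspan i j
    rw [hsumZ, hi, hj] at h1
    have h2 := abs_le.mp (hS i)
    have h3 := abs_le.mp (hS j)
    have h4 : t * (W : ℤ) - 2 * S ≤ ((∑ z ∈ Z, mult z : ℕ) : ℤ) := by
      push_cast at h1 ⊢
      linarith [h2.1, h3.2]
    exact_mod_cast h4
  have hBW : B = W := by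
    by_contra hne
    have hBlt : B + 1 ≤ W := by omega
    have hBR : (B : ℝ) + 1 ≤ W := by exact_mod_cast hBlt
    have hc2R : ∑ z ∈ Z2, (mult z : ℝ) ≤ t * B + 2 * S := by exact_mod_cast hc2'
    have htR : (0 : ℝ) < t := by exact_mod_cast ht0
    have hSR : (0 : ℝ) ≤ S := by exact_mod_cast hS0
    have hκR : (1 : ℝ) ≤ κ := by exact_mod_cast hκ
    have htbig : 16 * (κ : ℝ) ^ 3 * κ.factorial * S < t := by exact_mod_cast ht
    have hfac : (1 : ℝ) ≤ (κ : ℝ) ^ 3 * κ.factorial := by exact_mod_cast hfac1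
    have e1 : (κ : ℝ) * (Z.filter PI).card ≤ t / 4 := by linarith
    have e2 : (κ : ℝ) * (Z.filter P0).card ≤ 2 * κ ^ 3 * κ.factorial * S := by
      calc (κ : ℝ) * (Z.filter P0).card ≤ κ * (2 * κ ^ 2 * κ.factorial * S) := by gcongr
        _ = _ := by ring
    have e3 : (S : ℝ) ≤ κ ^ 3 * κ.factorial * S := le_mul_of_one_le_left hSR hfac
    have e4 : (t : ℝ) * (B + 1) ≤ t * W := by gcongr
    nlinarith
  have hconst := core_const c hc p ρ hinj S W hpW hW 𝒯 μ hb hg hw ha hdiv hBW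
  rw [hconst τ hτ, ← hconst t ht2]
  exact h

end Pool.Agent.Lib.MP_7ab245_nt.Mono
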