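import Mathlib
import Pool.Agent.Lib.MP_7ab245_nt.Mono.LineCount
import Pool.Agent.Lib.MP_7ab245_nt.Mono.Dirichlet
import Pool.Agent.Lib.MP_7ab245_nt.Mono.GoodT

/-!
Descent: shrinking the exponents while keeping additive relations and Mahler measure `> 1`.
-/

set_option autoImplicit false

open Polynomial Real

namespace Pool.Agent.Lib.MP_7ab245_nt.Mono

variable {ι : Type} [Fintype ι]

lemma SameRel.refl {α : Type} (N : ℕ) (e : α → ℤ) : SameRel N e e := fun _ _ _ => Iff.rfl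

lemma SameRel.trans {α : Type} {N : ℕ} {e e' e'' : α → ℤ} (h : SameRel N e e')
    (h' : SameRel N e' e'') : SameRel N e e'' := fun l hl w => (h l hl w).trans (h' l hl w)

lemma sameRel_line {α : Type} (N : ℕ) (p : α → ℕ) (ρ : α → ℤ) (S : ℤ) (hS : ∀ j, |ρ j| ≤ S)
    (t τ : ℤ) (hS0 : 0 ≤ S) (ht : 2 * N * S < t) (hτ : 2 * N * S < τ) :
    SameRel N (fun j => τ * p j + ρ j) (fun j => t * p j + ρ j) := by
  intro l hl w
  set P : ℤ := ∑ s, ((p (w s).1 : ℤ) - p (w s).2) with hP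
  set R : ℤ := ∑ s, (ρ (w s).1 - ρ (w s).2) with hR
  have hsum : ∀ u : ℤ, ∑ s, ((u * p (w s).1 + ρ (w s).1) - (u * p (w s).2 + ρ (w s).2)) =
      u * P + R := by
    intro u
    rw [hP, hR, Finset.mul_sum, ← Finset.sum_add_distrib]
    exact Finset.sum_congr rfl fun s _ => by ring
  have hRle : |R| ≤ 2 * N * S := by
    calc |R| ≤ ∑ s, |ρ (w s).1 - ρ (w s).2| := Finset.abs_sum_le_sum_abs _ _
      _ ≤ ∑ s : Fin l, 2 * S := by
          refine Finset.sum_le_sum fun s _ => ?_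
          have h1 := abs_le.mp (hS (w s).1)
          have h2 := abs_le.mp (hS (w s).2)
          rw [abs_le]
          constructor <;> linarith [h1.1, h1.2, h2.1, h2.2]
      _ = l * (2 * S) := by simp
      _ ≤ N * (2 * S) := by
          have : (l : ℤ) ≤ N := by exact_mod_cast hl
          gcongr
      _ = 2 * N * S := by ring
  have hN0 : (0 : ℤ) ≤ 2 * N * S := by positivity
  have key : ∀ u : ℤ, 2 * N * S < u → (u * P + R = 0 ↔ P = 0 ∧ R = 0) := by
    intro u hu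
    constructor
    · intro h
      have hP0 : P = 0 := by
        by_contra hne
        have h1 : 1 ≤ |P| := Int.one_le_abs hne
        have h2 : |u * P| = |R| := by
          have : u * P = -R := by linarith
          rw [this, abs_neg]
        rw [abs_mul, abs_of_pos (by linarith : (0 : ℤ) < u)] at h2
        nlinarith
      refine ⟨hP0, ?_⟩
      rw [hP0, mul_zero, zero_add] at h
      exact h
    · rintro ⟨h1, h2⟩
      rw [h1, h2, mul_zero, zero_add]
  simp only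
  rw [hsum τ, hsum t, key τ hτ, key t ht]

/-- one descent step -/
lemma step [Nonempty ι] (κ N Q n : ℕ) (hcard : Fintype.card ι ≤ κ) (hN : 1 ≤ N) (c : ι → ℤ)
    (hc : ∀ j, c j ≠ 0) (e : ι → ℤ) (he : Function.Injective e) (hlm : 0 < lm c e) (i₀ i₁ : ι)
    (hmin : ∀ j, e i₀ ≤ e j) (hmax : ∀ j, e j ≤ e i₁) (hn : e i₁ - e i₀ = n)
    (hQ1 : 512 * κ ^ 3 * κ.factorial < Q) (hQ2 : 64 * N < Q)
    (hn1 : 400 * κ ^ 4 * (4 * κ ^ 5 * κ.factorial) ^ 2 * (Q ^ κ) ^ 3 < n)
    (hn2 : Q * (Q ^ κ) ^ 2 ≤ n) :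
    ∃ e' : ι → ℤ, Function.Injective e' ∧ SameRel N e e' ∧ 0 < lm c e' ∧
      ∀ i j, e' i - e' j < n := by
  classical
  have hκ : 0 < κ := lt_of_lt_of_le Fintype.card_pos hcard
  have hQ0 : 0 < Q := by omega
  have hn0 : 0 < n := by omega
  set E : ι → ℕ := fun j => (e j - e i₀).toNat with hE
  have hEc : ∀ j, ((E j : ℕ) : ℤ) = e j - e i₀ := fun j =>
    Int.toNat_of_nonneg (by linarith [hmin j])
  have hEn : ∀ j, E j ≤ n := by
    intro j
    have h1 : ((E j : ℕ) : ℤ) ≤ n := by rw [hEc, ← hn]; linarith [hmax j]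
    exact_mod_cast h1
  obtain ⟨q, hq0, hqQ, p, hp1, hpq, hp0, hpn⟩ := dirichlet κ Q n hcard hQ0 hn0 E hEn
  have hq1 : (1 : ℤ) ≤ q := by exact_mod_cast hq0
  set τ : ℤ := (n : ℤ) / q with hτdef
  have hdivmod : (q : ℤ) * τ + (n : ℤ) % q = n := Int.mul_ediv_add_emod (n : ℤ) q
  have hr0 : 0 ≤ (n : ℤ) % q := Int.emod_nonneg _ (by linarith)
  have hr1 : (n : ℤ) % q < q := Int.emod_lt_of_pos _ (by linarith)
  set r : ℤ := (n : ℤ) % q with hr
  set ρ : ι → ℤ := fun j => (E j : ℤ) - τ * p j with hρ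
  -- numerics on `n`
  set D : ℕ := 4 * κ ^ 5 * κ.factorial with hD
  have hD1 : 1 ≤ D := by
    rw [hD]
    exact Nat.mul_pos (Nat.mul_pos (by norm_num) (pow_pos hκ 5)) (Nat.factorial_pos _)
  have hqQ' : (q : ℤ) ≤ (Q : ℤ) ^ κ := by exact_mod_cast hqQ
  have hn1' : 400 * (κ : ℤ) ^ 4 * (D : ℤ) ^ 2 * (q : ℤ) ^ 3 < n := by
    have h1 : 400 * (κ : ℤ) ^ 4 * (D : ℤ) ^ 2 * ((Q : ℤ) ^ κ) ^ 3 < n := by exact_mod_cast hn1
    refine lt_of_le_of_lt ?_ h1
    gcongr
  have hn2' : (Q : ℤ) * (q : ℤ) ^ 2 ≤ n := by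
    have h1 : (Q : ℤ) * ((Q : ℤ) ^ κ) ^ 2 ≤ n := by exact_mod_cast hn2
    refine le_trans ?_ h1
    gcongr
  -- lower bound on `τ`
  set V : ℤ := (κ : ℤ) ^ 4 * (D : ℤ) ^ 2 * (q : ℤ) ^ 2 with hV
  have hV1 : 1 ≤ V := by
    have : (0 : ℤ) < V := by positivity
    linarith
  have hτV : 400 * V ≤ τ := by
    by_contra hcon
    push Not at hcon
    have h1 : τ + 1 ≤ 400 * V := by linarith
    have h2 : (n : ℤ) < q * (τ + 1) := by nlinarith
    have h3 : (q : ℤ) * (τ + 1) ≤ q * (400 * V) := by gcongr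
    have h4 : (q : ℤ) * (400 * V) = 400 * (κ : ℤ) ^ 4 * (D : ℤ) ^ 2 * (q : ℤ) ^ 3 := by
      rw [hV]; ring
    linarith
  have hτ1 : 400 ≤ τ := by linarith
  -- bound on `ρ`
  have hρQ : ∀ j, (Q : ℤ) * |ρ j| < 4 * τ := by
    intro j
    have h1 : (q : ℤ) * ρ j = ((q : ℤ) * E j - n * p j) + r * p j := by
      simp only [hρ]
      linear_combination (-(p j : ℤ)) * hdivmod
    have h2 := hp1 j
    have h3 : (p j : ℤ) ≤ q := by exact_mod_cast hpq j
    have h4 : (0 : ℤ) ≤ p j := Int.natCast_nonneg _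
    have h5 : (q : ℤ) * |ρ j| ≤ |(q : ℤ) * E j - n * p j| + r * p j := by
      calc (q : ℤ) * |ρ j| = |(q : ℤ) * ρ j| := by rw [abs_mul, Nat.abs_cast]
        _ ≤ |(q : ℤ) * E j - n * p j| + |r * p j| := by rw [h1]; exact abs_add_le _ _
        _ = _ := by rw [abs_of_nonneg (mul_nonneg hr0 h4)]
    have h6 : r * p j ≤ q * q := by
      calc r * p j ≤ q * p j := by gcongr
        _ ≤ q * q := by gcongr
    have h7 : (q : ℤ) * ((Q : ℤ) * |ρ j|) < q * (4 * τ) := by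
      calc (q : ℤ) * ((Q : ℤ) * |ρ j|) = Q * (q * |ρ j|) := by ring
        _ ≤ Q * (|(q : ℤ) * E j - n * p j| + q * q) := by
            gcongr
            linarith
        _ = |(q : ℤ) * E j - n * p j| * Q + Q * q ^ 2 := by ring
        _ < n + n := by linarith
        _ ≤ q * (4 * τ) := by
            have : (q : ℤ) * 1 ≤ q * τ := by gcongr; linarith
            linarith
    exact lt_of_mul_lt_mul_left h7 (by linarith)
  set S : ℤ := 4 * τ / Q with hSdef
  have hQz : (0 : ℤ) < Q := by exact_mod_cast hQ0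
  have hS : ∀ j, |ρ j| ≤ S := by
    intro j
    rw [hSdef, Int.le_ediv_iff_mul_le hQz]
    linarith [hρQ j]
  have hQS : (Q : ℤ) * S ≤ 4 * τ := Int.mul_ediv_self_le hQz.ne'
  have hS0 : 0 ≤ S := le_trans (abs_nonneg _) (hS i₀)
  set T : ℤ := τ / 4 with hT
  have hT4 : 4 * T ≤ τ := by omega
  have hT7 : τ ≤ 7 * T := by omega
  have hTpos : 0 < T := by omega
  -- consequences
  have hNS : 2 * (N : ℤ) * S < T := by
    have h1 : 64 * (N : ℤ) < Q := by exact_mod_cast hQ2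
    have h2 : 64 * (N : ℤ) * S ≤ Q * S := by gcongr
    linarith
  have hS2 : 2 * S < T := by
    have h1 : (1 : ℤ) ≤ N := by exact_mod_cast hN
    nlinarith
  have hκS : 16 * (κ : ℤ) ^ 3 * κ.factorial * S < T := by
    have h1 : 512 * (κ : ℤ) ^ 3 * κ.factorial < Q := by exact_mod_cast hQ1
    have h2 : 512 * (κ : ℤ) ^ 3 * κ.factorial * S ≤ Q * S := by gcongr
    linarith
  have hbig : (κ : ℤ) ^ 4 * (2 * D * (q + 1) + 1) ^ 2 < T := by
    have hD1' : (1 : ℤ) ≤ D := by exact_mod_cast hD1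
    have h1 : 2 * (D : ℤ) * (q + 1) + 1 ≤ 5 * D * q := by nlinarith
    have h2 : (κ : ℤ) ^ 4 * (2 * D * (q + 1) + 1) ^ 2 ≤ (κ : ℤ) ^ 4 * (5 * D * q) ^ 2 := by
      gcongr
    have h3 : (κ : ℤ) ^ 4 * (5 * D * q) ^ 2 = 25 * V := by rw [hV]; ring
    linarith
  obtain ⟨t, ht1, ht2, hgood⟩ := good_t κ hcard p ρ S q D hS hpq hD1 T hTpos hS2.le hbig
  have hinj : Function.Injective fun j => (p j, ρ j) := by
    intro i j hij
    simp only [Prod.mk.injEq] at hij
    apply he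
    have h1 : ρ i = ρ j := hij.2
    simp only [hρ, hij.1] at h1
    rw [hEc, hEc] at h1
    linarith
  have hline : ∀ j, τ * (p j : ℤ) + ρ j = e j + (-e i₀) := by
    intro j
    simp only [hρ]
    rw [hEc]; ring
  have heq : (fun j => τ * (p j : ℤ) + ρ j) = fun j => e j + (-e i₀) := funext hline
  have hlmτ : lm c (fun j => τ * (p j : ℤ) + ρ j) = lm c e := by rw [heq, lm_shift]
  have hrel := sameRel_line N p ρ S hS t τ hS0 (by linarith) (by linarith)
  have hrel0 : SameRel N e (fun j => τ * (p j : ℤ) + ρ j) := by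
    rw [heq]
    intro l _ w
    simp
  have hrel' : SameRel N e (fun j => t * (p j : ℤ) + ρ j) := hrel0.trans hrel
  have hinj' : Function.Injective fun j => t * (p j : ℤ) + ρ j := by
    intro i j hij
    simp only at hij
    have h1 := (hrel' 1 hN fun _ => (i, j)).mpr (by
      simp only [Finset.univ_unique, Finset.sum_singleton]
      linarith)
    simp only [Finset.univ_unique, Finset.sum_singleton] at h1
    exact he (by linarith)
  refine ⟨fun j => t * (p j : ℤ) + ρ j, hinj', hrel', ?_, ?_⟩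
  · rcases (lm_nonneg c hc _ hinj').lt_or_eq with h | h
    · exact h
    · exfalso
      have h1 := line_nat κ hcard c hc p ρ hinj S q hS hpq ⟨i₀, hp0 i₀ (by simp [hE])⟩
        ⟨i₁, hpn i₁ (by
          have := hEc i₁
          rw [hn] at this
          exact_mod_cast this)⟩ t (by linarith) (by
          intro i j i' j' hne
          have := hgood i j i' j' hne
          simp only [hD] at this
          push_cast at this
          exact this) h.symm τ (by linarith)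
      rw [hlmτ] at h1
      linarith
  · intro i j
    have h1 := abs_le.mp (hS i)
    have h2 := abs_le.mp (hS j)
    have h3 : (p i : ℤ) ≤ q := by exact_mod_cast hpq i
    have h4 : (0 : ℤ) ≤ p j := Int.natCast_nonneg _
    have h5 : (t * (p i : ℤ) + ρ i) - (t * (p j : ℤ) + ρ j) ≤ t * q + 2 * S := by
      have h6 : t * (p i : ℤ) ≤ t * q := by gcongr; linarith
      have h7 : 0 ≤ t * (p j : ℤ) := mul_nonneg (by linarith) h4
      linarith [h1.2, h2.1]
    have h6 : t * q + 2 * S < n := by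
      have h7 : t * (q : ℤ) ≤ (2 * T - 1) * q := by gcongr; linarith
      have h8 : T * 1 ≤ T * (q : ℤ) := by gcongr
      have h9 : 4 * T * (q : ℤ) ≤ τ * q := by gcongr
      nlinarith
    simp only
    linarith

theorem descent (C₁ : ℕ) : ∃ C₂ : ℕ, ∀ (κ : ℕ), 2 ≤ κ → ∀ (ι : Type) [Fintype ι] [Nonempty ι],
    Fintype.card ι ≤ κ →
    ∀ (c : ι → ℤ), (∀ j, c j ≠ 0) → ∀ e : ι → ℤ, Function.Injective e → 0 < lm c e →
    ∃ e' : ι → ℤ, Function.Injective e' ∧ SameRel (κ ^ (C₁ * κ)) e e' ∧ 0 < lm c e' ∧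
      ∀ i j, e' i - e' j ≤ (κ : ℤ) ^ (C₂ * κ ^ 2) := by
  refine ⟨3 * C₁ + 32, ?_⟩
  intro κ hκ ι _ _ hcard c hc e he hlm
  classical
  have hκ1 : 1 ≤ κ := by omega
  set N : ℕ := κ ^ (C₁ * κ) with hN
  set Q : ℕ := κ ^ ((C₁ + 8) * κ) with hQ
  have hN1 : 1 ≤ N := Nat.one_le_pow _ _ hκ1
  have hfact : κ.factorial ≤ κ ^ κ := Nat.factorial_le_pow κ
  have h512 : 512 ≤ κ ^ 9 := by
    calc 512 = 2 ^ 9 := by norm_num
      _ ≤ κ ^ 9 := Nat.pow_le_pow_left hκ 9
  have h64 : 64 ≤ κ ^ 6 := by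
    calc 64 = 2 ^ 6 := by norm_num
      _ ≤ κ ^ 6 := Nat.pow_le_pow_left hκ 6
  have h4 : 4 ≤ κ ^ 2 := by
    calc 4 = 2 ^ 2 := by norm_num
      _ ≤ κ ^ 2 := Nat.pow_le_pow_left hκ 2
  have hQ1 : 512 * κ ^ 3 * κ.factorial < Q := by
    calc 512 * κ ^ 3 * κ.factorial ≤ κ ^ 9 * κ ^ 3 * κ ^ κ := by gcongr
      _ = κ ^ (12 + κ) := by rw [← pow_add, ← pow_add]
      _ < Q := by
          rw [hQ]
          apply Nat.pow_lt_pow_right (by omega)
          nlinarith
  have hQ2 : 64 * N < Q := by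
    calc 64 * N ≤ κ ^ 6 * κ ^ (C₁ * κ) := by rw [hN]; gcongr
      _ = κ ^ (6 + C₁ * κ) := by rw [← pow_add]
      _ < Q := by
          rw [hQ]
          apply Nat.pow_lt_pow_right (by omega)
          nlinarith
  have hbound1 : 400 * κ ^ 4 * (4 * κ ^ 5 * κ.factorial) ^ 2 * (Q ^ κ) ^ 3 ≤
      κ ^ ((3 * C₁ + 32) * κ ^ 2) := by
    calc 400 * κ ^ 4 * (4 * κ ^ 5 * κ.factorial) ^ 2 * (Q ^ κ) ^ 3
        ≤ κ ^ 9 * κ ^ 4 * (κ ^ 2 * κ ^ 5 * κ ^ κ) ^ 2 * (Q ^ κ) ^ 3 := by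
          gcongr
          omega
      _ = κ ^ (9 + 4 + (2 + 5 + κ) * 2 + (C₁ + 8) * κ * κ * 3) := by
          rw [hQ]; ring
      _ ≤ κ ^ ((3 * C₁ + 32) * κ ^ 2) := by
          apply Nat.pow_le_pow_right hκ1
          nlinarith
  have hbound2 : Q * (Q ^ κ) ^ 2 ≤ κ ^ ((3 * C₁ + 32) * κ ^ 2) := by
    calc Q * (Q ^ κ) ^ 2 = κ ^ ((C₁ + 8) * κ + (C₁ + 8) * κ * κ * 2) := by
          rw [hQ]; ring
      _ ≤ κ ^ ((3 * C₁ + 32) * κ ^ 2) := by
          apply Nat.pow_le_pow_right hκ1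
          nlinarith [Nat.mul_le_mul_left C₁ (Nat.mul_le_mul_left κ hκ1)]
  -- induction on a bound for the span
  have main : ∀ n : ℕ, ∀ e : ι → ℤ, Function.Injective e → 0 < lm c e →
      (∀ i j, e i - e j ≤ n) → ∃ e' : ι → ℤ, Function.Injective e' ∧ SameRel N e e' ∧
        0 < lm c e' ∧ ∀ i j, e' i - e' j ≤ (κ : ℤ) ^ ((3 * C₁ + 32) * κ ^ 2) := by
    intro n
    induction n using Nat.strong_induction_on with
    | _ n ih =>
      intro e he hlm hspan
      obtain ⟨i₀, _, hi₀⟩ := Finset.exists_min_image Finset.univ e Finset.univ_nonempty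
      obtain ⟨i₁, _, hi₁⟩ := Finset.exists_max_image Finset.univ e Finset.univ_nonempty
      have hmin : ∀ j, e i₀ ≤ e j := fun j => hi₀ j (Finset.mem_univ j)
      have hmax : ∀ j, e j ≤ e i₁ := fun j => hi₁ j (Finset.mem_univ j)
      have hd0 : 0 ≤ e i₁ - e i₀ := by linarith [hmin i₁]
      set n' : ℕ := (e i₁ - e i₀).toNat with hn'
      have hn'c : (n' : ℤ) = e i₁ - e i₀ := Int.toNat_of_nonneg hd0
      by_cases hsmall : n' ≤ κ ^ ((3 * C₁ + 32) * κ ^ 2)
      · refine ⟨e, he, SameRel.refl _ _, hlm, fun i j => ?_⟩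
        have h1 : (n' : ℤ) ≤ (κ : ℤ) ^ ((3 * C₁ + 32) * κ ^ 2) := by exact_mod_cast hsmall
        linarith [hmin j, hmax i]
      · push Not at hsmall
        obtain ⟨e', he', hrel, hlm', hspan'⟩ := step κ N Q n' hcard hN1 c hc e he hlm i₀ i₁
          hmin hmax hn'c.symm hQ1 hQ2 (lt_of_le_of_lt hbound1 hsmall)
          (hbound2.trans hsmall.le)
        have hn'n : n' ≤ n := by
          have := hspan i₁ i₀
          rw [← hn'c] at this
          exact_mod_cast this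
        have hn'pos : 0 < n' := lt_of_le_of_lt (Nat.zero_le _) hsmall
        obtain ⟨e'', he'', hrel', hlm'', hspan''⟩ := ih (n' - 1) (by omega) e' he' hlm'
          (fun i j => by
            have h1 := hspan' i j
            have h2 : ((n' - 1 : ℕ) : ℤ) = n' - 1 := by push_cast [hn'pos]; ring
            rw [h2]; linarith)
        exact ⟨e'', he'', hrel.trans hrel', hlm'', hspan''⟩
  -- an initial bound
  obtain ⟨i₀, _, hi₀⟩ := Finset.exists_min_image Finset.univ e Finset.univ_nonempty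
  obtain ⟨i₁, _, hi₁⟩ := Finset.exists_max_image Finset.univ e Finset.univ_nonempty
  refine main (e i₁ - e i₀).toNat e he hlm fun i j => ?_
  have h1 := hi₀ j (Finset.mem_univ j)
  have h2 := hi₁ i (Finset.mem_univ i)
  have h3 : (((e i₁ - e i₀).toNat : ℕ) : ℤ) = e i₁ - e i₀ := Int.toNat_of_nonneg (by
    have := hi₀ i₁ (Finset.mem_univ _)
    linarith)
  rw [h3]
  linarith

end Pool.Agent.Lib.MP_7ab245_nt.Mono
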