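import Mathlib
import Pool.Agent.Lib.MP_7ab245_nt.Mono.LM
import Pool.Agent.Lib.MP_7ab245_nt.Mono.Compare
import Pool.Agent.Lib.MP_7ab245_nt.Mono.Descent

/-!
Assembly of the lower bound for the Mahler measure in terms of the number of monomials, from a
Dobrowolski type bound.
-/

set_option autoImplicit false

open Polynomial Real

namespace Pool.Agent.Lib.MP_7ab245_nt.Mono

/-- a polynomial as a Laurent sum over its support -/
lemma lm_support (f : ℤ[X]) :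
    lm (fun j : f.support => f.coeff j) (fun j => ((j : ℕ) : ℤ)) =
      Real.log (f.map (Int.castRingHom ℂ)).mahlerMeasure := by
  rw [lm_eq_log _ _ 0 (fun j => by simp), ← ip_map, logMahlerMeasure_eq_log_MahlerMeasure]
  congr 3
  rw [ip]
  simp only [add_zero, Int.toNat_natCast]
  rw [Finset.sum_coe_sort f.support fun j => C (f.coeff j) * X ^ j]
  exact (f.as_sum_support_C_mul_X_pow).symm

lemma ip_natDegree_le {ι : Type} [Fintype ι] (c : ι → ℤ) (n : ι → ℕ) (W : ℕ)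
    (h : ∀ j, n j ≤ W) : (ip c n).natDegree ≤ W := by
  rw [ip]
  apply natDegree_sum_le_of_forall_le
  intro j _
  exact (natDegree_C_mul_X_pow_le _ _).trans (h j)

theorem main_of_dobrowolski
    (hD : ∃ c : ℝ, 0 < c ∧ ∀ (g : ℤ[X]) (n : ℕ), 3 ≤ n → g.natDegree ≤ n →
      1 < (g.map (Int.castRingHom ℂ)).mahlerMeasure →
      c * (Real.log (Real.log n) / Real.log n) ^ 3 ≤
        Real.log (g.map (Int.castRingHom ℂ)).mahlerMeasure) :
    ∃ c : ℝ, 0 < c ∧ ∀ (k : ℕ) (f : ℤ[X]), f.support.card ≤ k →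
      1 < (f.map (Int.castRingHom ℂ)).mahlerMeasure →
      1 + c / (k : ℝ) ^ 6 ≤ (f.map (Int.castRingHom ℂ)).mahlerMeasure := by
  obtain ⟨cD, hcD, hDob⟩ := hD
  obtain ⟨C₁, hcomp⟩ := compare 7
  obtain ⟨C₂, hdesc⟩ := descent C₁
  set A : ℝ := 8 * cD / ((C₂ : ℝ) + 1) ^ 3 with hA
  have hApos : 0 < A := by positivity
  obtain ⟨κ₀, hκ₀⟩ : ∃ κ₀ : ℕ, 2 / A ≤ κ₀ := exists_nat_ge _
  set κ₁ : ℕ := κ₀ + 3 with hκ₁
  have hκ₁R : (0 : ℝ) < κ₁ := by positivity
  refine ⟨min 1 (A / 2 / (κ₁ : ℝ) ^ 6), by positivity, ?_⟩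
  intro k f hk hM
  set c' : ℝ := min 1 (A / 2 / (κ₁ : ℝ) ^ 6) with hc'
  have hf0 : f ≠ 0 := by
    rintro rfl
    rw [Polynomial.map_zero, mahlerMeasure_zero] at hM
    linarith
  have hcardpos : 0 < f.support.card := Finset.card_pos.mpr (support_nonempty.mpr hf0)
  have hk1 : 1 ≤ k := by omega
  have hkR : (1 : ℝ) ≤ k := by exact_mod_cast hk1
  have hk6 : (1 : ℝ) ≤ (k : ℝ) ^ 6 := one_le_pow₀ hkR
  have hc'0 : 0 ≤ c' := by positivity
  have hck : c' / (k : ℝ) ^ 6 ≤ 1 := by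
    rw [div_le_one (by positivity)]
    exact (min_le_left _ _).trans hk6
  by_cases h2 : 2 ≤ (f.map (Int.castRingHom ℂ)).mahlerMeasure
  · linarith
  push Not at h2
  set M := (f.map (Int.castRingHom ℂ)).mahlerMeasure with hMdef
  have hM0 : 0 < M := by linarith
  -- the index type
  set κ : ℕ := κ₁ * k with hκ
  have hκk : k ≤ κ := Nat.le_mul_of_pos_left k (by omega)
  have hκ3 : 3 ≤ κ := by
    calc 3 ≤ κ₁ * 1 := by omega
      _ ≤ κ₁ * k := Nat.mul_le_mul_left _ hk1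
  have hκκ₀ : κ₀ ≤ κ := by
    calc κ₀ ≤ κ₁ * 1 := by omega
      _ ≤ κ₁ * k := Nat.mul_le_mul_left _ hk1
  have : Nonempty f.support := by
    obtain ⟨j, hj⟩ := support_nonempty.mpr hf0
    exact ⟨⟨j, hj⟩⟩
  have hcardι : Fintype.card f.support ≤ κ := by
    rw [Fintype.card_coe]; omega
  set c : f.support → ℤ := fun j => f.coeff j with hc
  have hcne : ∀ j, c j ≠ 0 := fun j => mem_support_iff.mp j.2
  set e : f.support → ℤ := fun j => ((j : ℕ) : ℤ) with he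
  have heinj : Function.Injective e := by
    intro i j hij
    apply Subtype.ext
    have : ((i : ℕ) : ℤ) = ((j : ℕ) : ℤ) := hij
    exact_mod_cast this
  have hlm : lm c e = Real.log M := lm_support f
  have hlmpos : 0 < lm c e := by rw [hlm]; exact Real.log_pos hM
  have hlmle : lm c e ≤ Real.log 2 := by
    rw [hlm]; exact Real.log_le_log hM0 h2.le
  obtain ⟨e', he', hrel, hlm', hspan⟩ := hdesc κ (by omega) f.support hcardι c hcne e heinj hlmpos
  have hcmp := hcomp κ (by omega) f.support hcardι c hcne e e' heinj he' hlmle hrel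
  -- the polynomial attached to `e'`
  obtain ⟨s, hs, j₀, hj₀⟩ := exists_shift e'
  set g : ℤ[X] := ip c fun j => (e' j + s).toNat with hg
  have hgM : Real.log (g.map (Int.castRingHom ℂ)).mahlerMeasure = lm c e' := by
    rw [lm_eq_log c e' s hs, ← ip_map, logMahlerMeasure_eq_log_MahlerMeasure]
  have hg1 : 1 < (g.map (Int.castRingHom ℂ)).mahlerMeasure := by
    rw [← hgM] at hlm'
    by_contra hcon
    push Not at hcon
    have := Real.log_nonpos (mahlerMeasure_nonneg _) hcon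
    linarith
  set n : ℕ := κ ^ ((C₂ + 1) * κ ^ 2) with hn
  have hκ1 : 1 ≤ κ := by omega
  have hgdeg : g.natDegree ≤ n := by
    apply ip_natDegree_le
    intro j
    have h1 := hspan j j₀
    have h3 : (e' j + s).toNat ≤ κ ^ (C₂ * κ ^ 2) := by
      have h4 : e' j + s ≤ (κ : ℤ) ^ (C₂ * κ ^ 2) := by linarith
      have h5 := toNat_cast hs j
      rw [← h5] at h4
      exact_mod_cast h4
    refine h3.trans (Nat.pow_le_pow_right hκ1 ?_)
    exact Nat.mul_le_mul_right _ (by omega)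
  have hn3 : 3 ≤ n := by
    calc 3 ≤ κ ^ 1 := by rw [pow_one]; exact hκ3
      _ ≤ n := Nat.pow_le_pow_right hκ1 (by nlinarith)
  have hdob := hDob g n hn3 hgdeg hg1
  rw [hgM] at hdob
  -- numerics
  have hκR : (3 : ℝ) ≤ κ := by exact_mod_cast hκ3
  have hκ0 : (0 : ℝ) < κ := by linarith
  have hlogκ : 1 ≤ Real.log κ := by
    rw [Real.le_log_iff_exp_le hκ0]
    have := Real.exp_one_lt_three
    linarith
  have hlogn : Real.log n = ((C₂ : ℝ) + 1) * (κ : ℝ) ^ 2 * Real.log κ := by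
    rw [hn]; push_cast; rw [Real.log_pow]; push_cast; ring
  have hlogn1 : (κ : ℝ) ^ 2 ≤ Real.log n := by
    rw [hlogn]
    have h1 : (1 : ℝ) ≤ (C₂ : ℝ) + 1 := by
      have : (0 : ℝ) ≤ C₂ := Nat.cast_nonneg _
      linarith
    calc (κ : ℝ) ^ 2 = 1 * (κ : ℝ) ^ 2 * 1 := by ring
      _ ≤ ((C₂ : ℝ) + 1) * (κ : ℝ) ^ 2 * Real.log κ := by gcongr
  have hlogn0 : 0 < Real.log n := lt_of_lt_of_le (by positivity) hlogn1
  have hloglog : 2 * Real.log κ ≤ Real.log (Real.log n) := by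
    have h1 := Real.log_le_log (by positivity) hlogn1
    rwa [Real.log_pow] at h1
  have hratio : 2 / (((C₂ : ℝ) + 1) * (κ : ℝ) ^ 2) ≤ Real.log (Real.log n) / Real.log n := by
    rw [div_le_div_iff₀ (by positivity) hlogn0]
    calc 2 * Real.log n = 2 * Real.log κ * (((C₂ : ℝ) + 1) * (κ : ℝ) ^ 2) := by rw [hlogn]; ring
      _ ≤ Real.log (Real.log n) * (((C₂ : ℝ) + 1) * (κ : ℝ) ^ 2) := by gcongr
  have hlow : A / (κ : ℝ) ^ 6 ≤ lm c e' := by
    refine le_trans ?_ hdob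
    calc A / (κ : ℝ) ^ 6 = cD * (2 / (((C₂ : ℝ) + 1) * (κ : ℝ) ^ 2)) ^ 3 := by
          rw [hA]; field_simp; ring
      _ ≤ cD * (Real.log (Real.log n) / Real.log n) ^ 3 := by gcongr
  have hsmall : 1 / (κ : ℝ) ^ 7 ≤ A / 2 / (κ : ℝ) ^ 6 := by
    have h1 : 2 / A ≤ κ := hκ₀.trans (by exact_mod_cast hκκ₀)
    rw [div_le_iff₀ hApos] at h1
    rw [div_le_div_iff₀ (by positivity) (by positivity)]
    have h2 : (κ : ℝ) ^ 7 = κ ^ 6 * κ := by ring
    rw [h2]
    have h3 : (0 : ℝ) < κ ^ 6 := by positivity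
    nlinarith
  have hfinal : A / 2 / (κ : ℝ) ^ 6 ≤ Real.log M := by
    rw [← hlm]
    have h1 : A / (κ : ℝ) ^ 6 = A / 2 / (κ : ℝ) ^ 6 + A / 2 / (κ : ℝ) ^ 6 := by ring
    linarith
  have hκkey : A / 2 / (κ : ℝ) ^ 6 = A / 2 / (κ₁ : ℝ) ^ 6 / (k : ℝ) ^ 6 := by
    rw [hκ]; push_cast; rw [mul_pow]; field_simp
  have h5 : c' / (k : ℝ) ^ 6 ≤ Real.log M := by
    calc c' / (k : ℝ) ^ 6 ≤ A / 2 / (κ₁ : ℝ) ^ 6 / (k : ℝ) ^ 6 := by
          gcongr
          exact min_le_right _ _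
      _ ≤ Real.log M := by rw [← hκkey]; exact hfinal
  have h6 := Real.log_le_sub_one_of_pos hM0
  linarith

end Pool.Agent.Lib.MP_7ab245_nt.Mono
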