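import Pool.Agent.Lib.MP_7ab245_nt.Mono.SmoothB

/-!
The negative moments of a Laurent sum on the circle with a constant independent of the number of
terms (Turan-Nazarov form): Hölder's inequality over the differentiation steps.
-/

set_option autoImplicit false

open Polynomial MeasureTheory Real

namespace Pool.Agent.Lib.MP_7ab245_nt.Mono

/-- a weak type bound gives a bound for the moment of order one half -/
lemma half_moment (g : ℝ → ℝ) (hg : Measurable g) (hg0 : ∀ θ, 0 ≤ g θ)
    (hw : ∀ L : ℝ, 1 < L → mu {θ | L < g θ} ≤ ENNReal.ofReal (2 * π * (6 / (L - 1)))) :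
    ∫⁻ θ, ENNReal.ofReal (Real.sqrt (g θ)) ∂mu ≤ ENNReal.ofReal (2 * π * 6) := by
  have hy0 : ∀ θ, 0 ≤ Real.sqrt (g θ) := fun θ => Real.sqrt_nonneg _
  have hymeas : Measurable (fun θ => Real.sqrt (g θ)) := hg.sqrt
  rw [lintegral_eq_lintegral_meas_lt mu (Filter.Eventually.of_forall hy0) hymeas.aemeasurable]
  have hsplit : Set.Ioi (0 : ℝ) = Set.Ioc 0 3 ∪ Set.Ioi 3 := by
    rw [Set.Ioc_union_Ioi_eq_Ioi]
    norm_num
  rw [hsplit, lintegral_union measurableSet_Ioi (by
    rw [Set.disjoint_left]; intro x hx hx'; exact absurd hx.2 (not_le.mpr hx'))]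
  have h1 : ∫⁻ t in Set.Ioc (0 : ℝ) 3, mu {a | t < Real.sqrt (g a)} ≤
      ENNReal.ofReal (2 * π * 3) := by
    calc ∫⁻ t in Set.Ioc (0 : ℝ) 3, mu {a | t < Real.sqrt (g a)}
        ≤ ∫⁻ _ in Set.Ioc (0 : ℝ) 3, mu Set.univ :=
          lintegral_mono (fun t => measure_mono (Set.subset_univ _))
      _ = ENNReal.ofReal (2 * π * 3) := by
          rw [lintegral_const, mu_univ, Measure.restrict_apply_univ, Real.volume_Ioc,
            ← ENNReal.ofReal_mul (by positivity)]
          norm_num
  have h2 : ∫⁻ t in Set.Ioi (3 : ℝ), mu {a | t < Real.sqrt (g a)} ≤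
      ENNReal.ofReal (2 * π * 3) := by
    have hint : IntegrableOn (fun t : ℝ => 2 * π * 9 * t ^ (-2 : ℝ)) (Set.Ioi 3) :=
      (integrableOn_Ioi_rpow_of_lt (by norm_num) (by norm_num)).const_mul _
    calc ∫⁻ t in Set.Ioi (3 : ℝ), mu {a | t < Real.sqrt (g a)}
        ≤ ∫⁻ t in Set.Ioi (3 : ℝ), ENNReal.ofReal (2 * π * 9 * t ^ (-2 : ℝ)) := by
          refine lintegral_mono_ae ?_
          filter_upwards [ae_restrict_mem measurableSet_Ioi] with t ht
          have ht1 : (3 : ℝ) < t := ht
          have ht0 : (0 : ℝ) < t := by linarith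
          have hm' := hw (t ^ 2) (by nlinarith)
          refine (measure_mono ?_).trans (hm'.trans (ENNReal.ofReal_le_ofReal ?_))
          · intro θ hθ
            have hθ' : t < Real.sqrt (g θ) := hθ
            change t ^ 2 < g θ
            exact (Real.lt_sqrt ht0.le).mp hθ'
          · rw [mul_assoc (2 * π) 9 _]
            apply mul_le_mul_of_nonneg_left _ (by positivity)
            rw [Real.rpow_neg ht0.le, show (2 : ℝ) = ((2 : ℕ) : ℝ) by norm_num, Real.rpow_natCast,
              ← div_eq_mul_inv, div_le_div_iff₀ (by nlinarith) (by positivity)]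
            nlinarith
      _ = ENNReal.ofReal (∫ t in Set.Ioi (3 : ℝ), 2 * π * 9 * t ^ (-2 : ℝ)) := by
          rw [ofReal_integral_eq_lintegral_ofReal hint]
          filter_upwards [ae_restrict_mem measurableSet_Ioi] with t ht
          have ht0 : (0 : ℝ) < t := lt_trans (by norm_num) ht
          positivity
      _ = ENNReal.ofReal (2 * π * 3) := by
          congr 1
          rw [integral_const_mul, integral_Ioi_rpow_of_lt (by norm_num) (by norm_num)]
          have : (3 : ℝ) ^ (-2 + 1 : ℝ) = 1 / 3 := by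
            rw [show (-2 + 1 : ℝ) = -1 by norm_num, Real.rpow_neg_one]; norm_num
          rw [this]
          ring
  calc _ ≤ ENNReal.ofReal (2 * π * 3) + ENNReal.ofReal (2 * π * 3) := add_le_add h1 h2
    _ = ENNReal.ofReal (2 * π * 6) := by
        rw [← ENNReal.ofReal_add (by positivity) (by positivity)]
        congr 1
        ring

/-- the Laurent sum over a finite set of indices -/
noncomputable def fs {ι : Type} (S : Finset ι) (c : ι → ℂ) (e : ι → ℤ) (θ : ℝ) : ℝ :=
  ‖∑ j ∈ S, c j * (circleMap 0 1 θ) ^ (e j)‖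

lemma fs_continuous {ι : Type} (S : Finset ι) (c : ι → ℂ) (e : ι → ℤ) :
    Continuous (fs S c e) := by
  unfold fs
  refine (continuous_finsetSum _ (fun j _ => ?_)).norm
  refine continuous_const.mul ?_
  refine Continuous.zpow₀ (continuous_circleMap 0 1) (e j) (fun θ => Or.inl ?_)
  exact circleMap_ne_center one_ne_zero

/-- almost everywhere nonvanishing -/
lemma fs_ae_pos {ι : Type} (S : Finset ι) (c : ι → ℂ) (e : ι → ℤ) (he : Function.Injective e)
    (m : ι) (hmS : m ∈ S) (hm : c m ≠ 0) : ∀ᵐ θ ∂mu, 0 < fs S c e θ := by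
  classical
  set r : ℝ := ‖c m‖ with hr
  have hr0 : 0 < r := norm_pos_iff.mpr hm
  have hc := mu_zero (ι := S) (Fintype.card S) (Fintype.card_pos_iff.mpr ⟨⟨m, hmS⟩⟩) le_rfl
    (fun j => c j / r) (fun j => e j) (fun a b hab => Subtype.ext (he hab)) ⟨m, hmS⟩ (by
      simp only [norm_div, Complex.norm_real, Real.norm_eq_abs, abs_of_pos hr0]
      rw [← hr, div_self hr0.ne'])
  filter_upwards [hc] with θ hθ
  have h1 : hh (fun j : S => c j / r) (fun j : S => e j) θ = fs S c e θ / r := by
    unfold hh fs ls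
    rw [← Finset.sum_coe_sort S (fun j => c j * (circleMap 0 1 θ) ^ (e j))]
    have : ‖∑ j : S, c j * circleMap 0 1 θ ^ e j‖ / r =
        ‖(∑ j : S, c j * circleMap 0 1 θ ^ e j) / r‖ := by
      rw [norm_div, Complex.norm_real, Real.norm_eq_abs, abs_of_pos hr0]
    rw [this, Finset.sum_div]
    congr 1
    exact Finset.sum_congr rfl (fun j _ => by ring)
  rw [h1] at hθ
  exact (div_pos_iff_of_pos_right hr0).mp hθ

/-- the factors in the differentiation process -/
theorem factor_family {ι : Type} (e : ι → ℤ) (he : Function.Injective e) (k : ℕ) :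
    ∀ (S : Finset ι), S.card = k + 1 → ∀ (c : ι → ℂ), ∀ m ∈ S, c m ≠ 0 →
    ∃ g : ℕ → ℝ → ℝ, (∀ i, Measurable (g i)) ∧ (∀ i θ, 0 ≤ g i θ) ∧
      (∀ i, ∫⁻ θ, ENNReal.ofReal (Real.sqrt (g i θ)) ∂mu ≤ ENNReal.ofReal (2 * π * 6)) ∧
      ∀ K, k ≤ K → ∀ᵐ θ ∂mu, ‖c m‖ ≤ 2 ^ k * fs S c e θ * ∏ i ∈ Finset.range K, g i θ := by
  classical
  induction k with
  | zero =>
    intro S hS c m hm hcm
    refine ⟨fun _ _ => 1, fun i => measurable_const, fun i θ => zero_le_one, fun i => ?_, ?_⟩
    · simp only [Real.sqrt_one, ENNReal.ofReal_one, lintegral_const, mu_univ, one_mul]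
      exact ENNReal.ofReal_le_ofReal (by nlinarith [Real.pi_pos])
    · intro K _
      refine Filter.Eventually.of_forall (fun θ => ?_)
      obtain ⟨x, hx⟩ := Finset.card_eq_one.mp hS
      subst hx
      rw [Finset.mem_singleton] at hm
      subst hm
      unfold fs
      rw [Finset.sum_singleton, norm_mul, norm_zpow]
      simp
  | succ k ih =>
    intro S hS c m hm hcm
    have hSne : S.Nonempty := ⟨m, hm⟩
    obtain ⟨x1, hx1, hmin⟩ := S.exists_min_image e hSne
    obtain ⟨x2, hx2, hmax⟩ := S.exists_max_image e hSne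
    -- the span
    have hlt : e x1 < e x2 := by
      obtain ⟨y1, hy1, y2, hy2, hne⟩ := Finset.one_lt_card.mp (show 1 < S.card by omega)
      have h1 := hmin y1 hy1
      have h2 := hmin y2 hy2
      have h3 := hmax y1 hy1
      have h4 := hmax y2 hy2
      have h5 : e y1 ≠ e y2 := fun h => hne (he h)
      omega
    obtain ⟨n, hn⟩ : ∃ n : ℕ, e x2 = e x1 + n := ⟨(e x2 - e x1).toNat, by omega⟩
    have hn1 : 1 ≤ n := by omega
    have hn0 : (0 : ℝ) < n := by exact_mod_cast hn1
    -- the extreme exponent farther from `e m`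
    obtain ⟨x, hx, hfar, hxa, hxb⟩ : ∃ x ∈ S, (n : ℤ) ≤ 2 * |e m - e x| ∧ e x1 ≤ e x ∧
        e x ≤ e x1 + n := by
      have h1 := hmin m hm
      have h2 := hmax m hm
      by_cases h : (n : ℤ) ≤ 2 * (e m - e x1)
      · refine ⟨x1, hx1, ?_, le_refl _, by omega⟩
        rw [abs_of_nonneg (by omega)]
        exact h
      · refine ⟨x2, hx2, ?_, by omega, by omega⟩
        rw [abs_of_nonpos (by omega)]
        omega
    have hmx : m ≠ x := by
      rintro rfl
      simp at hfar
      omega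
    set c' : ι → ℂ := fun j => c j * ((e j - e x : ℤ) : ℂ) with hc'
    have hem : e m - e x ≠ 0 := sub_ne_zero.mpr (fun h => hmx (he h))
    have hcm' : c' m ≠ 0 := mul_ne_zero hcm (by exact_mod_cast hem)
    have hmS' : m ∈ S.erase x := Finset.mem_erase.mpr ⟨hmx, hm⟩
    obtain ⟨g, hgm, hg0, hgi, hgp⟩ := ih (S.erase x)
      (by rw [Finset.card_erase_of_mem hx, hS]; omega) c' m hmS' hcm'
    have hfs' : ∀ θ, fs (S.erase x) c' e θ =
        ‖∑ j ∈ S, c j * ((e j - e x : ℤ) : ℂ) * (circleMap 0 1 θ) ^ (e j)‖ := by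
      intro θ
      unfold fs
      congr 1
      rw [← Finset.add_sum_erase S _ hx]
      simp [hc']
    set g0 : ℝ → ℝ := fun θ => fs (S.erase x) c' e θ / (n * fs S c e θ) with hg0def
    have hg0nn : ∀ θ, 0 ≤ g0 θ := fun θ => by
      simp only [hg0def]
      unfold fs
      positivity
    have hg0m : Measurable g0 :=
      (fs_continuous _ _ _).measurable.div ((fs_continuous _ _ _).measurable.const_mul _)
    have hg0i : ∫⁻ θ, ENNReal.ofReal (Real.sqrt (g0 θ)) ∂mu ≤ ENNReal.ofReal (2 * π * 6) := by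
      refine half_moment g0 hg0m hg0nn (fun L hL => ?_)
      have hA2 := SB.A2 S c e (e x1) (e x) n hn1 hmin (fun j hj => by rw [← hn]; exact hmax j hj)
        hxa hxb L hL
      refine le_trans ?_ hA2
      rw [mu, Measure.restrict_apply (measurableSet_lt measurable_const hg0m)]
      refine measure_mono ?_
      rintro θ ⟨hθ1, hθ2⟩
      refine ⟨hθ2, ?_⟩
      have h1 : L < g0 θ := hθ1
      rw [← hfs' θ]
      change L * n * fs S c e θ < fs (S.erase x) c' e θ
      have hf0 : 0 ≤ fs S c e θ := norm_nonneg _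
      rcases hf0.eq_or_lt with h0 | h0
      · exfalso
        simp only [hg0def] at h1
        rw [← h0, mul_zero, div_zero] at h1
        linarith
      · simp only [hg0def] at h1
        rw [lt_div_iff₀ (by positivity)] at h1
        linarith
    refine ⟨fun i => if i = 0 then g0 else g (i - 1), ?_, ?_, ?_, ?_⟩
    · intro i
      by_cases hi : i = 0
      · simpa [hi] using hg0m
      · simpa [hi] using hgm (i - 1)
    · intro i θ
      by_cases hi : i = 0
      · simpa [hi] using hg0nn θ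
      · simpa [hi] using hg0 (i - 1) θ
    · intro i
      by_cases hi : i = 0
      · simpa [hi] using hg0i
      · simpa [hi] using hgi (i - 1)
    · intro K hK
      obtain ⟨K', rfl⟩ : ∃ K', K = K' + 1 := ⟨K - 1, by omega⟩
      filter_upwards [hgp K' (by omega), fs_ae_pos S c e he m hm hcm] with θ h1 h2
      rw [Finset.prod_range_succ']
      simp only [Nat.add_eq_zero_iff, one_ne_zero, and_false, if_false, if_true,
        Nat.add_sub_cancel]
      set Q := ∏ i ∈ Finset.range K', g i θ with hQ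
      have hQ0 : 0 ≤ Q := Finset.prod_nonneg (fun i _ => hg0 i θ)
      have h3 : g0 θ * (n * fs S c e θ) = fs (S.erase x) c' e θ := by
        simp only [hg0def]
        rw [div_mul_cancel₀]
        positivity
      have h4 : ‖c' m‖ = ‖c m‖ * |((e m - e x : ℤ) : ℝ)| := by
        simp only [hc', norm_mul]
        rw [Complex.norm_intCast]
      have h6 : (n : ℝ) ≤ 2 * |((e m - e x : ℤ) : ℝ)| := by exact_mod_cast hfar
      have h7 : ‖c m‖ * n ≤ 2 * (2 ^ k * fs (S.erase x) c' e θ * Q) := by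
        calc ‖c m‖ * n ≤ ‖c m‖ * (2 * |((e m - e x : ℤ) : ℝ)|) := by gcongr
          _ = 2 * ‖c' m‖ := by rw [h4]; ring
          _ ≤ _ := by gcongr
      rw [← h3] at h7
      have h8 : 2 * (2 ^ k * (g0 θ * (n * fs S c e θ)) * Q) =
          (2 ^ (k + 1) * fs S c e θ * (Q * g0 θ)) * n := by ring
      rw [h8] at h7
      exact le_of_mul_le_mul_right h7 hn0


/-- **Turan-Nazarov type bound.** The negative moment `∫ h^{-1/(2κ)} ≤ 2π · 9` -/
theorem neg_moment2 {ι : Type} [Fintype ι] (κ : ℕ) (hκ : 1 ≤ κ) (hcard : Fintype.card ι ≤ κ)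
    (c : ι → ℂ) (e : ι → ℤ) (he : Function.Injective e) (m : ι) (hm : 1 ≤ ‖c m‖) :
    Integrable (fun θ => hh c e θ ^ (-(1 / (2 * κ : ℝ)))) mu ∧
      ∫ θ, hh c e θ ^ (-(1 / (2 * κ : ℝ))) ∂mu ≤ 2 * π * 9 := by
  classical
  have hκ0 : (0 : ℝ) < κ := by exact_mod_cast hκ
  set α : ℝ := 1 / (2 * κ : ℝ) with hα
  have hα0 : 0 < α := by positivity
  set y : ℝ → ℝ := fun θ => hh c e θ ^ (-α) with hy
  have hy0 : ∀ θ, 0 ≤ y θ := fun θ => Real.rpow_nonneg (hh_nonneg c e θ) _
  have hymeas : Measurable y := (hh_continuous c e).measurable.pow_const _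
  obtain ⟨k, hk⟩ : ∃ k : ℕ, (Finset.univ : Finset ι).card = k + 1 := by
    have : 0 < (Finset.univ : Finset ι).card := Finset.card_pos.mpr ⟨m, Finset.mem_univ m⟩
    exact ⟨_, (Nat.succ_pred_eq_of_pos this).symm⟩
  have hkκ : k + 1 ≤ κ := by
    rw [← hk, Finset.card_univ]; exact hcard
  have hcm : c m ≠ 0 := by
    intro h; rw [h, norm_zero] at hm; linarith
  obtain ⟨g, hgm, hg0, hgi, hgp⟩ := factor_family e he k Finset.univ hk c m (Finset.mem_univ m) hcm
  have hlayer : ∫⁻ θ, ENNReal.ofReal (y θ) ∂mu ≤ ENNReal.ofReal (2 * π * 9) := by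
    have hpt : ∀ᵐ θ ∂mu, ENNReal.ofReal (y θ) ≤ ENNReal.ofReal (Real.sqrt 2) *
        ∏ i ∈ Finset.range κ, ENNReal.ofReal (Real.sqrt (g i θ)) ^ (1 / (κ : ℝ)) := by
      filter_upwards [hgp κ (by omega), mu_zero κ hκ hcard c e he m hm] with θ h1 h2
      have hfs : fs Finset.univ c e θ = hh c e θ := rfl
      rw [hfs] at h1
      set Q := ∏ i ∈ Finset.range κ, g i θ with hQ
      have hQ0 : 0 ≤ Q := Finset.prod_nonneg (fun i _ => hg0 i θ)
      have h3 : (hh c e θ)⁻¹ ≤ 2 ^ κ * Q := by
        rw [inv_le_iff_one_le_mul₀ h2]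
        calc 1 ≤ ‖c m‖ := hm
          _ ≤ 2 ^ k * hh c e θ * Q := h1
          _ ≤ 2 ^ κ * hh c e θ * Q := by
            gcongr
            · norm_num
            · omega
          _ = _ := by ring
      have h4 : y θ ≤ Real.sqrt 2 * ∏ i ∈ Finset.range κ, (Real.sqrt (g i θ)) ^ (1 / (κ : ℝ)) := by
        have e1 : y θ = ((hh c e θ)⁻¹) ^ α := by
          simp only [hy]
          rw [Real.rpow_neg h2.le, Real.inv_rpow h2.le]
        rw [e1]
        have e2 : (2 ^ κ * Q) ^ α = Real.sqrt 2 *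
            ∏ i ∈ Finset.range κ, (Real.sqrt (g i θ)) ^ (1 / (κ : ℝ)) := by
          rw [Real.mul_rpow (by positivity) hQ0]
          congr 1
          · rw [Real.sqrt_eq_rpow, ← Real.rpow_natCast 2 κ, ← Real.rpow_mul (by norm_num)]
            congr 1
            rw [hα]; field_simp
          · rw [hQ, ← Real.finset_prod_rpow _ _ (fun i _ => hg0 i θ)]
            refine Finset.prod_congr rfl (fun i _ => ?_)
            rw [Real.sqrt_eq_rpow, ← Real.rpow_mul (hg0 i θ)]
            congr 1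
            rw [hα]; field_simp
        rw [← e2]
        exact Real.rpow_le_rpow (by positivity) h3 hα0.le
      calc ENNReal.ofReal (y θ) ≤ ENNReal.ofReal (Real.sqrt 2 *
            ∏ i ∈ Finset.range κ, (Real.sqrt (g i θ)) ^ (1 / (κ : ℝ))) := ENNReal.ofReal_le_ofReal h4
        _ = _ := by
          rw [ENNReal.ofReal_mul (by positivity), ENNReal.ofReal_prod_of_nonneg
            (fun i _ => by positivity)]
          congr 1
          refine Finset.prod_congr rfl (fun i _ => ?_)
          rw [ENNReal.ofReal_rpow_of_nonneg (Real.sqrt_nonneg _) (by positivity)]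
    calc ∫⁻ θ, ENNReal.ofReal (y θ) ∂mu ≤ ∫⁻ θ, ENNReal.ofReal (Real.sqrt 2) *
          ∏ i ∈ Finset.range κ, ENNReal.ofReal (Real.sqrt (g i θ)) ^ (1 / (κ : ℝ)) ∂mu :=
          lintegral_mono_ae hpt
      _ = ENNReal.ofReal (Real.sqrt 2) * ∫⁻ θ,
          ∏ i ∈ Finset.range κ, ENNReal.ofReal (Real.sqrt (g i θ)) ^ (1 / (κ : ℝ)) ∂mu := by
          rw [lintegral_const_mul' _ _ ENNReal.ofReal_ne_top]
      _ ≤ ENNReal.ofReal (Real.sqrt 2) * ∏ i ∈ Finset.range κ,
          (∫⁻ θ, ENNReal.ofReal (Real.sqrt (g i θ)) ∂mu) ^ (1 / (κ : ℝ)) := by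
          gcongr
          refine ENNReal.lintegral_prod_norm_pow_le (Finset.range κ)
            (fun i _ => ((hgm i).sqrt.ennreal_ofReal).aemeasurable) ?_ (fun i _ => by positivity)
          rw [Finset.sum_const, Finset.card_range, nsmul_eq_mul]
          field_simp
      _ ≤ ENNReal.ofReal (Real.sqrt 2) * ∏ i ∈ Finset.range κ,
          (ENNReal.ofReal (2 * π * 6)) ^ (1 / (κ : ℝ)) := by
          gcongr with i _
          exact hgi i
      _ = ENNReal.ofReal (Real.sqrt 2) * ENNReal.ofReal (2 * π * 6) := by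
          rw [Finset.prod_const, Finset.card_range, ← ENNReal.rpow_natCast, ← ENNReal.rpow_mul]
          congr 1
          rw [one_div, inv_mul_cancel₀ hκ0.ne', ENNReal.rpow_one]
      _ ≤ ENNReal.ofReal (2 * π * 9) := by
          rw [← ENNReal.ofReal_mul (by positivity)]
          apply ENNReal.ofReal_le_ofReal
          have h5 : Real.sqrt 2 ≤ 1.5 := by
            rw [Real.sqrt_le_left (by norm_num)]; norm_num
          have h6 : 0 < 2 * π * 6 := by positivity
          nlinarith
  have hint : Integrable y mu := by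
    refine ⟨hymeas.aestronglyMeasurable, ?_⟩
    rw [hasFiniteIntegral_iff_ofReal (Filter.Eventually.of_forall hy0)]
    exact hlayer.trans_lt ENNReal.ofReal_lt_top
  refine ⟨hint, ?_⟩
  rw [integral_eq_lintegral_of_nonneg_ae (Filter.Eventually.of_forall hy0)
    hymeas.aestronglyMeasurable]
  exact ENNReal.toReal_le_of_le_ofReal (by positivity) hlayer

/-- height bound, linear in the number of terms -/
theorem height_bound2 {ι : Type} [Fintype ι] (κ : ℕ) (hκ : 1 ≤ κ) (hcard : Fintype.card ι ≤ κ)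
    (c : ι → ℂ) (e : ι → ℤ) (he : Function.Injective e) (m : ι) (hm : c m ≠ 0) :
    Real.log ‖c m‖ ≤
      circleAverage (fun z => Real.log ‖ls c e z‖) 0 1 + 2 * κ * Real.log 9 := by
  have hκ0 : (1 : ℝ) ≤ κ := by exact_mod_cast hκ
  set r : ℝ := ‖c m‖ with hr
  have hr0 : 0 < r := norm_pos_iff.mpr hm
  set c' : ι → ℂ := fun j => c j / r with hc'
  have hcm' : 1 ≤ ‖c' m‖ := by
    simp only [hc', norm_div, Complex.norm_real, Real.norm_eq_abs, abs_of_pos hr0]
    rw [← hr, div_self hr0.ne']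
  have hls : ∀ z, ls c' e z = ls c e z / r := by
    intro z
    simp only [ls, hc', Finset.sum_div]
    exact Finset.sum_congr rfl (fun j _ => by ring)
  have hhh : ∀ θ, hh c' e θ = hh c e θ / r := by
    intro θ
    simp only [hh, hls, norm_div, Complex.norm_real, Real.norm_eq_abs, abs_of_pos hr0]
  set α : ℝ := 1 / (2 * κ : ℝ) with hα
  have hα0 : 0 < α := by positivity
  obtain ⟨hint, hle⟩ := neg_moment2 κ hκ hcard c' e he m hcm'
  rw [← hα] at hint hle
  have hz := mu_zero κ hκ hcard c' e he m hcm'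
  set C : ℝ := 9 with hC
  have hC0 : 0 < C := by rw [hC]; norm_num
  have key : ∫ θ, (-α) * (Real.log (hh c e θ) - Real.log r) ∂mu ≤
      ∫ θ, (hh c' e θ ^ (-α) / C + (Real.log C - 1)) ∂mu := by
    refine integral_mono_ae (((log_integrable c e).sub (integrable_const _)).const_mul _) ?_ ?_
    · exact (hint.div_const _).add (integrable_const _)
    · filter_upwards [hz] with θ hθ
      have hθ2 : 0 < hh c e θ := by
        rw [hhh] at hθ
        exact (div_pos_iff_of_pos_right hr0).mp hθ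
      have e1 : Real.log (hh c e θ) - Real.log r = Real.log (hh c' e θ) := by
        rw [hhh, Real.log_div hθ2.ne' hr0.ne']
      rw [e1, ← Real.log_rpow hθ]
      have hy : 0 < hh c' e θ ^ (-α) := Real.rpow_pos_of_pos hθ _
      have := Real.log_le_sub_one_of_pos (x := hh c' e θ ^ (-α) / C) (by positivity)
      rw [Real.log_div hy.ne' hC0.ne'] at this
      linarith
  rw [integral_const_mul, integral_sub (log_integrable c e) (integrable_const _),
    integral_add (hint.div_const _) (integrable_const _), integral_div, integral_const,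
    integral_const] at key
  have hmr : mu.real Set.univ = 2 * π := by
    rw [Measure.real, mu_univ, ENNReal.toReal_ofReal (by positivity)]
  rw [hmr, smul_eq_mul, smul_eq_mul] at key
  have hb : (∫ θ, hh c' e θ ^ (-α) ∂mu) / C ≤ 2 * π := by
    rw [div_le_iff₀ hC0]
    exact hle
  have key2 : -α * (∫ θ, Real.log (hh c e θ) ∂mu - 2 * π * Real.log r) ≤
      2 * π * Real.log C := by
    calc _ ≤ _ := key
      _ ≤ 2 * π + 2 * π * (Real.log C - 1) := by linarith
      _ = _ := by ring
  rw [circleAverage_eq]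
  change Real.log r ≤ (2 * π)⁻¹ * ∫ θ, Real.log (hh c e θ) ∂mu + 2 * κ * Real.log C
  set I := ∫ θ, Real.log (hh c e θ) ∂mu with hI
  have hα2 : α * (2 * κ) = 1 := by rw [hα]; field_simp
  have hpi : (2 * π)⁻¹ * (2 * π) = 1 := inv_mul_cancel₀ (by positivity)
  have hfin : (2 * κ) * ((2 * π)⁻¹ * (-α * (I - 2 * π * Real.log r))) ≤
      (2 * κ) * ((2 * π)⁻¹ * (2 * π * Real.log C)) := by gcongr
  have e2 : (2 * κ) * ((2 * π)⁻¹ * (-α * (I - 2 * π * Real.log r))) =
      Real.log r - (2 * π)⁻¹ * I := by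
    calc (2 * κ) * ((2 * π)⁻¹ * (-α * (I - 2 * π * Real.log r)))
        = (α * (2 * κ)) * (((2 * π)⁻¹ * (2 * π)) * Real.log r - (2 * π)⁻¹ * I) := by ring
      _ = _ := by rw [hα2, hpi]; ring
  have e3 : (2 * κ) * ((2 * π)⁻¹ * (2 * π * Real.log C)) = 2 * κ * Real.log C := by
    calc (2 * κ) * ((2 * π)⁻¹ * (2 * π * Real.log C))
        = 2 * κ * (((2 * π)⁻¹ * (2 * π)) * Real.log C) := by ring
      _ = _ := by rw [hpi, one_mul]
  rw [e2, e3] at hfin
  linarith

end Pool.Agent.Lib.MP_7ab245_nt.Mono
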