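import Mathlib
import Pool.Agent.Lib.MP_7ab245_nt.Mono.Dobro

/-! Dobrowolski's theorem, in the form `log M(g) ≥ c (log log n / log n) ^ 3`. -/

set_option autoImplicit false

open Polynomial Real

namespace Pool.Agent.Lib.MP_7ab245_nt.Mono

/-- the irreducible case with parameters -/
lemma irr_bound_param' (f : ℤ[X]) (hf : f.Monic) (hirr : Irreducible f) (hX : ¬ f ∣ X)
    (hru : ∀ m : ℕ, 0 < m → ¬ f ∣ X ^ m - 1) (T : ℕ) (hT : 4 ≤ T)
    (hlog : Nat.log 2 f.natDegree ≤ T * (T + 4))
    (hNT : 4 * Real.log ((2 * f.natDegree * (T * (T + 4)) : ℕ) : ℝ) ≤ T * Real.log T) :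
    Real.log 2 / (256 * (T : ℝ) ^ 3) ≤ Real.log (MM f) := by
  set N := 2 * f.natDegree * (T * (T + 4)) with hN
  set n := f.natDegree with hn
  have hn0 : n ≠ 0 := by
    intro h
    have := hf.natDegree_eq_zero.mp h
    rw [this] at hirr
    exact not_irreducible_one hirr
  have hnR : (1 : ℝ) ≤ n := by exact_mod_cast Nat.one_le_iff_ne_zero.mpr hn0
  have hTR : (4 : ℝ) ≤ T := by exact_mod_cast hT
  have hNR : (N : ℝ) = 2 * n * (T * (T + 4)) := by rw [hN]; push_cast; ring
  have hNpos : (0 : ℝ) < N := by rw [hNR]; positivity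
  have hN64 : (64 : ℝ) ≤ N := by
    have h1 : (32 : ℝ) ≤ T * (T + 4) := by nlinarith
    rw [hNR]
    nlinarith
  have hl2 : 0 < Real.log 2 := Real.log_pos (by norm_num)
  have hl2' : Real.log 2 ≤ 1 := by
    have := Real.log_two_lt_d9; linarith
  have hlN : 1 ≤ Real.log N := by
    rw [Real.le_log_iff_exp_le hNpos]
    have := Real.exp_one_lt_three
    linarith
  have hMM1 : 1 ≤ MM f := MM_one_le hf.ne_zero
  have hL0 : 0 ≤ Real.log (MM f) := Real.log_nonneg hMM1
  set L := Real.log (MM f) with hL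
  by_cases hM : MM f ^ N ≤ (N : ℝ) ^ n
  · obtain ⟨D, hD0, hDdeg, hDc, hDdvd⟩ := exists_aux_poly f hf hirr T N (by omega) hN hM
    -- choose a prime
    set K := 4 * (T * (T + 4)) with hK
    have hK10 : 10 ≤ K := by rw [hK]; nlinarith
    obtain ⟨x, hx4, hxK, hxlog⟩ := exists_primes K hK10
    set PP := ((Finset.range (x + 1)).filter Nat.Prime).filter (fun p => T ≤ p) with hPP
    have hcardP : 3 * (T * (T + 4)) < PP.card := by
      have h1 := Finset.card_filter_add_card_filter_not
        (s := (Finset.range (x + 1)).filter Nat.Prime) (fun p => T ≤ p)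
      have h2 : (((Finset.range (x + 1)).filter Nat.Prime).filter (fun p => ¬ T ≤ p)).card ≤ T := by
        calc _ ≤ (Finset.range T).card := Finset.card_le_card (fun p hp => by
              have := (Finset.mem_filter.mp hp).2
              rw [Finset.mem_range]
              omega)
          _ = T := Finset.card_range T
      have h3 : T ≤ T * (T + 4) := Nat.le_mul_of_pos_right T (by omega)
      rw [← hPP] at h1
      omega
    have hex : ∃ p ∈ PP, ¬ f ∣ expand ℤ p D := by
      by_contra hcon
      push Not at hcon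
      have h1 := roots_count f hf hirr hX hru D hD0 PP
        (fun p hp => (Finset.mem_filter.mp (Finset.mem_filter.mp hp).1).2) hcon
      rw [← hn] at h1
      have h2 : n * (3 * (T * (T + 4))) < n * PP.card :=
        Nat.mul_lt_mul_of_pos_left hcardP (Nat.pos_of_ne_zero hn0)
      have h3 : n * Nat.log 2 n ≤ n * (T * (T + 4)) := Nat.mul_le_mul_left _ hlog
      have h4 : n * (3 * (T * (T + 4))) = N + n * (T * (T + 4)) := by rw [hN]; ring
      omega
    obtain ⟨p, hp, hnd⟩ := hex
    rw [hPP, Finset.mem_filter, Finset.mem_filter, Finset.mem_range] at hp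
    have hTp : T ≤ p := hp.2
    replace hp := hp.1
    have hpp := hp.2
    have hp2 : 2 ≤ p := hpp.two_le
    have hpR : (2 : ℝ) ≤ p := by exact_mod_cast hp2
    have hnN : n ≤ N := by
      rw [hN]
      nlinarith [Nat.pos_of_ne_zero hn0]
    have h5 := main_ineq f D hf hirr T N p hpp hnN hDdeg hDc hDdvd hnd
    have h6 := Real.log_le_log (by positivity) h5
    have hMMpos : 0 < MM f := by linarith
    rw [Real.log_mul (by positivity) (by positivity), Real.log_pow, Real.log_pow, Real.log_pow,
      Real.log_pow, Real.log_pow] at h6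
    push_cast at h6
    have h7 : (4 : ℝ) * Real.log N ≤ T * Real.log p := by
      have h10 : Real.log T ≤ Real.log p :=
        Real.log_le_log (by positivity) (by exact_mod_cast hTp)
      calc (4 : ℝ) * Real.log N ≤ T * Real.log T := hNT
        _ ≤ _ := by gcongr
    have h11 : (T : ℝ) * Real.log p ≤ 2 * Real.log N + 2 * p * (T * (T + 4)) * L := by
      have h12 : (n : ℝ) * (T * Real.log p) ≤ n * (2 * Real.log N + 2 * p * (T * (T + 4)) * L) := by
        calc (n : ℝ) * (T * Real.log p) ≤ n * (2 * Real.log N) + p * N * L := h6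
          _ = _ := by rw [hNR]; ring
      exact le_of_mul_le_mul_left h12 (by linarith)
    have h13 : (T : ℝ) * Real.log p ≤ 4 * p * (T * (T + 4)) * L := by linarith
    have h14 : Real.log p ≤ 4 * p * (T + 4) * L := by
      have : (T : ℝ) * Real.log p ≤ T * (4 * p * (T + 4) * L) := by
        calc (T : ℝ) * Real.log p ≤ 4 * p * (T * (T + 4)) * L := h13
          _ = _ := by ring
      exact le_of_mul_le_mul_left this (by linarith)
    have h15 : Real.log p / p ≤ 4 * (T + 4) * L := by
      rw [div_le_iff₀ (by linarith)]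
      calc Real.log p ≤ 4 * p * (T + 4) * L := h14
        _ = _ := by ring
    have h16 := log_div_ge p x hp2 hx4 (by omega)
    have h17 : Real.log 2 / (4 * K) ≤ 4 * (T + 4) * L := hxlog.trans (h16.trans h15)
    have hKR : (K : ℝ) = 4 * (T * (T + 4)) := by rw [hK]; push_cast; ring
    rw [hKR, div_le_iff₀ (by positivity)] at h17
    rw [div_le_iff₀ (by positivity)]
    have h18 : (T : ℝ) * (T + 4) ^ 2 ≤ 4 * T ^ 3 := by
      have : ((T : ℝ) + 4) ^ 2 ≤ (2 * T) ^ 2 := by gcongr; linarith
      nlinarith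
    calc Real.log 2 ≤ 4 * (T + 4) * L * (4 * (4 * (T * (T + 4)))) := h17
      _ = 64 * (T * (T + 4) ^ 2) * L := by ring
      _ ≤ 64 * (4 * T ^ 3) * L := by gcongr
      _ = _ := by ring
  · push Not at hM
    have h1 := Real.log_le_log (by positivity) hM.le
    rw [Real.log_pow, Real.log_pow] at h1
    have h2 : (n : ℝ) * Real.log N ≤ n * (2 * (T * (T + 4)) * L) := by
      calc (n : ℝ) * Real.log N ≤ N * L := h1
        _ = _ := by rw [hNR]; ring
    have h3 : Real.log N ≤ 2 * (T * (T + 4)) * L := le_of_mul_le_mul_left h2 (by linarith)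
    rw [div_le_iff₀ (by positivity)]
    have h4 : 2 * ((T : ℝ) * (T + 4)) ≤ 256 * T ^ 3 := by
      have h5 : (T : ℝ) * (T + 4) ≤ T * (2 * T) := by gcongr; linarith
      have h6 : (T : ℝ) ^ 2 * 4 ≤ T ^ 2 * T := by gcongr
      nlinarith
    calc Real.log 2 ≤ 1 := hl2'
      _ ≤ Real.log N := hlN
      _ ≤ 2 * (T * (T + 4)) * L := h3
      _ ≤ 256 * T ^ 3 * L := by gcongr
      _ = _ := by ring

/-- elementary inequality `log y ≤ y / e`-type bounds -/
lemma log_le_half_mul {y : ℝ} (hy : 0 < y) : Real.log y ≤ y / 2 := by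
  have h := Real.add_one_le_exp (y / 2 - 1)
  have h1 : Real.log y ≤ y / Real.exp 1 := by
    have h2 := Real.add_one_le_exp (Real.log y - 1)
    rw [Real.exp_sub, Real.exp_log hy] at h2
    linarith
  have h3 : (2:ℝ) ≤ Real.exp 1 := by
    have := Real.add_one_le_exp (1:ℝ)
    linarith
  refine h1.trans ?_
  exact div_le_div_of_nonneg_left hy.le (by norm_num) h3

lemma log_le_sqrt {y : ℝ} (hy : 0 < y) : Real.log y ≤ Real.sqrt y := by
  have h1 := log_le_half_mul (Real.sqrt_pos.mpr hy)
  rw [Real.log_sqrt hy.le] at h1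
  linarith

/-- choice of the parameter -/
lemma exists_T (n : ℕ) (hn : 3 ≤ n) : ∃ T : ℕ, 64 ≤ T ∧
    (T : ℝ) ≤ 128 * (Real.log n / Real.log (Real.log n)) ∧
    Real.log n ≤ T * Real.log T / 16 ∧ Real.log n ≤ (T : ℝ) ^ 2 := by
  have hn3 : (3 : ℝ) ≤ n := by exact_mod_cast hn
  have he : Real.exp 1 < 3 := Real.exp_one_lt_three
  set y := Real.log n with hy
  have hy1 : 1 < y := by
    rw [hy, Real.lt_log_iff_exp_lt (by linarith)]
    linarith
  have hy0 : 0 < y := by linarith
  have hly : 0 < Real.log y := Real.log_pos hy1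
  set q := y / Real.log y with hq
  have hq0 : 0 < q := by positivity
  have hq2 : 2 ≤ q := by
    rw [hq, le_div_iff₀ hly]
    have := log_le_half_mul hy0
    linarith
  have hqs : Real.sqrt y ≤ q := by
    rw [hq, le_div_iff₀ hly]
    calc Real.sqrt y * Real.log y ≤ Real.sqrt y * Real.sqrt y := by
          apply mul_le_mul_of_nonneg_left (log_le_sqrt hy0) (Real.sqrt_nonneg _)
      _ = y := Real.mul_self_sqrt hy0.le
  refine ⟨⌈64 * q⌉₊, ?_, ?_, ?_, ?_⟩
  · have : (64 : ℝ) ≤ ⌈64 * q⌉₊ := by
      have := Nat.le_ceil (64 * q)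
      linarith
    exact_mod_cast this
  · have := (Nat.ceil_lt_add_one (by positivity : 0 ≤ 64 * q)).le
    linarith
  · have h1 : 64 * q ≤ ⌈64 * q⌉₊ := Nat.le_ceil _
    set T : ℝ := (⌈64 * q⌉₊ : ℝ) with hT
    have h2 : Real.sqrt y ≤ T := by linarith
    have h3 : Real.log y / 2 ≤ Real.log T := by
      rw [← Real.log_sqrt hy0.le]
      exact Real.log_le_log (Real.sqrt_pos.mpr hy0) h2
    have h4 : 64 * q * (Real.log y / 2) ≤ T * Real.log T := by
      apply mul_le_mul h1 h3 (by positivity) (by linarith)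
    have h5 : 64 * q * (Real.log y / 2) = 32 * y := by
      rw [hq]; field_simp; norm_num
    linarith
  · have h1 : 64 * q ≤ ⌈64 * q⌉₊ := Nat.le_ceil _
    have h2 : Real.sqrt y ≤ (⌈64 * q⌉₊ : ℝ) := by linarith
    calc y = Real.sqrt y ^ 2 := (Real.sq_sqrt hy0.le).symm
      _ ≤ _ := by gcongr

/-- the irreducible case -/
lemma irr_bound' (f : ℤ[X]) (hf : f.Monic) (hirr : Irreducible f) (hX : ¬ f ∣ X)
    (hru : ∀ m : ℕ, 0 < m → ¬ f ∣ X ^ m - 1) (n : ℕ) (hn : 3 ≤ n) (hfn : f.natDegree ≤ n) :
    Real.log 2 / (256 * 128 ^ 3) * (Real.log (Real.log n) / Real.log n) ^ 3 ≤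
      Real.log (MM f) := by
  obtain ⟨T, hT64, hTle, hT1, hT2⟩ := exists_T n hn
  have hn3 : (3 : ℝ) ≤ n := by exact_mod_cast hn
  have he : Real.exp 1 < 3 := Real.exp_one_lt_three
  have hTR : (64 : ℝ) ≤ T := by exact_mod_cast hT64
  have hT0 : (0 : ℝ) < T := by linarith
  have hy1 : 1 < Real.log n := by
    rw [Real.lt_log_iff_exp_lt (by linarith)]
    linarith
  have hly : 0 < Real.log (Real.log n) := Real.log_pos hy1
  have hl2 : 0 < Real.log 2 := Real.log_pos (by norm_num)
  have hlT : 4 ≤ Real.log T := by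
    have h1 : Real.log ((2:ℝ) ^ 6) ≤ Real.log T := Real.log_le_log (by norm_num) (by norm_num; linarith)
    rw [Real.log_pow] at h1
    have := Real.log_two_gt_d9
    push_cast at h1
    linarith
  have hdeg0 : 0 < f.natDegree := by
    rw [Nat.pos_iff_ne_zero]
    intro h
    have := hf.natDegree_eq_zero.mp h
    rw [this] at hirr
    exact not_irreducible_one hirr
  have h := irr_bound_param' f hf hirr hX hru T (by omega) ?_ ?_
  · refine le_trans ?_ h
    have h1 : 1 / (T : ℝ) ≥ Real.log (Real.log n) / Real.log n / 128 := by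
      rw [ge_iff_le, div_div, div_le_div_iff₀ (by positivity) hT0]
      have h2 : (T : ℝ) * Real.log (Real.log n) ≤
          128 * (Real.log n / Real.log (Real.log n)) * Real.log (Real.log n) :=
        mul_le_mul_of_nonneg_right hTle hly.le
      have h3 : 128 * (Real.log n / Real.log (Real.log n)) * Real.log (Real.log n) =
          128 * Real.log n := by field_simp
      linarith
    have h2 : (Real.log (Real.log n) / Real.log n / 128) ^ 3 ≤ (1 / (T : ℝ)) ^ 3 := by
      apply pow_le_pow_left₀ (by positivity) h1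
    calc Real.log 2 / (256 * 128 ^ 3) * (Real.log (Real.log n) / Real.log n) ^ 3
        = Real.log 2 / 256 * (Real.log (Real.log n) / Real.log n / 128) ^ 3 := by ring
      _ ≤ Real.log 2 / 256 * (1 / (T : ℝ)) ^ 3 := by gcongr
      _ = _ := by field_simp
  · -- log 2
    have h1 : Nat.log 2 f.natDegree ≤ Nat.log 2 n := Nat.log_mono_right hfn
    have h2 : ((Nat.log 2 n : ℕ) : ℝ) * Real.log 2 ≤ Real.log n := by
      have h3 : 2 ^ Nat.log 2 n ≤ n := Nat.pow_log_le_self 2 (by omega)
      have h4 : (((2 ^ Nat.log 2 n : ℕ)) : ℝ) ≤ n := by exact_mod_cast h3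
      have h5 := Real.log_le_log (by positivity) h4
      push_cast at h5
      rwa [Real.log_pow] at h5
    have h3 : ((Nat.log 2 n : ℕ) : ℝ) ≤ T * (T + 4) := by
      have h4 := Real.log_two_gt_d9
      have h5 : ((Nat.log 2 n : ℕ) : ℝ) * (1 / 2) ≤ T ^ 2 := by
        refine le_trans ?_ (h2.trans hT2)
        apply mul_le_mul_of_nonneg_left _ (by positivity)
        linarith
      -- crude: use the other bound
      have h6 : Real.log n ≤ T * Real.log T / 16 := hT1
      have h7 : Real.log T ≤ T / 2 := log_le_half_mul hT0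
      have h8 : (T : ℝ) * Real.log T ≤ T * (T / 2) := by gcongr
      have h9 : ((Nat.log 2 n : ℕ) : ℝ) * (1 / 2) ≤ Real.log n := by
        refine le_trans ?_ h2
        apply mul_le_mul_of_nonneg_left _ (by positivity)
        linarith
      nlinarith
    have h4 : Nat.log 2 n ≤ T * (T + 4) := by exact_mod_cast h3
    omega
  · -- size of N
    have hfR : (1 : ℝ) ≤ f.natDegree := by exact_mod_cast hdeg0
    have hfnR : (f.natDegree : ℝ) ≤ n := by exact_mod_cast hfn
    have h1 : ((2 * f.natDegree * (T * (T + 4)) : ℕ) : ℝ) ≤ n * (T : ℝ) ^ 3 := by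
      push_cast
      calc 2 * (f.natDegree : ℝ) * (T * (T + 4)) ≤ 2 * (n : ℝ) * (T * (T + 4)) := by gcongr
        _ = n * (2 * (T * (T + 4))) := by ring
        _ ≤ n * (T : ℝ) ^ 3 := by
            apply mul_le_mul_of_nonneg_left _ (by positivity)
            have h2 : 2 * (T + 4) ≤ (T : ℝ) ^ 2 := by nlinarith
            calc 2 * ((T : ℝ) * (T + 4)) = T * (2 * (T + 4)) := by ring
              _ ≤ T * T ^ 2 := by gcongr
              _ = _ := by ring
    have h0 : (0 : ℝ) < ((2 * f.natDegree * (T * (T + 4)) : ℕ) : ℝ) := by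
      push_cast; positivity
    have h2 := Real.log_le_log h0 h1
    rw [Real.log_mul (by positivity) (by positivity), Real.log_pow] at h2
    push_cast at h2
    have h3 : 64 * Real.log T ≤ T * Real.log T := by
      apply mul_le_mul_of_nonneg_right hTR (by linarith)
    push_cast
    linarith

/-- the full Dobrowolski theorem -/
theorem dobrowolski_full : ∃ c : ℝ, 0 < c ∧ ∀ (g : ℤ[X]) (n : ℕ), 3 ≤ n → g.natDegree ≤ n →
    1 < (g.map (Int.castRingHom ℂ)).mahlerMeasure →
    c * (Real.log (Real.log n) / Real.log n) ^ 3 ≤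
      Real.log (g.map (Int.castRingHom ℂ)).mahlerMeasure := by
  have hl2 : 0 < Real.log 2 := Real.log_pos (by norm_num)
  refine ⟨Real.log 2 / (256 * 128 ^ 3), by positivity, ?_⟩
  intro g n hn hgn hM
  have hn3 : (3 : ℝ) ≤ n := by exact_mod_cast hn
  have he : Real.exp 1 < 3 := Real.exp_one_lt_three
  have hy1 : 1 < Real.log n := by
    rw [Real.lt_log_iff_exp_lt (by linarith)]
    linarith
  have hly : 0 < Real.log (Real.log n) := Real.log_pos hy1
  change 1 < MM g at hM
  change _ ≤ Real.log (MM g)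
  have hg0 : g ≠ 0 := by
    rintro rfl
    unfold MM at hM
    rw [Polynomial.map_zero, mahlerMeasure_zero] at hM
    linarith
  by_cases h2 : 2 ≤ MM g
  · have h3 : Real.log 2 ≤ Real.log (MM g) := Real.log_le_log (by norm_num) h2
    refine le_trans ?_ h3
    have h4 : Real.log (Real.log n) / Real.log n ≤ 1 := by
      rw [div_le_one (by linarith)]
      have := log_le_half_mul (by linarith : 0 < Real.log n)
      linarith
    have h5 : (Real.log (Real.log n) / Real.log n) ^ 3 ≤ 1 := pow_le_one₀ (by positivity) h4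
    calc Real.log 2 / (256 * 128 ^ 3) * (Real.log (Real.log n) / Real.log n) ^ 3
        ≤ Real.log 2 / (256 * 128 ^ 3) * 1 := by gcongr
      _ ≤ Real.log 2 := by
        rw [mul_one]
        exact div_le_self hl2.le (by norm_num)
  · push Not at h2
    have hlc : IsUnit g.leadingCoeff := by
      have h3 : ‖(g.map (Int.castRingHom ℂ)).leadingCoeff‖ ≤ MM g := leadingCoeff_le_mahlerMeasure _
      have h4 : (g.map (Int.castRingHom ℂ)).leadingCoeff = (g.leadingCoeff : ℂ) := by
        rw [leadingCoeff_map_of_injective (Int.castRingHom ℂ).injective_int]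
        rfl
      rw [h4, Complex.norm_intCast] at h3
      have h5 : |g.leadingCoeff| < 2 := by
        have : ((|g.leadingCoeff| : ℤ) : ℝ) < ((2 : ℤ) : ℝ) := by
          push_cast
          linarith
        exact_mod_cast this
      have h6 : g.leadingCoeff ≠ 0 := leadingCoeff_ne_zero.mpr hg0
      rw [Int.isUnit_iff]
      rw [abs_lt] at h5
      omega
    obtain ⟨f, hf, hirr, hfg, hMf⟩ := exists_irr_factor _ g rfl hlc hM
    have hX : ¬ f ∣ X := by
      intro h
      have h3 := MM_le_of_dvd X_ne_zero h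
      have h4 : MM (X : ℤ[X]) = 1 := by
        unfold MM
        rw [map_X]
        have := mahlerMeasure_X_sub_C (0 : ℂ)
        simpa using this
      rw [h4] at h3
      linarith
    have hru : ∀ m : ℕ, 0 < m → ¬ f ∣ X ^ m - 1 := by
      intro m hm h
      have h0 : (X ^ m - 1 : ℤ[X]) ≠ 0 := (monic_X_pow_sub_C (1 : ℤ) hm.ne').ne_zero
      have h3 := MM_le_of_dvd h0 h
      rw [MM_X_pow_sub_one m hm] at h3
      linarith
    have h3 := irr_bound' f hf hirr hX hru n hn ((natDegree_le_of_dvd hfg hg0).trans hgn)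
    have h4 : Real.log (MM f) ≤ Real.log (MM g) :=
      Real.log_le_log (by linarith) (MM_le_of_dvd hg0 hfg)
    exact h3.trans h4

end Pool.Agent.Lib.MP_7ab245_nt.Mono
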