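import Mathlib
import Pool.Agent.Lib.MP_7ab245_nt.Mono.Defs
import Pool.Agent.Lib.MP_7ab245_nt.Mono.SmallBall

/-!
# Comparison of the smoothed Mahler measures of two members of a line

`Jl_compare`: for integral exponents `τ p_j + ρ_j` and `t p_j + ρ_j` with `|ρ_j| ≤ S` the smoothed
logarithmic Mahler measures differ by at most `200 S (1 + log (A / ε)) (1 / t + 1 / τ)`.
The proof compares both with the average over the two dimensional torus of the lift
`g(θ, φ) = ∑ c_j exp(i(ρ_j θ + p_j φ))`; the derivative in `θ` of `log(|g|² + ε²) / 2` has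
average at most `24 S (1 + log (A / ε))` by the weak type bound `SB.A2`.
-/

set_option autoImplicit false
set_option maxHeartbeats 4000000

open MeasureTheory Real Set

namespace Pool.Agent.Lib.MP_7ab245_nt.Mono

/-- smoothed logarithmic Mahler measure -/
noncomputable def Jl {ι : Type} [Fintype ι] (c : ι → ℤ) (e : ι → ℤ) (ε : ℝ) : ℝ :=
  circleAverage (fun z => Real.log (‖ls (fun j => (c j : ℂ)) e z‖ ^ 2 + ε ^ 2) / 2) 0 1

namespace JC

/-- layer cake with a weak type bound -/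
lemma avg_bound (f : ℝ → ℝ) (hf : Continuous f) (hf0 : ∀ x, 0 ≤ f x) (M s K : ℝ) (hs : 0 < s)
    (hM : ∀ x, f x ≤ M) (hK : 0 ≤ K)
    (hw : ∀ t, s ≤ t → (volume.restrict (Ioc 0 (2 * π))).real {θ | t < f θ} ≤ 2 * π * (K / t)) :
    ∫ θ in (0:ℝ)..(2 * π), f θ ≤ 2 * π * (s + K * Real.log (max 1 (M / s))) := by
  have hpi : (0:ℝ) < 2 * π := by positivity
  set μ := volume.restrict (Ioc 0 (2 * π)) with hμ
  have hfi : Integrable f μ := by
    have := hf.intervalIntegrable (μ := volume) 0 (2 * π)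
    rwa [intervalIntegrable_iff_integrableOn_Ioc_of_le hpi.le] at this
  rw [intervalIntegral.integral_of_le hpi.le, ← hμ]
  rw [hfi.integral_eq_integral_meas_lt (Filter.Eventually.of_forall hf0)]
  set m : ℝ := s * max 1 (M / s) with hm
  have hmax : (1:ℝ) ≤ max 1 (M / s) := le_max_left _ _
  have hsm : s ≤ m := by
    rw [hm]; nlinarith
  have hMm : M ≤ m := by
    have : M / s ≤ max 1 (M / s) := le_max_right _ _
    calc M = s * (M / s) := by field_simp
      _ ≤ s * max 1 (M / s) := by gcongr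
  have hm0 : 0 ≤ m := hs.le.trans hsm
  set G : ℝ → ℝ := fun t => μ.real {a | t < f a} with hG
  have hGanti : Antitone G := by
    intro a b hab
    exact measureReal_mono (fun x hx => lt_of_le_of_lt hab hx)
  have hG1 : ∀ t, G t ≤ 2 * π := by
    intro t
    calc G t ≤ μ.real univ := measureReal_mono (subset_univ _)
      _ = 2 * π := by
        simp [hμ, Measure.real, pi_pos.le]
  have hG0 : ∀ t, m ≤ t → G t = 0 := by
    intro t ht
    have : {a | t < f a} = ∅ := by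
      ext x
      simp only [mem_empty_iff_false, iff_false]
      intro h
      exact absurd h (not_lt.mpr ((hM x).trans (hMm.trans ht)))
    simp [hG, this]
  have e1 : ∫ t in Ioi (0:ℝ), G t = ∫ t in (0:ℝ)..m, G t := by
    rw [intervalIntegral.integral_of_le hm0]
    apply setIntegral_eq_of_subset_of_forall_sdiff_eq_zero measurableSet_Ioi
    · exact fun x hx => hx.1
    · intro x hx
      apply hG0
      rcases hx with ⟨h1, h2⟩
      by_contra h3
      exact h2 ⟨h1, (not_le.mp h3).le⟩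
  rw [e1]
  rw [← intervalIntegral.integral_add_adjacent_intervals (a := 0) (b := s) (c := m)
    (hGanti.intervalIntegrable) (hGanti.intervalIntegrable)]
  have h1 : ∫ t in (0:ℝ)..s, G t ≤ ∫ t in (0:ℝ)..s, 2 * π := by
    apply intervalIntegral.integral_mono_on hs.le (hGanti.intervalIntegrable)
      (by simp)
    intro x _
    exact hG1 x
  have hinv : IntervalIntegrable (fun t : ℝ => 2 * π * (K / t)) volume s m := by
    apply ContinuousOn.intervalIntegrable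
    intro x hx
    rw [uIcc_of_le hsm] at hx
    have : x ≠ 0 := by have := hx.1; linarith
    fun_prop (disch := assumption)
  have h2 : ∫ t in s..m, G t ≤ ∫ t in s..m, 2 * π * (K / t) := by
    apply intervalIntegral.integral_mono_on hsm (hGanti.intervalIntegrable) hinv
    intro x hx
    exact hw x hx.1
  have h3 : ∫ t in s..m, 2 * π * (K / t) = 2 * π * (K * Real.log (max 1 (M / s))) := by
    have : ∀ t : ℝ, 2 * π * (K / t) = (2 * π * K) * t⁻¹ := by
      intro t; ring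
    simp_rw [this]
    rw [intervalIntegral.integral_const_mul, integral_inv_of_pos hs (by linarith)]
    rw [hm]
    rw [show s * max 1 (M / s) / s = max 1 (M / s) by field_simp]
    ring
  rw [h3] at h2
  simp at h1
  nlinarith

variable {ι : Type} [Fintype ι]

/-- two variable lift -/
noncomputable def g (c p ρ : ι → ℤ) (θ φ : ℝ) : ℂ :=
  ∑ j, (c j : ℂ) * Complex.exp ((((ρ j : ℝ) * θ + (p j : ℝ) * φ : ℝ) : ℂ) * Complex.I)

/-- derivative in the first variable -/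
noncomputable def gt (c p ρ : ι → ℤ) (θ φ : ℝ) : ℂ :=
  ∑ j, (c j : ℂ) * (Complex.exp ((((ρ j : ℝ) * θ + (p j : ℝ) * φ : ℝ) : ℂ) * Complex.I) *
    ((ρ j : ℂ) * Complex.I))

noncomputable def Ph (c p ρ : ι → ℤ) (ε : ℝ) (θ φ : ℝ) : ℝ :=
  Real.log (‖g c p ρ θ φ‖ ^ 2 + ε ^ 2) / 2

noncomputable def Pt (c p ρ : ι → ℤ) (ε : ℝ) (θ φ : ℝ) : ℝ :=
  (inner ℝ (g c p ρ θ φ) (gt c p ρ θ φ)) / (‖g c p ρ θ φ‖ ^ 2 + ε ^ 2)

lemma g_cont (c p ρ : ι → ℤ) : Continuous (fun x : ℝ × ℝ => g c p ρ x.1 x.2) := by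
  unfold g; fun_prop

lemma gt_cont (c p ρ : ι → ℤ) : Continuous (fun x : ℝ × ℝ => gt c p ρ x.1 x.2) := by
  unfold gt; fun_prop

lemma den_pos (c p ρ : ι → ℤ) {ε : ℝ} (hε : 0 < ε) (θ φ : ℝ) :
    0 < ‖g c p ρ θ φ‖ ^ 2 + ε ^ 2 := by positivity

lemma Ph_cont (c p ρ : ι → ℤ) {ε : ℝ} (hε : 0 < ε) :
    Continuous (fun x : ℝ × ℝ => Ph c p ρ ε x.1 x.2) := by
  unfold Ph
  have h1 := g_cont c p ρ
  apply Continuous.div_const
  apply Continuous.log
  · fun_prop
  · intro x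
    exact (den_pos c p ρ hε x.1 x.2).ne'

lemma Pt_cont (c p ρ : ι → ℤ) {ε : ℝ} (hε : 0 < ε) :
    Continuous (fun x : ℝ × ℝ => Pt c p ρ ε x.1 x.2) := by
  unfold Pt
  have h1 := g_cont c p ρ
  have h2 := gt_cont c p ρ
  apply Continuous.div
  · exact h1.inner h2
  · fun_prop
  · intro x
    exact (den_pos c p ρ hε x.1 x.2).ne'

lemma g_deriv (c p ρ : ι → ℤ) (θ φ : ℝ) :
    HasDerivAt (fun θ => g c p ρ θ φ) (gt c p ρ θ φ) θ := by
  unfold g gt
  apply HasDerivAt.fun_sum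
  intro j _
  apply HasDerivAt.const_mul
  have h1 : HasDerivAt (fun θ : ℝ => ((((ρ j : ℝ) * θ + (p j : ℝ) * φ : ℝ) : ℂ) * Complex.I))
      ((ρ j : ℂ) * Complex.I) θ := by
    apply HasDerivAt.mul_const
    have h2 : HasDerivAt (fun θ : ℝ => (ρ j : ℝ) * θ + (p j : ℝ) * φ) (ρ j : ℝ) θ := by
      simpa using ((hasDerivAt_id θ).const_mul (ρ j : ℝ)).add_const ((p j : ℝ) * φ)
    have := h2.ofReal_comp
    simpa using this
  exact h1.cexp

lemma Ph_deriv (c p ρ : ι → ℤ) {ε : ℝ} (hε : 0 < ε) (θ φ : ℝ) :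
    HasDerivAt (fun θ => Ph c p ρ ε θ φ) (Pt c p ρ ε θ φ) θ := by
  have h1 := (g_deriv c p ρ θ φ).norm_sq
  have h2 := (h1.add_const (ε ^ 2)).log (den_pos c p ρ hε θ φ).ne'
  have h3 := h2.div_const 2
  refine h3.congr_deriv ?_
  unfold Pt
  field_simp

lemma g_per1 (c p ρ : ι → ℤ) (θ φ : ℝ) : g c p ρ (θ + 2 * π) φ = g c p ρ θ φ := by
  unfold g
  refine Finset.sum_congr rfl fun j _ => ?_
  congr 1
  rw [Complex.exp_eq_exp_iff_exists_int]
  exact ⟨ρ j, by push_cast; ring⟩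

lemma g_per2 (c p ρ : ι → ℤ) (θ φ : ℝ) : g c p ρ θ (φ + 2 * π) = g c p ρ θ φ := by
  unfold g
  refine Finset.sum_congr rfl fun j _ => ?_
  congr 1
  rw [Complex.exp_eq_exp_iff_exists_int]
  exact ⟨p j, by push_cast; ring⟩

lemma gt_per1 (c p ρ : ι → ℤ) (θ φ : ℝ) : gt c p ρ (θ + 2 * π) φ = gt c p ρ θ φ := by
  unfold gt
  refine Finset.sum_congr rfl fun j _ => ?_
  congr 2
  rw [Complex.exp_eq_exp_iff_exists_int]
  exact ⟨ρ j, by push_cast; ring⟩

lemma gt_per2 (c p ρ : ι → ℤ) (θ φ : ℝ) : gt c p ρ θ (φ + 2 * π) = gt c p ρ θ φ := by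
  unfold gt
  refine Finset.sum_congr rfl fun j _ => ?_
  congr 2
  rw [Complex.exp_eq_exp_iff_exists_int]
  exact ⟨p j, by push_cast; ring⟩

/-- `g` on the line as a Laurent sum -/
lemma g_line (c p ρ : ι → ℤ) (t : ℤ) (θ : ℝ) :
    ls (fun j => (c j : ℂ)) (fun j => t * p j + ρ j) (circleMap 0 1 θ) =
      g c p ρ θ (t * θ) := by
  unfold ls g
  refine Finset.sum_congr rfl fun j _ => ?_
  congr 1
  rw [circleMap_zero]
  simp only [Complex.ofReal_one, one_mul]
  rw [← Complex.exp_int_mul]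
  congr 1
  push_cast
  ring

lemma Jl_eq (c p ρ : ι → ℤ) (ε : ℝ) (t : ℤ) :
    Jl c (fun j => t * p j + ρ j) ε =
      (2 * π)⁻¹ * ∫ θ in (0:ℝ)..(2 * π), Ph c p ρ ε θ (t * θ) := by
  unfold Jl
  rw [circleAverage_def, smul_eq_mul]
  congr 1
  apply intervalIntegral.integral_congr
  intro θ _
  simp only [Ph]
  rw [g_line]

/-- A2 for a fixed value of the second variable -/
lemma weak (c p ρ : ι → ℤ) (S : ℤ) (hS1 : 1 ≤ S) (hS : ∀ j, |ρ j| ≤ S) (φ : ℝ) {ε : ℝ}
    (hε : 0 < ε) (t : ℝ) (ht : 4 * (S : ℝ) ≤ t) :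
    (volume.restrict (Ioc 0 (2 * π))).real {θ | t < |Pt c p ρ ε θ φ|} ≤
      2 * π * (24 * S / t) := by
  have hS0 : (1:ℝ) ≤ S := by exact_mod_cast hS1
  have ht0 : 0 < t := by linarith
  set n : ℕ := (2 * S).toNat with hn
  have hnS : (n : ℤ) = 2 * S := by rw [hn]; omega
  have hnR : (n : ℝ) = 2 * S := by exact_mod_cast hnS
  set L : ℝ := t / (2 * S) with hL
  have hL2 : 2 ≤ L := by
    rw [hL, le_div_iff₀ (by linarith)]; linarith
  have key := SB.A2 (Finset.univ : Finset ι)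
    (fun j => (c j : ℂ) * Complex.exp ((((p j : ℝ) * φ : ℝ) : ℂ) * Complex.I)) ρ (-S) 0 n
    (by omega) (fun j _ => by have := abs_le.mp (hS j); omega)
    (fun j _ => by have := abs_le.mp (hS j); omega) (by omega) (by omega) L (by linarith)
  have hsub : {θ | t < |Pt c p ρ ε θ φ|} ∩ Ioc 0 (2 * π) ⊆
      {θ ∈ Ioc 0 (2 * π) | L * n * ‖∑ j : ι, (fun j => (c j : ℂ) *
        Complex.exp ((((p j : ℝ) * φ : ℝ) : ℂ) * Complex.I)) j * (circleMap 0 1 θ) ^ (ρ j)‖ <
      ‖∑ j : ι, (fun j => (c j : ℂ) * Complex.exp ((((p j : ℝ) * φ : ℝ) : ℂ) * Complex.I)) j *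
        ((ρ j - 0 : ℤ) : ℂ) * (circleMap 0 1 θ) ^ (ρ j)‖} := by
    rintro θ ⟨h1, h2⟩
    refine ⟨h2, ?_⟩
    have e1 : ∑ j : ι, (fun j => (c j : ℂ) *
        Complex.exp ((((p j : ℝ) * φ : ℝ) : ℂ) * Complex.I)) j * (circleMap 0 1 θ) ^ (ρ j) =
        g c p ρ θ φ := by
      unfold g
      refine Finset.sum_congr rfl fun j _ => ?_
      simp only
      rw [mul_assoc, circleMap_zero]
      simp only [Complex.ofReal_one, one_mul]
      rw [← Complex.exp_int_mul, ← Complex.exp_add]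
      congr 2
      push_cast
      ring
    have e2 : (∑ j : ι, (fun j => (c j : ℂ) *
        Complex.exp ((((p j : ℝ) * φ : ℝ) : ℂ) * Complex.I)) j * ((ρ j - 0 : ℤ) : ℂ) *
          (circleMap 0 1 θ) ^ (ρ j)) * Complex.I =
        gt c p ρ θ φ := by
      unfold gt
      rw [Finset.sum_mul]
      refine Finset.sum_congr rfl fun j _ => ?_
      simp only
      rw [circleMap_zero]
      simp only [Complex.ofReal_one, one_mul]
      rw [← Complex.exp_int_mul]
      have : Complex.exp ((((ρ j : ℝ) * θ + (p j : ℝ) * φ : ℝ) : ℂ) * Complex.I) =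
          Complex.exp ((((p j : ℝ) * φ : ℝ) : ℂ) * Complex.I) *
          Complex.exp ((ρ j : ℂ) * ((θ : ℂ) * Complex.I)) := by
        rw [← Complex.exp_add]
        congr 1
        push_cast
        ring
      rw [this]
      push_cast
      ring
    rw [e1]
    have e3 : ‖∑ j : ι, (fun j => (c j : ℂ) *
        Complex.exp ((((p j : ℝ) * φ : ℝ) : ℂ) * Complex.I)) j * ((ρ j - 0 : ℤ) : ℂ) *
          (circleMap 0 1 θ) ^ (ρ j)‖ = ‖gt c p ρ θ φ‖ := by
      rw [← e2, norm_mul, Complex.norm_I, mul_one]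
    rw [e3, hnR, hL]
    rw [show t / (2 * (S:ℝ)) * (2 * S) = t by field_simp]
    have hD := den_pos c p ρ hε θ φ
    replace h1 : t < |Pt c p ρ ε θ φ| := h1
    unfold Pt at h1
    rw [abs_div, abs_of_pos hD, lt_div_iff₀ hD] at h1
    have h3 := abs_real_inner_le_norm (g c p ρ θ φ) (gt c p ρ θ φ)
    have hg0 : 0 ≤ ‖g c p ρ θ φ‖ := norm_nonneg _
    have hgt0 : 0 ≤ ‖gt c p ρ θ φ‖ := norm_nonneg _
    by_contra h4
    rw [not_lt] at h4
    have : ‖g c p ρ θ φ‖ * ‖gt c p ρ θ φ‖ ≤ t * ‖g c p ρ θ φ‖ ^ 2 := by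
      nlinarith
    have h5 : 0 < t * ε ^ 2 := by positivity
    nlinarith
  have hmeas : MeasurableSet {θ | t < |Pt c p ρ ε θ φ|} := by
    apply measurableSet_lt measurable_const
    have : Continuous (fun θ => |Pt c p ρ ε θ φ|) :=
      ((Pt_cont c p ρ hε).comp (by fun_prop : Continuous (fun θ : ℝ => (θ, φ)))).abs
    exact this.measurable
  have h6 : (volume.restrict (Ioc 0 (2 * π))) {θ | t < |Pt c p ρ ε θ φ|} ≤
      ENNReal.ofReal (2 * π * (6 / (L - 1))) := by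
    rw [Measure.restrict_apply hmeas]
    exact (measure_mono hsub).trans key
  have h7 : (0:ℝ) ≤ 2 * π * (6 / (L - 1)) := by
    have : 0 < L - 1 := by linarith
    positivity
  have h8 : (volume.restrict (Ioc 0 (2 * π))).real {θ | t < |Pt c p ρ ε θ φ|} ≤
      2 * π * (6 / (L - 1)) := by
    rw [Measure.real]
    exact ENNReal.toReal_le_of_le_ofReal h7 h6
  refine h8.trans ?_
  gcongr 2 * π * ?_
  rw [div_le_div_iff₀ (by linarith) ht0]
  have : t = L * (2 * S) := by rw [hL]; field_simp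
  rw [this]
  nlinarith

lemma gt_norm_le (c p ρ : ι → ℤ) (S : ℤ) (hS : ∀ j, |ρ j| ≤ S) (A : ℝ)
    (hA : ∑ j, |(c j : ℝ)| ≤ A) (hS1 : 1 ≤ S) (θ φ : ℝ) : ‖gt c p ρ θ φ‖ ≤ S * A := by
  unfold gt
  have hS0 : (1:ℝ) ≤ S := by exact_mod_cast hS1
  calc ‖∑ j, (c j : ℂ) * (Complex.exp ((((ρ j : ℝ) * θ + (p j : ℝ) * φ : ℝ) : ℂ) * Complex.I) *
    ((ρ j : ℂ) * Complex.I))‖ ≤ ∑ j, ‖(c j : ℂ) * (Complex.exp ((((ρ j : ℝ) * θ + (p j : ℝ) * φ : ℝ) : ℂ) * Complex.I) *
    ((ρ j : ℂ) * Complex.I))‖ := norm_sum_le _ _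
    _ ≤ ∑ j, |(c j : ℝ)| * S := by
      apply Finset.sum_le_sum
      intro j _
      rw [norm_mul, norm_mul, norm_mul, Complex.norm_exp_ofReal_mul_I, Complex.norm_I]
      have h1 : ‖(c j : ℂ)‖ = |(c j : ℝ)| := by
        rw [Complex.norm_intCast]
      have h2 : ‖(ρ j : ℂ)‖ ≤ S := by
        rw [Complex.norm_intCast]
        exact_mod_cast hS j
      rw [h1]
      simp only [one_mul, mul_one]
      gcongr
    _ = (∑ j, |(c j : ℝ)|) * S := by rw [Finset.sum_mul]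
    _ ≤ A * S := by gcongr
    _ = S * A := mul_comm _ _

lemma Pt_le (c p ρ : ι → ℤ) (S : ℤ) (hS : ∀ j, |ρ j| ≤ S) (A : ℝ)
    (hA : ∑ j, |(c j : ℝ)| ≤ A) (hS1 : 1 ≤ S) {ε : ℝ} (hε : 0 < ε) (θ φ : ℝ) :
    |Pt c p ρ ε θ φ| ≤ S * A / (2 * ε) := by
  unfold Pt
  have hD := den_pos c p ρ hε θ φ
  rw [abs_div, abs_of_pos hD, div_le_div_iff₀ hD (by positivity)]
  have h1 := gt_norm_le c p ρ S hS A hA hS1 θ φ
  have h3 := abs_real_inner_le_norm (g c p ρ θ φ) (gt c p ρ θ φ)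
  have hg0 : 0 ≤ ‖g c p ρ θ φ‖ := norm_nonneg _
  have hgt0 : 0 ≤ ‖gt c p ρ θ φ‖ := norm_nonneg _
  have h4 : 2 * ε * ‖g c p ρ θ φ‖ ≤ ‖g c p ρ θ φ‖ ^ 2 + ε ^ 2 := by
    nlinarith [sq_nonneg (‖g c p ρ θ φ‖ - ε)]
  calc |inner ℝ (g c p ρ θ φ) (gt c p ρ θ φ)| * (2 * ε) ≤
      ‖g c p ρ θ φ‖ * ‖gt c p ρ θ φ‖ * (2 * ε) := by gcongr
    _ = ‖gt c p ρ θ φ‖ * (2 * ε * ‖g c p ρ θ φ‖) := by ring
    _ ≤ ‖gt c p ρ θ φ‖ * (‖g c p ρ θ φ‖ ^ 2 + ε ^ 2) := by gcongr
    _ ≤ (S * A) * (‖g c p ρ θ φ‖ ^ 2 + ε ^ 2) := by gcongr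

/-- average of `|∂_θ Φ|` -/
lemma avg_Pt (c p ρ : ι → ℤ) (S : ℤ) (hS1 : 1 ≤ S) (hS : ∀ j, |ρ j| ≤ S) (A : ℝ)
    (hA : ∑ j, |(c j : ℝ)| ≤ A) (hA1 : 1 ≤ A) {ε : ℝ} (hε : 0 < ε) (hε1 : ε ≤ 1) (φ : ℝ) :
    ∫ θ in (0:ℝ)..(2 * π), |Pt c p ρ ε θ φ| ≤
      2 * π * (24 * S * (1 + Real.log (A / ε))) := by
  have hS0 : (1:ℝ) ≤ S := by exact_mod_cast hS1
  have h := avg_bound (fun θ => |Pt c p ρ ε θ φ|)
    ((Pt_cont c p ρ hε).comp (by fun_prop : Continuous (fun θ : ℝ => (θ, φ)))).abs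
    (fun _ => abs_nonneg _) (S * A / (2 * ε)) (4 * S) (24 * S) (by positivity)
    (fun θ => Pt_le c p ρ S hS A hA hS1 hε θ φ) (by positivity)
    (fun t ht => weak c p ρ S hS1 hS φ hε t ht)
  refine h.trans ?_
  gcongr 2 * π * ?_
  have hAe : 1 ≤ A / ε := by
    rw [le_div_iff₀ hε]; linarith
  have h1 : max 1 ((S:ℝ) * A / (2 * ε) / (4 * S)) ≤ A / ε := by
    apply max_le hAe
    have : (S:ℝ) * A / (2 * ε) / (4 * S) = (A / ε) / 8 := by
      field_simp
      norm_num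
    rw [this]
    linarith
  have h2 : Real.log (max 1 ((S:ℝ) * A / (2 * ε) / (4 * S))) ≤ Real.log (A / ε) := by
    apply Real.log_le_log _ h1
    positivity
  have h3 : 0 ≤ Real.log (A / ε) := Real.log_nonneg hAe
  nlinarith


/-- Fubini for continuous functions on a square -/
lemma fubini (F : ℝ → ℝ → ℝ) (hF : Continuous (fun x : ℝ × ℝ => F x.1 x.2)) (a b c d : ℝ) :
    ∫ x in a..b, ∫ y in c..d, F x y = ∫ y in c..d, ∫ x in a..b, F x y := by
  apply MeasureTheory.intervalIntegral_intervalIntegral_swap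
  have h1 : IntegrableOn (fun x : ℝ × ℝ => F x.1 x.2) (uIcc a b ×ˢ uIcc c d) :=
    hF.continuousOn.integrableOn_compact (isCompact_uIcc.prod isCompact_uIcc)
  exact h1.mono_set (prod_mono uIoc_subset_uIcc uIoc_subset_uIcc)

/-- parametric integrals of continuous functions are continuous -/
lemma cont_param (F : ℝ → ℝ → ℝ) (hF : Continuous (fun x : ℝ × ℝ => F x.1 x.2)) (a b : ℝ) :
    Continuous (fun y => ∫ x in a..b, F x y) := by
  apply intervalIntegral.continuous_parametric_intervalIntegral_of_continuous'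
  exact hF.comp continuous_swap

lemma shift (f : ℝ → ℝ) (hf : Function.Periodic f (2 * π)) (v : ℝ) :
    ∫ θ in (0:ℝ)..(2 * π), f (θ + v) = ∫ θ in (0:ℝ)..(2 * π), f θ := by
  rw [intervalIntegral.integral_comp_add_right, zero_add, add_comm (2 * π) v,
    hf.intervalIntegral_add_eq v 0, zero_add]

/-- two dimensional data: `P` is continuous, periodic with derivative `Q` in the first variable -/
theorem line_avg (P Q : ℝ → ℝ → ℝ) (hP : Continuous (fun x : ℝ × ℝ => P x.1 x.2))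
    (hQ : Continuous (fun x : ℝ × ℝ => Q x.1 x.2))
    (hd : ∀ θ φ, HasDerivAt (fun θ => P θ φ) (Q θ φ) θ)
    (hP1 : ∀ θ φ, P (θ + 2 * π) φ = P θ φ) (hP2 : ∀ θ φ, P θ (φ + 2 * π) = P θ φ)
    (hQ1 : ∀ θ φ, Q (θ + 2 * π) φ = Q θ φ) (hQ2 : ∀ θ φ, Q θ (φ + 2 * π) = Q θ φ)
    (B : ℝ) (hB : ∀ φ, ∫ θ in (0:ℝ)..(2 * π), |Q θ φ| ≤ 2 * π * B) (t : ℤ) (ht : 0 < t) :
    |2 * π * (∫ θ in (0:ℝ)..(2 * π), P θ (t * θ)) -
      ∫ θ in (0:ℝ)..(2 * π), ∫ u in (0:ℝ)..(2 * π), P θ u| ≤ (2 * π) ^ 3 * B / t := by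
  have hpi : (0:ℝ) < 2 * π := by positivity
  have htR : (0:ℝ) < t := by exact_mod_cast ht
  have hP2' : ∀ θ φ (n : ℤ), P θ (φ + n * (2 * π)) = P θ φ := by
    intro θ φ n
    have : Function.Periodic (fun φ => P θ φ) (2 * π) := hP2 θ
    exact this.int_mul n φ
  have hQ2' : ∀ θ φ (n : ℤ), Q θ (φ + n * (2 * π)) = Q θ φ := by
    intro θ φ n
    have : Function.Periodic (fun φ => Q θ φ) (2 * π) := hQ2 θ
    exact this.int_mul n φ
  -- K
  set K : ℝ → ℝ := fun w => ∫ θ in (0:ℝ)..(2 * π), |Q θ (t * θ + w)| with hK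
  have hKc : Continuous K := by
    apply cont_param (fun θ w => |Q θ (t * θ + w)|)
    exact (hQ.comp (by fun_prop : Continuous (fun x : ℝ × ℝ => (x.1, (t:ℝ) * x.1 + x.2)))).abs
  have hK0 : ∀ w, 0 ≤ K w := fun w => intervalIntegral.integral_nonneg hpi.le
    (fun _ _ => abs_nonneg _)
  -- integral of K
  have hKint : ∫ w in (0:ℝ)..(2 * π), K w ≤ (2 * π) ^ 2 * B := by
    have e1 : ∫ w in (0:ℝ)..(2 * π), K w =
        ∫ w in (0:ℝ)..(2 * π), ∫ θ in (0:ℝ)..(2 * π), |Q θ w| := by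
      rw [hK]
      rw [fubini (fun w θ => |Q θ (t * θ + w)|)
        ((hQ.comp (by fun_prop : Continuous (fun x : ℝ × ℝ => (x.2, (t:ℝ) * x.2 + x.1)))).abs)]
      rw [fubini (fun w θ => |Q θ w|)
        ((hQ.comp (by fun_prop : Continuous (fun x : ℝ × ℝ => (x.2, x.1)))).abs)]
      apply intervalIntegral.integral_congr
      intro θ _
      simp only
      have := shift (fun w => |Q θ w|) (fun w => by simp only [hQ2]) (t * θ)
      rw [← this]
      apply intervalIntegral.integral_congr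
      intro w _
      simp only [add_comm]
    rw [e1]
    calc ∫ w in (0:ℝ)..(2 * π), ∫ θ in (0:ℝ)..(2 * π), |Q θ w| ≤
        ∫ w in (0:ℝ)..(2 * π), 2 * π * B := by
          apply intervalIntegral.integral_mono_on hpi.le
          · exact (cont_param (fun θ w => |Q θ w|) hQ.abs 0 (2 * π)).intervalIntegrable _ _
          · simp
          · intro w _
            exact hB w
      _ = (2 * π) ^ 2 * B := by
          rw [intervalIntegral.integral_const]
          simp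
          ring
  -- step A
  have hA : ∀ u ∈ Icc (0:ℝ) (2 * π), |(∫ θ in (0:ℝ)..(2 * π), P θ (t * θ)) -
      ∫ θ in (0:ℝ)..(2 * π), P θ (t * θ + u)| ≤ (2 * π) ^ 2 * B / t := by
    intro u hu
    have hut : 0 ≤ u / t := div_nonneg hu.1 htR.le
    have e1 : ∫ θ in (0:ℝ)..(2 * π), P θ (t * θ + u) =
        ∫ θ in (0:ℝ)..(2 * π), P (θ - u / t) (t * θ) := by
      have := shift (fun θ => P (θ - u / t) (t * θ)) (fun θ => by
        simp only
        rw [show θ + 2 * π - u / t = (θ - u / t) + 2 * π by ring, hP1,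
          show (t:ℝ) * (θ + 2 * π) = t * θ + t * (2 * π) by ring, hP2']) (u / t)
      rw [← this]
      apply intervalIntegral.integral_congr
      intro θ _
      simp only
      rw [show θ + u / t - u / t = θ by ring, show (t:ℝ) * (θ + u / t) = t * θ + u by
        field_simp]
    have e2 : ∀ θ : ℝ, P θ (t * θ) - P (θ - u / t) (t * θ) =
        ∫ v in (0:ℝ)..(u / t), Q (θ - v) (t * θ) := by
      intro θ
      have hd2 : ∀ v : ℝ, HasDerivAt (fun v => -P (θ - v) (t * θ)) (Q (θ - v) (t * θ)) v := by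
        intro v
        have h1 := hd (θ - v) (t * θ)
        have h2 : HasDerivAt (fun v : ℝ => θ - v) (-1) v := by
          simpa using (hasDerivAt_id v).const_sub θ
        have h3 := (h1.comp v h2).neg
        refine (h3.congr_deriv ?_)
        ring
      rw [intervalIntegral.integral_eq_sub_of_hasDerivAt (fun v _ => hd2 v)]
      · simp
        ring
      · apply Continuous.intervalIntegrable
        exact hQ.comp (by fun_prop : Continuous (fun v : ℝ => (θ - v, (t:ℝ) * θ)))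
    have i1 : IntervalIntegrable (fun θ => P θ (t * θ)) volume 0 (2 * π) := by
      apply Continuous.intervalIntegrable
      exact hP.comp (by fun_prop : Continuous (fun θ : ℝ => (θ, (t:ℝ) * θ)))
    have i2 : IntervalIntegrable (fun θ => P (θ - u / t) (t * θ)) volume 0 (2 * π) := by
      apply Continuous.intervalIntegrable
      exact hP.comp (by fun_prop : Continuous (fun θ : ℝ => (θ - u / t, (t:ℝ) * θ)))
    rw [e1, ← intervalIntegral.integral_sub i1 i2]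
    simp_rw [e2]
    have hc2 : Continuous (fun x : ℝ × ℝ => |Q (x.2 - x.1) (t * x.2)|) :=
      (hQ.comp (by fun_prop : Continuous (fun x : ℝ × ℝ => (x.2 - x.1, (t:ℝ) * x.2)))).abs
    calc |∫ θ in (0:ℝ)..(2 * π), ∫ v in (0:ℝ)..(u / t), Q (θ - v) (t * θ)| ≤
        ∫ θ in (0:ℝ)..(2 * π), |∫ v in (0:ℝ)..(u / t), Q (θ - v) (t * θ)| :=
          intervalIntegral.abs_integral_le_integral_abs hpi.le
      _ ≤ ∫ θ in (0:ℝ)..(2 * π), ∫ v in (0:ℝ)..(u / t), |Q (θ - v) (t * θ)| := by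
          apply intervalIntegral.integral_mono_on hpi.le
          · apply Continuous.intervalIntegrable
            apply Continuous.abs
            exact cont_param (fun v θ => Q (θ - v) (t * θ))
              (hQ.comp (by fun_prop : Continuous (fun x : ℝ × ℝ => (x.2 - x.1, (t:ℝ) * x.2)))) _ _
          · apply Continuous.intervalIntegrable
            exact cont_param (fun v θ => |Q (θ - v) (t * θ)|) hc2 _ _
          · intro θ _
            exact intervalIntegral.abs_integral_le_integral_abs hut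
      _ = ∫ v in (0:ℝ)..(u / t), ∫ θ in (0:ℝ)..(2 * π), |Q (θ - v) (t * θ)| :=
          (fubini (fun v θ => |Q (θ - v) (t * θ)|) hc2 _ _ _ _).symm
      _ = ∫ v in (0:ℝ)..(u / t), K (t * v) := by
          apply intervalIntegral.integral_congr
          intro v _
          simp only [hK]
          have := shift (fun θ => |Q (θ - v) (t * θ)|) (fun θ => by
            simp only
            rw [show θ + 2 * π - v = (θ - v) + 2 * π by ring, hQ1,
              show (t:ℝ) * (θ + 2 * π) = t * θ + t * (2 * π) by ring, hQ2']) v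
          rw [← this]
          apply intervalIntegral.integral_congr
          intro θ _
          simp only
          rw [show θ + v - v = θ by ring, show (t:ℝ) * (θ + v) = t * θ + t * v by ring]
      _ = (∫ w in (0:ℝ)..u, K w) / t := by
          rw [intervalIntegral.integral_comp_mul_left _ htR.ne']
          rw [show (t:ℝ) * (u / t) = u by field_simp, mul_zero, smul_eq_mul]
          ring
      _ ≤ (∫ w in (0:ℝ)..(2 * π), K w) / t := by
          gcongr
          apply intervalIntegral.integral_mono_interval le_rfl hu.1 hu.2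
          · exact Filter.Eventually.of_forall hK0
          · exact hKc.intervalIntegrable _ _
      _ ≤ (2 * π) ^ 2 * B / t := by gcongr
  -- step C
  have hC : ∫ θ in (0:ℝ)..(2 * π), ∫ u in (0:ℝ)..(2 * π), P θ u =
      ∫ u in (0:ℝ)..(2 * π), ∫ θ in (0:ℝ)..(2 * π), P θ (t * θ + u) := by
    rw [fubini (fun u θ => P θ (t * θ + u))
      (hP.comp (by fun_prop : Continuous (fun x : ℝ × ℝ => (x.2, (t:ℝ) * x.2 + x.1))))]
    apply intervalIntegral.integral_congr
    intro θ _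
    simp only
    have := shift (fun w => P θ w) (fun w => by simp only [hP2]) (t * θ)
    rw [← this]
    apply intervalIntegral.integral_congr
    intro w _
    simp only [add_comm]
  rw [hC]
  have hconst : 2 * π * (∫ θ in (0:ℝ)..(2 * π), P θ (t * θ)) =
      ∫ u in (0:ℝ)..(2 * π), (∫ θ in (0:ℝ)..(2 * π), P θ (t * θ)) := by
    rw [intervalIntegral.integral_const]
    simp
  have hcont3 : Continuous (fun u => ∫ θ in (0:ℝ)..(2 * π), P θ (t * θ + u)) :=
    cont_param (fun θ u => P θ (t * θ + u))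
      (hP.comp (by fun_prop : Continuous (fun x : ℝ × ℝ => (x.1, (t:ℝ) * x.1 + x.2)))) _ _
  rw [hconst, ← intervalIntegral.integral_sub (by simp) (hcont3.intervalIntegrable _ _)]
  calc |∫ u in (0:ℝ)..(2 * π), ((∫ θ in (0:ℝ)..(2 * π), P θ (t * θ)) -
      ∫ θ in (0:ℝ)..(2 * π), P θ (t * θ + u))| ≤
      ∫ u in (0:ℝ)..(2 * π), |(∫ θ in (0:ℝ)..(2 * π), P θ (t * θ)) -
      ∫ θ in (0:ℝ)..(2 * π), P θ (t * θ + u)| :=
        intervalIntegral.abs_integral_le_integral_abs hpi.le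
    _ ≤ ∫ u in (0:ℝ)..(2 * π), (2 * π) ^ 2 * B / t := by
        apply intervalIntegral.integral_mono_on hpi.le
        · apply Continuous.intervalIntegrable
          fun_prop
        · simp
        · exact hA
    _ = (2 * π) ^ 3 * B / t := by
        rw [intervalIntegral.integral_const]
        simp
        ring

lemma Ph_per1 (c p ρ : ι → ℤ) (ε θ φ : ℝ) : Ph c p ρ ε (θ + 2 * π) φ = Ph c p ρ ε θ φ := by
  unfold Ph; rw [g_per1]

lemma Ph_per2 (c p ρ : ι → ℤ) (ε θ φ : ℝ) : Ph c p ρ ε θ (φ + 2 * π) = Ph c p ρ ε θ φ := by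
  unfold Ph; rw [g_per2]

lemma Pt_per1 (c p ρ : ι → ℤ) (ε θ φ : ℝ) : Pt c p ρ ε (θ + 2 * π) φ = Pt c p ρ ε θ φ := by
  unfold Pt; rw [g_per1, gt_per1]

lemma Pt_per2 (c p ρ : ι → ℤ) (ε θ φ : ℝ) : Pt c p ρ ε θ (φ + 2 * π) = Pt c p ρ ε θ φ := by
  unfold Pt; rw [g_per2, gt_per2]

/-- each member of a line is close to the two dimensional average -/
theorem Jl_close (c : ι → ℤ) (p ρ : ι → ℤ) (S : ℤ) (hS1 : 1 ≤ S)
    (hS : ∀ j, |ρ j| ≤ S) (A ε : ℝ) (hA1 : 1 ≤ A) (hA : ∑ j, |(c j : ℝ)| ≤ A) (hε : 0 < ε)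
    (hε1 : ε ≤ 1) (t : ℤ) (ht : 0 < t) :
    |Jl c (fun j => t * p j + ρ j) ε - (2 * π)⁻¹ * ((2 * π)⁻¹ *
      ∫ θ in (0:ℝ)..(2 * π), ∫ u in (0:ℝ)..(2 * π), Ph c p ρ ε θ u)| ≤
      200 * S * (1 + Real.log (A / ε)) * (1 / t) := by
  have hpi : (0:ℝ) < 2 * π := by positivity
  have hS0 : (1:ℝ) ≤ S := by exact_mod_cast hS1
  have htR : (0:ℝ) < t := by exact_mod_cast ht
  have h := line_avg (Ph c p ρ ε) (Pt c p ρ ε) (Ph_cont c p ρ hε) (Pt_cont c p ρ hε)
    (Ph_deriv c p ρ hε) (Ph_per1 c p ρ ε) (Ph_per2 c p ρ ε) (Pt_per1 c p ρ ε) (Pt_per2 c p ρ ε)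
    (24 * S * (1 + Real.log (A / ε))) (avg_Pt c p ρ S hS1 hS A hA hA1 hε hε1) t ht
  rw [Jl_eq]
  set I1 := ∫ θ in (0:ℝ)..(2 * π), Ph c p ρ ε θ (t * θ)
  set I2 := ∫ θ in (0:ℝ)..(2 * π), ∫ u in (0:ℝ)..(2 * π), Ph c p ρ ε θ u
  have e : (2 * π)⁻¹ * I1 - (2 * π)⁻¹ * ((2 * π)⁻¹ * I2) = (2 * π * I1 - I2) / (2 * π) ^ 2 := by
    field_simp
  rw [e, abs_div, abs_of_pos (by positivity : (0:ℝ) < (2 * π) ^ 2), div_le_iff₀ (by positivity)]
  refine h.trans ?_
  have hl : 0 ≤ Real.log (A / ε) := by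
    apply Real.log_nonneg
    rw [le_div_iff₀ hε]; linarith
  have e2 : (2 * π) ^ 3 * (24 * S * (1 + Real.log (A / ε))) / t =
      (24 * (2 * π)) * (S * (1 + Real.log (A / ε)) * (1 / t) * (2 * π) ^ 2) := by
    field_simp
  have e3 : 200 * S * (1 + Real.log (A / ε)) * (1 / t) * (2 * π) ^ 2 =
      200 * (S * (1 + Real.log (A / ε)) * (1 / t) * (2 * π) ^ 2) := by ring
  rw [e2, e3]
  have h4 : (24 * (2 * π)) ≤ 200 := by
    have := Real.pi_lt_four
    linarith
  gcongr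

end JC

/-- comparison of two members of a line -/
theorem Jl_compare {ι : Type} [Fintype ι] (c : ι → ℤ) (p ρ : ι → ℤ) (S : ℤ) (hS1 : 1 ≤ S)
    (hS : ∀ j, |ρ j| ≤ S) (A ε : ℝ) (hA1 : 1 ≤ A) (hA : ∑ j, |(c j : ℝ)| ≤ A) (hε : 0 < ε)
    (hε1 : ε ≤ 1) (t τ : ℤ) (ht : 0 < t) (hτ : 0 < τ) :
    |Jl c (fun j => τ * p j + ρ j) ε - Jl c (fun j => t * p j + ρ j) ε| ≤
      200 * S * (1 + Real.log (A / ε)) * (1 / t + 1 / τ) := by
  have h1 := JC.Jl_close c p ρ S hS1 hS A ε hA1 hA hε hε1 t ht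
  have h2 := JC.Jl_close c p ρ S hS1 hS A ε hA1 hA hε hε1 τ hτ
  rw [abs_le] at h1 h2 ⊢
  constructor <;> linarith [h1.1, h1.2, h2.1, h2.2]

end Pool.Agent.Lib.MP_7ab245_nt.Mono
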