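import Mathlib
import Pool.Agent.Lib.MP_7ab245_nt.Mono.Dirichlet
import Pool.Agent.Lib.MP_7ab245_nt.Mono.JCompare

/-!
Descent on the generators of the exponents, with summable errors.
-/

set_option autoImplicit false

namespace Pool.Agent.Lib.MP_7ab245_nt.Mono

variable {ι δ : Type} [Fintype ι] [Fintype δ]

/-- exponents as integral combinations of generators -/
def comb (a : ι → δ → ℤ) (lam : δ → ℤ) : ι → ℤ := fun j => ∑ i, a j i * lam i

omit [Fintype ι] in
lemma comb_line (a : ι → δ → ℤ) (P σ : δ → ℤ) (t : ℤ) (j : ι) :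
    comb a (fun i => t * P i + σ i) j = t * comb a P j + comb a σ j := by
  simp only [comb]
  rw [Finset.mul_sum, ← Finset.sum_add_distrib]
  exact Finset.sum_congr rfl fun i _ => by ring

lemma dirichlet_int (d Q n : ℕ) (hcard : Fintype.card δ ≤ d) (hQ : 0 < Q) (hn : 0 < n)
    (lam : δ → ℤ) (h : ∀ i, |lam i| ≤ n) :
    ∃ q : ℕ, 0 < q ∧ q ≤ Q ^ d ∧ ∃ P : δ → ℤ,
      (∀ i, |(q : ℤ) * lam i - n * P i| * Q < n) ∧ ∀ i, |P i| ≤ q := by
  obtain ⟨q, hq0, hqQ, p, hp1, hpq, -, -⟩ := dirichlet d Q n hcard hQ hn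
    (fun i => (lam i).natAbs) (fun i => by
      have h1 := h i
      rw [Int.abs_eq_natAbs] at h1
      exact_mod_cast h1)
  refine ⟨q, hq0, hqQ, fun i => (lam i).sign * p i, ?_, ?_⟩
  · intro i
    have h1 := hp1 i
    have h2 : (q : ℤ) * lam i - n * ((lam i).sign * p i) =
        (lam i).sign * ((q : ℤ) * (lam i).natAbs - n * p i) := by
      have h3 : (lam i).sign * ((lam i).natAbs : ℤ) = lam i := Int.sign_mul_natAbs _
      calc (q : ℤ) * lam i - n * ((lam i).sign * p i)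
          = q * ((lam i).sign * ((lam i).natAbs : ℤ)) - n * ((lam i).sign * p i) := by rw [h3]
        _ = _ := by ring
    rw [h2, abs_mul]
    have h4 : |(lam i).sign| ≤ 1 := by
      rcases lt_trichotomy (lam i) 0 with h5 | h5 | h5
      · rw [Int.sign_eq_neg_one_of_neg h5]; simp
      · rw [h5]; simp
      · rw [Int.sign_eq_one_of_pos h5]; simp
    have h5 : (0 : ℤ) ≤ |(q : ℤ) * (lam i).natAbs - n * p i| := abs_nonneg _
    have hQz : (0 : ℤ) ≤ Q := Int.natCast_nonneg _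
    calc |(lam i).sign| * |(q : ℤ) * (lam i).natAbs - n * p i| * Q
        ≤ 1 * |(q : ℤ) * (lam i).natAbs - n * p i| * Q := by gcongr
      _ = |(q : ℤ) * (lam i).natAbs - n * p i| * Q := by ring
      _ < n := h1
  · intro i
    rw [abs_mul]
    have h4 : |(lam i).sign| ≤ 1 := by
      rcases lt_trichotomy (lam i) 0 with h5 | h5 | h5
      · rw [Int.sign_eq_neg_one_of_neg h5]; simp
      · rw [h5]; simp
      · rw [Int.sign_eq_one_of_pos h5]; simp
    have h5 : ((p i : ℕ) : ℤ) ≤ q := by exact_mod_cast hpq i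
    rw [Nat.abs_cast]
    calc |(lam i).sign| * (p i : ℤ) ≤ 1 * (p i : ℤ) := by gcongr
      _ ≤ q := by linarith

lemma comb_abs_le (d L : ℕ) (hcard : Fintype.card δ ≤ d) (a : ι → δ → ℤ)
    (ha : ∀ j i, |a j i| ≤ L) (σ : δ → ℤ) (B : ℤ) (hB : ∀ i, |σ i| ≤ B) (hB0 : 0 ≤ B) (j : ι) :
    |comb a σ j| ≤ d * L * B := by
  calc |comb a σ j| ≤ ∑ i, |a j i * σ i| := Finset.abs_sum_le_sum_abs _ _
    _ ≤ ∑ _i : δ, (L : ℤ) * B := by
        refine Finset.sum_le_sum fun i _ => ?_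
        rw [abs_mul]
        exact mul_le_mul (ha j i) (hB i) (abs_nonneg _) (Int.natCast_nonneg _)
    _ = (Fintype.card δ : ℤ) * (L * B) := by
        rw [Finset.sum_const, Finset.card_univ, nsmul_eq_mul]
    _ ≤ d * (L * B) := by
        have h1 : (Fintype.card δ : ℤ) ≤ d := by exact_mod_cast hcard
        gcongr
    _ = _ := by ring

/-- one step of the descent -/
lemma tower_step (d L Q n : ℕ) (hd : 1 ≤ d) (hL : 1 ≤ L) (hcard : Fintype.card δ ≤ d)
    (c : ι → ℤ) (a : ι → δ → ℤ) (ha : ∀ j i, |a j i| ≤ L) (A ε : ℝ) (hA1 : 1 ≤ A)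
    (hA : ∑ j, |(c j : ℝ)| ≤ A) (hε : 0 < ε) (hε1 : ε ≤ 1) (hQ : 64 * (d * L) + 64 ≤ Q)
    (hbig : Q ^ (2 * d + 1) ≤ n) (lam : δ → ℤ) (hlam : ∀ i, |lam i| ≤ n)
    (hinj : Function.Injective (comb a lam)) :
    ∃ lam' : δ → ℤ, (∀ i, 2 * |lam' i| ≤ n) ∧ Function.Injective (comb a lam') ∧
      |Jl c (comb a lam) ε - Jl c (comb a lam') ε| ≤
        10000 * (d * L) * (1 + Real.log (A / ε)) / Q := by
  have hQ0 : 0 < Q := by omega
  have hn0 : 0 < n := lt_of_lt_of_le (pow_pos hQ0 _) hbig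
  obtain ⟨q, hq0, hqQ, P, hP1, hPq⟩ := dirichlet_int d Q n hcard hQ0 hn0 lam hlam
  have hq1 : (1 : ℤ) ≤ q := by exact_mod_cast hq0
  have hQz : (64 : ℤ) * (d * L) + 64 ≤ Q := by exact_mod_cast hQ
  have hdL : (1 : ℤ) ≤ d * L := by
    have : 0 < d * L := Nat.mul_pos hd hL
    exact_mod_cast this
  set τ : ℤ := (n : ℤ) / q with hτdef
  have hdivmod : (q : ℤ) * τ + (n : ℤ) % q = n := Int.mul_ediv_add_emod (n : ℤ) q
  have hr0 : 0 ≤ (n : ℤ) % q := Int.emod_nonneg _ (by linarith)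
  have hr1 : (n : ℤ) % q < q := Int.emod_lt_of_pos _ (by linarith)
  set r : ℤ := (n : ℤ) % q with hr
  have hbigz : (Q : ℤ) ^ (2 * d + 1) ≤ n := by exact_mod_cast hbig
  have hqQz : (q : ℤ) ≤ (Q : ℤ) ^ d := by exact_mod_cast hqQ
  have hQ1z : (1 : ℤ) ≤ Q := by linarith
  have hn2 : (Q : ℤ) * (q : ℤ) ^ 2 ≤ n := by
    calc (Q : ℤ) * (q : ℤ) ^ 2 ≤ (Q : ℤ) * ((Q : ℤ) ^ d) ^ 2 := by gcongr
      _ = (Q : ℤ) ^ (2 * d + 1) := by ring
      _ ≤ n := hbigz
  have hτQ : (Q : ℤ) ≤ τ := by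
    by_contra hcon
    push Not at hcon
    have h1 : (n : ℤ) < q * (τ + 1) := by nlinarith
    have h2 : (q : ℤ) * (τ + 1) ≤ (Q : ℤ) ^ d * Q := by
      calc (q : ℤ) * (τ + 1) ≤ q * Q := by gcongr; linarith
        _ ≤ (Q : ℤ) ^ d * Q := by gcongr
    have h3 : (Q : ℤ) ^ d * Q ≤ (Q : ℤ) ^ (2 * d + 1) := by
      rw [← pow_succ]
      exact pow_le_pow_right₀ hQ1z (by omega)
    linarith
  have hτ0 : 0 < τ := by linarith
  set σ : δ → ℤ := fun i => lam i - τ * P i with hσ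
  have hσQ : ∀ i, (Q : ℤ) * |σ i| < 4 * τ := by
    intro i
    have h1 : (q : ℤ) * σ i = ((q : ℤ) * lam i - n * P i) + r * P i := by
      simp only [hσ]
      linear_combination (-(P i : ℤ)) * hdivmod
    have h2 := hP1 i
    have h5 : (q : ℤ) * |σ i| ≤ |(q : ℤ) * lam i - n * P i| + r * |P i| := by
      calc (q : ℤ) * |σ i| = |(q : ℤ) * σ i| := by rw [abs_mul, Nat.abs_cast]
        _ ≤ |(q : ℤ) * lam i - n * P i| + |r * P i| := by rw [h1]; exact abs_add_le _ _
        _ = _ := by rw [abs_mul, abs_of_nonneg hr0]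
    have h6 : r * |P i| ≤ q * q := by
      calc r * |P i| ≤ q * |P i| := by gcongr
        _ ≤ q * q := by
            have := hPq i
            gcongr
    have h7 : (q : ℤ) * ((Q : ℤ) * |σ i|) < q * (4 * τ) := by
      calc (q : ℤ) * ((Q : ℤ) * |σ i|) = Q * (q * |σ i|) := by ring
        _ ≤ Q * (|(q : ℤ) * lam i - n * P i| + q * q) := by
            gcongr
            linarith
        _ = |(q : ℤ) * lam i - n * P i| * Q + Q * q ^ 2 := by ring
        _ < n + n := by linarith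
        _ ≤ q * (4 * τ) := by
            have : (q : ℤ) * 1 ≤ q * τ := by gcongr; linarith
            linarith
    exact lt_of_mul_lt_mul_left h7 (by linarith)
  -- bound for `ρ`
  set B : ℤ := 4 * τ / Q with hB
  have hσB : ∀ i, |σ i| ≤ B := by
    intro i
    rw [hB, Int.le_ediv_iff_mul_le (by linarith)]
    linarith [hσQ i]
  have hQB : (Q : ℤ) * B ≤ 4 * τ := Int.mul_ediv_self_le (by linarith)
  have hB0 : 0 ≤ B := Int.ediv_nonneg (by linarith) (by linarith)
  set S : ℤ := d * L * B + 1 with hS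
  have hρS : ∀ j, |comb a σ j| ≤ S := fun j =>
    (comb_abs_le d L hcard a ha σ B hσB hB0 j).trans (by linarith)
  have hS1 : 1 ≤ S := by
    have : (0 : ℤ) ≤ d * L * B := by positivity
    linarith
  set t : ℤ := τ / 4 with ht
  have ht4 : 4 * t ≤ τ := by omega
  have ht5 : τ ≤ 5 * t := by omega
  have ht0 : 0 < t := by omega
  have hQS : (Q : ℤ) * S ≤ 25 * (d * L) * t := by
    have h1 : (Q : ℤ) * S = (d * L) * (Q * B) + Q := by rw [hS]; ring
    have h2 : (d : ℤ) * L * (Q * B) ≤ d * L * (4 * τ) := by gcongr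
    have h3 : (Q : ℤ) ≤ d * L * τ := by nlinarith
    have h4 : (d : ℤ) * L * τ ≤ d * L * (5 * t) := by gcongr
    nlinarith
  have h2S : 2 * S < t := by
    have h1 : (64 : ℤ) * (d * L) * S ≤ Q * S := by
      have : (64 : ℤ) * (d * L) ≤ Q := by linarith
      gcongr
    have h2 : (d * L : ℤ) * (64 * S) ≤ (d * L) * (25 * t) := by linarith
    have h3 : 64 * S ≤ 25 * t := le_of_mul_le_mul_left h2 (by linarith)
    linarith
  have hlamline : lam = fun i => τ * P i + σ i := by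
    funext i
    simp only [hσ]; ring
  have hcl : comb a lam = fun j => τ * comb a P j + comb a σ j := by
    funext j
    conv_lhs => rw [hlamline]
    exact comb_line a P σ τ j
  refine ⟨fun i => t * P i + σ i, ?_, ?_, ?_⟩
  · intro i
    have h1 : |t * P i + σ i| ≤ t * q + |σ i| := by
      calc |t * P i + σ i| ≤ |t * P i| + |σ i| := abs_add_le _ _
        _ ≤ t * q + |σ i| := by
            rw [abs_mul, abs_of_pos ht0]
            have := hPq i
            gcongr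
    have h2 : 64 * |σ i| ≤ 4 * τ := by
      have h3 := hσQ i
      have h4 : 64 * |σ i| ≤ Q * |σ i| := by
        have : (64 : ℤ) ≤ Q := by linarith
        gcongr
      linarith
    have h3 : 4 * (t * (q : ℤ)) ≤ q * τ := by nlinarith
    have h4 : τ ≤ q * τ := by nlinarith
    have h5 : (q : ℤ) * τ ≤ n := by linarith
    simp only
    linarith
  · intro i j hij
    rw [comb_line, comb_line] at hij
    have h1 : t * (comb a P i - comb a P j) = comb a σ j - comb a σ i := by linarith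
    have h2 := abs_le.mp (hρS i)
    have h3 := abs_le.mp (hρS j)
    have h4 : comb a P i - comb a P j = 0 := by
      by_contra hne
      have h5 : 1 ≤ |comb a P i - comb a P j| := Int.one_le_abs hne
      have h6 : |t * (comb a P i - comb a P j)| ≤ 2 * S := by
        rw [h1, abs_le]; constructor <;> linarith [h2.1, h2.2, h3.1, h3.2]
      rw [abs_mul, abs_of_pos ht0] at h6
      nlinarith
    apply hinj
    rw [hcl]
    simp only
    rw [h4, mul_zero] at h1
    have h5 : comb a P i = comb a P j := by linarith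
    rw [h5]
    linarith
  · have h1 := Jl_compare c (comb a P) (comb a σ) S hS1 hρS A ε hA1 hA hε hε1 t τ ht0 hτ0
    have h2 : comb a (fun i => t * P i + σ i) = fun j => t * comb a P j + comb a σ j :=
      funext fun j => comb_line a P σ t j
    rw [hcl, h2]
    refine h1.trans ?_
    have hΛ : 0 ≤ 1 + Real.log (A / ε) := by
      have : 1 ≤ A / ε := by
        rw [le_div_iff₀ hε]; linarith
      have := Real.log_nonneg this
      linarith
    have htR : (0 : ℝ) < t := by exact_mod_cast ht0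
    have hτR : (0 : ℝ) < τ := by exact_mod_cast hτ0
    have hQR : (0 : ℝ) < Q := by exact_mod_cast hQ0
    have h3 : (1 : ℝ) / τ ≤ 1 / t := by
      apply one_div_le_one_div_of_le htR
      have : t ≤ τ := by linarith
      exact_mod_cast this
    have hSR : (0 : ℝ) ≤ S := by
      have : 0 ≤ S := by linarith
      exact_mod_cast this
    have h4 : (S : ℝ) / t ≤ 25 * (d * L) / Q := by
      rw [div_le_div_iff₀ htR hQR]
      have : (S : ℝ) * Q ≤ 25 * (d * L) * t := by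
        have h5 : (Q : ℝ) * S ≤ 25 * (d * L) * t := by exact_mod_cast hQS
        linarith
      exact this
    calc 200 * (S : ℝ) * (1 + Real.log (A / ε)) * (1 / t + 1 / τ)
        ≤ 200 * S * (1 + Real.log (A / ε)) * (1 / t + 1 / t) := by gcongr
      _ = 400 * (1 + Real.log (A / ε)) * (S / t) := by field_simp; ring
      _ ≤ 400 * (1 + Real.log (A / ε)) * (25 * (d * L) / Q) := by gcongr
      _ = _ := by ring

/-- descent within one dyadic level of the precision `Q` -/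
lemma tower_level (d L Q : ℕ) (hd : 1 ≤ d) (hL : 1 ≤ L) (hcard : Fintype.card δ ≤ d)
    (c : ι → ℤ) (a : ι → δ → ℤ) (ha : ∀ j i, |a j i| ≤ L) (A ε : ℝ) (hA1 : 1 ≤ A)
    (hA : ∑ j, |(c j : ℝ)| ≤ A) (hε : 0 < ε) (hε1 : ε ≤ 1) (hQ : 64 * (d * L) + 64 ≤ Q) :
    ∀ (s : ℕ) (lam : δ → ℤ), (∀ i, |lam i| ≤ 2 ^ s * (Q : ℤ) ^ (2 * d + 1)) →
    Function.Injective (comb a lam) →
    ∃ lam' : δ → ℤ, (∀ i, |lam' i| ≤ (Q : ℤ) ^ (2 * d + 1)) ∧ Function.Injective (comb a lam') ∧
      |Jl c (comb a lam) ε - Jl c (comb a lam') ε| ≤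
        s * (10000 * (d * L) * (1 + Real.log (A / ε)) / Q) := by
  intro s
  induction s with
  | zero =>
    intro lam hlam hinj
    exact ⟨lam, fun i => by simpa using hlam i, hinj, by simp⟩
  | succ s ih =>
    intro lam hlam hinj
    have hQ0 : 0 < Q := by omega
    obtain ⟨lam₁, h1, h2, h3⟩ := tower_step d L Q (2 ^ (s + 1) * Q ^ (2 * d + 1)) hd hL hcard c a ha
      A ε hA1 hA hε hε1 hQ (Nat.le_mul_of_pos_left _ (by positivity)) lam
      (fun i => by push_cast; exact hlam i) hinj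
    obtain ⟨lam₂, h4, h5, h6⟩ := ih lam₁ (fun i => by
      have := h1 i
      push_cast at this
      rw [pow_succ] at this
      linarith) h2
    refine ⟨lam₂, h4, h5, ?_⟩
    have h7 := abs_sub_le (Jl c (comb a lam) ε) (Jl c (comb a lam₁) ε) (Jl c (comb a lam₂) ε)
    push_cast
    linarith

/-- the full descent -/
theorem tower (d L Q₀ : ℕ) (hd : 1 ≤ d) (hL : 1 ≤ L) (hcard : Fintype.card δ ≤ d)
    (c : ι → ℤ) (a : ι → δ → ℤ) (ha : ∀ j i, |a j i| ≤ L) (A ε : ℝ) (hA1 : 1 ≤ A)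
    (hA : ∑ j, |(c j : ℝ)| ≤ A) (hε : 0 < ε) (hε1 : ε ≤ 1) (hQ : 64 * (d * L) + 64 ≤ Q₀)
    (lam : δ → ℤ) (hinj : Function.Injective (comb a lam)) :
    ∃ lam' : δ → ℤ, (∀ i, |lam' i| ≤ (Q₀ : ℤ) ^ (2 * d + 1)) ∧
      Function.Injective (comb a lam') ∧
      |Jl c (comb a lam) ε - Jl c (comb a lam') ε| ≤
        60000 * (d ^ 2 * L) * (1 + Real.log (A / ε)) / Q₀ := by
  have hΛ : 0 ≤ 1 + Real.log (A / ε) := by
    have : 1 ≤ A / ε := by
      rw [le_div_iff₀ hε]; linarith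
    have := Real.log_nonneg this
    linarith
  have hQ0 : 0 < Q₀ := by omega
  have hQR : (0 : ℝ) < Q₀ := by exact_mod_cast hQ0
  set E : ℝ := 10000 * (d * L) * (1 + Real.log (A / ε)) with hE
  have hE0 : 0 ≤ E := by positivity
  have main : ∀ (j : ℕ) (lam : δ → ℤ), (∀ i, |lam i| ≤ ((2 ^ j * Q₀ : ℕ) : ℤ) ^ (2 * d + 1)) →
      Function.Injective (comb a lam) →
      ∃ lam' : δ → ℤ, (∀ i, |lam' i| ≤ (Q₀ : ℤ) ^ (2 * d + 1)) ∧
        Function.Injective (comb a lam') ∧
        |Jl c (comb a lam) ε - Jl c (comb a lam') ε| ≤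
          (2 * d + 1) * E / Q₀ * (2 - 2 / 2 ^ j) := by
    intro j
    induction j with
    | zero =>
      intro lam hlam hinj
      exact ⟨lam, fun i => by simpa using hlam i, hinj, by simp⟩
    | succ j ih =>
      intro lam hlam hinj
      obtain ⟨lam₁, h1, h2, h3⟩ := tower_level d L (2 ^ j * Q₀) hd hL hcard c a ha A ε hA1 hA hε
        hε1 (hQ.trans (Nat.le_mul_of_pos_left _ (by positivity))) (2 * d + 1) lam
        (fun i => by
          have := hlam i
          refine this.trans (le_of_eq ?_)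
          push_cast
          ring) hinj
      obtain ⟨lam₂, h4, h5, h6⟩ := ih lam₁ h1 h2
      refine ⟨lam₂, h4, h5, ?_⟩
      have h7 := abs_sub_le (Jl c (comb a lam) ε) (Jl c (comb a lam₁) ε) (Jl c (comb a lam₂) ε)
      refine h7.trans ((add_le_add h3 h6).trans (le_of_eq ?_))
      rw [← hE]
      push_cast
      field_simp
      ring
  obtain ⟨j, hj⟩ : ∃ j : ℕ, ∀ i, |lam i| ≤ ((2 ^ j * Q₀ : ℕ) : ℤ) ^ (2 * d + 1) := by
    set M : ℕ := ∑ i, (lam i).natAbs with hM
    refine ⟨M, fun i => ?_⟩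
    have h1 : (lam i).natAbs ≤ M := Finset.single_le_sum (f := fun i => (lam i).natAbs)
      (fun _ _ => Nat.zero_le _) (Finset.mem_univ i)
    have h2 : M ≤ 2 ^ M := Nat.lt_two_pow_self.le
    have h3 : 2 ^ M ≤ 2 ^ M * Q₀ := Nat.le_mul_of_pos_right _ hQ0
    have h4 : 2 ^ M * Q₀ ≤ (2 ^ M * Q₀) ^ (2 * d + 1) := Nat.le_self_pow (by omega) _
    have h5 : (lam i).natAbs ≤ (2 ^ M * Q₀) ^ (2 * d + 1) := by omega
    rw [Int.abs_eq_natAbs]
    exact_mod_cast h5
  obtain ⟨lam', h1, h2, h3⟩ := main j lam hj hinj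
  refine ⟨lam', h1, h2, h3.trans ?_⟩
  have h4 : (2 : ℝ) - 2 / 2 ^ j ≤ 2 := by
    have : (0 : ℝ) ≤ 2 / 2 ^ j := by positivity
    linarith
  have hdR : (1 : ℝ) ≤ d := by exact_mod_cast hd
  calc (2 * (d : ℝ) + 1) * E / Q₀ * (2 - 2 / 2 ^ j) ≤ (2 * (d : ℝ) + 1) * E / Q₀ * 2 := by gcongr
    _ ≤ (3 * (d : ℝ)) * E / Q₀ * 2 := by
        gcongr
        linarith
    _ = _ := by rw [hE]; ring

end Pool.Agent.Lib.MP_7ab245_nt.Mono
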