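import Mathlib
import Pool.Agent.Lib.MP_7ab245_nt.Mono.Main
import Pool.Agent.Lib.MP_7ab245_nt.Mono.DobroFull
import Pool.Agent.Lib.MP_7ab245_nt.Mono.Tower

/-!
Final numerics for the uniform Dobrowolski theorem: the Mahler measure of an integer polynomial
whose exponents lie in a generalised arithmetic progression.
-/

set_option autoImplicit false

open Polynomial Real MeasureTheory

namespace Pool.Agent.Lib.MP_7ab245_nt.Mono

/-- the statement of the descent tower -/
def TowerStmt : Prop := ∃ C0 : ℝ, 0 ≤ C0 ∧ ∀ (ι : Type) [Fintype ι] (c : ι → ℤ) (d L : ℕ)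
    (a : ι → Fin d → ℤ) (lam : Fin d → ℤ) (A ε : ℝ) (Q0 : ℕ), 1 ≤ d → 1 ≤ L → (∀ j, c j ≠ 0) →
    Function.Injective (fun j => ∑ i, a j i * lam i) → (∀ j i, |a j i| ≤ L) →
    1 ≤ A → ∑ j, |(c j : ℝ)| ≤ A → 0 < ε → ε ≤ 1 → 64 * d * L + 64 ≤ Q0 →
    ∃ lam' : Fin d → ℤ, (∀ i, |lam' i| ≤ (Q0 : ℤ) ^ (2 * d + 1)) ∧
      Function.Injective (fun j => ∑ i, a j i * lam' i) ∧
      |Jl c (fun j => ∑ i, a j i * lam i) ε - Jl c (fun j => ∑ i, a j i * lam' i) ε| ≤
        C0 * d ^ 2 * L * (1 + Real.log (A / ε)) / Q0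

lemma towerStmt : TowerStmt := by
  refine ⟨60000, by norm_num, ?_⟩
  intro ι _ c d L a lam A ε Q0 hd hL _ hinj ha hA1 hA hε hε1 hQ
  obtain ⟨lam', h1, h2, h3⟩ := tower d L Q0 hd hL (by simp) c a ha A ε hA1 hA hε hε1
    (by rw [← mul_assoc]; exact hQ) lam hinj
  refine ⟨lam', h1, h2, ?_⟩
  have e : (60000 : ℝ) * (d ^ 2 * L) = 60000 * d ^ 2 * L := by ring
  rw [e] at h3
  exact h3

/-! ### `Jl` and `lm` -/

section smooth
variable {ι : Type} [Fintype ι]

lemma lm_le_Jl (κ : ℕ) (hκ : 1 ≤ κ) (hcard : Fintype.card ι ≤ κ) (c : ι → ℤ)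
    (hc : ∀ j, c j ≠ 0) (e : ι → ℤ) (he : Function.Injective e) (m : ι) (ε : ℝ) (hε : 0 < ε) :
    lm c e ≤ Jl c e ε := by
  have hm : 1 ≤ ‖((c m : ℤ) : ℂ)‖ := by
    rw [Complex.norm_intCast]
    exact_mod_cast Int.one_le_abs (hc m)
  have h0 := mu_zero κ hκ hcard (fun j => (c j : ℂ)) e he m hm
  apply circleAverage_mono_ae
  · exact log_circleIntegrable _ _
  · exact (circleIntegrable_iff _).mpr (cont_integrable _ (sq_continuous _ _ ε hε))
  · filter_upwards [h0] with θ hθ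
    have hθ' : 0 < ‖ls (fun j => (c j : ℂ)) e (circleMap 0 1 θ)‖ := hθ
    set h := ‖ls (fun j => (c j : ℂ)) e (circleMap 0 1 θ)‖
    have h1 : Real.log h = Real.log (h ^ 2) / 2 := by rw [Real.log_pow]; push_cast; ring
    rw [h1]
    have := Real.log_le_log (by positivity) (by nlinarith : h ^ 2 ≤ h ^ 2 + ε ^ 2)
    linarith

lemma Jl_le_lm (κ : ℕ) (hκ : 1 ≤ κ) (hcard : Fintype.card ι ≤ κ) (c : ι → ℤ)
    (hc : ∀ j, c j ≠ 0) (e : ι → ℤ) (he : Function.Injective e) (m : ι) (ε : ℝ) (hε : 0 < ε) :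
    Jl c e ε ≤ lm c e + 30 * κ ^ 2 * ε ^ (1 / (2 * κ : ℝ)) := by
  have hm : 1 ≤ ‖((c m : ℤ) : ℂ)‖ := by
    rw [Complex.norm_intCast]
    exact_mod_cast Int.one_le_abs (hc m)
  exact log_smooth κ hκ hcard (fun j => (c j : ℂ)) e he m hm ε hε

end smooth

/-! ### numerics -/

/-- the height used for `κ = V` -/
noncomputable def AV (V : ℕ) : ℝ := V * (2 * (15 * V) ^ (2 * V))

/-- the smoothing parameter -/
noncomputable def eV (V : ℕ) : ℝ := (((V : ℝ) ^ 20)⁻¹) ^ (2 * V)

lemma eV_pos {V : ℕ} (hV : 1 ≤ V) : 0 < eV V := by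
  have : (0 : ℝ) < V := by exact_mod_cast hV
  unfold eV; positivity

lemma eV_le_one {V : ℕ} (hV : 1 ≤ V) : eV V ≤ 1 := by
  have h1 : (1 : ℝ) ≤ V := by exact_mod_cast hV
  unfold eV
  exact pow_le_one₀ (by positivity) (inv_le_one_of_one_le₀ (one_le_pow₀ h1))

lemma eV_rpow {V : ℕ} (hV : 1 ≤ V) : eV V ^ (1 / (2 * V : ℝ)) = ((V : ℝ) ^ 20)⁻¹ := by
  unfold eV
  have h := Real.pow_rpow_inv_natCast (x := ((V : ℝ) ^ 20)⁻¹) (n := 2 * V) (by positivity)
    (by omega)
  rw [one_div]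
  push_cast at h
  exact h

lemma AV_ge_one {V : ℕ} (hV : 1 ≤ V) : 1 ≤ AV V := by
  have h1 : (1 : ℝ) ≤ V := by exact_mod_cast hV
  unfold AV
  have h2 : (1 : ℝ) ≤ (15 * V) ^ (2 * V) := one_le_pow₀ (by linarith)
  nlinarith

lemma log_AV_div_eV {V : ℕ} (hV : 1 ≤ V) : 1 + Real.log (AV V / eV V) ≤ 74 * (V : ℝ) ^ 2 := by
  have h1 : (1 : ℝ) ≤ V := by exact_mod_cast hV
  have h0 : (0 : ℝ) < V := by linarith
  have he := eV_pos hV
  rw [Real.log_div (by have := AV_ge_one hV; linarith) he.ne', AV, eV,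
    Real.log_mul h0.ne' (by positivity), Real.log_mul (by norm_num) (by positivity),
    Real.log_pow, Real.log_pow, Real.log_inv, Real.log_pow]
  have hl : Real.log V ≤ V := by
    have := Real.log_le_sub_one_of_pos h0; linarith
  have hl15 : Real.log (15 * V) ≤ 15 * V := by
    have := Real.log_le_sub_one_of_pos (show (0 : ℝ) < 15 * V by positivity); linarith
  have hl2 : Real.log 2 ≤ 1 := by
    have := Real.log_le_sub_one_of_pos (show (0 : ℝ) < 2 by norm_num); linarith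
  push_cast
  nlinarith [mul_le_mul_of_nonneg_left hl15 (show (0 : ℝ) ≤ 2 * V by positivity),
    mul_le_mul_of_nonneg_left hl (show (0 : ℝ) ≤ 2 * V * 20 by positivity)]

/-- the total error of the tower is at most `1 / V ^ 9` -/
lemma error_le (C0 : ℝ) (hC0 : 0 ≤ C0) {V d L : ℕ} (hV : 30 ≤ V) (hVC : 74 * C0 ≤ V)
    (hd : d ≤ V) (hL : L ≤ V) :
    C0 * d ^ 2 * L * (1 + Real.log (AV V / eV V)) / ((V ^ 16 : ℕ) : ℝ) +
      30 * (V : ℝ) ^ 2 * eV V ^ (1 / (2 * V : ℝ)) ≤ 1 / (V : ℝ) ^ 9 := by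
  have hVR : (30 : ℝ) ≤ V := by exact_mod_cast hV
  have h0 : (0 : ℝ) < V := by linarith
  have hV1 : 1 ≤ V := by omega
  rw [eV_rpow hV1]
  have h1 := log_AV_div_eV hV1
  have hdR : (d : ℝ) ≤ V := by exact_mod_cast hd
  have hLR : (L : ℝ) ≤ V := by exact_mod_cast hL
  have h1' : 0 ≤ 1 + Real.log (AV V / eV V) := by
    have ha := AV_ge_one hV1
    have hb := eV_le_one hV1
    have hc := eV_pos hV1
    have : 0 ≤ Real.log (AV V / eV V) := by
      apply Real.log_nonneg
      rw [le_div_iff₀ hc]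
      linarith
    linarith
  have h2 : C0 * d ^ 2 * L * (1 + Real.log (AV V / eV V)) / ((V ^ 16 : ℕ) : ℝ) ≤
      1 / (V : ℝ) ^ 10 := by
    push_cast
    rw [div_le_div_iff₀ (by positivity) (by positivity)]
    calc C0 * d ^ 2 * L * (1 + Real.log (AV V / eV V)) * (V : ℝ) ^ 10
        ≤ C0 * (V : ℝ) ^ 2 * V * (74 * (V : ℝ) ^ 2) * (V : ℝ) ^ 10 := by gcongr
      _ = (74 * C0) * (V : ℝ) ^ 15 := by ring
      _ ≤ V * (V : ℝ) ^ 15 := by gcongr
      _ = 1 * (V : ℝ) ^ 16 := by ring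
  have h3 : 30 * (V : ℝ) ^ 2 * ((V : ℝ) ^ 20)⁻¹ ≤ 1 / (V : ℝ) ^ 10 := by
    rw [← div_eq_mul_inv, div_le_div_iff₀ (by positivity) (by positivity)]
    calc 30 * (V : ℝ) ^ 2 * (V : ℝ) ^ 10 ≤ V * (V : ℝ) ^ 2 * (V : ℝ) ^ 10 := by gcongr
      _ = 1 * (V : ℝ) ^ 13 := by ring
      _ ≤ 1 * (V : ℝ) ^ 20 := by
          gcongr
          · linarith
          · norm_num
  have h4 : 1 / (V : ℝ) ^ 10 + 1 / (V : ℝ) ^ 10 ≤ 1 / (V : ℝ) ^ 9 := by
    rw [← add_div, div_le_div_iff₀ (by positivity) (by positivity)]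
    calc (1 + 1) * (V : ℝ) ^ 9 ≤ V * (V : ℝ) ^ 9 := by gcongr; linarith
      _ = 1 * (V : ℝ) ^ 10 := by ring
  linarith

/-- height bound for integral Laurent sums -/
lemma sum_coeff_le {ι : Type} [Fintype ι] {V : ℕ} (hV : 1 ≤ V) (hcard : Fintype.card ι ≤ V)
    (c : ι → ℤ) (hc : ∀ j, c j ≠ 0) (e : ι → ℤ) (he : Function.Injective e)
    (hlm : lm c e ≤ Real.log 2) : ∑ j, |(c j : ℝ)| ≤ AV V := by
  have h0 : (0 : ℝ) < V := by exact_mod_cast hV
  have h1 : ∀ j, |(c j : ℝ)| ≤ 2 * (15 * V) ^ (2 * V) := by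
    intro j
    have hcj : ((c j : ℤ) : ℂ) ≠ 0 := by exact_mod_cast hc j
    have h := height_bound V hV hcard (fun j => (c j : ℂ)) e he j hcj
    have hpos : 0 < |(c j : ℝ)| := abs_pos.mpr (by exact_mod_cast hc j)
    have h2 : ‖((c j : ℤ) : ℂ)‖ = |(c j : ℝ)| := by
      rw [Complex.norm_intCast]
    rw [h2] at h
    have h3 : Real.log |(c j : ℝ)| ≤ Real.log (2 * (15 * V) ^ (2 * V)) := by
      rw [Real.log_mul (by norm_num) (by positivity), Real.log_pow]
      push_cast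
      have h4 : lm c e = circleAverage (fun z => Real.log ‖ls (fun j => (c j : ℂ)) e z‖) 0 1 := rfl
      rw [← h4] at h
      linarith
    exact (Real.log_le_log_iff hpos (by positivity)).mp h3
  calc ∑ j, |(c j : ℝ)| ≤ ∑ _j : ι, (2 * (15 * V) ^ (2 * V) : ℝ) :=
        Finset.sum_le_sum fun j _ => h1 j
    _ = Fintype.card ι * (2 * (15 * V) ^ (2 * V)) := by
        rw [Finset.sum_const, Finset.card_univ, nsmul_eq_mul]
    _ ≤ V * (2 * (15 * V) ^ (2 * V)) := by
        have : (Fintype.card ι : ℝ) ≤ V := by exact_mod_cast hcard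
        gcongr
    _ = AV V := rfl

/-! ### the uniform Dobrowolski bound -/

lemma pos_aux (c6 V : ℝ) (hc6 : 0 < c6) (hV : 30 ≤ V) (h2 : 2 / c6 ≤ V) :
    1 / V ^ 9 < c6 / (2 * V ^ 6) := by
  have h0 : 0 < V := by linarith
  rw [div_lt_div_iff₀ (by positivity) (by positivity)]
  rw [div_le_iff₀ hc6] at h2
  have h4 : 0 < V * c6 := by positivity
  have h3 : 2 < V * c6 * V ^ 2 := by
    have h5 : (1 : ℝ) < V ^ 2 := by nlinarith
    calc 2 ≤ V * c6 := h2
      _ = V * c6 * 1 := by ring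
      _ < V * c6 * V ^ 2 := by gcongr
  calc 1 * (2 * V ^ 6) = 2 * V ^ 6 := by ring
    _ < (V * c6 * V ^ 2) * V ^ 6 := by gcongr
    _ = c6 * V ^ 9 := by ring

lemma err_aux (cD V : ℝ) (hcD : 0 < cD) (hV : 30 ≤ V) (h2 : 2 * 49 ^ 3 / cD ≤ V) :
    1 / V ^ 9 ≤ cD / 2 * (1 / (49 * V ^ 2)) ^ 3 := by
  have h0 : 0 < V := by linarith
  rw [div_le_iff₀ hcD] at h2
  have h3 : cD / 2 * (1 / (49 * V ^ 2)) ^ 3 = cD / (2 * 49 ^ 3 * V ^ 6) := by
    field_simp
  rw [h3, div_le_div_iff₀ (by positivity) (by positivity)]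
  have h4 : (1 : ℝ) ≤ V ^ 2 := by nlinarith
  calc 1 * (2 * 49 ^ 3 * V ^ 6) = (2 * 49 ^ 3) * V ^ 6 := by ring
    _ ≤ (V * cD) * V ^ 6 := by gcongr
    _ = cD * (V ^ 7 * 1) := by ring
    _ ≤ cD * (V ^ 7 * V ^ 2) := by gcongr
    _ = cD * V ^ 9 := by ring

lemma boot_aux (c6 V k M : ℝ) (hc6 : 0 < c6) (hk : 0 < k) (hkV : k ≤ V) (hM1 : 1 < M)
    (hM2 : M < 2) (h1 : 1 + c6 / k ^ 6 ≤ M) : c6 / (2 * V ^ 6) ≤ Real.log M := by
  have hV : 0 < V := by linarith
  have h3 : c6 / V ^ 6 ≤ c6 / k ^ 6 := by gcongr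
  have h4 := Real.one_sub_inv_le_log_of_pos (show 0 < M by linarith)
  have h5 : 1 - M⁻¹ = (M - 1) / M := by
    have : M ≠ 0 := by linarith
    field_simp
  rw [h5] at h4
  have h6 : (M - 1) / 2 ≤ (M - 1) / M := by
    have : (0 : ℝ) < M - 1 := by linarith
    gcongr
  have h7 : c6 / (2 * V ^ 6) = c6 / V ^ 6 / 2 := by field_simp
  rw [h7]
  linarith

/-- the final comparison of the two Dobrowolski quotients -/
lemma final_aux (cD V W K d y x M B E : ℝ) (hcD : 0 < cD) (hV : 30 ≤ V) (hW : 3 ≤ W)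
    (hK : 1 ≤ K) (hd : 1 ≤ d) (hdV : d ≤ V) (hVe : V = K * W) (hBe : B = 49 * (1 + Real.log K))
    (hy : y = 49 * d * Real.log V) (hx : x = d * Real.log W)
    (h2 : 2 * 49 ^ 3 / cD ≤ V) (hE : E ≤ 1 / V ^ 9)
    (hM : cD * (Real.log y / y) ^ 3 ≤ M + E) :
    cD / 2 / B ^ 3 * (Real.log x / x) ^ 3 ≤ M := by
  have hV0 : 0 < V := by linarith
  have hlogK : 0 ≤ Real.log K := Real.log_nonneg hK
  have hB0 : 0 < B := by rw [hBe]; positivity
  have hlogW : 1 ≤ Real.log W := by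
    rw [Real.le_log_iff_exp_le (by linarith)]
    have := Real.exp_one_lt_three
    linarith
  have hlogVeq : Real.log V = Real.log K + Real.log W := by
    rw [hVe, Real.log_mul (by linarith) (by linarith)]
  have hlogV1 : 1 ≤ Real.log V := by linarith
  have hlogV : Real.log V ≤ V := by
    have := Real.log_le_sub_one_of_pos hV0; linarith
  have hdlog : 1 ≤ d * Real.log V := by nlinarith
  have hy49 : 49 ≤ y := by rw [hy, mul_assoc]; linarith
  have hyle : y ≤ 49 * V ^ 2 := by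
    rw [hy]
    calc 49 * d * Real.log V ≤ 49 * V * V := by gcongr
      _ = 49 * V ^ 2 := by ring
  have hlogy : 1 ≤ Real.log y := by
    rw [Real.le_log_iff_exp_le (by linarith)]
    have := Real.exp_one_lt_three
    linarith
  have hy0 : 0 < y := by linarith
  have hratio : 1 / (49 * V ^ 2) ≤ Real.log y / y := by gcongr
  have herr : 1 / V ^ 9 ≤ cD / 2 * (Real.log y / y) ^ 3 :=
    (err_aux cD V hcD hV h2).trans (by gcongr)
  have hmain : cD / 2 * (Real.log y / y) ^ 3 ≤ M := by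
    have : cD * (Real.log y / y) ^ 3 = cD / 2 * (Real.log y / y) ^ 3 +
      cD / 2 * (Real.log y / y) ^ 3 := by ring
    linarith
  refine le_trans ?_ hmain
  have hx1 : 1 ≤ x := by rw [hx]; nlinarith
  have hx0 : 0 < x := by linarith
  have hdK : 0 ≤ d * Real.log K := by positivity
  have hxy : x ≤ y := by
    rw [hx, hy, hlogVeq]
    nlinarith
  have hyx : y ≤ B * x := by
    rw [hx, hy, hlogVeq, hBe]
    have h1 : Real.log K * 1 ≤ Real.log K * Real.log W := by gcongr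
    have h2 : d * (Real.log K + Real.log W) ≤ d * ((1 + Real.log K) * Real.log W) := by
      apply mul_le_mul_of_nonneg_left _ (by linarith)
      linarith
    calc 49 * d * (Real.log K + Real.log W) = 49 * (d * (Real.log K + Real.log W)) := by ring
      _ ≤ 49 * (d * ((1 + Real.log K) * Real.log W)) := by gcongr
      _ = 49 * (1 + Real.log K) * (d * Real.log W) := by ring
  have hlogx : 0 ≤ Real.log x := Real.log_nonneg hx1
  have hr : Real.log x / x / B ≤ Real.log y / y := by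
    have h1 : Real.log x ≤ Real.log y := Real.log_le_log hx0 hxy
    rw [div_div]
    calc Real.log x / (x * B) ≤ Real.log y / (x * B) := by gcongr
      _ ≤ Real.log y / y := by
          have : y ≤ x * B := by linarith
          gcongr
  calc cD / 2 / B ^ 3 * (Real.log x / x) ^ 3 = cD / 2 * (Real.log x / x / B) ^ 3 := by
        field_simp
    _ ≤ cD / 2 * (Real.log y / y) ^ 3 := by gcongr


theorem uniform_main (hT : TowerStmt) : ∃ c : ℝ, 0 < c ∧ ∀ (d L : ℕ), 1 ≤ d → 1 ≤ L →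
    ∀ (b : ℤ) (lam : Fin d → ℤ) (f : ℤ[X]),
    (∀ n ∈ f.support, ∃ a : Fin d → ℤ, (∀ i, |a i| ≤ L) ∧ (n : ℤ) = b + ∑ i, a i * lam i) →
    1 < (f.map (Int.castRingHom ℂ)).mahlerMeasure → (f.map (Int.castRingHom ℂ)).mahlerMeasure < 2 →
    c * (Real.log (Real.log (((d * L * f.support.card + 2) ^ d : ℕ) : ℝ)) /
      Real.log (((d * L * f.support.card + 2) ^ d : ℕ) : ℝ)) ^ 3 ≤ Real.log (f.map (Int.castRingHom ℂ)).mahlerMeasure := by
  obtain ⟨cD, hcD, hDob⟩ := dobrowolski_full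
  obtain ⟨c6, hc6, hmon⟩ := main_of_dobrowolski dobrowolski_full
  obtain ⟨C0, hC0, htow⟩ := hT
  -- the constant `K`
  obtain ⟨K₀, hK₀⟩ : ∃ K₀ : ℕ, 74 * C0 + 2 / c6 + 2 * 49 ^ 3 / cD ≤ K₀ := exists_nat_ge _
  set K : ℕ := K₀ + 30 with hK
  have hKR : (30 : ℝ) ≤ K := by
    rw [hK]; push_cast
    have : (0 : ℝ) ≤ K₀ := Nat.cast_nonneg _
    linarith
  have hKbig : 74 * C0 + 2 / c6 + 2 * 49 ^ 3 / cD ≤ K := by
    rw [hK]; push_cast; linarith
  have hlogK : 0 ≤ Real.log K := Real.log_nonneg (by linarith)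
  set B : ℝ := 49 * (1 + Real.log K) with hB
  have hB0 : 0 < B := by positivity
  refine ⟨cD / 2 / B ^ 3, by positivity, ?_⟩
  intro d L hd hL b lam f hsupp hM1 hM2
  set k := f.support.card with hk
  set W : ℕ := d * L * k + 2 with hW
  set V : ℕ := K * W with hV
  set M := (f.map (Int.castRingHom ℂ)).mahlerMeasure with hM
  have hf0 : f ≠ 0 := by
    rintro rfl
    rw [hM, Polynomial.map_zero, mahlerMeasure_zero] at hM1
    linarith
  have hk1 : 1 ≤ k := Finset.card_pos.mpr (support_nonempty.mpr hf0)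
  have hdL : 1 ≤ d * L := Nat.mul_pos hd hL
  have hdW : d ≤ W := by
    have h1 : d * 1 * 1 ≤ d * L * k := Nat.mul_le_mul (Nat.mul_le_mul_left _ hL) hk1
    omega
  have hLW : L ≤ W := by
    have h1 : 1 * L * 1 ≤ d * L * k := Nat.mul_le_mul (Nat.mul_le_mul_right _ hd) hk1
    omega
  have hdLW : d * L ≤ W := by
    have h1 : d * L * 1 ≤ d * L * k := Nat.mul_le_mul_left _ hk1
    omega
  have hkW : k ≤ W := by
    have h1 : 1 * k ≤ d * L * k := Nat.mul_le_mul_right _ hdL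
    omega
  have hW3 : 3 ≤ W := by
    have h1 : 1 * 1 ≤ d * L * k := Nat.mul_le_mul hdL hk1
    omega
  have hK30 : 30 ≤ K := by omega
  have hWV : W ≤ V := Nat.le_mul_of_pos_left W (by omega)
  have hKV : K ≤ V := Nat.le_mul_of_pos_right K (by omega)
  have hV30 : 30 ≤ V := hK30.trans hKV
  have hV1 : 1 ≤ V := by omega
  have hVR : (30 : ℝ) ≤ V := by exact_mod_cast hV30
  have hV0 : (0 : ℝ) < V := by linarith
  have hKVR : (K : ℝ) ≤ V := by exact_mod_cast hKV
  -- the index type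
  have : Nonempty f.support := by
    obtain ⟨j, hj⟩ := support_nonempty.mpr hf0
    exact ⟨⟨j, hj⟩⟩
  obtain ⟨m⟩ := this
  have hcardι : Fintype.card f.support ≤ V := by
    rw [Fintype.card_coe]; omega
  set c : f.support → ℤ := fun j => f.coeff j with hc
  have hcne : ∀ j, c j ≠ 0 := fun j => mem_support_iff.mp j.2
  choose a ha1 ha2 using fun j : f.support => hsupp j j.2
  set e : f.support → ℤ := fun j => ∑ i, a j i * lam i with he
  have heq : ∀ j : f.support, ((j : ℕ) : ℤ) = e j + b := fun j => by rw [ha2 j]; ring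
  have heinj : Function.Injective e := by
    intro i j hij
    apply Subtype.ext
    have h1 := heq i
    rw [hij, ← heq j] at h1
    exact_mod_cast h1
  have hlm : lm c e = Real.log M := by
    rw [hM, ← lm_support f, ← lm_shift c e b]
    congr 1
    funext j
    exact (heq j).symm
  have hlmpos : 0 < lm c e := by rw [hlm]; exact Real.log_pos hM1
  have hlmle : lm c e ≤ Real.log 2 := by
    rw [hlm]; exact Real.log_le_log (by linarith) hM2.le
  -- bootstrap
  have hboot : c6 / (2 * (V : ℝ) ^ 6) ≤ lm c e := by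
    rw [hlm]
    exact boot_aux c6 V k M hc6 (by exact_mod_cast hk1) (by exact_mod_cast hkW.trans hWV) hM1 hM2
      (hmon k f le_rfl hM1)
  -- the tower
  have hQ : 64 * d * L + 64 ≤ V ^ 16 := by
    calc 64 * d * L + 64 = 64 * (d * L) + 64 := by ring
      _ ≤ 64 * W + 64 := by omega
      _ ≤ 900 * V := by omega
      _ = 30 * 30 * V := by ring
      _ ≤ V * V * V := by gcongr
      _ = V ^ 3 := by ring
      _ ≤ V ^ 16 := Nat.pow_le_pow_right hV1 (by norm_num)
  obtain ⟨lam', hlam', hinj', hJ⟩ := htow f.support c d L a lam (AV V) (eV V) (V ^ 16) hd hL hcne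
    heinj ha1 (AV_ge_one hV1) (sum_coeff_le hV1 hcardι c hcne e heinj hlmle) (eV_pos hV1)
    (eV_le_one hV1) hQ
  set e' : f.support → ℤ := fun j => ∑ i, a j i * lam' i with he'
  have hE := error_le C0 hC0 hV30 (by
    have h1 : 0 < 2 / c6 := by positivity
    have h2 : 0 < 2 * 49 ^ 3 / cD := by positivity
    linarith) (hdW.trans hWV) (hLW.trans hWV)
  have hJ1 := lm_le_Jl V hV1 hcardι c hcne e heinj m (eV V) (eV_pos hV1)
  have hJ2 := Jl_le_lm V hV1 hcardι c hcne e heinj m (eV V) (eV_pos hV1)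
  have hJ3 := lm_le_Jl V hV1 hcardι c hcne e' hinj' m (eV V) (eV_pos hV1)
  have hJ4 := Jl_le_lm V hV1 hcardι c hcne e' hinj' m (eV V) (eV_pos hV1)
  have hJ5 := abs_le.mp hJ
  have hlow : lm c e - 1 / (V : ℝ) ^ 9 ≤ lm c e' := by linarith [hJ5.1, hJ5.2]
  have hupp : lm c e' - 1 / (V : ℝ) ^ 9 ≤ lm c e := by linarith [hJ5.1, hJ5.2]
  have hpos' : 0 < lm c e' := by
    have h1 := pos_aux c6 V hc6 hVR (by
      have h1 : 0 ≤ 74 * C0 := by positivity
      have h2 : 0 < 2 * 49 ^ 3 / cD := by positivity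
      linarith)
    linarith
  -- the polynomial attached to `e'`
  set s : ℤ := ((d * L * (V ^ 16) ^ (2 * d + 1) : ℕ) : ℤ) with hs
  have hbd : ∀ j, |e' j| ≤ s := by
    intro j
    calc |e' j| ≤ ∑ i, |a j i * lam' i| := Finset.abs_sum_le_sum_abs _ _
      _ ≤ ∑ _i : Fin d, (L : ℤ) * ((V ^ 16 : ℕ) : ℤ) ^ (2 * d + 1) := by
          refine Finset.sum_le_sum fun i _ => ?_
          rw [abs_mul]
          exact mul_le_mul (ha1 j i) (hlam' i) (abs_nonneg _) (by positivity)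
      _ = s := by
          rw [Finset.sum_const, Finset.card_univ, Fintype.card_fin, hs]
          push_cast
          ring
  have hs0 : ∀ j, 0 ≤ e' j + s := fun j => by
    have := (abs_le.mp (hbd j)).1
    linarith
  set g : ℤ[X] := ip c fun j => (e' j + s).toNat with hg
  have hgM : Real.log (g.map (Int.castRingHom ℂ)).mahlerMeasure = lm c e' := by
    rw [lm_eq_log c e' s hs0, ← ip_map, logMahlerMeasure_eq_log_MahlerMeasure]
  have hg1 : 1 < (g.map (Int.castRingHom ℂ)).mahlerMeasure := by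
    rw [← hgM] at hpos'
    by_contra hcon
    push Not at hcon
    have := Real.log_nonpos (mahlerMeasure_nonneg _) hcon
    linarith
  set n : ℕ := V ^ (49 * d) with hn
  have hgdeg : g.natDegree ≤ n := by
    apply ip_natDegree_le
    intro j
    have h1 := (abs_le.mp (hbd j)).2
    have h2 : e' j + s ≤ ((2 * (d * L) * (V ^ 16) ^ (2 * d + 1) : ℕ) : ℤ) := by
      have : ((2 * (d * L) * (V ^ 16) ^ (2 * d + 1) : ℕ) : ℤ) = 2 * s := by
        rw [hs]; push_cast; ring
      rw [this]; linarith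
    have h3 : (e' j + s).toNat ≤ 2 * (d * L) * (V ^ 16) ^ (2 * d + 1) := by
      rw [← toNat_cast hs0 j] at h2
      exact_mod_cast h2
    refine h3.trans ?_
    have h4 : 2 * (d * L) ≤ V := by
      calc 2 * (d * L) ≤ 30 * W := by omega
        _ ≤ K * W := Nat.mul_le_mul_right _ hK30
    calc 2 * (d * L) * (V ^ 16) ^ (2 * d + 1) ≤ V * (V ^ 16) ^ (2 * d + 1) := by gcongr
      _ = V ^ (1 + 16 * (2 * d + 1)) := by rw [← pow_mul, pow_add, pow_one]
      _ ≤ V ^ (49 * d) := Nat.pow_le_pow_right hV1 (by omega)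
  have hn3 : 3 ≤ n := by
    calc 3 ≤ V ^ 1 := by rw [pow_one]; omega
      _ ≤ n := Nat.pow_le_pow_right hV1 (by omega)
  have hdob := hDob g n hn3 hgdeg hg1
  rw [hgM] at hdob
  -- final numerics
  refine final_aux cD V W K d (Real.log n) _ (Real.log M) B (1 / (V : ℝ) ^ 9) hcD hVR
    (by exact_mod_cast hW3) (by linarith) (by exact_mod_cast hd)
    (by exact_mod_cast hdW.trans hWV) (by rw [hV]; push_cast; ring) hB ?_ ?_ ?_ le_rfl ?_
  · rw [hn]; push_cast; rw [Real.log_pow]; push_cast; ring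
  · push_cast; rw [Real.log_pow]
  · have h1 : 0 ≤ 74 * C0 := by positivity
    have h2 : 0 < 2 / c6 := by positivity
    linarith
  · rw [← hlm]; linarith

lemma ratio_cube_le_one (x : ℝ) (hx : 0 ≤ x) : (Real.log x / x) ^ 3 ≤ 1 := by
  have h1 : Real.log x / x ≤ 1 := by
    rcases hx.eq_or_lt with h | h
    · rw [← h]; simp
    · rw [div_le_one h]
      have := Real.log_le_sub_one_of_pos h
      linarith
  have h3 : Odd 3 := by decide
  calc (Real.log x / x) ^ 3 ≤ 1 ^ 3 := h3.strictMono_pow.monotone h1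
    _ = 1 := one_pow 3

/-- Dobrowolski's bound, uniform over generalised arithmetic progressions -/
theorem uniform_of_tower (hT : TowerStmt) : ∃ c : ℝ, 0 < c ∧ ∀ (d L : ℕ)
    (b : ℤ) (lam : Fin d → ℤ) (f : ℤ[X]),
    (∀ n ∈ f.support, ∃ a : Fin d → ℤ, (∀ i, |a i| ≤ L) ∧ (n : ℤ) = b + ∑ i, a i * lam i) →
    1 < (f.map (Int.castRingHom ℂ)).mahlerMeasure →
    c * (Real.log (Real.log (((d * L * f.support.card + 2) ^ d : ℕ) : ℝ)) /
      Real.log (((d * L * f.support.card + 2) ^ d : ℕ) : ℝ)) ^ 3 ≤ Real.log (f.map (Int.castRingHom ℂ)).mahlerMeasure := by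
  obtain ⟨c, hc, h⟩ := uniform_main hT
  set c' : ℝ := min c (Real.log 2) with hc'
  have hl2 : 0 < Real.log 2 := Real.log_pos (by norm_num)
  have hc'0 : 0 < c' := lt_min hc hl2
  refine ⟨c', hc'0, ?_⟩
  intro d L b lam f hsupp hM1
  have hf0 : f ≠ 0 := by
    rintro rfl
    rw [Polynomial.map_zero, mahlerMeasure_zero] at hM1
    linarith
  set x : ℝ := Real.log (((d * L * f.support.card + 2) ^ d : ℕ) : ℝ) with hx
  have hx0 : 0 ≤ x := by
    apply Real.log_nonneg
    exact_mod_cast Nat.one_le_pow _ _ (by omega)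
  have hone := ratio_cube_le_one x hx0
  -- the case `M ≥ 2`
  have hbig : 2 ≤ (f.map (Int.castRingHom ℂ)).mahlerMeasure → c' * (Real.log x / x) ^ 3 ≤ Real.log (f.map (Int.castRingHom ℂ)).mahlerMeasure := by
    intro h2
    calc c' * (Real.log x / x) ^ 3 ≤ c' * 1 := by gcongr
      _ ≤ Real.log 2 := by rw [mul_one]; exact min_le_right _ _
      _ ≤ Real.log (f.map (Int.castRingHom ℂ)).mahlerMeasure := Real.log_le_log (by norm_num) h2
  by_cases h2 : 2 ≤ (f.map (Int.castRingHom ℂ)).mahlerMeasure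
  · exact hbig h2
  by_cases hdL : 1 ≤ d ∧ 1 ≤ L
  · have h1 := h d L hdL.1 hdL.2 b lam f hsupp hM1 (by linarith)
    by_cases hr : 0 ≤ (Real.log x / x) ^ 3
    · exact le_trans (mul_le_mul_of_nonneg_right (min_le_left _ _) hr) h1
    · push Not at hr
      have := Real.log_pos hM1
      nlinarith
  · exfalso
    apply h2
    have hb : ∀ n ∈ f.support, (n : ℤ) = b := by
      intro n hn
      obtain ⟨a, ha, hn'⟩ := hsupp n hn
      rw [hn']
      have : ∑ i, a i * lam i = 0 := by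
        rcases Nat.eq_zero_or_pos d with hd | hd
        · subst hd; simp
        · have hL : L = 0 := by
            by_contra hL
            exact hdL ⟨hd, Nat.pos_of_ne_zero hL⟩
          apply Finset.sum_eq_zero
          intro i _
          have h1 := ha i
          rw [hL] at h1
          have h2 : a i = 0 := by simpa using h1
          rw [h2, zero_mul]
      rw [this, add_zero]
    have hcard : f.support.card ≤ 1 := by
      rw [Finset.card_le_one]
      intro n hn m hm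
      have : (n : ℤ) = m := by rw [hb n hn, hb m hm]
      exact_mod_cast this
    have hfm := monomial_natDegree_leadingCoeff_eq_self hcard
    have hlog : Real.log (f.map (Int.castRingHom ℂ)).mahlerMeasure = Real.log |(f.leadingCoeff : ℝ)| := by
      rw [← logMahlerMeasure_eq_log_MahlerMeasure]
      conv_lhs => rw [← hfm, Polynomial.map_monomial, logMahlerMeasure_monomial]
      rw [eq_intCast, Complex.norm_intCast]
    have hlc : 0 < |(f.leadingCoeff : ℝ)| :=
      abs_pos.mpr (by exact_mod_cast leadingCoeff_ne_zero.mpr hf0)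
    have hM' : (f.map (Int.castRingHom ℂ)).mahlerMeasure = |(f.leadingCoeff : ℝ)| :=
      Real.log_injOn_pos (Set.mem_Ioi.mpr (by linarith)) (Set.mem_Ioi.mpr hlc) hlog
    rw [hM'] at hM1 ⊢
    have h1 : (1 : ℤ) < |f.leadingCoeff| := by exact_mod_cast hM1
    have h3 : (2 : ℤ) ≤ |f.leadingCoeff| := h1
    exact_mod_cast h3

lemma cube_aux (c k : ℝ) (hc : 0 < c) (hk : 1 ≤ k) :
    c / 27000 / k ^ 3 ≤
      c * (Real.log (k * Real.log (k * k + 2)) / (k * Real.log (k * k + 2))) ^ 3 := by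
  have hk0 : 0 < k := by linarith
  have hlk : 0 ≤ Real.log k := Real.log_nonneg hk
  have h3 : 1 ≤ Real.log 3 := by
    rw [Real.le_log_iff_exp_le (by norm_num)]
    have := Real.exp_one_lt_three
    linarith
  -- `log 3 ≥ 1.09`
  have h3' : (1.09 : ℝ) ≤ Real.log 3 := by
    have h1 : Real.log 3 = Real.log 2 + Real.log (3 / 2) := by
      rw [← Real.log_mul (by norm_num) (by norm_num)]; norm_num
    have h2 := Real.log_two_gt_d9
    have h4 : Real.log (3 / 2) = -Real.log (2 / 3) := by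
      rw [← Real.log_inv]; norm_num
    have h5 : Real.log (3 / 2) = 2 * Real.log 3 / 2 - Real.log 2 := by
      rw [Real.log_div (by norm_num) (by norm_num)]; ring
    -- use `log (9/8) ≥ 1 - 8/9`, `2 log 3 = log (9/8) + 3 log 2`
    have h6 : 2 * Real.log 3 = Real.log (9 / 8) + 3 * Real.log 2 := by
      rw [Real.log_div (by norm_num) (by norm_num),
        show (9 : ℝ) = 3 ^ 2 by norm_num, show (8 : ℝ) = 2 ^ 3 by norm_num, Real.log_pow,
        Real.log_pow]
      push_cast; ring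
    have h7 := Real.one_sub_inv_le_log_of_pos (show (0 : ℝ) < 9 / 8 by norm_num)
    have h8 : (1 : ℝ) - (9 / 8)⁻¹ = 1 / 9 := by norm_num
    rw [h8] at h7
    linarith
  have hl1 : Real.log 3 ≤ Real.log (k * k + 2) :=
    Real.log_le_log (by norm_num) (by nlinarith)
  have hl0 : 0 < Real.log (k * k + 2) := by linarith
  have hl2 : Real.log (k * k + 2) ≤ 2 * Real.log k + 2 := by
    have h1 : k * k + 2 ≤ 3 * k ^ 2 := by nlinarith
    have h2 := Real.log_le_log (by positivity) h1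
    rw [Real.log_mul (by norm_num) (by positivity), Real.log_pow] at h2
    push_cast at h2
    have h4 : Real.log 3 ≤ 2 := by
      have := Real.log_le_sub_one_of_pos (show (0 : ℝ) < 3 by norm_num); linarith
    linarith
  have hloglog : (0.08 : ℝ) ≤ Real.log (Real.log (k * k + 2)) := by
    have h1 : (1.09 : ℝ) ≤ Real.log (k * k + 2) := by linarith
    have h2 := Real.log_le_log (by norm_num) h1
    have h7 := Real.one_sub_inv_le_log_of_pos (show (0 : ℝ) < 1.09 by norm_num)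
    have h8 : (0.08 : ℝ) ≤ (1 : ℝ) - (1.09)⁻¹ := by norm_num
    linarith
  have hr : 1 / (30 * k) ≤
      Real.log (k * Real.log (k * k + 2)) / (k * Real.log (k * k + 2)) := by
    rw [Real.log_mul hk0.ne' hl0.ne', div_le_div_iff₀ (by positivity) (by positivity)]
    have h2 : Real.log (k * k + 2) ≤ 30 * (Real.log k + Real.log (Real.log (k * k + 2))) := by
      linarith
    calc 1 * (k * Real.log (k * k + 2)) = k * Real.log (k * k + 2) := by ring
      _ ≤ k * (30 * (Real.log k + Real.log (Real.log (k * k + 2)))) := by gcongr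
      _ = (Real.log k + Real.log (Real.log (k * k + 2))) * (30 * k) := by ring
  calc c / 27000 / k ^ 3 = c * (1 / (30 * k)) ^ 3 := by field_simp; ring
    _ ≤ _ := by gcongr

/-- the cubic bound in terms of the number of monomials -/
theorem cubic_of_uniform (hU : ∃ c : ℝ, 0 < c ∧ ∀ (d L : ℕ)
    (b : ℤ) (lam : Fin d → ℤ) (f : ℤ[X]),
    (∀ n ∈ f.support, ∃ a : Fin d → ℤ, (∀ i, |a i| ≤ L) ∧ (n : ℤ) = b + ∑ i, a i * lam i) →
    1 < (f.map (Int.castRingHom ℂ)).mahlerMeasure →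
    c * (Real.log (Real.log (((d * L * f.support.card + 2) ^ d : ℕ) : ℝ)) /
      Real.log (((d * L * f.support.card + 2) ^ d : ℕ) : ℝ)) ^ 3 ≤ Real.log (f.map (Int.castRingHom ℂ)).mahlerMeasure) :
    ∃ c : ℝ, 0 < c ∧ ∀ f : ℤ[X], 1 < (f.map (Int.castRingHom ℂ)).mahlerMeasure → 1 + c / (f.support.card : ℝ) ^ 3 ≤ (f.map (Int.castRingHom ℂ)).mahlerMeasure := by
  obtain ⟨c, hc, h⟩ := hU
  refine ⟨c / 27000, by positivity, ?_⟩
  intro f hM1
  have hf0 : f ≠ 0 := by
    rintro rfl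
    rw [Polynomial.map_zero, mahlerMeasure_zero] at hM1
    linarith
  have hk1 : 1 ≤ f.support.card := Finset.card_pos.mpr (support_nonempty.mpr hf0)
  have h1 := h f.support.card 1 0 (fun i => (((f.support.equivFin.symm i : f.support) : ℕ) : ℤ)) f
    (fun n hn => ⟨Pi.single (f.support.equivFin ⟨n, hn⟩) 1, fun i => by
      by_cases hi : i = f.support.equivFin ⟨n, hn⟩
      · rw [hi]; simp
      · rw [Pi.single_eq_of_ne hi]; simp, by
      rw [zero_add, Finset.sum_eq_single (f.support.equivFin ⟨n, hn⟩)]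
      · simp
      · intro i _ hi
        rw [Pi.single_eq_of_ne hi, zero_mul]
      · intro hh; exact absurd (Finset.mem_univ _) hh⟩) hM1
  have h2 := cube_aux c f.support.card hc (by exact_mod_cast hk1)
  have h3 : Real.log (((f.support.card * 1 * f.support.card + 2) ^ f.support.card : ℕ) : ℝ) =
      f.support.card * Real.log (f.support.card * f.support.card + 2) := by
    push_cast
    rw [Real.log_pow, mul_one]
  rw [h3] at h1
  have h4 := Real.log_le_sub_one_of_pos (show 0 < (f.map (Int.castRingHom ℂ)).mahlerMeasure by linarith)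
  linarith

theorem uniform_dobrowolski : ∃ c : ℝ, 0 < c ∧ ∀ (d L : ℕ)
    (b : ℤ) (lam : Fin d → ℤ) (f : ℤ[X]),
    (∀ n ∈ f.support, ∃ a : Fin d → ℤ, (∀ i, |a i| ≤ L) ∧ (n : ℤ) = b + ∑ i, a i * lam i) →
    1 < (f.map (Int.castRingHom ℂ)).mahlerMeasure →
    c * (Real.log (Real.log (((d * L * f.support.card + 2) ^ d : ℕ) : ℝ)) /
      Real.log (((d * L * f.support.card + 2) ^ d : ℕ) : ℝ)) ^ 3 ≤ Real.log (f.map (Int.castRingHom ℂ)).mahlerMeasure :=
  uniform_of_tower towerStmt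

theorem monomial_cubic : ∃ c : ℝ, 0 < c ∧ ∀ f : ℤ[X], 1 < (f.map (Int.castRingHom ℂ)).mahlerMeasure →
    1 + c / (f.support.card : ℝ) ^ 3 ≤ (f.map (Int.castRingHom ℂ)).mahlerMeasure :=
  cubic_of_uniform uniform_dobrowolski

end Pool.Agent.Lib.MP_7ab245_nt.Mono
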