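import Mathlib
import Pool.Agent.Lib.MP_7ab245_nt.Mono.LineCount

/-!
The line lemma, improved: only `8 S < t` is needed.
-/

set_option autoImplicit false

open Polynomial Real

namespace Pool.Agent.Lib.MP_7ab245_nt.Mono

variable {ι : Type} [Fintype ι]

/-- zeros all of whose blocks are horizontal are zeros of the top level -/
lemma horizontal_dvd (κ : ℕ) (hcard : Fintype.card ι ≤ κ) (c : ι → ℤ) (p : ι → ℕ) (ρ : ι → ℤ)
    (t : ℤ) (s : ℤ) (hs : ∀ j, 0 ≤ (t * p j + ρ j) + s) {z : ℂ} {m : ℕ} (hm : 0 < m)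
    (hz : IsPrimitiveRoot z m) {A : ℕ}
    (h : (X - C z) ^ A ∣ lp (fun j => (c j : ℂ)) fun j => ((t * p j + ρ j) + s).toNat)
    (hhor : ∀ i j, ((m / Nat.gcd m κ.factorial : ℕ) : ℤ) ∣
      (t * p i + ρ i) - (t * p j + ρ j) → p i = p j) (W : ℕ) (s' : ℤ)
    (hs' : ∀ j : {j : ι // p j = W}, 0 ≤ ρ j + s') :
    (X - C z) ^ A ∣ lp (fun j : {j : ι // p j = W} => ((c j : ℤ) : ℂ))
      fun j => (ρ j + s').toNat := by
  classical
  have hz0 : z ≠ 0 := hz.ne_zero hm.ne'
  set e : ι → ℤ := fun j => t * p j + ρ j with he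
  set d : ℕ := m / Nat.gcd m κ.factorial with hdd
  apply dvd_of_weight (fun j : {j : ι // p j = W} => ((c j : ℤ) : ℂ))
    (fun j : {j : ι // p j = W} => ρ j) s' hs' hz0
  intro φ hφ
  -- transport the weight
  set L : ℂ[X] := X - C ((t : ℂ) * W) with hL
  have hψ : (φ.comp L).degree < A := by
    rcases eq_or_ne φ 0 with h0 | h0
    · simp [h0]
    · have h1 : (φ.comp L).natDegree ≤ φ.natDegree := by
        refine natDegree_comp_le.trans ?_
        have : L.natDegree ≤ 1 := by rw [hL]; exact (natDegree_X_sub_C _).le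
        calc φ.natDegree * L.natDegree ≤ φ.natDegree * 1 := Nat.mul_le_mul_left _ this
          _ = _ := mul_one _
      refine lt_of_le_of_lt degree_le_natDegree ?_
      refine lt_of_le_of_lt ?_ hφ
      rw [degree_eq_natDegree h0]
      exact_mod_cast h1
  have key : ∑ j with p j = W, (c j : ℂ) * (φ.comp L).eval (e j : ℂ) * z ^ (e j) = 0 := by
    rw [← Finset.sum_fiberwise_of_maps_to (s := Finset.univ.filter fun j => p j = W)
      (t := (Finset.univ.filter fun j => p j = W).image fun j => e j % d) (g := fun j => e j % d)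
      (fun j hj => Finset.mem_image_of_mem _ hj)]
    apply Finset.sum_eq_zero
    intro v hv
    obtain ⟨b₀, hb₀, rfl⟩ := Finset.mem_image.mp hv
    have hb₀' : p b₀ = W := (Finset.mem_filter.mp hb₀).2
    have hfilter : ((Finset.univ.filter fun j => p j = W).filter
        fun j => e j % (d : ℤ) = e b₀ % (d : ℤ)) =
        Finset.univ.filter fun j => (d : ℤ) ∣ e j - e b₀ := by
      ext j
      simp only [Finset.mem_filter, Finset.mem_univ, true_and]
      constructor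
      · rintro ⟨_, h1⟩
        exact Int.dvd_of_emod_eq_zero (Int.emod_eq_emod_iff_emod_sub_eq_zero.mp h1)
      · intro h1
        refine ⟨?_, Int.emod_eq_emod_iff_emod_sub_eq_zero.mpr (Int.emod_eq_zero_of_dvd h1)⟩
        rw [hhor j b₀ h1, hb₀']
    rw [hfilter]
    exact block_weight κ hcard c e s hs hm hz h (φ.comp L) hψ (e b₀)
  rw [Finset.sum_subtype (Finset.univ.filter fun j => p j = W) (p := fun j => p j = W)
    (fun j => by simp)] at key
  have h2 : ∑ j : {j : ι // p j = W}, ((c j : ℤ) : ℂ) * φ.eval ((ρ j : ℤ) : ℂ) * z ^ (ρ j) =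
      z ^ (-(t * W)) * ∑ j : {j : ι // p j = W},
        (c j : ℂ) * (φ.comp L).eval (e j : ℂ) * z ^ (e j) := by
    rw [Finset.mul_sum]
    refine Finset.sum_congr rfl fun j _ => ?_
    have h3 : p (j : ι) = W := j.2
    have h4 : (φ.comp L).eval (e j : ℂ) = φ.eval ((ρ j : ℤ) : ℂ) := by
      rw [eval_comp, hL, eval_sub, eval_X, eval_C]
      congr 1
      simp only [he, h3]
      push_cast
      ring
    have h5 : z ^ (ρ (j : ι)) = z ^ (-(t * W)) * z ^ (e j) := by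
      rw [← zpow_add₀ hz0]
      congr 1
      simp only [he, h3]
      ring
    rw [h4, h5]
    ring
  rw [h2, key, mul_zero]

lemma total_le' (Z : Finset ℂ) (P Q : ℂ → Prop) [DecidablePred P] [DecidablePred Q]
    [DecidablePred fun z => ¬ P z ∧ ¬ Q z] [DecidablePred fun z => ¬ P z ∧ Q z] (m : ℂ → ℕ)
    (κ : ℕ) (hm : ∀ z ∈ Z, m z ≤ κ) :
    ∑ z ∈ Z, (m z : ℝ) ≤ κ * (Z.filter P).card + ∑ z ∈ Z.filter (fun z => ¬ P z ∧ Q z), (m z : ℝ) +
      ∑ z ∈ Z.filter (fun z => ¬ P z ∧ ¬ Q z), (m z : ℝ) := by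
  have h1 : ∑ z ∈ Z, (m z : ℝ) ≤ ∑ z ∈ Z.filter P, (m z : ℝ) +
      ∑ z ∈ Z.filter (fun z => ¬ P z ∧ Q z), (m z : ℝ) +
      ∑ z ∈ Z.filter (fun z => ¬ P z ∧ ¬ Q z), (m z : ℝ) := by
    rw [Finset.sum_filter, Finset.sum_filter, Finset.sum_filter, ← Finset.sum_add_distrib,
      ← Finset.sum_add_distrib]
    refine Finset.sum_le_sum fun z _ => ?_
    have hm0 : (0 : ℝ) ≤ m z := Nat.cast_nonneg _
    by_cases h1 : P z
    · by_cases h2 : Q z
      · simp [h1, h2]
      · simp [h1, h2]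
    · by_cases h2 : Q z
      · simp [h1, h2]
      · simp [h1, h2]
  have h3 : ∑ z ∈ Z.filter P, (m z : ℝ) ≤ κ * (Z.filter P).card := by
    calc ∑ z ∈ Z.filter P, (m z : ℝ) ≤ ∑ z ∈ Z.filter P, (κ : ℝ) := by
          refine Finset.sum_le_sum fun z hz => ?_
          exact_mod_cast hm z (Finset.mem_filter.mp hz).1
      _ = _ := by rw [Finset.sum_const, nsmul_eq_mul, mul_comm]
  linarith

/-- The line lemma. -/
theorem line_nat' [Nonempty ι] (κ : ℕ) (hcard : Fintype.card ι ≤ κ) (c : ι → ℤ)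
    (hc : ∀ j, c j ≠ 0) (p : ι → ℕ) (ρ : ι → ℤ) (hinj : Function.Injective fun j => (p j, ρ j))
    (S : ℤ) (W : ℕ) (hS : ∀ j, |ρ j| ≤ S) (hpW : ∀ j, p j ≤ W) (h0 : ∃ j, p j = 0)
    (hW : ∃ j, p j = W) (t : ℤ) (ht : 8 * S < t)
    (hgood : ∀ i j i' j', (ρ i - ρ j) * ((p i' : ℤ) - p j') ≠ (ρ i' - ρ j') * ((p i : ℤ) - p j) →
      4 * κ ^ 5 * κ.factorial *
        (Int.gcd ((t * p i + ρ i) - (t * p j + ρ j))
          ((t * p i' + ρ i') - (t * p j' + ρ j')) : ℤ) ≤ t)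
    (h : lm c (fun j => t * p j + ρ j) = 0) (τ : ℤ) (hτ : 2 * S < τ) :
    lm c (fun j => τ * p j + ρ j) = 0 := by
  classical
  have hκ : 0 < κ := lt_of_lt_of_le Fintype.card_pos hcard
  have hS0 : 0 ≤ S := by
    obtain ⟨j⟩ := ‹Nonempty ι›
    exact le_trans (abs_nonneg _) (hS j)
  have ht2 : 2 * S < t := by linarith
  have ht0 : 0 < t := by linarith
  -- injectivity
  have he : Function.Injective fun j => t * (p j : ℤ) + ρ j := by
    intro i j hij
    simp only at hij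
    have h1 : t * ((p i : ℤ) - p j) = ρ j - ρ i := by linarith
    have h2 := abs_le.mp (hS i)
    have h3 := abs_le.mp (hS j)
    have h4 : (p i : ℤ) - p j = 0 := by
      by_contra hne
      have h5 : 1 ≤ |(p i : ℤ) - p j| := Int.one_le_abs hne
      have h6 : |t * ((p i : ℤ) - p j)| ≤ 2 * S := by
        rw [h1, abs_le]; constructor <;> linarith [h2.1, h2.2, h3.1, h3.2]
      rw [abs_mul, abs_of_pos ht0] at h6
      nlinarith
    have h5 : p i = p j := by
      have : (p i : ℤ) = p j := by linarith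
      exact_mod_cast this
    apply hinj
    rw [h4, mul_zero] at h1
    simp only [h5, Prod.mk.injEq, true_and]
    linarith
  obtain ⟨s, hs, hF0, hroots, hspan⟩ := zeros_of_lm_zero c hc _ he h
  set F : ℂ[X] := lp (fun j => (c j : ℂ)) fun j => ((t * (p j : ℤ) + ρ j) + s).toNat with hF
  have hcC : ∀ j, ((c j : ℤ) : ℂ) ≠ 0 := fun j => by exact_mod_cast hc j
  set Z := F.roots.toFinset with hZ
  set mult : ℂ → ℕ := fun z => F.rootMultiplicity z with hmult
  have hmemZ : ∀ z ∈ Z, z ∈ F.roots := fun z hz => Multiset.mem_toFinset.mp hz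
  have hord : ∀ z ∈ Z, 0 < orderOf z := by
    intro z hz
    obtain ⟨_, n, hn, hn1⟩ := hroots z (hmemZ z hz)
    exact orderOf_pos_iff.mpr (isOfFinOrder_iff_pow_eq_one.mpr ⟨n, hn, hn1⟩)
  have hprim : ∀ z : ℂ, IsPrimitiveRoot z (orderOf z) := fun z => IsPrimitiveRoot.orderOf z
  have hmulpos : ∀ z ∈ Z, 0 < mult z := by
    intro z hz
    rw [hmult]
    exact (rootMultiplicity_pos hF0).mpr (isRoot_of_mem_roots (hmemZ z hz))
  have hdvd : ∀ z, (X - C z) ^ mult z ∣ F := fun z => pow_rootMultiplicity_dvd F z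
  have hmullt : ∀ z ∈ Z, mult z ≤ κ := by
    intro z hz
    have h1 := mult_lt_card (fun j => (c j : ℂ)) hcC _ he s hs (hroots z (hmemZ z hz)).1
      (hdvd z)
    omega
  have hsumZ : (Multiset.card F.roots : ℕ) = ∑ z ∈ Z, mult z := by
    rw [hZ, ← Multiset.toFinset_sum_count_eq]
    exact Finset.sum_congr rfl fun z _ => (count_roots F)
  -- the three classes
  set PI : ℂ → Prop := fun z => ∃ i j i' j', dd κ z ∣ (t * p i + ρ i) - (t * p j + ρ j) ∧
      dd κ z ∣ (t * p i' + ρ i') - (t * p j' + ρ j') ∧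
      (ρ i - ρ j) * ((p i' : ℤ) - p j') ≠ (ρ i' - ρ j') * ((p i : ℤ) - p j) with hPI
  set P0 : ℂ → Prop := fun z =>
    ∃ i j, i ≠ j ∧ dd κ z ∣ (t * p i + ρ i) - (t * p j + ρ j) ∧ p i = p j with hP0
  have hcI := count_I κ hκ hcard p ρ t ht0.le he hgood (Z.filter PI)
    (fun z hz => hord z (Finset.mem_filter.mp hz).1) (fun z hz => (Finset.mem_filter.mp hz).2)
  -- horizontal zeros
  set ZH := Z.filter (fun z => ¬ PI z ∧ P0 z) with hZH
  have hcH : ∑ z ∈ ZH, (mult z : ℝ) ≤ 2 * S := by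
    obtain ⟨jW, hjW⟩ := hW
    have : Nonempty {j : ι // p j = W} := ⟨⟨jW, hjW⟩⟩
    obtain ⟨s', hs', j₁, hj₁⟩ := exists_shift (fun j : {j : ι // p j = W} => ρ j)
    set F' : ℂ[X] := lp (fun j : {j : ι // p j = W} => ((c j : ℤ) : ℂ))
      (fun j => (ρ j + s').toNat) with hF'
    have hinj' : Function.Injective fun j : {j : ι // p j = W} => ρ j := by
      intro i j hij
      apply Subtype.ext
      apply hinj
      simp only [Prod.mk.injEq]
      exact ⟨i.2.trans j.2.symm, hij⟩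
    have hF'0 : F' ≠ 0 := lp_ne_zero (fun j : {j : ι // p j = W} => ((c j : ℤ) : ℂ))
      (fun j => hcC j) (fun j => (ρ j + s').toNat) (toNat_injective hinj' hs')
    have hdeg : F'.natDegree ≤ (2 * S).toNat := by
      apply lp_natDegree_le
      intro j
      have h1 := abs_le.mp (hS j)
      have h2 := abs_le.mp (hS j₁)
      have h3 : ρ j + s' ≤ 2 * S := by linarith [h1.2, h2.1]
      omega
    have hZHroot : ∀ z ∈ ZH, mult z ≤ F'.rootMultiplicity z := by
      intro z hz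
      have hz' := Finset.mem_filter.mp hz
      have h1 : ¬ PI z := hz'.2.1
      obtain ⟨i₀, j₀, hij₀, hd₀, hp₀⟩ := hz'.2.2
      rw [le_rootMultiplicity_iff hF'0]
      refine horizontal_dvd κ hcard c p ρ t s hs (hord z hz'.1) (hprim z) (hdvd z) ?_ W s' hs'
      intro i j hd
      by_contra hne
      apply h1
      refine ⟨i₀, j₀, i, j, hd₀, hd, ?_⟩
      have hρ : ρ i₀ - ρ j₀ ≠ 0 := by
        intro h0
        apply hij₀
        apply hinj
        simp only [Prod.mk.injEq]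
        exact ⟨hp₀, by linarith⟩
      have hpp : (p i : ℤ) - p j ≠ 0 := by
        intro h0
        apply hne
        have : (p i : ℤ) = p j := by linarith
        exact_mod_cast this
      rw [hp₀, sub_self, mul_zero]
      exact mul_ne_zero hρ hpp
    have h1 : ∑ z ∈ ZH, mult z ≤ (2 * S).toNat := by
      calc ∑ z ∈ ZH, mult z ≤ ∑ z ∈ ZH, F'.rootMultiplicity z := Finset.sum_le_sum hZHroot
        _ ≤ ∑ z ∈ F'.roots.toFinset, F'.rootMultiplicity z := by
            apply Finset.sum_le_sum_of_subset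
            intro z hz
            rw [Multiset.mem_toFinset, mem_roots hF'0, ← rootMultiplicity_pos hF'0]
            exact lt_of_lt_of_le (hmulpos z (Finset.mem_filter.mp hz).1) (hZHroot z hz)
        _ = Multiset.card F'.roots := by
            rw [← Multiset.toFinset_sum_count_eq]
            exact Finset.sum_congr rfl fun z _ => (count_roots F').symm
        _ ≤ F'.natDegree := card_roots' F'
        _ ≤ (2 * S).toNat := hdeg
    have h2 : ((2 * S).toNat : ℤ) = 2 * S := Int.toNat_of_nonneg (by linarith)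
    have h3 : ((∑ z ∈ ZH, mult z : ℕ) : ℤ) ≤ 2 * S := by
      rw [← h2]; exact_mod_cast h1
    exact_mod_cast h3
  set Z2 := Z.filter (fun z => ¬ PI z ∧ ¬ P0 z) with hZ2
  -- directions
  have hdir : ∀ z : ℂ, ∃ (a : ℤ) (b : ℕ), z ∈ Z2 → (0 < b ∧ Int.gcd a b = 1 ∧ |a| ≤ 2 * S ∧
      ∀ i j, ((orderOf z / Nat.gcd (orderOf z) κ.factorial : ℕ) : ℤ) ∣
        (t * p i + ρ i) - (t * p j + ρ j) →
        ∃ u : ℤ, ρ i - ρ j = u * a ∧ (p i : ℤ) - p j = u * b) := by
    intro z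
    by_cases hz : z ∈ Z2
    · have hz' := Finset.mem_filter.mp hz
      have h1 : ¬ PI z := hz'.2.1
      have h2 : ¬ P0 z := hz'.2.2
      obtain ⟨a, b, hab⟩ := exists_direction κ hcard c hc p ρ S hS t s hs (hord z hz'.1)
        (hprim z) (hmulpos z hz'.1) (hdvd z)
        (by
          intro i j i' j' hd hd'
          by_contra hne
          exact h1 ⟨i, j, i', j', hd, hd', hne⟩)
        (by
          intro i j hij hd hpp
          exact h2 ⟨i, j, hij, hd, hpp⟩)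
      exact ⟨a, b, fun _ => hab⟩
    · exact ⟨0, 0, fun h => absurd h hz⟩
  choose a b hab using hdir
  set Tz : ℂ → Tri := fun z => (a z, b z, z ^ ((b z : ℤ) * t + a z)) with hTz
  set 𝒯 : Finset Tri := Z2.image Tz with h𝒯
  set μ : Tri → ℕ := fun T => (Z2.filter fun z => Tz z = T).sup mult with hμ
  have hrep : ∀ T ∈ 𝒯, ∃ z ∈ Z2, Tz z = T ∧ μ T = mult z := by
    intro T hT
    obtain ⟨z, hz, hzT⟩ := Finset.mem_image.mp hT
    have hne : (Z2.filter fun z => Tz z = T).Nonempty := ⟨z, Finset.mem_filter.mpr ⟨hz, hzT⟩⟩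
    obtain ⟨z', hz', hsup⟩ := Finset.exists_mem_eq_sup _ hne mult
    exact ⟨z', (Finset.mem_filter.mp hz').1, (Finset.mem_filter.mp hz').2, hsup⟩
  have hb : ∀ T ∈ 𝒯, 0 < T.2.1 := by
    intro T hT
    obtain ⟨z, hz, rfl, _⟩ := hrep T hT
    exact (hab z hz).1
  have hg : ∀ T ∈ 𝒯, Int.gcd T.1 T.2.1 = 1 := by
    intro T hT
    obtain ⟨z, hz, rfl, _⟩ := hrep T hT
    exact (hab z hz).2.1
  have ha : ∀ T ∈ 𝒯, |T.1| ≤ 2 * S := by
    intro T hT
    obtain ⟨z, hz, rfl, _⟩ := hrep T hT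
    exact (hab z hz).2.2.1
  have hw : ∀ T ∈ 𝒯, ‖T.2.2‖ = 1 := by
    intro T hT
    obtain ⟨z, hz, rfl, _⟩ := hrep T hT
    have h1 := norm_one_of_prim (hord z (Finset.mem_filter.mp hz).1) (hprim z)
    simp only [hTz]
    rw [norm_zpow, h1, one_zpow]
  have hpos : ∀ T ∈ 𝒯, 0 < (T.2.1 : ℤ) * t + T.1 := by
    intro T hT
    have h1 := (abs_le.mp (ha T hT)).1
    have h2 : (1 : ℤ) ≤ T.2.1 := by exact_mod_cast hb T hT
    nlinarith
  have hdiv : ∀ T ∈ 𝒯, ∀ R : ℝ, 1 < R → ∀ y : ℂ, (R : ℂ) ^ T.1 * y ^ T.2.1 = T.2.2 →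
      (X - C y) ^ μ T ∣ GR c p ρ R := by
    intro T hT R hR y hy
    obtain ⟨z, hz, hzT, hμz⟩ := hrep T hT
    have hz' := Finset.mem_filter.mp hz
    rw [hμz]
    have hTp := hpos T hT
    subst hzT
    exact typeII_dvd κ hcard c p ρ t s hs (hord z hz'.1) (hprim z) (hdvd z) (a z) (b z)
      (hab z hz).1 hTp (hab z hz).2.2.2 hR y hy
  -- the count of zeros of parallel type
  have hc2 : ∑ z ∈ Z2, (mult z : ℤ) ≤ ∑ T ∈ 𝒯, (μ T : ℤ) * ((T.2.1 : ℤ) * t + T.1) := by
    rw [← Finset.sum_fiberwise_of_maps_to (s := Z2) (t := 𝒯) (g := Tz)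
      (fun z hz => Finset.mem_image_of_mem _ hz)]
    refine Finset.sum_le_sum fun T hT => ?_
    have h1 : ∀ z ∈ Z2.filter (fun z => Tz z = T), (mult z : ℤ) ≤ μ T := by
      intro z hz
      have : mult z ≤ μ T := Finset.le_sup (f := mult) hz
      exact_mod_cast this
    have h2 : ((Z2.filter fun z => Tz z = T).card : ℤ) ≤ (T.2.1 : ℤ) * t + T.1 := by
      have hTp := hpos T hT
      set N := ((T.2.1 : ℤ) * t + T.1).toNat with hN
      have hNc : (N : ℤ) = (T.2.1 : ℤ) * t + T.1 := Int.toNat_of_nonneg hTp.le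
      have h3 : (Z2.filter fun z => Tz z = T) ⊆ Z2.filter fun z => z ^ N = T.2.2 := by
        intro z hz
        rw [Finset.mem_filter] at hz ⊢
        refine ⟨hz.1, ?_⟩
        have h4 := hz.2
        rw [← zpow_natCast, hNc, ← h4]
      have h4 := card_pow_eq_le Z2 (N := N) (by omega) T.2.2
      have h5 := (Finset.card_le_card h3).trans h4
      rw [← hNc]
      exact_mod_cast h5
    calc ∑ z ∈ Z2 with Tz z = T, (mult z : ℤ) ≤ ∑ z ∈ Z2 with Tz z = T, (μ T : ℤ) :=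
          Finset.sum_le_sum h1
      _ = ((Z2.filter fun z => Tz z = T).card : ℤ) * μ T := by
          rw [Finset.sum_const, nsmul_eq_mul]
      _ ≤ ((T.2.1 : ℤ) * t + T.1) * μ T := by gcongr
      _ = _ := by ring
  have hsa := core_sum_a c hc p ρ hinj S hS h0 𝒯 μ hb hg hw hdiv
  obtain ⟨hsb, _⟩ := core_sum_b c hc p ρ hinj W hpW hW 𝒯 μ hb hg hw hdiv
  set B : ℕ := ∑ T ∈ 𝒯, μ T * T.2.1 with hB
  have hc2' : ∑ z ∈ Z2, (mult z : ℤ) ≤ t * B + 2 * S := by
    refine hc2.trans ?_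
    have h1 : ∑ T ∈ 𝒯, (μ T : ℤ) * ((T.2.1 : ℤ) * t + T.1) =
        t * B + ∑ T ∈ 𝒯, (μ T : ℤ) * T.1 := by
      rw [hB]
      push_cast
      rw [Finset.mul_sum, ← Finset.sum_add_distrib]
      exact Finset.sum_congr rfl fun T _ => by ring
    rw [h1]
    linarith
  -- total
  have htotal : ∑ z ∈ Z, (mult z : ℝ) ≤ κ * (Z.filter PI).card + ∑ z ∈ ZH, (mult z : ℝ) +
      ∑ z ∈ Z2, (mult z : ℝ) := total_le' Z PI P0 mult κ hmullt
  have hlow : (t : ℝ) * W - 2 * S ≤ ∑ z ∈ Z, (mult z : ℝ) := by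
    obtain ⟨i, hi⟩ := hW
    obtain ⟨j, hj⟩ := h0
    have h1 := hspan i j
    rw [hsumZ, hi, hj] at h1
    have h2 := abs_le.mp (hS i)
    have h3 := abs_le.mp (hS j)
    have h4 : t * (W : ℤ) - 2 * S ≤ ((∑ z ∈ Z, mult z : ℕ) : ℤ) := by
      push_cast at h1 ⊢
      linarith [h2.1, h3.2]
    exact_mod_cast h4
  have hBW : B = W := by
    by_contra hne
    have hBlt : B + 1 ≤ W := by omega
    have hBR : (B : ℝ) + 1 ≤ W := by exact_mod_cast hBlt
    have hc2R : ∑ z ∈ Z2, (mult z : ℝ) ≤ t * B + 2 * S := by exact_mod_cast hc2'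
    have htR : (0 : ℝ) < t := by exact_mod_cast ht0
    have hSR : (0 : ℝ) ≤ S := by exact_mod_cast hS0
    have htbig : 8 * (S : ℝ) < t := by exact_mod_cast ht
    have e1 : (κ : ℝ) * (Z.filter PI).card ≤ t / 4 := by linarith
    have e4 : (t : ℝ) * (B + 1) ≤ t * W := by gcongr
    nlinarith
  have hconst := core_const c hc p ρ hinj S W hpW hW 𝒯 μ hb hg hw ha hdiv hBW
  rw [hconst τ hτ, ← hconst t ht2]
  exact h

end Pool.Agent.Lib.MP_7ab245_nt.Mono
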