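import Pool.Agent.Lib.MP_7ab245_nt.Mono.SmallBall

/-!
Module B of the monomial count theorem: negative moments of a Laurent sum on the circle,
smoothing of the logarithm and the height bound.
-/

set_option autoImplicit false

open Polynomial MeasureTheory Real

namespace Pool.Agent.Lib.MP_7ab245_nt.Mono

variable {ι : Type} [Fintype ι]

/-- the absolute value of the Laurent sum on the unit circle -/
noncomputable def hh (c : ι → ℂ) (e : ι → ℤ) (θ : ℝ) : ℝ := ‖ls c e (circleMap 0 1 θ)‖

lemma hh_nonneg (c : ι → ℂ) (e : ι → ℤ) (θ : ℝ) : 0 ≤ hh c e θ := norm_nonneg _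

lemma ls_continuous (c : ι → ℂ) (e : ι → ℤ) :
    Continuous (fun θ : ℝ => ls c e (circleMap 0 1 θ)) := by
  unfold ls
  refine continuous_finsetSum _ (fun j _ => ?_)
  refine continuous_const.mul ?_
  refine Continuous.zpow₀ (continuous_circleMap 0 1) (e j) (fun θ => Or.inl ?_)
  exact circleMap_ne_center one_ne_zero

lemma hh_continuous (c : ι → ℂ) (e : ι → ℤ) : Continuous (hh c e) :=
  (ls_continuous c e).norm

/-- the measure on the circle (of total mass `2π`) -/
noncomputable def mu : Measure ℝ := volume.restrict (Set.Ioc 0 (2 * π))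

instance : IsFiniteMeasure mu := by
  unfold mu
  infer_instance

lemma mu_univ : mu Set.univ = ENNReal.ofReal (2 * π) := by
  simp [mu]

lemma circleAverage_eq (f : ℂ → ℝ) :
    circleAverage f 0 1 = (2 * π)⁻¹ * ∫ θ, f (circleMap 0 1 θ) ∂mu := by
  rw [circleAverage_def, intervalIntegral.integral_of_le Real.two_pi_pos.le, smul_eq_mul]
  rfl

lemma mu_le (κ : ℕ) (hκ : 1 ≤ κ) (hcard : Fintype.card ι ≤ κ)
    (c : ι → ℂ) (e : ι → ℤ) (he : Function.Injective e) (m : ι) (hm : 1 ≤ ‖c m‖) (t : ℝ)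
    (ht : 0 < t) :
    mu {θ | hh c e θ ≤ t} ≤ ENNReal.ofReal (2 * π * (14 * κ * t ^ (1 / (κ : ℝ)))) := by
  have h := small_ball κ hκ hcard c e he m hm t ht
  have hset : {θ ∈ Set.Ioc 0 (2 * π) | ‖ls c e (circleMap 0 1 θ)‖ ≤ t} =
      {θ | hh c e θ ≤ t} ∩ Set.Ioc 0 (2 * π) := by
    ext θ
    simp [hh, and_comm]
  have hmeas : MeasurableSet {θ | hh c e θ ≤ t} :=
    measurableSet_le (hh_continuous c e).measurable measurable_const
  rw [mu, Measure.restrict_apply hmeas, ← hset]
  refine (ENNReal.ofReal_toReal ?_).symm.trans_le (ENNReal.ofReal_le_ofReal h)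
  exact ne_top_of_le_ne_top measure_Ioc_lt_top.ne (measure_mono (Set.sep_subset _ _))

lemma mu_zero (κ : ℕ) (hκ : 1 ≤ κ) (hcard : Fintype.card ι ≤ κ)
    (c : ι → ℂ) (e : ι → ℤ) (he : Function.Injective e) (m : ι) (hm : 1 ≤ ‖c m‖) :
    ∀ᵐ θ ∂mu, 0 < hh c e θ := by
  rw [ae_iff]
  have hk : (0 : ℝ) < 1 / (κ : ℝ) := by positivity
  have hle : ∀ t : ℝ, 0 < t → mu {θ | ¬ 0 < hh c e θ} ≤
      ENNReal.ofReal (2 * π * (14 * κ * t ^ (1 / (κ : ℝ)))) := by
    intro t ht
    refine (measure_mono ?_).trans (mu_le κ hκ hcard c e he m hm t ht)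
    intro θ hθ
    change ¬ 0 < hh c e θ at hθ
    exact (not_lt.mp hθ).trans ht.le
  have hlim : Filter.Tendsto (fun t : ℝ => ENNReal.ofReal (2 * π * (14 * κ * t ^ (1 / (κ : ℝ)))))
      (nhdsWithin 0 (Set.Ioi 0)) (nhds 0) := by
    have h1 : Filter.Tendsto (fun t : ℝ => 2 * π * (14 * κ * t ^ (1 / (κ : ℝ))))
        (nhdsWithin 0 (Set.Ioi 0)) (nhds 0) := by
      have h2 : Filter.Tendsto (fun t : ℝ => 2 * π * (14 * κ * t ^ (1 / (κ : ℝ))))
        (nhds 0) (nhds (2 * π * (14 * κ * (0 : ℝ) ^ (1 / (κ : ℝ))))) := by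
        refine Filter.Tendsto.const_mul _ (Filter.Tendsto.const_mul _ ?_)
        exact (Real.continuousAt_rpow_const 0 (1 / (κ : ℝ)) (Or.inr hk.le)).tendsto
      rw [Real.zero_rpow hk.ne'] at h2
      simp only [mul_zero] at h2
      exact h2.mono_left nhdsWithin_le_nhds
    simpa using ENNReal.tendsto_ofReal h1
  refine le_antisymm ?_ bot_le
  refine ge_of_tendsto hlim ?_
  filter_upwards [self_mem_nhdsWithin] with t ht
  exact hle t ht

/-- the negative moment `∫ h^{-1/(2κ)} ≤ 2π (1 + 14 κ)` -/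
lemma neg_moment (κ : ℕ) (hκ : 1 ≤ κ) (hcard : Fintype.card ι ≤ κ)
    (c : ι → ℂ) (e : ι → ℤ) (he : Function.Injective e) (m : ι) (hm : 1 ≤ ‖c m‖) :
    Integrable (fun θ => hh c e θ ^ (-(1 / (2 * κ : ℝ)))) mu ∧
      ∫ θ, hh c e θ ^ (-(1 / (2 * κ : ℝ))) ∂mu ≤ 2 * π * (1 + 14 * κ) := by
  have hκ0 : (0 : ℝ) < κ := by exact_mod_cast hκ
  set α : ℝ := 1 / (2 * κ : ℝ) with hα
  have hα0 : 0 < α := by positivity
  set y : ℝ → ℝ := fun θ => hh c e θ ^ (-α) with hy
  have hy0 : ∀ θ, 0 ≤ y θ := fun θ => Real.rpow_nonneg (hh_nonneg c e θ) _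
  have hymeas : Measurable y := (hh_continuous c e).measurable.pow_const _
  have hlayer : ∫⁻ θ, ENNReal.ofReal (y θ) ∂mu ≤ ENNReal.ofReal (2 * π * (1 + 14 * κ)) := by
    rw [lintegral_eq_lintegral_meas_lt mu (Filter.Eventually.of_forall hy0) hymeas.aemeasurable]
    have hsplit : Set.Ioi (0 : ℝ) = Set.Ioc 0 1 ∪ Set.Ioi 1 := by
      rw [Set.Ioc_union_Ioi_eq_Ioi]
      exact zero_le_one
    rw [hsplit, lintegral_union measurableSet_Ioi (by
      rw [Set.disjoint_left]; intro x hx hx'; exact absurd hx.2 (not_le.mpr hx'))]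
    have h1 : ∫⁻ t in Set.Ioc (0 : ℝ) 1, mu {a | t < y a} ≤ ENNReal.ofReal (2 * π) := by
      calc ∫⁻ t in Set.Ioc (0 : ℝ) 1, mu {a | t < y a}
          ≤ ∫⁻ _ in Set.Ioc (0 : ℝ) 1, mu Set.univ :=
            lintegral_mono (fun t => measure_mono (Set.subset_univ _))
        _ = ENNReal.ofReal (2 * π) := by
            rw [lintegral_const, mu_univ]
            simp
    have h2 : ∫⁻ t in Set.Ioi (1 : ℝ), mu {a | t < y a} ≤ ENNReal.ofReal (2 * π * (14 * κ)) := by
      have hint : IntegrableOn (fun t : ℝ => 2 * π * (14 * κ) * t ^ (-2 : ℝ)) (Set.Ioi 1) :=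
        (integrableOn_Ioi_rpow_of_lt (by norm_num) zero_lt_one).const_mul _
      calc ∫⁻ t in Set.Ioi (1 : ℝ), mu {a | t < y a}
          ≤ ∫⁻ t in Set.Ioi (1 : ℝ), ENNReal.ofReal (2 * π * (14 * κ) * t ^ (-2 : ℝ)) := by
            refine lintegral_mono_ae ?_
            filter_upwards [ae_restrict_mem measurableSet_Ioi] with t ht
            have ht1 : (1 : ℝ) < t := ht
            have ht0 : (0 : ℝ) < t := zero_lt_one.trans ht1
            have hpos : (0 : ℝ) < t ^ (-(2 * κ : ℝ)) := Real.rpow_pos_of_pos ht0 _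
            have hm' := mu_le κ hκ hcard c e he m hm _ hpos
            have hexp : (t ^ (-(2 * κ : ℝ))) ^ (1 / (κ : ℝ)) = t ^ (-2 : ℝ) := by
              rw [← Real.rpow_mul ht0.le]
              congr 1
              field_simp
            rw [hexp] at hm'
            refine (measure_mono ?_).trans (hm'.trans (ENNReal.ofReal_le_ofReal (le_of_eq (by ring))))
            intro θ hθ
            have hθ' : t < hh c e θ ^ (-α) := hθ
            change hh c e θ ≤ t ^ (-(2 * κ : ℝ))
            rcases (hh_nonneg c e θ).eq_or_lt with h0 | h0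
            · rw [← h0]; exact hpos.le
            · have h3 : t ^ (-(2 * κ : ℝ)) = (t ^ (-(1 / α))) := by
                congr 1
                rw [hα]; field_simp
              rw [h3]
              have h4 : hh c e θ = (hh c e θ ^ (-α)) ^ (-(1 / α)) := by
                rw [← Real.rpow_mul h0.le]
                have : -α * -(1 / α) = 1 := by field_simp
                rw [this, Real.rpow_one]
              rw [h4]
              exact Real.rpow_le_rpow_of_nonpos ht0 hθ'.le (by
                have : 0 < 1 / α := by positivity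
                linarith)
        _ = ENNReal.ofReal (∫ t in Set.Ioi (1 : ℝ), 2 * π * (14 * κ) * t ^ (-2 : ℝ)) := by
            rw [ofReal_integral_eq_lintegral_ofReal hint]
            filter_upwards [ae_restrict_mem measurableSet_Ioi] with t ht
            have ht0 : (0 : ℝ) < t := zero_lt_one.trans ht
            positivity
        _ = ENNReal.ofReal (2 * π * (14 * κ)) := by
            congr 1
            rw [integral_const_mul, integral_Ioi_rpow_of_lt (by norm_num) zero_lt_one]
            norm_num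
    calc _ ≤ ENNReal.ofReal (2 * π) + ENNReal.ofReal (2 * π * (14 * κ)) := add_le_add h1 h2
      _ = ENNReal.ofReal (2 * π * (1 + 14 * κ)) := by
          rw [← ENNReal.ofReal_add (by positivity) (by positivity)]
          congr 1
          ring
  have hint : Integrable y mu := by
    refine ⟨hymeas.aestronglyMeasurable, ?_⟩
    rw [hasFiniteIntegral_iff_ofReal (Filter.Eventually.of_forall hy0)]
    exact hlayer.trans_lt ENNReal.ofReal_lt_top
  refine ⟨hint, ?_⟩
  rw [integral_eq_lintegral_of_nonneg_ae (Filter.Eventually.of_forall hy0)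
    hymeas.aestronglyMeasurable]
  exact ENNReal.toReal_le_of_le_ofReal (by positivity) hlayer

end Pool.Agent.Lib.MP_7ab245_nt.Mono
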