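import Pool.Agent.Lib.MP_7ab245_nt.Mono.Smooth

/-!
Module B of the monomial count theorem, second part: `log_smooth` and `height_bound`.
-/

set_option autoImplicit false

open Polynomial MeasureTheory Real

namespace Pool.Agent.Lib.MP_7ab245_nt.Mono

variable {ι : Type} [Fintype ι]

lemma ls_meromorphic (c : ι → ℂ) (e : ι → ℤ) (U : Set ℂ) : MeromorphicOn (ls c e) U := by
  intro z _
  unfold ls
  refine MeromorphicAt.fun_sum (fun j _ => ?_)
  exact (MeromorphicAt.const (c j) z).mul ((MeromorphicAt.id z).zpow (e j))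

lemma log_circleIntegrable (c : ι → ℂ) (e : ι → ℤ) :
    CircleIntegrable (fun z => Real.log ‖ls c e z‖) 0 1 :=
  (ls_meromorphic c e _).circleIntegrable_log_norm

lemma circleIntegrable_iff (f : ℂ → ℝ) :
    CircleIntegrable f 0 1 ↔ Integrable (fun θ => f (circleMap 0 1 θ)) mu := by
  unfold CircleIntegrable mu
  rw [intervalIntegrable_iff_integrableOn_Ioc_of_le Real.two_pi_pos.le]
  rfl

lemma log_integrable (c : ι → ℂ) (e : ι → ℤ) :
    Integrable (fun θ => Real.log (hh c e θ)) mu :=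
  (circleIntegrable_iff _).mp (log_circleIntegrable c e)

lemma sq_continuous (c : ι → ℂ) (e : ι → ℤ) (ε : ℝ) (hε : 0 < ε) :
    Continuous (fun θ => Real.log (hh c e θ ^ 2 + ε ^ 2) / 2) := by
  refine Continuous.div_const ?_ 2
  refine Continuous.log (((hh_continuous c e).pow 2).add continuous_const) ?_
  intro θ
  positivity

lemma cont_integrable (f : ℝ → ℝ) (hf : Continuous f) : Integrable f mu := by
  unfold mu
  exact (hf.continuousOn.integrableOn_Icc).mono_set Set.Ioc_subset_Icc_self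

/-- pointwise estimate behind `log_smooth` -/
lemma log_pointwise (h ε α : ℝ) (hh : 0 < h) (hε : 0 < ε) (hα : 0 < α) (hα1 : α ≤ 1) :
    Real.log (h ^ 2 + ε ^ 2) / 2 ≤ Real.log h + (1 / α) * ε ^ α * h ^ (-α) := by
  have h1 : Real.log (h ^ 2 + ε ^ 2) / 2 ≤ Real.log (h + ε) := by
    have : Real.log (h ^ 2 + ε ^ 2) ≤ Real.log ((h + ε) ^ 2) :=
      Real.log_le_log (by positivity) (by nlinarith)
    rw [Real.log_pow] at this
    push_cast at this
    linarith
  have h2 : Real.log (h + ε) = Real.log h + Real.log (1 + ε / h) := by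
    rw [← Real.log_mul hh.ne' (by positivity)]
    congr 1
    field_simp
  have hx : 0 < ε / h := by positivity
  have h3 : Real.log (1 + ε / h) ≤ (1 / α) * (ε / h) ^ α := by
    have h4 : (1 + ε / h) ^ α ≤ 1 + (ε / h) ^ α := by
      have := Real.rpow_add_le_add_rpow (p := α) zero_le_one hx.le hα.le hα1
      simpa using this
    have h5 : α * Real.log (1 + ε / h) ≤ (ε / h) ^ α := by
      rw [← Real.log_rpow (by positivity)]
      calc Real.log ((1 + ε / h) ^ α) ≤ (1 + ε / h) ^ α - 1 :=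
            Real.log_le_sub_one_of_pos (by positivity)
        _ ≤ (ε / h) ^ α := by linarith
    rw [one_div, inv_mul_eq_div, le_div_iff₀ hα]
    linarith
  have h6 : (ε / h) ^ α = ε ^ α * h ^ (-α) := by
    rw [Real.div_rpow hε.le hh.le, Real.rpow_neg hh.le, div_eq_mul_inv]
  rw [h6] at h3
  calc _ ≤ Real.log h + Real.log (1 + ε / h) := by rw [← h2]; exact h1
    _ ≤ _ := by linarith

/-- Module B1: smoothing the logarithm. -/
theorem log_smooth (κ : ℕ) (hκ : 1 ≤ κ) (hcard : Fintype.card ι ≤ κ)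
    (c : ι → ℂ) (e : ι → ℤ) (he : Function.Injective e) (m : ι) (hm : 1 ≤ ‖c m‖) (ε : ℝ)
    (hε : 0 < ε) :
    circleAverage (fun z => Real.log (‖ls c e z‖ ^ 2 + ε ^ 2) / 2) 0 1 ≤
      circleAverage (fun z => Real.log ‖ls c e z‖) 0 1 + 30 * κ ^ 2 * ε ^ (1 / (2 * κ : ℝ)) := by
  have hκ0 : (1 : ℝ) ≤ κ := by exact_mod_cast hκ
  set α : ℝ := 1 / (2 * κ : ℝ) with hα
  have hα0 : 0 < α := by positivity
  have hα1 : α ≤ 1 := by
    rw [hα, div_le_one (by positivity)]
    linarith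
  obtain ⟨hint, hle⟩ := neg_moment κ hκ hcard c e he m hm
  rw [← hα] at hint hle
  have hz := mu_zero κ hκ hcard c e he m hm
  have key : ∫ θ, Real.log (hh c e θ ^ 2 + ε ^ 2) / 2 ∂mu ≤
      ∫ θ, (Real.log (hh c e θ) + (1 / α) * ε ^ α * hh c e θ ^ (-α)) ∂mu := by
    refine integral_mono_ae (cont_integrable _ (sq_continuous c e ε hε)) ?_ ?_
    · exact (log_integrable c e).add (hint.const_mul _)
    · filter_upwards [hz] with θ hθ
      exact log_pointwise _ _ _ hθ hε hα0 hα1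
  rw [integral_add (log_integrable c e) (hint.const_mul _), integral_const_mul] at key
  rw [circleAverage_eq, circleAverage_eq]
  have hεα : 0 < ε ^ α := Real.rpow_pos_of_pos hε _
  have hfin : (1 / α) * ε ^ α * ∫ θ, hh c e θ ^ (-α) ∂mu ≤
      2 * π * (30 * κ ^ 2 * ε ^ α) := by
    have h1 : 1 / α = 2 * κ := by rw [hα]; field_simp
    rw [h1]
    calc 2 * κ * ε ^ α * ∫ θ, hh c e θ ^ (-α) ∂mu ≤
        2 * κ * ε ^ α * (2 * π * (1 + 14 * κ)) := by
          exact mul_le_mul_of_nonneg_left hle (by positivity)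
      _ = 2 * π * ((2 * κ + 28 * κ ^ 2) * ε ^ α) := by ring
      _ ≤ 2 * π * ((30 * κ ^ 2) * ε ^ α) := by
          have : (2 * κ + 28 * κ ^ 2 : ℝ) ≤ 30 * κ ^ 2 := by nlinarith
          gcongr
  have htot : ∫ θ, Real.log (hh c e θ ^ 2 + ε ^ 2) / 2 ∂mu ≤
      ∫ θ, Real.log (hh c e θ) ∂mu + 2 * π * (30 * κ ^ 2 * ε ^ α) := key.trans (by linarith)
  calc (2 * π)⁻¹ * ∫ θ, Real.log (hh c e θ ^ 2 + ε ^ 2) / 2 ∂mu
      ≤ (2 * π)⁻¹ * (∫ θ, Real.log (hh c e θ) ∂mu + 2 * π * (30 * κ ^ 2 * ε ^ α)) :=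
        mul_le_mul_of_nonneg_left htot (by positivity)
    _ = (2 * π)⁻¹ * (∫ θ, Real.log (hh c e θ) ∂mu) + 30 * κ ^ 2 * ε ^ α := by
        rw [mul_add, ← mul_assoc (2 * π)⁻¹ (2 * π), inv_mul_cancel₀ (by positivity), one_mul]

lemma circleAverage_mono_ae (f g : ℂ → ℝ) (hf : CircleIntegrable f 0 1)
    (hg : CircleIntegrable g 0 1)
    (h : ∀ᵐ θ ∂mu, f (circleMap 0 1 θ) ≤ g (circleMap 0 1 θ)) :
    circleAverage f 0 1 ≤ circleAverage g 0 1 := by
  rw [circleAverage_eq, circleAverage_eq]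
  exact mul_le_mul_of_nonneg_left
    (integral_mono_ae ((circleIntegrable_iff f).mp hf) ((circleIntegrable_iff g).mp hg) h)
    (by positivity)

/-- Module B2: height bound. -/
theorem height_bound (κ : ℕ) (hκ : 1 ≤ κ) (hcard : Fintype.card ι ≤ κ)
    (c : ι → ℂ) (e : ι → ℤ) (he : Function.Injective e) (m : ι) (hm : c m ≠ 0) :
    Real.log ‖c m‖ ≤
      circleAverage (fun z => Real.log ‖ls c e z‖) 0 1 + 2 * κ * Real.log (15 * κ) := by
  have hκ0 : (1 : ℝ) ≤ κ := by exact_mod_cast hκ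
  set r : ℝ := ‖c m‖ with hr
  have hr0 : 0 < r := norm_pos_iff.mpr hm
  set c' : ι → ℂ := fun j => c j / r with hc'
  have hcm' : 1 ≤ ‖c' m‖ := by
    simp only [hc', norm_div, Complex.norm_real, Real.norm_eq_abs, abs_of_pos hr0]
    rw [← hr, div_self hr0.ne']
  have hls : ∀ z, ls c' e z = ls c e z / r := by
    intro z
    simp only [ls, hc', Finset.sum_div]
    exact Finset.sum_congr rfl (fun j _ => by ring)
  have hhh : ∀ θ, hh c' e θ = hh c e θ / r := by
    intro θ
    simp only [hh, hls, norm_div, Complex.norm_real, Real.norm_eq_abs, abs_of_pos hr0]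
  set α : ℝ := 1 / (2 * κ : ℝ) with hα
  have hα0 : 0 < α := by positivity
  obtain ⟨hint, hle⟩ := neg_moment κ hκ hcard c' e he m hcm'
  rw [← hα] at hint hle
  have hz := mu_zero κ hκ hcard c' e he m hcm'
  set C : ℝ := 15 * κ with hC
  have hC1 : 1 + 14 * κ ≤ C := by rw [hC]; linarith
  have hC0 : 0 < C := by positivity
  have key : ∫ θ, (-α) * (Real.log (hh c e θ) - Real.log r) ∂mu ≤
      ∫ θ, (hh c' e θ ^ (-α) / C + (Real.log C - 1)) ∂mu := by
    refine integral_mono_ae (((log_integrable c e).sub (integrable_const _)).const_mul _) ?_ ?_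
    · exact (hint.div_const _).add (integrable_const _)
    · filter_upwards [hz] with θ hθ
      have hθ2 : 0 < hh c e θ := by
        rw [hhh] at hθ
        exact (div_pos_iff_of_pos_right hr0).mp hθ
      have e1 : Real.log (hh c e θ) - Real.log r = Real.log (hh c' e θ) := by
        rw [hhh, Real.log_div hθ2.ne' hr0.ne']
      rw [e1, ← Real.log_rpow hθ]
      have hy : 0 < hh c' e θ ^ (-α) := Real.rpow_pos_of_pos hθ _
      have := Real.log_le_sub_one_of_pos (x := hh c' e θ ^ (-α) / C) (by positivity)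
      rw [Real.log_div hy.ne' hC0.ne'] at this
      linarith
  rw [integral_const_mul, integral_sub (log_integrable c e) (integrable_const _),
    integral_add (hint.div_const _) (integrable_const _), integral_div, integral_const,
    integral_const] at key
  have hmr : mu.real Set.univ = 2 * π := by
    rw [Measure.real, mu_univ, ENNReal.toReal_ofReal (by positivity)]
  rw [hmr, smul_eq_mul, smul_eq_mul] at key
  have hb : (∫ θ, hh c' e θ ^ (-α) ∂mu) / C ≤ 2 * π := by
    rw [div_le_iff₀ hC0]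
    calc _ ≤ 2 * π * (1 + 14 * κ) := hle
      _ ≤ 2 * π * C := by gcongr
  have key2 : -α * (∫ θ, Real.log (hh c e θ) ∂mu - 2 * π * Real.log r) ≤
      2 * π * Real.log C := by
    calc _ ≤ _ := key
      _ ≤ 2 * π + 2 * π * (Real.log C - 1) := by linarith
      _ = _ := by ring
  rw [circleAverage_eq]
  change Real.log r ≤ (2 * π)⁻¹ * ∫ θ, Real.log (hh c e θ) ∂mu + 2 * κ * Real.log C
  set I := ∫ θ, Real.log (hh c e θ) ∂mu with hI
  have hα2 : α * (2 * κ) = 1 := by rw [hα]; field_simp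
  have hpi : (2 * π)⁻¹ * (2 * π) = 1 := inv_mul_cancel₀ (by positivity)
  have hfin : (2 * κ) * ((2 * π)⁻¹ * (-α * (I - 2 * π * Real.log r))) ≤
      (2 * κ) * ((2 * π)⁻¹ * (2 * π * Real.log C)) := by gcongr
  have e2 : (2 * κ) * ((2 * π)⁻¹ * (-α * (I - 2 * π * Real.log r))) =
      Real.log r - (2 * π)⁻¹ * I := by
    calc (2 * κ) * ((2 * π)⁻¹ * (-α * (I - 2 * π * Real.log r)))
        = (α * (2 * κ)) * (((2 * π)⁻¹ * (2 * π)) * Real.log r - (2 * π)⁻¹ * I) := by ring
      _ = _ := by rw [hα2, hpi]; ring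
  have e3 : (2 * κ) * ((2 * π)⁻¹ * (2 * π * Real.log C)) = 2 * κ * Real.log C := by
    calc (2 * κ) * ((2 * π)⁻¹ * (2 * π * Real.log C))
        = 2 * κ * (((2 * π)⁻¹ * (2 * π)) * Real.log C) := by ring
      _ = _ := by rw [hpi, one_mul]
  rw [e2, e3] at hfin
  linarith

end Pool.Agent.Lib.MP_7ab245_nt.Mono
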